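import Pool.Agent.Work.MP_8bb7de_al.P2.Rat

set_option autoImplicit false
set_option linter.unusedSectionVars false
set_option linter.unusedVariables false

/-!
Admissible functionals and the blocks of a quadratic map.
-/

namespace Pool.Agent.Work.MP_8bb7de_al.P2

variable {ι κ : Type*} [Fintype ι] [DecidableEq ι] [Fintype κ] [DecidableEq κ]

lemma vadd_self {α K : Type*} [CommRing K] [CharP K 2] (x : α → K) : x + x = 0 := by
  ext i
  exact CharTwo.add_self_eq_zero _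

lemma vneg_eq {α K : Type*} [CommRing K] [CharP K 2] (x : α → K) : -x = x := by
  ext i
  exact CharTwo.neg_eq _

variable (B : κ → ι → ι → ZMod 2)

/-- The vectors `k` such that `b(·, k)` takes values in `{0, w}`. -/
def Rw (w : κ → ZMod 2) : AddSubgroup (ι → ZMod 2) where
  carrier := {k | ∀ v, bF B (ZMod 2) v k = 0 ∨ bF B (ZMod 2) v k = w}
  zero_mem' := fun v => Or.inl (by simp)
  add_mem' := by
    intro k k' hk hk' v
    rw [map_add]
    rcases hk v with h | h <;> rcases hk' v with h' | h'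
    · left; rw [h, h', add_zero]
    · right; rw [h, h', zero_add]
    · right; rw [h, h', add_zero]
    · left; rw [h, h']; exact vadd_self w
  neg_mem' := by
    intro k hk v
    rw [vneg_eq]
    exact hk v

/-- The radical. -/
def Rad : AddSubgroup (ι → ZMod 2) where
  carrier := {k | ∀ v, bF B (ZMod 2) v k = 0}
  zero_mem' := fun v => by simp
  add_mem' := by
    intro k k' hk hk' v
    rw [map_add, hk v, hk' v, add_zero]
  neg_mem' := by
    intro k hk v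
    rw [vneg_eq]
    exact hk v

variable (F : Type*) [Field F]

/-- Admissible functionals. -/
def Adm (k : ι → ZMod 2) (ξ : (ι → F) →ₗ[F] F) : Prop :=
  (∀ l, InU B (fun x => ξ x * lam B F l k x)) ∧
    (ξ ≠ 0 → ∀ v v', bF B (ZMod 2) v k ≠ 0 → bF B (ZMod 2) v' k ≠ 0 →
      bF B (ZMod 2) v k = bF B (ZMod 2) v' k)

/-- Active vectors. -/
def Act (k : ι → ZMod 2) : Prop := ∃ ξ, ξ ≠ 0 ∧ Adm B F k ξ

/-- Bad values. -/
def Bad (w : κ → ZMod 2) : Prop := w ≠ 0 ∧ ∃ k ∈ Rw B w, ∃ l ∈ Rw B w, bF B (ZMod 2) k l = w ∧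
  Act B F k ∧ Act B F l

/-- Bad values of type A. -/
def TypeA (w : κ → ZMod 2) : Prop := Bad B F w ∧ ∀ k ∈ Rw B w,
  (∃ l ∈ Rw B w, bF B (ZMod 2) k l ≠ 0) → ∀ ξ, Adm B F k ξ → ∀ x, bF B F x (emb F k) = 0 → ξ x = 0

/-- Stable subgroups. -/
def Stable (V' : AddSubgroup (ι → ZMod 2)) : Prop :=
  ∀ k, k ∉ V' → ∀ ξ, Adm B F k ξ → ∀ v ∈ V', ξ (emb F v) = 0

variable {B F}

lemma mem_Rw {w : κ → ZMod 2} {k : ι → ZMod 2} :
    k ∈ Rw B w ↔ ∀ v, bF B (ZMod 2) v k = 0 ∨ bF B (ZMod 2) v k = w := Iff.rfl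

lemma mem_Rad {k : ι → ZMod 2} : k ∈ Rad B ↔ ∀ v, bF B (ZMod 2) v k = 0 := Iff.rfl

lemma Rad_le_Rw (w : κ → ZMod 2) : Rad B ≤ Rw B w := fun _ hk v => Or.inl (hk v)

lemma Rw_eq {w : κ → ZMod 2} {k v : ι → ZMod 2} (hk : k ∈ Rw B w)
    (h : bF B (ZMod 2) v k ≠ 0) : bF B (ZMod 2) v k = w := (hk v).resolve_left h

lemma Rw_eq' {w : κ → ZMod 2} {k v : ι → ZMod 2} (hk : k ∈ Rw B w)
    (h : bF B (ZMod 2) k v ≠ 0) : bF B (ZMod 2) k v = w := by
  rw [bF_comm] at h ⊢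
  exact Rw_eq hk h

lemma exists_l0 {w : κ → ZMod 2} (hw : w ≠ 0) : ∃ l0, w l0 = 1 := by
  obtain ⟨l0, hl⟩ := Function.ne_iff.1 hw
  refine ⟨l0, ?_⟩
  rcases zmod2_cases (w l0) with h | h
  · exact absurd h hl
  · exact h

variable [CharP F 2]

lemma lam_of_Rw {w : κ → ZMod 2} {l0 : κ} (hl : w l0 = 1) {k : ι → ZMod 2} (hk : k ∈ Rw B w)
    (l : κ) : lam B F l k = c2 F (w l) • lam B F l0 k := by
  apply ext_lattice
  intro v
  rw [LinearMap.smul_apply, lam_emb, lam_emb]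
  rcases hk v with h | h
  · rw [h]; simp
  · rw [h, hl, c2_one, smul_eq_mul, mul_one]

lemma bF_of_Rw {w : κ → ZMod 2} {l0 : κ} (hl : w l0 = 1) {k : ι → ZMod 2} (hk : k ∈ Rw B w)
    (x : ι → F) : bF B F x (emb F k) = lam B F l0 k x • emb F w := by
  ext l
  have := LinearMap.congr_fun (lam_of_Rw (F := F) hl hk l) x
  rw [lam_apply] at this
  rw [this, LinearMap.smul_apply, Pi.smul_apply, smul_eq_mul, smul_eq_mul, mul_comm]
  rfl

lemma InU.polar {ξ ζ : (ι → F) →ₗ[F] F} (h : InU B (fun x => ξ x * ζ x)) :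
    ∃ φ : κ → F, ∀ x y, ξ x * ζ y + ξ y * ζ x = ∑ l, φ l * bF B F x y l := by
  obtain ⟨φ, hφ⟩ := h
  refine ⟨φ, ?_⟩
  intro x y
  have h1 := hφ (x + y)
  have h2 := hφ x
  have h3 := hφ y
  simp only [qF_add, Pi.add_apply, mul_add, Finset.sum_add_distrib, map_add, add_mul] at h1 h2 h3
  linear_combination h1 - h2 - h3

lemma sum_phi {w : κ → ZMod 2} {l0 : κ} (hl : w l0 = 1) {k : ι → ZMod 2} (hk : k ∈ Rw B w)
    (φ : κ → F) (x : ι → F) :
    ∑ l, φ l * bF B F x (emb F k) l = lam B F l0 k x * ∑ l, φ l * c2 F (w l) := by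
  rw [bF_of_Rw hl hk, Finset.mul_sum]
  apply Finset.sum_congr rfl
  intro l _
  rw [Pi.smul_apply, emb_apply, smul_eq_mul]
  ring

lemma InU_lam_of {w : κ → ZMod 2} {l0 : κ} (hl : w l0 = 1) {k : ι → ZMod 2} (hk : k ∈ Rw B w)
    {ξ : (ι → F) →ₗ[F] F} (h : InU B (fun x => ξ x * lam B F l0 k x)) (l : κ) :
    InU B (fun x => ξ x * lam B F l k x) := by
  refine InU.congr (InU.smul (c2 F (w l)) h) ?_
  intro x
  rw [lam_of_Rw hl hk l, LinearMap.smul_apply, smul_eq_mul]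
  ring

/-- The first structural lemma. -/
lemma L1 {w : κ → ZMod 2} {l0 : κ} (hl : w l0 = 1) {k k' : ι → ZMod 2} (hk : k ∈ Rw B w)
    (hk' : k' ∈ Rw B w) (hkk : bF B (ZMod 2) k k' = w) {ξ : (ι → F) →ₗ[F] F}
    (h : InU B (fun x => ξ x * lam B F l0 k x)) :
    (∀ x, ξ x = ξ (emb F k') * lam B F l0 k x + ξ (emb F k) * lam B F l0 k' x) ∧
      ∃ φ : κ → F, (∀ x y, ξ x * lam B F l0 k y + ξ y * lam B F l0 k x =
        ∑ l, φ l * bF B F x y l) ∧ ∑ l, φ l * c2 F (w l) = ξ (emb F k) := by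
  obtain ⟨φ, hφ⟩ := h.polar
  have e1 : lam B F l0 k (emb F k') = 1 := by
    rw [lam_emb, bF_comm, hkk, hl, c2_one]
  have e2 : lam B F l0 k' (emb F k) = 1 := by
    rw [lam_emb, hkk, hl, c2_one]
  have e3 : lam B F l0 k (emb F k) = 0 := by
    rw [lam_emb, bF_self]
    simp
  have h1 : ∀ x, ξ x * lam B F l0 k (emb F k') + ξ (emb F k') * lam B F l0 k x =
      lam B F l0 k' x * ∑ l, φ l * c2 F (w l) := by
    intro x
    rw [hφ x (emb F k'), sum_phi hl hk' φ x]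
  have h2 := h1 (emb F k)
  rw [e1, e2, e3] at h2
  have h3 : ∑ l, φ l * c2 F (w l) = ξ (emb F k) := by linear_combination -h2
  refine ⟨?_, φ, hφ, h3⟩
  intro x
  have h4 := h1 x
  rw [h3, e1] at h4
  have h5 := CharTwo.add_self_eq_zero (ξ (emb F k') * lam B F l0 k x)
  linear_combination h4 - h5

lemma not_rad {k : ι → ZMod 2} (hk : k ∉ Rad B) : ∃ v l, bF B (ZMod 2) v k l = 1 := by
  rw [mem_Rad] at hk
  push Not at hk
  obtain ⟨v, hv⟩ := hk
  obtain ⟨l, hl⟩ := exists_l0 hv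
  exact ⟨v, l, hl⟩

/-- The functionals at a nonradical vector orthogonal to a hyperbolic pair vanish on the pair. -/
lemma L3 {w : κ → ZMod 2} (hw : w ≠ 0) {e f k : ι → ZMod 2} (he : e ∈ Rw B w)
    (hef : bF B (ZMod 2) e f = w) (hk : k ∉ Rad B) (hke : bF B (ZMod 2) e k = 0)
    (hkf : bF B (ZMod 2) f k = 0) {ξ : (ι → F) →ₗ[F] F} (h : Adm B F k ξ) : ξ (emb F e) = 0 := by
  obtain ⟨l0, hl0⟩ := exists_l0 hw
  obtain ⟨v, l, hv⟩ := not_rad hk
  obtain ⟨φ, hφ⟩ := (h.1 l).polar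
  have e1 : lam B F l k (emb F e) = 0 := by
    rw [lam_emb, hke]; simp
  have e2 : lam B F l k (emb F f) = 0 := by
    rw [lam_emb, hkf]; simp
  have e3 : lam B F l k (emb F v) = 1 := by
    rw [lam_emb, hv, c2_one]
  have h1 := hφ (emb F f) (emb F e)
  rw [sum_phi hl0 he, e1, e2] at h1
  have e4 : lam B F l0 e (emb F f) = 1 := by
    rw [lam_emb, bF_comm, hef, hl0, c2_one]
  rw [e4] at h1
  have h2 := hφ (emb F v) (emb F e)
  rw [sum_phi hl0 he, e1, e3] at h2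
  linear_combination h2 - lam B F l0 e (emb F v) * h1

lemma L4 {k r : ι → ZMod 2} (hk : k ∉ Rad B) (hr : r ∈ Rad B) {ξ : (ι → F) →ₗ[F] F}
    (h : Adm B F k ξ) : ξ (emb F r) = 0 := by
  obtain ⟨v, l, hv⟩ := not_rad hk
  obtain ⟨φ, hφ⟩ := (h.1 l).polar
  have e1 : lam B F l k (emb F r) = 0 := by
    rw [lam_emb, bF_comm, hr k]; simp
  have e3 : lam B F l k (emb F v) = 1 := by
    rw [lam_emb, hv, c2_one]
  have h2 := hφ (emb F v) (emb F r)
  rw [bF_emb, hr v, e1, e3] at h2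
  simp only [emb_zero, Pi.zero_apply, mul_zero, Finset.sum_const_zero] at h2
  linear_combination h2

lemma L5 {w : κ → ZMod 2} {e k : ι → ZMod 2} (he : e ∈ Rw B w) (hke : bF B (ZMod 2) e k ≠ 0)
    {ξ : (ι → F) →ₗ[F] F} (hξ : ξ ≠ 0) (h : Adm B F k ξ) : k ∈ Rw B w := by
  intro v
  by_cases hv : bF B (ZMod 2) v k = 0
  · exact Or.inl hv
  · right
    rw [h.2 hξ v e hv hke]
    exact Rw_eq' he hke

/-- The nonradical part of type A blocks. -/
def Pw (B : κ → ι → ι → ZMod 2) (F : Type*) [Field F] [CharP F 2] (w : κ → ZMod 2) :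
    AddSubgroup (ι → ZMod 2) where
  carrier := {k | k ∈ Rw B w ∧ ∀ l, InY B (lam B F l k)}
  zero_mem' := ⟨(Rw B w).zero_mem, fun l => by rw [lam_zero]; exact InY.zero⟩
  add_mem' := by
    rintro k k' ⟨h1, h2⟩ ⟨h1', h2'⟩
    refine ⟨(Rw B w).add_mem h1 h1', fun l => ?_⟩
    rw [lam_add]
    exact (h2 l).add (h2' l)
  neg_mem' := by
    rintro k ⟨h1, h2⟩
    rw [vneg_eq]
    exact ⟨h1, h2⟩

lemma mem_Pw {w : κ → ZMod 2} {k : ι → ZMod 2} :
    k ∈ Pw B F w ↔ k ∈ Rw B w ∧ ∀ l, InY B (lam B F l k) := Iff.rfl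

lemma Pw_le_Rw (w : κ → ZMod 2) : Pw B F w ≤ Rw B w := fun _ h => h.1

lemma Rad_le_Pw (w : κ → ZMod 2) : Rad B ≤ Pw B F w := by
  intro k hk
  refine ⟨Rad_le_Rw w hk, fun l => ?_⟩
  have : lam B F l k = 0 := by
    apply ext_lattice
    intro v
    rw [lam_emb, hk v]
    simp
  rw [this]
  exact InY.zero

/-- In type A, the admissible functionals at a nonradical vector of the block are multiples. -/
lemma TypeA.smul {w : κ → ZMod 2} (hA : TypeA B F w) {k : ι → ZMod 2} (hk : k ∈ Rw B w)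
    (hk' : ∃ l ∈ Rw B w, bF B (ZMod 2) k l ≠ 0) {ξ : (ι → F) →ₗ[F] F} (h : Adm B F k ξ)
    {l0 : κ} (hl : w l0 = 1) : ∃ s : F, ξ = s • lam B F l0 k := by
  obtain ⟨l, hl1, hl2⟩ := hk'
  have h1 : bF B (ZMod 2) l k = w := by
    rw [bF_comm] at hl2
    exact Rw_eq hk hl2
  refine ⟨ξ (emb F l), ?_⟩
  ext x
  simp only [LinearMap.comp_apply, LinearMap.smul_apply, smul_eq_mul]
  generalize (LinearMap.single F (fun _ => F) x) 1 = y
  have h2 : ξ (y + lam B F l0 k y • emb F l) = 0 := by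
    apply hA.2 k hk ⟨l, hl1, hl2⟩ ξ h
    rw [map_add, LinearMap.add_apply, bF_of_Rw hl hk, map_smul, LinearMap.smul_apply,
      bF_of_Rw hl hk, lam_emb, h1, hl, c2_one, one_smul]
    exact vadd_self _
  rw [map_add, map_smul, smul_eq_mul] at h2
  have := CharTwo.add_eq_zero.1 h2
  rw [this, mul_comm]

lemma TypeA.mem_Pw {w : κ → ZMod 2} (hA : TypeA B F w) {k : ι → ZMod 2} (hk : k ∈ Rw B w)
    (hk' : ∃ l ∈ Rw B w, bF B (ZMod 2) k l ≠ 0) {ξ : (ι → F) →ₗ[F] F} (h : Adm B F k ξ)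
    (hξ : ξ ≠ 0) : k ∈ Pw B F w := by
  obtain ⟨l0, hl0⟩ := exists_l0 hA.1.1
  obtain ⟨s, hs⟩ := hA.smul hk hk' h hl0
  have hs0 : s ≠ 0 := by
    rintro rfl
    rw [zero_smul] at hs
    exact hξ hs
  have h1 : InY B (lam B F l0 k) := by
    refine InU.congr (InU.smul s⁻¹ (h.1 l0)) ?_
    intro x
    rw [hs, LinearMap.smul_apply, smul_eq_mul]
    field_simp
  refine ⟨hk, fun l => ?_⟩
  rw [lam_of_Rw hl0 hk l]
  exact h1.smul _

lemma TypeA.exists_pair {w : κ → ZMod 2} (hA : TypeA B F w) :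
    ∃ e ∈ Pw B F w, ∃ f ∈ Pw B F w, bF B (ZMod 2) e f = w := by
  obtain ⟨hw, k, hk, l, hl, hkl, ⟨ξ, hξ, hξ'⟩, ⟨ζ, hζ, hζ'⟩⟩ := hA.1
  refine ⟨k, hA.mem_Pw hk ⟨l, hl, ?_⟩ hξ' hξ, l, hA.mem_Pw hl ⟨k, hk, ?_⟩ hζ' hζ, hkl⟩
  · rw [hkl]; exact hw
  · rw [bF_comm, hkl]; exact hw

/-- The orthogonal of a subgroup. -/
def orth (B : κ → ι → ι → ZMod 2) (P : AddSubgroup (ι → ZMod 2)) : AddSubgroup (ι → ZMod 2) where
  carrier := {v | ∀ p ∈ P, bF B (ZMod 2) v p = 0}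
  zero_mem' := fun p _ => by simp
  add_mem' := by
    intro v v' h h' p hp
    rw [map_add, LinearMap.add_apply, h p hp, h' p hp, add_zero]
  neg_mem' := by
    intro v h
    rw [vneg_eq]
    exact h

lemma mem_orth {P : AddSubgroup (ι → ZMod 2)} {v : ι → ZMod 2} :
    v ∈ orth B P ↔ ∀ p ∈ P, bF B (ZMod 2) v p = 0 := Iff.rfl

lemma TypeA.orth_case {w : κ → ZMod 2} (hA : TypeA B F w) {k : ι → ZMod 2}
    (hk : k ∉ orth B (Pw B F w)) {ξ : (ι → F) →ₗ[F] F} (hξ : ξ ≠ 0) (h : Adm B F k ξ) :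
    k ∈ Pw B F w ∧ ∀ l0, w l0 = 1 → ∃ s : F, ξ = s • lam B F l0 k := by
  rw [mem_orth] at hk
  push Not at hk
  obtain ⟨p, hp, hkp⟩ := hk
  have hkR : k ∈ Rw B w := L5 hp.1 (by rw [bF_comm]; exact hkp) hξ h
  have hex : ∃ l ∈ Rw B w, bF B (ZMod 2) k l ≠ 0 := ⟨p, hp.1, hkp⟩
  exact ⟨hA.mem_Pw hkR hex h hξ, fun l0 hl0 => hA.smul hkR hex h hl0⟩

lemma TypeA.stable_orth {w : κ → ZMod 2} (hA : TypeA B F w) : Stable B F (orth B (Pw B F w)) := by
  intro k hk ξ h v hv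
  by_cases hξ : ξ = 0
  · rw [hξ]; rfl
  · obtain ⟨l0, hl0⟩ := exists_l0 hA.1.1
    obtain ⟨h1, h2⟩ := hA.orth_case hk hξ h
    obtain ⟨s, hs⟩ := h2 l0 hl0
    rw [hs, LinearMap.smul_apply, lam_emb, hv k h1]
    simp

lemma TypeA.stable_Pw {w : κ → ZMod 2} (hA : TypeA B F w) : Stable B F (Pw B F w) := by
  intro k hk ξ h v hv
  by_cases hξ : ξ = 0
  · rw [hξ]; rfl
  · have hko : k ∈ orth B (Pw B F w) := by
      by_contra hko
      exact hk (hA.orth_case hko hξ h).1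
    have hkr : k ∉ Rad B := fun hr => hk (Rad_le_Pw w hr)
    obtain ⟨e, he, f, hf, hef⟩ := hA.exists_pair
    have hw := hA.1.1
    have hperp : ∀ p ∈ Pw B F w, bF B (ZMod 2) p k = 0 := fun p hp => by
      rw [bF_comm]; exact hko p hp
    have key : ∀ p ∈ Pw B F w, ∀ p' ∈ Pw B F w, bF B (ZMod 2) p p' = w → ξ (emb F p) = 0 := by
      intro p hp p' hp' hpp
      exact L3 hw hp.1 hpp hkr (hperp p hp) (hperp p' hp') h
    by_cases h1 : bF B (ZMod 2) v e = 0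
    · by_cases h2 : bF B (ZMod 2) v f = 0
      · have h3 : ξ (emb F (v + e)) = 0 := by
          apply key _ ((Pw B F w).add_mem hv he) f hf
          rw [map_add, LinearMap.add_apply, h2, zero_add, hef]
        have h4 := key e he f hf hef
        rw [emb_add, map_add, h4, add_zero] at h3
        exact h3
      · exact key v hv f hf (Rw_eq hf.1 h2)
    · exact key v hv e he (Rw_eq he.1 h1)

/-- Inertness of type A values. -/
lemma TypeA.inert {w : κ → ZMod 2} (hA : TypeA B F w) {e f : ι → ZMod 2} (he : e ∈ Pw B F w)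
    (hf : f ∈ Pw B F w) {k : ι → ZMod 2} {ξ : (ι → F) →ₗ[F] F} (h : Adm B F k ξ) (l : κ) :
    lam B F l k (emb F e) * ξ (emb F f) + lam B F l k (emb F f) * ξ (emb F e) = 0 := by
  by_cases hξ : ξ = 0
  · rw [hξ]; simp
  · by_cases hko : k ∈ orth B (Pw B F w)
    · rw [lam_emb, lam_emb, bF_comm, hko e he, bF_comm, hko f hf]
      simp
    · obtain ⟨l0, hl0⟩ := exists_l0 hA.1.1
      obtain ⟨h1, h2⟩ := hA.orth_case hko hξ h
      obtain ⟨s, hs⟩ := h2 l0 hl0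
      rw [lam_of_Rw hl0 h1.1 l, hs]
      simp only [LinearMap.smul_apply, smul_eq_mul]
      have := CharTwo.add_self_eq_zero (c2 F (w l) * (lam B F l0 k) (emb F e) *
        (s * (lam B F l0 k) (emb F f)))
      linear_combination this

/-- Structure of type B blocks. -/
lemma TypeB.exists_pair {w : κ → ZMod 2} (hb : Bad B F w) (hA : ¬ TypeA B F w) :
    ∃ e ∈ Rw B w, ∃ f ∈ Rw B w, bF B (ZMod 2) e f = w ∧
      (∀ k ∈ Rw B w, bF B (ZMod 2) k e = 0 → bF B (ZMod 2) k f = 0 → k ∈ Rad B) ∧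
      ∀ l0, w l0 = 1 → InU B (fun x => lam B F l0 e x * lam B F l0 f x) := by
  have h1 : ∃ k ∈ Rw B w, (∃ l ∈ Rw B w, bF B (ZMod 2) k l ≠ 0) ∧ ∃ ξ, Adm B F k ξ ∧
      ∃ x, bF B F x (emb F k) = 0 ∧ ξ x ≠ 0 := by
    by_contra hno
    push Not at hno
    exact hA ⟨hb, fun k hk hl ξ hξ x hx => hno k hk hl ξ hξ x hx⟩
  obtain ⟨k, hk, ⟨l, hl, hkl⟩, ξ, hξ, x, hx, hξx⟩ := h1
  have hw := hb.1
  have hkl' : bF B (ZMod 2) k l = w := Rw_eq hl hkl
  obtain ⟨l0, hl0⟩ := exists_l0 hw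
  obtain ⟨h2, φ, hφ, hφw⟩ := L1 hl0 hk hl hkl' (hξ.1 l0)
  have hξk : ξ (emb F k) ≠ 0 := by
    intro h0
    apply hξx
    rw [h2 x, h0, lam_apply, hx]
    simp
  have hrad : ∀ y ∈ Rw B w, bF B (ZMod 2) y k = 0 → bF B (ZMod 2) y l = 0 → y ∈ Rad B := by
    intro y hy hyk hyl v
    rcases hy v with h3 | h3
    · exact h3
    · exfalso
      have h4 := hφ (emb F v) (emb F y)
      have h5 : ξ (emb F y) = 0 := by
        rw [h2, lam_emb, lam_emb, hyk, hyl]
        simp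
      have h6 : lam B F l0 k (emb F y) = 0 := by
        rw [lam_emb, hyk]; simp
      have h7 : lam B F l0 y (emb F v) = 1 := by
        rw [lam_emb, h3, hl0, c2_one]
      rw [sum_phi hl0 hy, hφw, h5, h6, h7] at h4
      simp only [mul_zero, zero_mul, one_mul, add_zero] at h4
      exact hξk h4.symm
  have h3 : InU B (fun x => ξ (emb F l) * (lam B F l0 k x * lam B F l0 k x) +
      ξ (emb F k) * (lam B F l0 k x * lam B F l0 l x)) := by
    refine InU.congr (hξ.1 l0) ?_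
    intro x
    rw [h2 x]
    ring
  obtain ⟨s, hs⟩ := rat_one (lam_isLat l0 k) (lam_isLat l0 l) hξk h3
  have fin : ∀ f ∈ Rw B w, (∀ x, lam B F l0 k x * lam B F l0 f x =
      c2 F s * (lam B F l0 k x * lam B F l0 k x) + lam B F l0 k x * lam B F l0 l x) →
      ∀ l1, w l1 = 1 → InU B (fun x => lam B F l1 k x * lam B F l1 f x) := by
    intro f hf hf' l1 hl1
    refine InU.congr hs ?_
    intro x
    rw [lam_of_Rw hl0 hk l1, lam_of_Rw hl0 hf l1, hl1, c2_one, one_smul, one_smul, hf']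
  rcases zmod2_cases s with hs0 | hs0
  · refine ⟨k, hk, l, hl, hkl', hrad, fin l hl ?_⟩
    intro x
    rw [hs0]; simp
  · refine ⟨k, hk, l + k, (Rw B w).add_mem hl hk, ?_, ?_, fin (l + k) ((Rw B w).add_mem hl hk) ?_⟩
    · rw [map_add, bF_self, add_zero, hkl']
    · intro y hy h4 h5
      apply hrad y hy h4
      rw [map_add, h4, add_zero] at h5
      exact h5
    · intro x
      rw [hs0, lam_add, LinearMap.add_apply, c2_one]
      ring

/-- The data of a type B block. -/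
structure BData (B : κ → ι → ι → ZMod 2) (F : Type*) [Field F] [CharP F 2] (w : κ → ZMod 2)
    (e f : ι → ZMod 2) (l0 : κ) : Prop where
  hl : w l0 = 1
  he : e ∈ Rw B w
  hf : f ∈ Rw B w
  hef : bF B (ZMod 2) e f = w
  rad : ∀ k ∈ Rw B w, bF B (ZMod 2) k e = 0 → bF B (ZMod 2) k f = 0 → k ∈ Rad B
  inU : InU B (fun x => lam B F l0 e x * lam B F l0 f x)
  notA : ¬ TypeA B F w

lemma BData.w_ne {w : κ → ZMod 2} {e f : ι → ZMod 2} {l0 : κ} (h : BData B F w e f l0) :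
    w ≠ 0 := by
  intro h0
  have := h.hl
  rw [h0] at this
  exact zero_ne_one this

/-- The orthogonal of a pair. -/
def orth2 (B : κ → ι → ι → ZMod 2) (e f : ι → ZMod 2) : AddSubgroup (ι → ZMod 2) where
  carrier := {v | bF B (ZMod 2) v e = 0 ∧ bF B (ZMod 2) v f = 0}
  zero_mem' := by simp
  add_mem' := by
    rintro v v' ⟨h1, h2⟩ ⟨h1', h2'⟩
    constructor
    · rw [map_add, LinearMap.add_apply, h1, h1', add_zero]
    · rw [map_add, LinearMap.add_apply, h2, h2', add_zero]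
  neg_mem' := by
    intro v h
    rw [vneg_eq]
    exact h

lemma mem_orth2 {e f v : ι → ZMod 2} :
    v ∈ orth2 B e f ↔ bF B (ZMod 2) v e = 0 ∧ bF B (ZMod 2) v f = 0 := Iff.rfl

/-- Decomposition of a vector along a hyperbolic pair, for a single value. -/
lemma pair_decomp {w : κ → ZMod 2} {e f : ι → ZMod 2} (hef : bF B (ZMod 2) e f = w)
    (he : e ∈ Rw B w) (hf : f ∈ Rw B w) {l0 : κ} (hl : w l0 = 1) (v : ι → ZMod 2) :
    v + bF B (ZMod 2) v f l0 • e + bF B (ZMod 2) v e l0 • f ∈ orth2 B e f := by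
  have key : ∀ k ∈ Rw B w, ∀ v, bF B (ZMod 2) v k = (bF B (ZMod 2) v k l0) • w := by
    intro k hk v
    rcases hk v with h | h
    · rw [h]; simp
    · rw [h, hl, one_smul]
  rw [mem_orth2]
  have hfe : bF B (ZMod 2) f e = w := by rw [bF_comm]; exact hef
  constructor
  · rw [map_add, map_add, LinearMap.add_apply, LinearMap.add_apply, map_smul, map_smul,
      LinearMap.smul_apply, LinearMap.smul_apply, bF_self, smul_zero, add_zero, hfe]
    conv_lhs => rw [key e he v]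
    rw [Pi.smul_apply, smul_eq_mul, hl, mul_one]
    exact vadd_self _
  · rw [map_add, map_add, LinearMap.add_apply, LinearMap.add_apply, map_smul, map_smul,
      LinearMap.smul_apply, LinearMap.smul_apply, bF_self, smul_zero, add_zero, hef]
    conv_lhs => rw [key f hf v]
    rw [Pi.smul_apply, smul_eq_mul, hl, mul_one]
    exact vadd_self _

lemma BData.stable {w : κ → ZMod 2} {e f : ι → ZMod 2} {l0 : κ} (hB : BData B F w e f l0) :
    Stable B F (orth2 B e f) := by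
  intro k hk ξ h v hv
  by_cases hξ : ξ = 0
  · rw [hξ]; rfl
  · have hw := hB.w_ne
    have hne : bF B (ZMod 2) e k ≠ 0 ∨ bF B (ZMod 2) f k ≠ 0 := by
      by_contra hno
      push Not at hno
      apply hk
      rw [mem_orth2, bF_comm, hno.1, bF_comm, hno.2]
      exact ⟨rfl, rfl⟩
    have hkR : k ∈ Rw B w := by
      rcases hne with h1 | h1
      · exact L5 hB.he h1 hξ h
      · exact L5 hB.hf h1 hξ h
    -- `v` is orthogonal to `k`
    have hvk : bF B (ZMod 2) v k = 0 := by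
      have h1 := pair_decomp hB.hef hB.he hB.hf hB.hl k
      set r := k + bF B (ZMod 2) k f l0 • e + bF B (ZMod 2) k e l0 • f with hr
      have hrR : r ∈ Rw B w := by
        rw [hr]
        apply (Rw B w).add_mem ((Rw B w).add_mem hkR _)
        · rcases zmod2_cases (bF B (ZMod 2) k e l0) with h2 | h2
          · rw [h2, zero_smul]; exact (Rw B w).zero_mem
          · rw [h2, one_smul]; exact hB.hf
        · rcases zmod2_cases (bF B (ZMod 2) k f l0) with h2 | h2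
          · rw [h2, zero_smul]; exact (Rw B w).zero_mem
          · rw [h2, one_smul]; exact hB.he
      have h2 : r ∈ Rad B := hB.rad r hrR h1.1 h1.2
      have h3 := h2 v
      rw [hr, map_add, map_add, map_smul, map_smul, hv.1, hv.2, smul_zero, smul_zero, add_zero,
        add_zero] at h3
      exact h3
    rcases hne with h1 | h1
    · have h2 : bF B (ZMod 2) k e = w := by
        rw [bF_comm] at h1
        exact Rw_eq' hkR h1
      have h3 := (L1 hB.hl hkR hB.he h2 (h.1 l0)).1 (emb F v)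
      rw [h3, lam_emb, lam_emb, hvk, hv.1]
      simp
    · have h2 : bF B (ZMod 2) k f = w := by
        rw [bF_comm] at h1
        exact Rw_eq' hkR h1
      have h3 := (L1 hB.hl hkR hB.hf h2 (h.1 l0)).1 (emb F v)
      rw [h3, lam_emb, lam_emb, hvk, hv.2]
      simp

end Pool.Agent.Work.MP_8bb7de_al.P2
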