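import Pool.Agent.Work.MP_8bb7de_al.P2.Trans

set_option autoImplicit false
set_option linter.unusedSectionVars false
set_option linter.unusedVariables false

/-!
The structure theorem: the operator `1 + N` attached to coefficient data is the end point of a path.
-/

namespace Pool.Agent.Work.MP_8bb7de_al.P2

open scoped Matrix

variable {ι κ : Type*} [Fintype ι] [DecidableEq ι] [Fintype κ] [DecidableEq κ]

section basics

variable {F : Type*} [Field F]

/-- The operator `x ↦ ∑ c_k(x) k`. -/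
def Nc (c : (ι → ZMod 2) → ((ι → F) →ₗ[F] F)) : (ι → F) →ₗ[F] (ι → F) :=
  ∑ k, (c k).smulRight (emb F k)

lemma Nc_apply (c : (ι → ZMod 2) → ((ι → F) →ₗ[F] F)) (x : ι → F) :
    Nc c x = ∑ k, c k x • emb F k := by
  rw [Nc, LinearMap.sum_apply]
  rfl

variable {B : κ → ι → ι → ZMod 2}

lemma qF_sum_isotropic {α : Type*} (s : Finset α) (a : α → F) (v : α → (ι → F))
    (h : ∀ i j, bF B F (v i) (v j) = 0) :
    qF B F (∑ i ∈ s, a i • v i) = ∑ i ∈ s, (a i * a i) • qF B F (v i) := by
  classical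
  induction s using Finset.induction_on with
  | empty => simp [qF_zero]
  | insert i s hi ih =>
    have h1 : bF B F (a i • v i) (∑ j ∈ s, a j • v j) = 0 := by
      rw [map_sum]
      apply Finset.sum_eq_zero
      intro j _
      rw [map_smul, map_smul, LinearMap.smul_apply, h, smul_zero, smul_zero]
    rw [Finset.sum_insert hi, Finset.sum_insert hi, qF_add, ih, qF_smul, h1, add_zero]

variable [CharP F 2]

/-- If the coordinates of `D` lie in `Y` and its image is isotropic, then `q ∘ D` lies in `U`. -/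
lemma InU_of_isotropic {D : (ι → F) →ₗ[F] (ι → F)} (hY : ∀ j, InY B (LinearMap.proj j ∘ₗ D))
    (hiso : ∀ x y, bF B F (D x) (D y) = 0) (l : κ) : InU B (fun x => qF B F (D x) l) := by
  classical
  let R := LinearMap.range D
  let β := Module.finBasis F R
  have hext : ∀ i, ∃ ρ : (ι → F) →ₗ[F] F, ρ ∘ₗ R.subtype = β.coord i := fun i =>
    LinearMap.exists_extend (β.coord i)
  choose ρ hρ using hext
  have hD : ∀ x, D x = ∑ i, (ρ i (D x)) • (β i : ι → F) := by
    intro x
    have h1 := β.sum_repr ⟨D x, LinearMap.mem_range_self D x⟩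
    have h2 := congrArg (R.subtype) h1
    rw [map_sum] at h2
    conv_lhs => rw [show D x = R.subtype ⟨D x, LinearMap.mem_range_self D x⟩ from rfl, ← h2]
    apply Finset.sum_congr rfl
    intro i _
    rw [map_smul]
    congr 1
    have := LinearMap.congr_fun (hρ i) ⟨D x, LinearMap.mem_range_self D x⟩
    exact this.symm
  have hYi : ∀ i, InY B (ρ i ∘ₗ D) := by
    intro i
    have h1 : ρ i ∘ₗ D = ∑ j, ρ i (Pi.single j 1) • (LinearMap.proj j ∘ₗ D) := by
      apply LinearMap.ext
      intro x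
      rw [LinearMap.comp_apply, LinearMap.sum_apply]
      conv_lhs => rw [← sum_single_eq (D x)]
      rw [map_sum]
      apply Finset.sum_congr rfl
      intro j _
      rw [map_smul, smul_eq_mul, LinearMap.smul_apply, smul_eq_mul, mul_comm]
      rfl
    rw [h1]
    exact InY.sum _ _ (fun j _ => (hY j).smul _)
  have hiso' : ∀ i j, bF B F (β i : ι → F) (β j : ι → F) = 0 := by
    intro i j
    obtain ⟨x, hx⟩ := (β i).2
    obtain ⟨y, hy⟩ := (β j).2
    rw [← hx, ← hy]
    exact hiso x y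
  refine InU.congr (InU.sum Finset.univ
    (fun i x => qF B F (β i : ι → F) l * ((ρ i ∘ₗ D) x * (ρ i ∘ₗ D) x))
    (fun i _ => InU.smul _ (hYi i))) ?_
  intro x
  conv_lhs => rw [hD x]
  rw [qF_sum_isotropic _ _ _ hiso', Finset.sum_apply]
  apply Finset.sum_congr rfl
  intro i _
  rw [Pi.smul_apply, smul_eq_mul, mul_comm]
  rfl

omit [CharP F 2] in
lemma sum_sym_zero [CharP F 2] {α : Type*} [Fintype α] (S : α → α → F) (a : α → F)
    (h0 : ∀ i, a i ≠ 0 → S i i = 0) (hs : ∀ i j, a i ≠ 0 → a j ≠ 0 → S i j + S j i = 0) :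
    ∑ i, ∑ j, a i * a j * S i j = 0 := by
  classical
  rw [← Finset.sum_product']
  apply Finset.sum_involution (fun x _ => (x.2, x.1))
  · intro x _
    by_cases h1 : a x.1 = 0
    · rw [h1]; simp
    · by_cases h2 : a x.2 = 0
      · rw [h2]; simp
      · have := hs x.1 x.2 h1 h2
        change a x.1 * a x.2 * S x.1 x.2 + a x.2 * a x.1 * S x.2 x.1 = 0
        linear_combination (a x.1 * a x.2) * this
  · intro x _ hne heq
    apply hne
    have h1 : x.2 = x.1 := congrArg Prod.fst heq
    rw [h1]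
    by_cases h2 : a x.1 = 0
    · rw [h2]; simp
    · rw [h0 _ h2, mul_zero]
  · intro x _; exact Finset.mem_product.2 ⟨Finset.mem_univ _, Finset.mem_univ _⟩
  · intro x _; rfl

end basics

variable {F : Type*} [Field F] [CharP F 2]

/-- The subgroup generated by the active vectors. -/
def Vo (B : κ → ι → ι → ZMod 2) (F : Type*) [Field F] : AddSubgroup (ι → ZMod 2) :=
  AddSubgroup.closure {k | Act B F k}

/-- Coefficient data. -/
structure CData (B : κ → ι → ι → ZMod 2) (c : (ι → ZMod 2) → ((ι → F) →ₗ[F] F)) : Prop where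
  c0 : c 0 = 0
  good : ∃ ω : Matrix κ κ F, ∀ x, qF B F (x + Nc c x) = ω *ᵥ qF B F x
  q0 : ∀ l, InY B (∑ k, c2 F (qF B (ZMod 2) k l) • c k)
  em : ∀ m, m ≠ 0 → ∀ l, InU B (fun x => c m x * bF B F x (emb F m) l +
    ∑ k, c k x * c (m + k) x * c2 F (BK B (ZMod 2) k (m + k) l))
  tool1 : ∀ V' : AddSubgroup (ι → ZMod 2), Stable B F V' → ∀ k, k ∉ V' → ∀ v ∈ V',
    c k (emb F v) = 0
  tool2 : ∀ k, k ∉ Vo B F → c k = 0
  iso : ∀ V' : AddSubgroup (ι → ZMod 2), Stable B F V' → ∀ e f, bF B (ZMod 2) e f ≠ 0 →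
    (∀ u ∈ V', ∀ v ∈ V', bF B (ZMod 2) u v = 0 ∨ bF B (ZMod 2) u v = bF B (ZMod 2) e f) →
    (∀ k ξ, Adm B F k ξ → ∀ l,
      lam B F l k (emb F e) * ξ (emb F f) + lam B F l k (emb F f) * ξ (emb F e) = 0) →
    ∀ u ∈ V', ∀ v ∈ V',
      bF B F (emb F u + Nc c (emb F u)) (emb F v + Nc c (emb F v)) = bF B F (emb F u) (emb F v)

variable {B : κ → ι → ι → ZMod 2} {c : (ι → ZMod 2) → ((ι → F) →ₗ[F] F)}

lemma act_of_Pw {w : κ → ZMod 2} (hw : w ≠ 0) {p : ι → ZMod 2} (hp : p ∈ Pw B F w)
    (hr : p ∉ Rad B) : Act B F p := by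
  obtain ⟨l0, hl0⟩ := exists_l0 hw
  refine ⟨lam B F l0 p, ?_, ?_, ?_⟩
  · intro h0
    obtain ⟨v, l, hv⟩ := not_rad hr
    have h1 := LinearMap.congr_fun (lam_of_Rw (F := F) hl0 hp.1 l) (emb F v)
    rw [h0, lam_emb, hv] at h1
    simp at h1
  · intro l
    refine InU.congr (InU.smul (c2 F (w l)) (hp.2 l0)) ?_
    intro x
    rw [lam_of_Rw hl0 hp.1 l, LinearMap.smul_apply, smul_eq_mul]
    ring
  · intro _ v v' hv hv'
    rw [Rw_eq hp.1 hv, Rw_eq hp.1 hv']

lemma Rad_le_Vo : Rad B ≤ Vo B F := by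
  intro r hr
  by_cases h0 : r = 0
  · rw [h0]; exact AddSubgroup.zero_mem _
  · apply AddSubgroup.subset_closure
    obtain ⟨i, hi⟩ := Function.ne_iff.1 h0
    refine ⟨LinearMap.proj i, ?_, ?_, ?_⟩
    · intro h1
      have := LinearMap.congr_fun h1 (Pi.single i 1)
      simp at this
    · intro l
      refine InU.congr InU.zero ?_
      intro x
      have : lam B F l r = 0 := by
        apply ext_lattice
        intro v
        rw [lam_emb, hr v]
        simp
      rw [this]
      simp
    · intro _ v v' hv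
      exact absurd (hr v) hv

lemma Pw_le_Vo {w : κ → ZMod 2} (hw : w ≠ 0) : Pw B F w ≤ Vo B F := by
  intro p hp
  by_cases hr : p ∈ Rad B
  · exact Rad_le_Vo hr
  · exact AddSubgroup.subset_closure (act_of_Pw hw hp hr)

/-- The index set of the type A part. -/
def InSA (B : κ → ι → ι → ZMod 2) (F : Type*) [Field F] [CharP F 2] (k : ι → ZMod 2) : Prop :=
  ∃ w, TypeA B F w ∧ k ∉ orth B (Pw B F w)

lemma exists_BData {w : κ → ZMod 2} (hb : Bad B F w) (hA : ¬ TypeA B F w) :
    ∃ e f l0, BData B F w e f l0 := by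
  obtain ⟨e, he, f, hf, hef, hrad, hU⟩ := TypeB.exists_pair hb hA
  obtain ⟨l0, hl0⟩ := exists_l0 hb.1
  exact ⟨e, f, l0, hl0, he, hf, hef, hrad, hU l0 hl0, hA⟩

/-- A functional killing the orthogonal of a hyperbolic pair. -/
lemma kill_decomp {w : κ → ZMod 2} {e f : ι → ZMod 2} {l0 : κ} (hB : BData B F w e f l0)
    {η : (ι → F) →ₗ[F] F} (h : ∀ v ∈ orth2 B e f, η (emb F v) = 0) :
    η = η (emb F f) • lam B F l0 e + η (emb F e) • lam B F l0 f := by
  apply ext_lattice
  intro v
  have h1 := h _ (pair_decomp hB.hef hB.he hB.hf hB.hl v)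
  rw [emb_add, emb_add, emb_smul, emb_smul, map_add, map_add, map_smul, map_smul, smul_eq_mul,
    smul_eq_mul] at h1
  rw [LinearMap.add_apply, LinearMap.smul_apply, LinearMap.smul_apply, lam_emb, lam_emb,
    smul_eq_mul, smul_eq_mul]
  have h2 := CharTwo.add_self_eq_zero (c2 F (bF B (ZMod 2) v f l0) * η (emb F e))
  have h3 := CharTwo.add_self_eq_zero (c2 F (bF B (ZMod 2) v e l0) * η (emb F f))
  linear_combination h1 - h2 - h3

/-- Two active vectors with nonzero bracket define a bad value. -/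
lemma bad_of_act {a v : ι → ZMod 2} (ha : Act B F a) (hv : Act B F v)
    (hav : bF B (ZMod 2) a v ≠ 0) : a ∈ Rw B (bF B (ZMod 2) a v) ∧ v ∈ Rw B (bF B (ZMod 2) a v) ∧
      Bad B F (bF B (ZMod 2) a v) := by
  obtain ⟨ξ, hξ, hξ'⟩ := ha
  obtain ⟨ζ, hζ, hζ'⟩ := hv
  have h1 : a ∈ Rw B (bF B (ZMod 2) a v) := by
    intro y
    by_cases hy : bF B (ZMod 2) y a = 0
    · exact Or.inl hy
    · right
      rw [hξ'.2 hξ y v hy (by rw [bF_comm]; exact hav), bF_comm]
  have h2 : v ∈ Rw B (bF B (ZMod 2) a v) := by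
    intro y
    by_cases hy : bF B (ZMod 2) y v = 0
    · exact Or.inl hy
    · right
      rw [hζ'.2 hζ y a hy hav]
  exact ⟨h1, h2, hav, a, h1, v, h2, rfl, ⟨ξ, hξ, hξ'⟩, ⟨ζ, hζ, hζ'⟩⟩

lemma exists_act {k v : ι → ZMod 2} (hk : k ∈ Vo B F) (hkv : bF B (ZMod 2) k v ≠ 0) :
    ∃ a, Act B F a ∧ bF B (ZMod 2) a v ≠ 0 := by
  by_contra hno
  push Not at hno
  apply hkv
  rw [bF_comm]
  apply orth_closure (S := {k | Act B F k}) _ k hk
  intro s hs
  rw [bF_comm]
  exact hno s hs

namespace CData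

variable (h : CData B c)

include h

lemma piso : PIso B (LinearMap.id + Nc c) := by
  constructor
  · intro w hA p hp
    rw [LinearMap.add_apply, LinearMap.id_apply, Nc_apply]
    apply Submodule.add_mem _ (emb_mem_PwF hp)
    apply Submodule.sum_mem
    intro k _
    by_cases hk : k ∈ Pw B F w
    · exact Submodule.smul_mem _ _ (emb_mem_PwF hk)
    · rw [h.tool1 _ hA.stable_Pw k hk p hp, zero_smul]
      exact Submodule.zero_mem _
  · intro w hA p hp p' hp'
    obtain ⟨e, he, f, hf, hef⟩ := hA.exists_pair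
    refine h.iso (Pw B F w) hA.stable_Pw e f (by rw [hef]; exact hA.1.1) ?_ ?_ p hp p' hp'
    · intro u _ v hv
      rw [hef]
      exact hv.1 u
    · intro k ξ hξ l
      exact hA.inert he hf hξ l

lemma InSA_Y {k : ι → ZMod 2} (hk : InSA B F k) : InY B (c k) := by
  obtain ⟨w, hA, hk⟩ := hk
  obtain ⟨l0, hl0⟩ := exists_l0 hA.1.1
  apply InY.of_ker l0 (Pw B F w) (fun p hp => hp.2 l0)
  intro v hv
  apply h.tool1 _ hA.stable_orth k hk v
  intro p hp
  rcases hp.1 v with h1 | h1
  · exact h1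
  · have h2 := hv p hp
    rw [h1, hl0] at h2
    exact absurd h2 one_ne_zero

lemma kill {k : ι → ZMod 2} (hk : InSA B F k) {u : κ → ZMod 2} {e f : ι → ZMod 2} {l0 : κ}
    (hB : BData B F u e f l0) (hk' : k ∉ orth2 B e f) : c k = 0 := by
  obtain ⟨w, hA, hk⟩ := hk
  have hne : u ≠ w := by
    rintro rfl
    exact hB.notA hA
  have h1 := kill_decomp hB (fun v hv => h.tool1 _ hB.stable k hk' v hv)
  have h2 : ∀ v ∈ Rw B u, c k (emb F v) = 0 := by
    intro v hv
    apply h.tool1 _ hA.stable_orth k hk v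
    intro p hp
    exact Rw_orth hne hv hp.1
  rw [h1, h2 e hB.he, h2 f hB.hf, zero_smul, zero_smul, add_zero]

lemma q0' {Q : (ι → F) → F} (hQ : InU B Q) : InY B (∑ k, Q (emb F k) • c k) := by
  obtain ⟨φ, hφ⟩ := hQ
  have h1 : ∑ k, Q (emb F k) • c k = ∑ l, φ l • ∑ k, c2 F (qF B (ZMod 2) k l) • c k := by
    simp only [hφ, qF_emb, emb_apply, Finset.sum_smul, Finset.smul_sum, smul_smul]
    rw [Finset.sum_comm]
  rw [h1]
  exact InY.sum _ _ (fun l _ => (h.q0 l).smul _)

/-- The contribution of a type B block. -/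
lemma typeB {w : κ → ZMod 2} {e f : ι → ZMod 2} {l0 : κ} (hB : BData B F w e f l0) :
    InU B (fun x => (∑ k, c2 F (bF B (ZMod 2) k f l0) * c k x) *
      (∑ k, c2 F (bF B (ZMod 2) k e l0) * c k x) +
      (∑ k, c2 F (bF B (ZMod 2) k e l0) * c2 F (bF B (ZMod 2) k f l0) * c k x) *
      (∑ k, c2 F (bF B (ZMod 2) k e l0) * c2 F (bF B (ZMod 2) k f l0) * c k x)) := by
  set ε : (ι → ZMod 2) → F := fun k => c2 F (bF B (ZMod 2) k e l0) with hε
  set δ : (ι → ZMod 2) → F := fun k => c2 F (bF B (ZMod 2) k f l0) with hδ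
  have hεs : ∀ k, ε k * ε k = ε k := fun k => c2_sq _
  have hδs : ∀ k, δ k * δ k = δ k := fun k => c2_sq _
  have hεa : ∀ k k', ε (k + k') = ε k + ε k' := by
    intro k k'
    simp only [hε, map_add, LinearMap.add_apply, Pi.add_apply, c2_add]
  have hδa : ∀ k k', δ (k + k') = δ k + δ k' := by
    intro k k'
    simp only [hδ, map_add, LinearMap.add_apply, Pi.add_apply, c2_add]
  let d : (ι → F) →ₗ[F] F := ∑ k, (ε k * δ k) • c k
  let A : (ι → F) →ₗ[F] F := ∑ k, δ k • c k
  let C : (ι → F) →ₗ[F] F := ∑ k, ε k • c k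
  have hd : ∀ x, ∑ k, ε k * δ k * c k x = d x := by
    intro x
    simp only [d, LinearMap.sum_apply, LinearMap.smul_apply, smul_eq_mul]
  have hAx : ∀ x, ∑ k, δ k * c k x = A x := by
    intro x
    simp only [A, LinearMap.sum_apply, LinearMap.smul_apply, smul_eq_mul]
  have hCx : ∀ x, ∑ k, ε k * c k x = C x := by
    intro x
    simp only [C, LinearMap.sum_apply, LinearMap.smul_apply, smul_eq_mul]
  -- the functional with `λ_e λ_f = φ ∘ q`
  obtain ⟨φ, hφ⟩ := hB.inU.polar
  -- the first relation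
  have hE : InU B (fun x => ∑ m, (ε m * δ m) * ∑ l, φ l * (c m x * bF B F x (emb F m) l +
      ∑ k, c k x * c (m + k) x * c2 F (BK B (ZMod 2) k (m + k) l))) := by
    apply InU.sum
    intro m _
    by_cases hm : m = 0
    · have : ε m = 0 := by
        simp only [hε, hm, map_zero, LinearMap.zero_apply, Pi.zero_apply, c2_zero]
      refine InU.congr InU.zero ?_
      intro x
      rw [this]
      ring
    · apply InU.smul
      apply InU.sum
      intro l _
      exact InU.smul _ (h.em m hm l)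
  let Bφ : (ι → ZMod 2) → (ι → ZMod 2) → F := fun k k' => ∑ l, φ l * c2 F (BK B (ZMod 2) k k' l)
  have hBφ : ∀ k k', Bφ k k' + Bφ k' k = ε k * δ k' + ε k' * δ k := by
    intro k k'
    have h1 := hφ (emb F k) (emb F k')
    rw [lam_emb, lam_emb, lam_emb, lam_emb] at h1
    rw [show ε k * δ k' + ε k' * δ k = _ from h1, ← Finset.sum_add_distrib]
    apply Finset.sum_congr rfl
    intro l _
    rw [← mul_add, ← c2_add, bF_emb]
    rfl
  have hpt : ∀ x, (∑ m, (ε m * δ m) * ∑ l, φ l * (c m x * bF B F x (emb F m) l +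
      ∑ k, c k x * c (m + k) x * c2 F (BK B (ZMod 2) k (m + k) l))) =
      d x * (lam B F l0 e x + lam B F l0 f x) + (C x + d x) * (A x + d x) := by
    intro x
    have e1 : ∀ m, ∑ l, φ l * (c m x * bF B F x (emb F m) l +
        ∑ k, c k x * c (m + k) x * c2 F (BK B (ZMod 2) k (m + k) l)) =
        c m x * (lam B F l0 e x * δ m + ε m * lam B F l0 f x) +
          ∑ k, c k x * c (m + k) x * Bφ k (m + k) := by
      intro m
      have e2 := hφ x (emb F m)
      rw [lam_emb, lam_emb] at e2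
      have e3 : lam B F l0 e x * δ m + ε m * lam B F l0 f x = ∑ l, φ l * bF B F x (emb F m) l := e2
      rw [e3, Finset.mul_sum]
      simp only [Bφ, Finset.mul_sum]
      rw [Finset.sum_comm (s := (Finset.univ : Finset (ι → ZMod 2))) (t := (Finset.univ : Finset κ)),
        ← Finset.sum_add_distrib]
      apply Finset.sum_congr rfl
      intro l _
      rw [mul_add, Finset.mul_sum]
      congr 1
      · ring
      · apply Finset.sum_congr rfl
        intro k _
        ring
    have e4 : ∑ m, (ε m * δ m) * (c m x * (lam B F l0 e x * δ m + ε m * lam B F l0 f x)) =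
        d x * (lam B F l0 e x + lam B F l0 f x) := by
      rw [← hd, Finset.sum_mul]
      apply Finset.sum_congr rfl
      intro m _
      linear_combination (ε m * c m x * lam B F l0 e x) * hδs m +
        (δ m * c m x * lam B F l0 f x) * hεs m
    have e5 : ∑ m, (ε m * δ m) * ∑ k, c k x * c (m + k) x * Bφ k (m + k) =
        ∑ k, ∑ k', c k x * c k' x * ((ε k + ε k') * (δ k + δ k') * Bφ k k') := by
      simp only [Finset.mul_sum]
      rw [Finset.sum_comm]
      apply Finset.sum_congr rfl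
      intro k _
      rw [← Equiv.sum_comp (Equiv.addRight k)
        (fun m => ε m * δ m * (c k x * c (m + k) x * Bφ k (m + k)))]
      apply Finset.sum_congr rfl
      intro k' _
      have e6 : k' + k + k = k' := by rw [add_assoc, vadd_self, add_zero]
      simp only [Equiv.coe_addRight, e6, hεa, hδa]
      ring
    have e7 : ∑ k, ∑ k', c k x * c k' x * ((ε k + ε k') * (δ k + δ k') * Bφ k k' +
        (ε k + ε k * δ k) * (δ k' + ε k' * δ k')) = 0 := by
      apply sum_sym_zero
      · intro k _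
        have e9 := CharTwo.add_self_eq_zero (ε k * δ k)
        linear_combination (δ k + δ k * δ k) * hεs k + (ε k + ε k) * hδs k + 2 * e9 +
          2 * Bφ k k * e9
      · intro k k' _ _
        have two : (2 : F) = 0 := CharTwo.two_eq_zero
        linear_combination ((ε k + ε k') * (δ k + δ k')) * hBφ k k' +
          (δ k * δ k' + δ k' ^ 2) * hεs k + (ε k * ε k' + ε k') * hδs k +
          (ε k + ε k * ε k') * hδs k' + (δ k ^ 2 + δ k * δ k') * hεs k' +
          (ε k * δ k * δ k' + ε k * ε k' * δ k + ε k * δ k' + 2 * ε k * ε k' * δ k * δ k' +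
            ε k' * δ k + ε k * ε k' * δ k' + ε k' * δ k * δ k') * two
    have e8 : ∑ k, ∑ k', c k x * c k' x * ((ε k + ε k * δ k) * (δ k' + ε k' * δ k')) =
        (C x + d x) * (A x + d x) := by
      rw [← hCx, ← hAx, ← hd, ← Finset.sum_add_distrib, ← Finset.sum_add_distrib,
        Finset.sum_mul_sum]
      apply Finset.sum_congr rfl
      intro k _
      apply Finset.sum_congr rfl
      intro k' _
      ring
    have e9 : ∑ k, ∑ k', c k x * c k' x * ((ε k + ε k') * (δ k + δ k') * Bφ k k') =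
        (C x + d x) * (A x + d x) := by
      rw [← e8]
      apply CharTwo.add_eq_zero.1
      rw [← e7, ← Finset.sum_add_distrib]
      apply Finset.sum_congr rfl
      intro k _
      rw [← Finset.sum_add_distrib]
      apply Finset.sum_congr rfl
      intro k' _
      ring
    calc (∑ m, (ε m * δ m) * ∑ l, φ l * (c m x * bF B F x (emb F m) l +
          ∑ k, c k x * c (m + k) x * c2 F (BK B (ZMod 2) k (m + k) l)))
        = ∑ m, ((ε m * δ m) * (c m x * (lam B F l0 e x * δ m + ε m * lam B F l0 f x)) +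
          (ε m * δ m) * ∑ k, c k x * c (m + k) x * Bφ k (m + k)) := by
          apply Finset.sum_congr rfl
          intro m _
          rw [e1 m, mul_add]
      _ = d x * (lam B F l0 e x + lam B F l0 f x) + (C x + d x) * (A x + d x) := by
          rw [Finset.sum_add_distrib, e4, e5, e9]
  have hE' := hE.congr (fun x => (hpt x).symm)
  -- the second relation
  have hk0 : ∀ k ∈ orth2 B e f, ε k = 0 ∧ δ k = 0 := by
    intro k hk
    constructor
    · simp only [hε, hk.1, Pi.zero_apply, c2_zero]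
    · simp only [hδ, hk.2, Pi.zero_apply, c2_zero]
  have hdk : d = d (emb F f) • lam B F l0 e + d (emb F e) • lam B F l0 f := by
    apply kill_decomp hB
    intro v hv
    rw [← hd]
    apply Finset.sum_eq_zero
    intro k _
    by_cases hk : k ∈ orth2 B e f
    · rw [(hk0 k hk).1]; ring
    · rw [h.tool1 _ hB.stable k hk v hv, mul_zero]
  have hACk : A + C = (A + C) (emb F f) • lam B F l0 e + (A + C) (emb F e) • lam B F l0 f := by
    apply kill_decomp hB
    intro v hv
    rw [LinearMap.add_apply, ← hAx, ← hCx, ← Finset.sum_add_distrib]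
    apply Finset.sum_eq_zero
    intro k _
    by_cases hk : k ∈ orth2 B e f
    · rw [(hk0 k hk).1, (hk0 k hk).2]; ring
    · rw [h.tool1 _ hB.stable k hk v hv, mul_zero, mul_zero, add_zero]
  have hdY : InY B d := by
    have h1 := h.q0' hB.inU
    have h2 : ∑ k, (lam B F l0 e (emb F k) * lam B F l0 f (emb F k)) • c k = d := by
      apply Finset.sum_congr rfl
      intro k _
      rw [lam_emb, lam_emb]
    rwa [h2] at h1
  have hACY : InY B (lam B F l0 e + lam B F l0 f) → InY B (A + C) := by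
    intro hY
    have h1 := h.q0' hY
    have h2 : ∑ k, ((lam B F l0 e + lam B F l0 f) (emb F k) *
        (lam B F l0 e + lam B F l0 f) (emb F k)) • c k = A + C := by
      simp only [A, C]
      rw [← Finset.sum_add_distrib]
      apply Finset.sum_congr rfl
      intro k _
      rw [← add_smul, LinearMap.add_apply, lam_emb, lam_emb]
      congr 1
      have h3 := CharTwo.add_self_eq_zero (ε k * δ k)
      linear_combination hεs k + hδs k + h3
    rwa [h2] at h1
  rw [hdk] at hdY
  rw [hACk] at hACY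
  have hP := plane_lemma (lam_isLat l0 e) (lam_isLat l0 f) hB.inU hdY hACY
  refine InU.congr (InU.add hE' hP) ?_
  intro x
  have h1 := LinearMap.congr_fun hdk x
  have h2 := LinearMap.congr_fun hACk x
  simp only [LinearMap.add_apply, LinearMap.smul_apply, smul_eq_mul] at h1 h2
  have h3 : (∑ k, δ k * c k x) * (∑ k, ε k * c k x) +
      (∑ k, ε k * δ k * c k x) * (∑ k, ε k * δ k * c k x) = A x * C x + d x * d x := by
    rw [hAx, hCx, hd]
  refine h3.trans ?_
  simp only [LinearMap.add_apply]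
  rw [← h1, ← h2]
  have h4 := CharTwo.add_self_eq_zero (d x * (lam B F l0 e x + lam B F l0 f x))
  have h5 := CharTwo.add_self_eq_zero (d x * (A x + C x))
  linear_combination -h4 - h5

end CData

end Pool.Agent.Work.MP_8bb7de_al.P2
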