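import Pool.Agent.Work.MP_8bb7de_al.P2.Block2

set_option autoImplicit false
set_option linter.unusedSectionVars false
set_option linter.unusedVariables false

/-!
The structure theorem, conclusion.
-/

namespace Pool.Agent.Work.MP_8bb7de_al.P2

open scoped Matrix Classical

variable {ι κ : Type*} [Fintype ι] [DecidableEq ι] [Fintype κ] [DecidableEq κ]

variable {F : Type*} [Field F] [CharP F 2]

variable {B : κ → ι → ι → ZMod 2} {c : (ι → ZMod 2) → ((ι → F) →ₗ[F] F)}

/-- The part of the coefficients away from type A. -/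
noncomputable def cP (B : κ → ι → ι → ZMod 2) (c : (ι → ZMod 2) → ((ι → F) →ₗ[F] F)) :
    (ι → ZMod 2) → ((ι → F) →ₗ[F] F) :=
  fun k => if InSA B F k then 0 else c k

lemma cP_of {k : ι → ZMod 2} (hk : InSA B F k) : cP B c k = 0 := if_pos hk

lemma cP_of_not {k : ι → ZMod 2} (hk : ¬ InSA B F k) : cP B c k = c k := if_neg hk

lemma qF_Nc (c : (ι → ZMod 2) → ((ι → F) →ₗ[F] F)) (x : ι → F) (l : κ) :
    qF B F (Nc c x) l = ∑ k, ∑ k', c k x * c k' x * c2 F (BK B (ZMod 2) k k' l) := by
  rw [qF, Nc_apply, map_sum, Finset.sum_apply, Finset.sum_comm]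
  apply Finset.sum_congr rfl
  intro k' _
  rw [map_smul, Pi.smul_apply, map_sum, LinearMap.sum_apply, Finset.sum_apply, smul_eq_mul,
    Finset.mul_sum]
  apply Finset.sum_congr rfl
  intro k _
  rw [map_smul, LinearMap.smul_apply, BK_emb, Pi.smul_apply, smul_eq_mul, emb_apply]
  ring

lemma sq_sum {α : Type*} [Fintype α] (t : α → F) (a : α → F) (ht : ∀ k, t k * t k = t k) :
    (∑ k, t k * a k) * (∑ k, t k * a k) = ∑ k, t k * (a k * a k) := by
  have h1 := CharTwo.sum_mul_self (R := F) Finset.univ (fun k => t k * a k)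
  rw [h1]
  apply Finset.sum_congr rfl
  intro k _
  linear_combination (a k * a k) * ht k

namespace CData

variable (h : CData B c)

include h

lemma cP_ne {k : ι → ZMod 2} (hk : cP B c k ≠ 0) : ¬ InSA B F k ∧ k ∈ Vo B F := by
  constructor
  · intro h1
    exact hk (cP_of h1)
  · by_contra h1
    apply hk
    by_cases h2 : InSA B F k
    · exact cP_of h2
    · rw [cP_of_not h2, h.tool2 k h1]

lemma cP_diff (k : ι → ZMod 2) : InY B (c k + cP B c k) := by
  by_cases h1 : InSA B F k
  · rw [cP_of h1, add_zero]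
    exact h.InSA_Y h1
  · rw [cP_of_not h1]
    have : c k + c k = 0 := by
      apply LinearMap.ext
      intro x
      exact CharTwo.add_self_eq_zero _
    rw [this]
    exact InY.zero

/-- The bracket on the part away from type A is a sum of type B contributions. -/
lemma bracket_formula {e f : {w // Bad B F w ∧ ¬ TypeA B F w} → (ι → ZMod 2)}
    {l0 : {w // Bad B F w ∧ ¬ TypeA B F w} → κ} (hB : ∀ w, BData B F w.1 (e w) (f w) (l0 w))
    {k : ι → ZMod 2} (hk : ¬ InSA B F k) (hkV : k ∈ Vo B F) (l : κ) :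
    ∀ k' ∈ Vo B F, bF B (ZMod 2) k k' l = ∑ w, w.1 l *
      (bF B (ZMod 2) k (e w) (l0 w) * bF B (ZMod 2) k' (f w) (l0 w) +
        bF B (ZMod 2) k (f w) (l0 w) * bF B (ZMod 2) k' (e w) (l0 w)) := by
  intro k' hk'
  induction hk' using AddSubgroup.closure_induction with
  | zero => simp
  | add x y _ _ hx hy =>
    rw [map_add, Pi.add_apply, hx, hy, ← Finset.sum_add_distrib]
    apply Finset.sum_congr rfl
    intro w _
    simp only [map_add, LinearMap.add_apply, Pi.add_apply]
    ring
  | neg x _ hx => rw [vneg_eq]; exact hx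
  | mem a ha =>
    have ha' : Act B F a := ha
    obtain ⟨ξ, hξ, hξa⟩ := ha
    by_cases hα : ∃ u : {w // Bad B F w ∧ ¬ TypeA B F w}, a ∉ orth2 B (e u) (f u)
    · obtain ⟨u, hu⟩ := hα
      have haR : a ∈ Rw B u.1 := by
        rw [mem_orth2] at hu
        by_cases h1 : bF B (ZMod 2) a (e u) = 0
        · have h2 : bF B (ZMod 2) a (f u) ≠ 0 := fun h3 => hu ⟨h1, h3⟩
          exact L5 (hB u).hf (by rw [bF_comm]; exact h2) hξ hξa
        · exact L5 (hB u).he (by rw [bF_comm]; exact h1) hξ hξa
      have h1 := pair_decomp (hB u).hef (hB u).he (hB u).hf (hB u).hl a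
      have hmem : ∀ (s : ZMod 2) (p : ι → ZMod 2), p ∈ Rw B u.1 → s • p ∈ Rw B u.1 := by
        intro s p hp
        rcases zmod2_cases s with h2 | h2
        · rw [h2, zero_smul]; exact (Rw B u.1).zero_mem
        · rw [h2, one_smul]; exact hp
      have h2 := (hB u).rad _ ((Rw B u.1).add_mem ((Rw B u.1).add_mem haR
        (hmem _ _ (hB u).he)) (hmem _ _ (hB u).hf)) h1.1 h1.2
      have h3 := h2 k
      have key : ∀ p ∈ Rw B u.1, bF B (ZMod 2) k p l = bF B (ZMod 2) k p (l0 u) * u.1 l := by
        intro p hp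
        rcases hp k with h4 | h4
        · rw [h4]; simp
        · rw [h4, (hB u).hl, one_mul]
      have h4 := congrFun h3 l
      simp only [map_add, map_smul, Pi.add_apply, Pi.smul_apply, smul_eq_mul, Pi.zero_apply,
        key _ (hB u).he, key _ (hB u).hf] at h4
      rw [Finset.sum_eq_single u]
      · have h5 : ∀ y z t : ZMod 2, y + z + t = 0 → y = z + t := by decide
        rw [h5 _ _ _ h4]
        ring
      · intro w _ hwu
        have hne : u.1 ≠ w.1 := fun h5 => hwu (Subtype.ext h5.symm)
        rw [Rw_orth hne haR (hB w).he, Rw_orth hne haR (hB w).hf]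
        simp
      · intro h5; exact absurd (Finset.mem_univ _) h5
    · push Not at hα
      rw [Finset.sum_eq_zero]
      · by_contra hne
        have hne' : bF B (ZMod 2) k a ≠ 0 := by
          intro h0; apply hne; rw [h0]; rfl
        obtain ⟨a', ha'', ha'a⟩ := exists_act hkV hne'
        obtain ⟨h1, h2, h3⟩ := bad_of_act ha'' ha' ha'a
        by_cases hA : TypeA B F (bF B (ZMod 2) a' a)
        · have h4 : a ∈ Pw B F (bF B (ZMod 2) a' a) :=
            hA.mem_Pw h2 ⟨a', h1, by rw [bF_comm]; exact ha'a⟩ hξa hξ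
          exact hk ⟨_, hA, fun h5 => hne' (h5 a h4)⟩
        · have h4 := hα ⟨_, h3, hA⟩
          have h5 := (hB ⟨_, h3, hA⟩).rad a h2 h4.1 h4.2
          exact ha'a (h5 a')
      · intro w _
        rw [(hα w).1, (hα w).2]
        simp

/-- The type B part lies in `U`. -/
theorem qN (l : κ) : InU B (fun x => qF B F (Nc (cP B c) x) l) := by
  have hex : ∀ w : {w // Bad B F w ∧ ¬ TypeA B F w}, ∃ e f l0, BData B F w.1 e f l0 :=
    fun w => exists_BData w.2.1 w.2.2
  choose e f l0 hB using hex
  set ε : {w // Bad B F w ∧ ¬ TypeA B F w} → (ι → ZMod 2) → F :=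
    fun w k => c2 F (bF B (ZMod 2) k (e w) (l0 w)) with hε
  set δ : {w // Bad B F w ∧ ¬ TypeA B F w} → (ι → ZMod 2) → F :=
    fun w k => c2 F (bF B (ZMod 2) k (f w) (l0 w)) with hδ
  have hεs : ∀ w k, ε w k * ε w k = ε w k := fun w k => c2_sq _
  have hδs : ∀ w k, δ w k * δ w k = δ w k := fun w k => c2_sq _
  have hεδs : ∀ w k, (ε w k * δ w k) * (ε w k * δ w k) = ε w k * δ w k := by
    intro w k
    linear_combination (δ w k * δ w k) * hεs w k + ε w k * hδs w k
  -- pointwise formula
  have hpt : ∀ x, qF B F (Nc (cP B c) x) l =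
      (∑ k, c2 F (qF B (ZMod 2) k l) * cP B c k x) * (∑ k, c2 F (qF B (ZMod 2) k l) * cP B c k x) +
      ∑ w, c2 F (w.1 l) * ((∑ k, δ w k * cP B c k x) * (∑ k, ε w k * cP B c k x) +
        (∑ k, ε w k * δ w k * cP B c k x) * (∑ k, ε w k * δ w k * cP B c k x)) := by
    intro x
    have h1 : ∑ k, ∑ k', cP B c k x * cP B c k' x * (c2 F (BK B (ZMod 2) k k' l) +
        ((if k = k' then c2 F (qF B (ZMod 2) k l) + ∑ w, c2 F (w.1 l) * (ε w k * δ w k) else 0) +
          ∑ w, c2 F (w.1 l) * (δ w k * ε w k'))) = 0 := by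
      apply sum_sym_zero
      · intro k _
        rw [if_pos rfl]
        have e1 : c2 F (BK B (ZMod 2) k k l) = c2 F (qF B (ZMod 2) k l) := rfl
        have e2 : ∑ w, c2 F (w.1 l) * (δ w k * ε w k) = ∑ w, c2 F (w.1 l) * (ε w k * δ w k) := by
          apply Finset.sum_congr rfl
          intro w _
          ring
        rw [e1, e2]
        have e3 := CharTwo.add_self_eq_zero (c2 F (qF B (ZMod 2) k l))
        have e4 := CharTwo.add_self_eq_zero (∑ w, c2 F (w.1 l) * (ε w k * δ w k))
        linear_combination e3 + e4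
      · intro k k' hk hk'
        have hk1 : cP B c k ≠ 0 := by
          intro h0; apply hk; rw [h0]; rfl
        have hk1' : cP B c k' ≠ 0 := by
          intro h0; apply hk'; rw [h0]; rfl
        obtain ⟨h2, h3⟩ := h.cP_ne hk1
        obtain ⟨-, h3'⟩ := h.cP_ne hk1'
        by_cases hkk : k = k'
        · subst hkk
          exact CharTwo.add_self_eq_zero _
        · rw [if_neg hkk, if_neg (Ne.symm hkk)]
          have e1 := h.bracket_formula hB h2 h3 l k' h3'
          have e2 : c2 F (BK B (ZMod 2) k k' l) + c2 F (BK B (ZMod 2) k' k l) =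
              ∑ w, c2 F (w.1 l) * (ε w k * δ w k' + δ w k * ε w k') := by
            rw [← c2_add]
            have e3 : BK B (ZMod 2) k k' l + BK B (ZMod 2) k' k l = bF B (ZMod 2) k k' l := rfl
            rw [e3, e1, c2_sum]
            apply Finset.sum_congr rfl
            intro w _
            rw [c2_mul, c2_add, c2_mul, c2_mul]
          have e4 : ∑ w, c2 F (w.1 l) * (ε w k * δ w k' + δ w k * ε w k') =
              ∑ w, c2 F (w.1 l) * (δ w k * ε w k') + ∑ w, c2 F (w.1 l) * (δ w k' * ε w k) := by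
            rw [← Finset.sum_add_distrib]
            apply Finset.sum_congr rfl
            intro w _
            ring
          have e5 := CharTwo.add_self_eq_zero (∑ w, c2 F (w.1 l) * (δ w k * ε w k'))
          have e6 := CharTwo.add_self_eq_zero (∑ w, c2 F (w.1 l) * (δ w k' * ε w k))
          linear_combination e2 + e4 + e5 + e6
    have h2 : ∑ k, ∑ k', cP B c k x * cP B c k' x * c2 F (BK B (ZMod 2) k k' l) =
        ∑ k, ∑ k', cP B c k x * cP B c k' x * ((if k = k' then c2 F (qF B (ZMod 2) k l) +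
          ∑ w, c2 F (w.1 l) * (ε w k * δ w k) else 0) + ∑ w, c2 F (w.1 l) * (δ w k * ε w k')) := by
      apply CharTwo.add_eq_zero.1
      refine Eq.trans ?_ h1
      rw [← Finset.sum_add_distrib]
      apply Finset.sum_congr rfl
      intro k _
      rw [← Finset.sum_add_distrib]
      apply Finset.sum_congr rfl
      intro k' _
      ring
    rw [qF_Nc, h2]
    have h3 : ∀ k, ∑ k', cP B c k x * cP B c k' x * ((if k = k' then c2 F (qF B (ZMod 2) k l) +
          ∑ w, c2 F (w.1 l) * (ε w k * δ w k) else 0) + ∑ w, c2 F (w.1 l) * (δ w k * ε w k')) =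
        c2 F (qF B (ZMod 2) k l) * (cP B c k x * cP B c k x) +
        ∑ w, c2 F (w.1 l) * ((δ w k * cP B c k x) * (∑ k', ε w k' * cP B c k' x) +
          (ε w k * δ w k) * (cP B c k x * cP B c k x)) := by
      intro k
      have e1 : ∑ k', cP B c k x * cP B c k' x * (if k = k' then c2 F (qF B (ZMod 2) k l) +
          ∑ w, c2 F (w.1 l) * (ε w k * δ w k) else 0) = cP B c k x * cP B c k x *
          (c2 F (qF B (ZMod 2) k l) + ∑ w, c2 F (w.1 l) * (ε w k * δ w k)) := by
        rw [Finset.sum_eq_single k]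
        · rw [if_pos rfl]
        · intro k' _ hk'
          rw [if_neg (Ne.symm hk'), mul_zero]
        · intro h5; exact absurd (Finset.mem_univ _) h5
      have e2 : ∑ k', cP B c k x * cP B c k' x * ∑ w, c2 F (w.1 l) * (δ w k * ε w k') =
          ∑ w, c2 F (w.1 l) * ((δ w k * cP B c k x) * (∑ k', ε w k' * cP B c k' x)) := by
        simp only [Finset.mul_sum]
        rw [Finset.sum_comm]
        apply Finset.sum_congr rfl
        intro w _
        apply Finset.sum_congr rfl
        intro k' _
        ring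
      simp only [mul_add, Finset.sum_add_distrib] at e1 e2 ⊢
      rw [e1, e2]
      have e3 : cP B c k x * cP B c k x * ∑ w, c2 F (w.1 l) * (ε w k * δ w k) =
          ∑ w, c2 F (w.1 l) * (ε w k * δ w k * (cP B c k x * cP B c k x)) := by
        rw [Finset.mul_sum]
        apply Finset.sum_congr rfl
        intro w _
        ring
      rw [e3]
      ring
    rw [Finset.sum_congr rfl (fun k _ => h3 k), Finset.sum_add_distrib, Finset.sum_comm,
      sq_sum _ _ (fun k => c2_sq _)]
    congr 1
    apply Finset.sum_congr rfl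
    intro w _
    rw [← Finset.mul_sum, Finset.sum_add_distrib, ← Finset.sum_mul,
      sq_sum _ _ (fun k => hεδs w k)]
  -- the first term
  have hY : InY B (∑ k, c2 F (qF B (ZMod 2) k l) • cP B c k) := by
    have h1 : ∑ k, c2 F (qF B (ZMod 2) k l) • cP B c k =
        ∑ k, c2 F (qF B (ZMod 2) k l) • c k +
          ∑ k, c2 F (qF B (ZMod 2) k l) • (c k + cP B c k) := by
      rw [← Finset.sum_add_distrib]
      apply Finset.sum_congr rfl
      intro k _
      apply LinearMap.ext
      intro x
      simp only [LinearMap.smul_apply, LinearMap.add_apply, smul_eq_mul]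
      have := CharTwo.add_self_eq_zero (c2 F (qF B (ZMod 2) k l) * c k x)
      linear_combination -this
    rw [h1]
    exact (h.q0 l).add (InY.sum _ _ (fun k _ => (h.cP_diff k).smul _))
  -- coefficients of type B terms
  have hcoef : ∀ (w : {w // Bad B F w ∧ ¬ TypeA B F w}) (k : ι → ZMod 2) (x : ι → F),
      δ w k * cP B c k x = δ w k * c k x ∧ ε w k * cP B c k x = ε w k * c k x ∧
        ε w k * δ w k * cP B c k x = ε w k * δ w k * c k x := by
    intro w k x
    by_cases h1 : InSA B F k
    · by_cases h2 : k ∈ orth2 B (e w) (f w)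
      · have h3 : ε w k = 0 := by simp only [hε, h2.1, Pi.zero_apply, c2_zero]
        have h4 : δ w k = 0 := by simp only [hδ, h2.2, Pi.zero_apply, c2_zero]
        rw [h3, h4]
        simp
      · rw [h.kill h1 (hB w) h2, cP_of h1]
        simp
    · rw [cP_of_not h1]
      exact ⟨rfl, rfl, rfl⟩
  refine InU.congr (InU.add hY (InU.sum Finset.univ (fun w x => c2 F (w.1 l) *
    ((∑ k, δ w k * c k x) * (∑ k, ε w k * c k x) +
        (∑ k, ε w k * δ w k * c k x) * (∑ k, ε w k * δ w k * c k x)))
    (fun w _ => InU.smul _ (h.typeB (hB w))))) ?_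
  intro x
  have e1 : qF B F (Nc (cP B c) x) l = _ := hpt x
  refine e1.trans ?_
  congr 1
  · simp only [LinearMap.sum_apply, LinearMap.smul_apply, smul_eq_mul]
  · apply Finset.sum_congr rfl
    intro w _
    rw [Finset.sum_congr rfl (fun k _ => (hcoef w k x).1),
      Finset.sum_congr rfl (fun k _ => (hcoef w k x).2.1),
      Finset.sum_congr rfl (fun k _ => (hcoef w k x).2.2)]

end CData

end Pool.Agent.Work.MP_8bb7de_al.P2
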