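import Pool.Agent.Work.MP_8bb7de_al.P2.Block3

set_option autoImplicit false
set_option linter.unusedSectionVars false
set_option linter.unusedVariables false

/-!
The structure theorem: `1 + N` is the end point of a polynomial path of similitudes.
-/

namespace Pool.Agent.Work.MP_8bb7de_al.P2

open scoped Matrix Classical

variable {ι κ : Type*} [Fintype ι] [DecidableEq ι] [Fintype κ] [DecidableEq κ]

variable {F : Type*} [Field F] [CharP F 2]

variable {B : κ → ι → ι → ZMod 2} {c : (ι → ZMod 2) → ((ι → F) →ₗ[F] F)}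

/-- Similitudes. -/
def Simil (B : κ → ι → ι → ZMod 2) (T : (ι → F) →ₗ[F] (ι → F)) : Prop :=
  ∃ ω : Matrix κ κ F, ∀ x, qF B F (T x) = ω *ᵥ qF B F x

lemma Simil.comp {T T' : (ι → F) →ₗ[F] (ι → F)} (h : Simil B T) (h' : Simil B T') :
    Simil B (T ∘ₗ T') := by
  obtain ⟨ω, hω⟩ := h
  obtain ⟨ω', hω'⟩ := h'
  refine ⟨ω * ω', fun x => ?_⟩
  rw [LinearMap.comp_apply, hω, hω', Matrix.mulVec_mulVec]

lemma simil_polar {T : (ι → F) →ₗ[F] (ι → F)} {ω : Matrix κ κ F}
    (h : ∀ x, qF B F (T x) = ω *ᵥ qF B F x) (x y : ι → F) :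
    bF B F (T x) (T y) = ω *ᵥ bF B F x y := by
  have h1 := h (x + y)
  rw [map_add, qF_add, qF_add, h x, h y, Matrix.mulVec_add, Matrix.mulVec_add] at h1
  exact add_left_cancel h1

lemma Simil.inU {T : (ι → F) →ₗ[F] (ι → F)} (h : Simil B T) {Q : (ι → F) → F} (hQ : InU B Q) :
    InU B (fun x => Q (T x)) := by
  obtain ⟨ω, hω⟩ := h
  obtain ⟨φ, hφ⟩ := hQ
  refine ⟨fun l' => ∑ l, φ l * ω l l', fun x => ?_⟩
  change Q (T x) = ∑ l', (∑ l, φ l * ω l l') * qF B F x l'
  rw [hφ, hω]
  simp only [Matrix.mulVec, dotProduct, Finset.mul_sum, Finset.sum_mul]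
  rw [Finset.sum_comm]
  apply Finset.sum_congr rfl
  intro l _
  apply Finset.sum_congr rfl
  intro l' _
  ring

lemma Nc_add (c c' : (ι → ZMod 2) → ((ι → F) →ₗ[F] F)) (x : ι → F) :
    Nc c x + Nc c' x = ∑ k, ((c k + c' k) x) • emb F k := by
  rw [Nc_apply, Nc_apply, ← Finset.sum_add_distrib]
  apply Finset.sum_congr rfl
  intro k _
  rw [LinearMap.add_apply, add_smul]

/-- Vectors of type A blocks orthogonal to all type A blocks, or active vectors. -/
lemma YP_orth {D : (ι → F) →ₗ[F] (ι → F)} (hD : D ∈ YP B F) {v : ι → F}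
    (hv : ∀ w, TypeA B F w → ∀ p ∈ PwF B F w, bF B F p v = 0) (x : ι → F) :
    bF B F (D x) v = 0 := by
  induction hD using Submodule.span_induction with
  | mem D hD =>
    obtain ⟨w, p, μ, hA, hp, -, rfl⟩ := hD
    rw [LinearMap.smulRight_apply, map_smul, LinearMap.smul_apply, hv w hA p hp, smul_zero]
  | zero => simp
  | add D D' _ _ h1 h2 => rw [LinearMap.add_apply, map_add, LinearMap.add_apply, h1, h2, add_zero]
  | smul a D _ h1 => rw [LinearMap.smul_apply, map_smul, LinearMap.smul_apply, h1, smul_zero]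

/-- The span of `Vo`. -/
def VoF (B : κ → ι → ι → ZMod 2) (F : Type*) [Field F] [CharP F 2] : Submodule F (ι → F) :=
  Submodule.span F (emb F '' (Vo B F : Set (ι → ZMod 2)))

lemma emb_mem_VoF {p : ι → ZMod 2} (hp : p ∈ Vo B F) : emb F p ∈ VoF B F :=
  Submodule.subset_span ⟨p, hp, rfl⟩

lemma PwF_le_VoF {w : κ → ZMod 2} (hw : w ≠ 0) : PwF B F w ≤ VoF B F := by
  apply Submodule.span_mono
  exact Set.image_mono (Pw_le_Vo hw)

lemma YP_mem {D : (ι → F) →ₗ[F] (ι → F)} (hD : D ∈ YP B F) (x : ι → F) : D x ∈ VoF B F := by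
  induction hD using Submodule.span_induction with
  | mem D hD =>
    obtain ⟨w, p, μ, hA, hp, -, rfl⟩ := hD
    rw [LinearMap.smulRight_apply]
    exact Submodule.smul_mem _ _ (PwF_le_VoF hA.1.1 hp)
  | zero => exact Submodule.zero_mem _
  | add D D' _ _ h1 h2 => exact Submodule.add_mem _ h1 h2
  | smul a D _ h1 => exact Submodule.smul_mem _ _ h1

lemma YP_coord {D : (ι → F) →ₗ[F] (ι → F)} (hD : D ∈ YP B F) (j : ι) :
    InY B (LinearMap.proj j ∘ₗ D) := by
  induction hD using Submodule.span_induction with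
  | mem D hD =>
    obtain ⟨w, p, μ, hA, hp, hμ, rfl⟩ := hD
    have : LinearMap.proj j ∘ₗ (μ.smulRight p) = p j • μ := by
      apply LinearMap.ext
      intro x
      rw [LinearMap.comp_apply, LinearMap.smulRight_apply, LinearMap.smul_apply, smul_eq_mul,
        mul_comm]
      rfl
    rw [this]
    exact hμ.smul _
  | zero =>
    rw [LinearMap.comp_zero]
    exact InY.zero
  | add D D' _ _ h1 h2 =>
    rw [LinearMap.comp_add]
    exact h1.add h2
  | smul a D _ h1 =>
    rw [LinearMap.comp_smul]
    exact h1.smul a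

namespace CData

variable (h : CData B c)

include h

lemma simil : Simil B (LinearMap.id + Nc c) := h.good

/-- The correction part is orthogonal to vectors orthogonal to all type A blocks. -/
lemma corr_orth {v : ι → ZMod 2} (hv : Act B F v)
    (hvA : ∀ w, TypeA B F w → v ∈ orth B (Pw B F w)) (x : ι → F) :
    bF B F (∑ k, ((c k + cP B c k) x) • emb F k) (emb F v) = 0 := by
  rw [map_sum, LinearMap.sum_apply]
  apply Finset.sum_eq_zero
  intro k _
  rw [map_smul, LinearMap.smul_apply]
  by_cases hk : InSA B F k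
  · rw [cP_of hk, add_zero]
    by_cases hkv : bF B (ZMod 2) k v = 0
    · rw [bF_emb, hkv, emb_zero, smul_zero]
    · have hck : c k = 0 := by
        by_contra hck
        have hkV : k ∈ Vo B F := by
          by_contra h1
          exact hck (h.tool2 k h1)
        obtain ⟨a, ha, hav⟩ := exists_act hkV hkv
        obtain ⟨h1, h2, h3⟩ := bad_of_act ha hv hav
        by_cases hA : TypeA B F (bF B (ZMod 2) a v)
        · obtain ⟨ξ, hξ, hξa⟩ := ha
          have h4 : a ∈ Pw B F (bF B (ZMod 2) a v) := hA.mem_Pw h1 ⟨v, h2, hav⟩ hξa hξ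
          apply hav
          rw [bF_comm]
          exact hvA _ hA a h4
        · obtain ⟨e, f, l0, hB⟩ := exists_BData h3 hA
          apply hck
          apply h.kill hk hB
          intro h4
          -- `v` is a combination of `e`, `f` and a radical vector
          have h5 := pair_decomp hB.hef hB.he hB.hf hB.hl v
          have hmem : ∀ (s : ZMod 2) (p : ι → ZMod 2), p ∈ Rw B (bF B (ZMod 2) a v) →
              s • p ∈ Rw B (bF B (ZMod 2) a v) := by
            intro s p hp
            rcases zmod2_cases s with h6 | h6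
            · rw [h6, zero_smul]; exact AddSubgroup.zero_mem _
            · rw [h6, one_smul]; exact hp
          have h6 := hB.rad _ (AddSubgroup.add_mem _ (AddSubgroup.add_mem _ h2
            (hmem _ _ hB.he)) (hmem _ _ hB.hf)) h5.1 h5.2
          have h7 := h6 k
          simp only [map_add, map_smul, h4.1, h4.2, smul_zero, add_zero] at h7
          exact hkv h7
      rw [hck, LinearMap.zero_apply, zero_smul]
  · rw [cP_of_not hk]
    have : (c k + c k) x = 0 := CharTwo.add_self_eq_zero _
    rw [this, zero_smul]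

/-- The structure theorem. -/
theorem isPath : IsPath B (LinearMap.id + Nc c) := by
  obtain ⟨L, hL, hmax⟩ := exists_maximal_hypList B F
  obtain ⟨g, k, H, hfix⟩ := witt h.piso L hL
  set T : (ι → F) →ₗ[F] (ι → F) := LinearMap.id + Nc c with hT
  set T1 : (ι → F) →ₗ[F] (ι → F) := g ∘ₗ T with hT1
  set N1 : (ι → F) →ₗ[F] (ι → F) := LinearMap.id + T1 with hN1
  have hT1N : LinearMap.id + N1 = T1 := by
    apply LinearMap.ext
    intro x
    rw [hN1, LinearMap.add_apply, LinearMap.add_apply, ← add_assoc]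
    have : (LinearMap.id : (ι → F) →ₗ[F] (ι → F)) x + (LinearMap.id : (ι → F) →ₗ[F] (ι → F)) x = 0 :=
      vadd_self x
    rw [this, zero_add]
  have hkT1 : k ∘ₗ T1 = T := by
    rw [hT1, ← LinearMap.comp_assoc, H.inv, LinearMap.id_comp]
  obtain ⟨ω1, hω1⟩ : Simil B T1 := by
    have h1 : Simil B g := H.isPath'.simil
    exact h1.comp h.simil
  have hpol := simil_polar hω1
  -- the list is fixed by `T1`
  have hfix1 : ∀ t ∈ L, T1 (emb F t.2.1) = emb F t.2.1 ∧ T1 (emb F t.2.2) = emb F t.2.2 := hfix
  have hωw : ∀ t ∈ L, ω1 *ᵥ emb F t.1 = emb F t.1 := by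
    intro t ht
    have h1 := hpol (emb F t.2.1) (emb F t.2.2)
    rw [(hfix1 t ht).1, (hfix1 t ht).2, bF_emb, (hL.mem ht).2.2.2] at h1
    exact h1.symm
  have hN1perp : ∀ s ∈ vecs L, ∀ x, bF B F (N1 x) (emb F s) = 0 := by
    rintro s ⟨t, ht, hs⟩ x
    have hA := (hL.mem ht).1
    obtain ⟨l0, hl0⟩ := exists_l0 hA.1.1
    have hsR : s ∈ Rw B t.1 := by
      rcases hs with hs | hs
      · rw [hs]; exact (hL.mem ht).2.1.1
      · rw [hs]; exact (hL.mem ht).2.2.1.1
    have hsT : T1 (emb F s) = emb F s := by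
      rcases hs with hs | hs
      · rw [hs]; exact (hfix1 t ht).1
      · rw [hs]; exact (hfix1 t ht).2
    have h1 := hpol x (emb F s)
    rw [hsT, bF_of_Rw hl0 hsR x, Matrix.mulVec_smul, hωw t ht, ← bF_of_Rw hl0 hsR x] at h1
    rw [hN1, LinearMap.add_apply, map_add, LinearMap.add_apply, h1]
    exact vadd_self _
  -- the correction operator
  set D : (ι → F) →ₗ[F] (ι → F) := LinearMap.id + g with hD
  have hDYP : D ∈ YP B F := H.YP
  set N' : (ι → F) →ₗ[F] (ι → F) := Nc (cP B c) with hN'
  set M1 : (ι → F) →ₗ[F] (ι → F) := N1 + N' with hM1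
  have hM1x : ∀ x, M1 x = (∑ k, ((c k + cP B c k) x) • emb F k) + D (T x) := by
    intro x
    rw [← Nc_add, hM1, hN1, hD, hT1, hN']
    simp only [LinearMap.add_apply, LinearMap.id_apply, LinearMap.comp_apply]
    have h1 : T x = x + Nc c x := rfl
    rw [h1]
    have h2 := vadd_self (Nc c x)
    calc x + g (x + Nc c x) + Nc (cP B c) x
        = (Nc c x + Nc c x) + (x + g (x + Nc c x) + Nc (cP B c) x) := by rw [h2, zero_add]
      _ = _ := by abel
  have hN'V : ∀ x, N' x ∈ VoF B F := by
    intro x
    rw [hN', Nc_apply]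
    apply Submodule.sum_mem
    intro k _
    by_cases hk : cP B c k = 0
    · rw [hk, LinearMap.zero_apply, zero_smul]
      exact Submodule.zero_mem _
    · exact Submodule.smul_mem _ _ (emb_mem_VoF (h.cP_ne hk).2)
  have hM1V : ∀ x, M1 x ∈ VoF B F := by
    intro x
    rw [hM1x]
    apply Submodule.add_mem
    · apply Submodule.sum_mem
      intro k _
      by_cases hk : k ∈ Vo B F
      · exact Submodule.smul_mem _ _ (emb_mem_VoF hk)
      · have h1 : cP B c k = 0 := by
          by_contra h1
          exact hk (h.cP_ne h1).2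
        rw [h.tool2 k hk, h1, add_zero, LinearMap.zero_apply, zero_smul]
        exact Submodule.zero_mem _
    · exact YP_mem hDYP _
  have hM1Y : ∀ j, InY B (LinearMap.proj j ∘ₗ M1) := by
    intro j
    have h1 : InY B (LinearMap.proj j ∘ₗ D ∘ₗ T) := by
      have h2 := h.simil.inU (YP_coord hDYP j)
      exact h2
    have h2 : LinearMap.proj j ∘ₗ M1 = (∑ k, c2 F (k j) • (c k + cP B c k)) +
        (LinearMap.proj j ∘ₗ D ∘ₗ T : (ι → F) →ₗ[F] F) := by
      apply LinearMap.ext
      intro x
      change M1 x j = (∑ k, c2 F (k j) • (c k + cP B c k)) x + D (T x) j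
      rw [hM1x x, Pi.add_apply, Finset.sum_apply, LinearMap.sum_apply]
      congr 1
      apply Finset.sum_congr rfl
      intro k _
      rw [Pi.smul_apply, emb_apply, smul_eq_mul, LinearMap.smul_apply, smul_eq_mul, mul_comm]
    rw [h2]
    exact (InY.sum _ _ (fun k _ => (h.cP_diff k).smul _)).add h1
  -- `M1` is orthogonal to the list
  have hN'perp : ∀ w, TypeA B F w → ∀ p ∈ Pw B F w, ∀ x, bF B F (N' x) (emb F p) = 0 := by
    intro w hA p hp x
    rw [hN', Nc_apply, map_sum, LinearMap.sum_apply]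
    apply Finset.sum_eq_zero
    intro k _
    rw [map_smul, LinearMap.smul_apply]
    by_cases hk : InSA B F k
    · rw [cP_of hk, LinearMap.zero_apply, zero_smul]
    · have h1 : k ∈ orth B (Pw B F w) := by
        by_contra h1
        exact hk ⟨w, hA, h1⟩
      rw [bF_emb, h1 p hp, emb_zero, smul_zero]
  have hM1L : ∀ s ∈ vecs L, ∀ x, bF B F (M1 x) (emb F s) = 0 := by
    intro s hs x
    obtain ⟨t, ht, hs'⟩ := hs
    have hmem := hL.mem ht
    have hsP : s ∈ Pw B F t.1 := by
      rcases hs' with h1 | h1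
      · rw [h1]; exact hmem.2.1
      · rw [h1]; exact hmem.2.2.1
    rw [hM1, LinearMap.add_apply, map_add, LinearMap.add_apply, hN1perp s ⟨t, ht, hs'⟩ x,
      hN'perp _ hmem.1 s hsP x, add_zero]
  -- `M1` is orthogonal to active vectors orthogonal to all type A blocks
  have hcase2 : ∀ v, Act B F v → (∀ w, TypeA B F w → v ∈ orth B (Pw B F w)) → ∀ x,
      bF B F (M1 x) (emb F v) = 0 := by
    intro v hv hvA x
    rw [hM1x, map_add, LinearMap.add_apply, h.corr_orth hv hvA x, zero_add]
    apply YP_orth hDYP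
    intro w hA p hp
    induction hp using Submodule.span_induction with
    | mem y hy =>
      obtain ⟨p, hp, rfl⟩ := hy
      rw [bF_emb, bF_comm, hvA w hA p hp, emb_zero]
    | zero => simp
    | add y z _ _ h1 h2 => rw [map_add, LinearMap.add_apply, h1, h2, add_zero]
    | smul a y _ h1 => rw [map_smul, LinearMap.smul_apply, h1, smul_zero]
  have hM1act : ∀ v, Act B F v → ∀ x, bF B F (M1 x) (emb F v) = 0 := by
    intro v hv x
    by_cases hcase : ∃ w, TypeA B F w ∧ v ∉ orth B (Pw B F w)
    · obtain ⟨w, hA, hvo⟩ := hcase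
      obtain ⟨ξ, hξ, hξv⟩ := hv
      have hvP := (hA.orth_case hvo hξ hξv).1
      obtain ⟨v', hv', c', hc', hvc, hperp⟩ := exists_proj hL hA hvP
      have h1 := maximal_rad hL hmax hA hv' hperp
      have h2 : ∀ w', TypeA B F w' → v' ∈ orth B (Pw B F w') := by
        intro w' hA'
        by_cases hww : w = w'
        · rw [← hww]; exact h1
        · intro p hp
          exact Rw_orth hww hv'.1 hp.1
      have h3 : bF B F (M1 x) (emb F v') = 0 := by
        by_cases hr : v' ∈ Rad B
        · have h4 : lam B F = lam B F := rfl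
          ext l
          have h5 : lam B F l v' = 0 := by
            apply ext_lattice
            intro y
            rw [lam_emb, hr y]
            simp
          have h6 := LinearMap.congr_fun h5 (M1 x)
          exact h6
        · exact hcase2 v' (act_of_Pw hA.1.1 hv' hr) h2 x
      have h4 : ∀ c' ∈ AddSubgroup.closure (vecs L), bF B F (M1 x) (emb F c') = 0 := by
        intro c' hc'
        induction hc' using AddSubgroup.closure_induction with
        | mem s hs => exact hM1L s hs x
        | zero => simp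
        | add y z _ _ h5 h6 => rw [emb_add, map_add, h5, h6, add_zero]
        | neg y _ h5 => rw [vneg_eq]; exact h5
      rw [hvc, emb_add, map_add, h3, h4 c' hc', add_zero]
    · push Not at hcase
      exact hcase2 v hv hcase x
  have hM1Vo : ∀ v ∈ Vo B F, ∀ x, bF B F (M1 x) (emb F v) = 0 := by
    intro v hv x
    induction hv using AddSubgroup.closure_induction with
    | mem s hs => exact hM1act s hs x
    | zero => simp
    | add y z _ _ h5 h6 => rw [emb_add, map_add, h5, h6, add_zero]
    | neg y _ h5 => rw [vneg_eq]; exact h5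
  have hM1VoF : ∀ y ∈ VoF B F, ∀ x, bF B F (M1 x) y = 0 := by
    intro y hy x
    induction hy using Submodule.span_induction with
    | mem y hy =>
      obtain ⟨p, hp, rfl⟩ := hy
      exact hM1Vo p hp x
    | zero => simp
    | add y z _ _ h1 h2 => rw [map_add, h1, h2, add_zero]
    | smul a y _ h1 => rw [map_smul, h1, smul_zero]
  -- conclusion
  have hN1x : ∀ x, N1 x = N' x + M1 x := by
    intro x
    have e : M1 x = N1 x + N' x := rfl
    rw [e]
    have := vadd_self (N' x)
    calc N1 x = (N' x + N' x) + N1 x := by rw [this, zero_add]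
      _ = _ := by abel
  have hq1 : ∀ l, InU B (fun x => qF B F (N1 x) l) := by
    intro l
    refine InU.congr (InU.add (h.qN l)
      (InU_of_isotropic hM1Y (fun x y => hM1VoF _ (hM1V y) x) l)) ?_
    intro x
    rw [hN1x, qF_add, bF_comm, hM1VoF _ (hN'V x) x]
    simp only [Pi.add_apply, Pi.zero_apply, add_zero]
    rfl
  have hq2 : ∀ l, InU B (fun x => bF B F x (N1 x) l) := by
    intro l
    have h1 : InU B (fun x => qF B F (T1 x) l) := by
      refine ⟨fun l' => ω1 l l', fun x => ?_⟩
      change qF B F (T1 x) l = ∑ l', ω1 l l' * qF B F x l'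
      rw [hω1]
      rfl
    refine InU.congr (InU.add (InU.add h1 (InU.qF l)) (hq1 l)) ?_
    intro x
    have h2 : T1 x = x + N1 x := by
      conv_lhs => rw [← hT1N]
      rfl
    have h3 := congrFun (qF_add (B := B) x (N1 x)) l
    rw [← h2] at h3
    simp only [Pi.add_apply] at h3
    have h4 := CharTwo.add_self_eq_zero (qF B F x l)
    have h5 := CharTwo.add_self_eq_zero (qF B F (N1 x) l)
    linear_combination -h3 - h4 - h5
  have h1 : IsPath B T1 := by
    rw [← hT1N]
    exact isPath_of hq1 hq2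
  rw [← hkT1]
  exact H.isPath.comp h1

end CData

end Pool.Agent.Work.MP_8bb7de_al.P2
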