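import Pool.Agent.Work.MP_8bb7de_al.P2.HSide3

set_option autoImplicit false
set_option linter.unusedSectionVars false
set_option linter.unusedVariables false

/-!
Derivations of the group algebra and admissible functionals.
-/

namespace Pool.Agent.Work.MP_8bb7de_al.P2

open MonoidAlgebra
open scoped Matrix

variable {ι κ : Type*} [Fintype ι] [DecidableEq ι] [Fintype κ] [DecidableEq κ]

/-- Separation of a vector from a pair. -/
lemma exists_phi {w w1 : κ → ZMod 2} (h0 : w ≠ 0) (h1 : w ≠ w1) :
    ∃ φ : (κ → ZMod 2) →+ ZMod 2, φ w1 = 0 ∧ φ w = 1 := by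
  obtain ⟨l, hl⟩ := Function.ne_iff.1 h1
  obtain ⟨l', hl'⟩ := exists_l0 h0
  rcases zmod2_cases (w l) with h2 | h2
  · have h3 : w1 l = 1 := by
      rcases zmod2_cases (w1 l) with h3 | h3
      · exact absurd (h2.trans h3.symm) hl
      · exact h3
    rcases zmod2_cases (w1 l') with h4 | h4
    · exact ⟨ev0' κ l', h4, hl'⟩
    · refine ⟨ev0' κ l + ev0' κ l', ?_, ?_⟩
      · rw [AddMonoidHom.add_apply, ev0'_apply, ev0'_apply, h3, h4]; decide
      · rw [AddMonoidHom.add_apply, ev0'_apply, ev0'_apply, h2, hl']; decide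
  · have h3 : w1 l = 0 := by
      rcases zmod2_cases (w1 l) with h3 | h3
      · exact h3
      · exact absurd (h2.trans h3.symm) hl
    exact ⟨ev0' κ l, h3, h2⟩

section ext

variable {F : Type*} [Field F] [CharP F 2]

/-- Linear extension of an additive function on the lattice. -/
def latExt (θ : (ι → ZMod 2) →+ F) : (ι → F) →ₗ[F] F :=
  ∑ i, θ (Pi.single i 1) • LinearMap.proj i

lemma latExt_emb (θ : (ι → ZMod 2) →+ F) (v : ι → ZMod 2) : latExt θ (emb F v) = θ v := by
  rw [latExt, LinearMap.sum_apply]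
  conv_rhs => rw [← Finset.univ_sum_single v]
  rw [map_sum]
  apply Finset.sum_congr rfl
  intro i _
  rw [LinearMap.smul_apply, smul_eq_mul]
  change θ (Pi.single i 1) * emb F v i = _
  rcases zmod2_cases (v i) with h | h
  · rw [h, Pi.single_zero, map_zero, emb_apply, h, c2_zero, mul_zero]
  · rw [h, emb_apply, h, c2_one, mul_one]

end ext

variable {F : Type*} [Field F] [CharP F 2] {G : Type*} [Group G] {B : κ → ι → ι → ZMod 2}
  (D : GData G B) {δ : MonoidAlgebra F G →ₗ[F] MonoidAlgebra F G}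

/-- The image of the logarithmic derivative in the small group algebra. -/
noncomputable def Xi (D : GData G B) (δ : MonoidAlgebra F G →ₗ[F] MonoidAlgebra F G) (g : G) :
    VA F ι := gpi F D (logD δ g)

lemma vs_self (x : ι → ZMod 2) : (vs x 1 : VA F ι) * vs x 1 = 1 := by
  rw [vs_mul, vadd_self, mul_one]
  rfl

lemma Xi_mul (hδ : IsDer δ) (g h : G) : Xi D δ (g * h) = Xi D δ g + Xi D δ h := by
  unfold Xi
  rw [logD_mul hδ, map_add, map_mul, map_mul, gpi_single, gpi_single, D.v_inv]
  congr 1
  have := vs_self (F := F) (D.v g)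
  linear_combination (gpi F D (logD δ h)) * this

lemma Xi_one (hδ : IsDer δ) : Xi D δ 1 = 0 := by
  have := Xi_mul D hδ 1 1
  rw [mul_one] at this
  exact left_eq_add.1 this

lemma Xi_of_v (hδ : IsDer δ) {z : G} (hz : D.v z = 0) : Xi D δ z = 0 := by
  have h := D.gen z hz
  clear hz
  induction h using Subgroup.closure_induction with
  | mem x hx =>
    obtain ⟨h, rfl⟩ := hx
    rw [Xi_mul D hδ]
    exact va_add_self _
  | one => exact Xi_one D hδ
  | mul x y _ _ hx hy => rw [Xi_mul D hδ, hx, hy, add_zero]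
  | inv x _ hx =>
    have h1 := Xi_mul D hδ x x⁻¹
    rw [mul_inv_cancel, Xi_one D hδ, hx, zero_add] at h1
    exact h1.symm

lemma Xi_eq (hδ : IsDer δ) {g h : G} (hv : D.v g = D.v h) : Xi D δ g = Xi D δ h := by
  have h1 : D.v (h⁻¹ * g) = 0 := by
    rw [D.v_mul, D.v_inv, hv]
    exact vadd_self _
  have h2 : g = h * (h⁻¹ * g) := by group
  rw [h2, Xi_mul D hδ, Xi_of_v D hδ h1, add_zero]

/-- The coefficient functions. -/
noncomputable def xi (D : GData G B) (hδ : IsDer δ) (k : ι → ZMod 2) : (ι → ZMod 2) →+ F :=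
  AddMonoidHom.mk' (fun x => (Xi D δ (D.s x)).coeff k) (by
    intro x y
    rw [← coeff_add', ← Xi_mul D hδ]
    congr 2
    apply Xi_eq D hδ
    rw [D.v_mul, D.v_s, D.v_s, D.v_s])

lemma xi_apply (hδ : IsDer δ) (k x : ι → ZMod 2) : xi D hδ k x = (Xi D δ (D.s x)).coeff k := rfl

lemma xi_v (hδ : IsDer δ) (k : ι → ZMod 2) (g : G) : xi D hδ k (D.v g) = (Xi D δ g).coeff k := by
  rw [xi_apply]
  congr 2
  exact Xi_eq D hδ (D.v_s _)

lemma logD_central (hδ : IsDer δ) {z : G} (hz : D.v z = 0) (g : G) :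
    single g 1 * logD δ z * single g⁻¹ 1 = logD δ z := by
  have h1 := logD_mul hδ g z
  have h2 := logD_mul hδ z g
  rw [D.central z hz g] at h1
  have h3 : single z 1 * logD δ g * single z⁻¹ 1 = logD δ g := by
    ext y
    rw [conj_coeff]
    congr 1
    have h4 := D.central z hz y
    calc z⁻¹ * y * z = z⁻¹ * (y * z) := by group
      _ = z⁻¹ * (z * y) := by rw [h4]
      _ = y := by group
  rw [h3] at h2
  have h5 := h1.symm.trans h2
  rw [add_comm] at h5
  exact add_right_cancel h5

lemma logD_mul_central (hδ : IsDer δ) {z : G} (hz : D.v z = 0) (g : G) :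
    logD δ (g * z) = logD δ g + logD δ z := by
  rw [logD_mul hδ, logD_central D hδ hz]

lemma tau_logD_sq (hδ : IsDer δ) (φ : (κ → ZMod 2) →+ ZMod 2) (g : G) (k : ι → ZMod 2) :
    (tau F D φ (logD δ (g * g))).coeff k =
      c2 F (φ (bF B (ZMod 2) (D.v g) k)) * (Xi D δ g).coeff k := by
  rw [logD_mul hδ, tau_conj]
  rfl

lemma tau_coeff [Fintype G] (φ : (κ → ZMod 2) →+ ZMod 2) (a : MonoidAlgebra F G)
    (k : ι → ZMod 2) : (tau F D φ a).coeff k =
      ∑ y, if D.v y = k then a.coeff y * c2 F (φ (D.f y)) else 0 := by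
  classical
  induction a using MonoidAlgebra.induction_linear with
  | zero => simp
  | add a b ha hb =>
    rw [map_add, coeff_add', ha, hb, ← Finset.sum_add_distrib]
    apply Finset.sum_congr rfl
    intro y _
    split_ifs
    · rw [MonoidAlgebra.coeff_add, Finsupp.add_apply, add_mul]
    · rw [add_zero]
  | single g r =>
    rw [tau_single, vs_coeff, Finset.sum_eq_single g]
    · rw [MonoidAlgebra.coeff_single, Finsupp.single_apply, if_pos rfl, mul_comm]
    · intro y _ hy
      rw [MonoidAlgebra.coeff_single, Finsupp.single_apply, if_neg (Ne.symm hy), zero_mul, ite_self]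
    · intro h; exact absurd (Finset.mem_univ _) h

/-- Vanishing of coefficients of central elements. -/
lemma central_coeff [Fintype G] {a : MonoidAlgebra F G} {g : G}
    (ha : single g 1 * a * single g⁻¹ 1 = a) {k : ι → ZMod 2}
    (hg : bF B (ZMod 2) (D.v g) k ≠ 0) {φ : (κ → ZMod 2) →+ ZMod 2}
    (hφ : φ (bF B (ZMod 2) (D.v g) k) = 0) : (tau F D φ a).coeff k = 0 := by
  classical
  rw [tau_coeff]
  have hvc : ∀ y, D.v (g⁻¹ * y * g) = D.v y := by
    intro y
    rw [D.v_mul, D.v_mul, D.v_inv, add_comm (D.v g), add_assoc, vadd_self, add_zero]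
  have hfc : ∀ y, D.v y = k → D.f (g⁻¹ * y * g) = D.f y + bF B (ZMod 2) (D.v g) k := by
    intro y hy
    have h1 := D.f_conj g⁻¹ y
    rw [inv_inv, D.v_inv, hy] at h1
    exact h1
  apply Finset.sum_involution (fun y _ => g⁻¹ * y * g)
  · intro y _
    rw [hvc]
    split_ifs with h
    · rw [hfc y h, map_add, hφ, add_zero]
      have h1 : a.coeff (g⁻¹ * y * g) = a.coeff y := by
        rw [← conj_coeff, ha]
      rw [h1]
      exact CharTwo.add_self_eq_zero _
    · exact add_zero 0
  · intro y _ hne heq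
    by_cases h : D.v y = k
    · have h1 := hfc y h
      rw [heq] at h1
      exact hg (left_eq_add.1 h1)
    · rw [if_neg h] at hne
      exact hne rfl
  · intro y _; exact Finset.mem_univ _
  · intro y _
    have h1 := D.central (g * g) (D.v_sq g) y
    calc g⁻¹ * (g⁻¹ * y * g) * g = (g * g)⁻¹ * (y * (g * g)) := by group
      _ = (g * g)⁻¹ * ((g * g) * y) := by rw [h1]
      _ = y := by group

/-- The coefficient functionals of a derivation are admissible. -/
theorem adm_xi [Finite G] (hδ : IsDer δ) (k : ι → ZMod 2) : Adm B F k (latExt (xi D hδ k)) := by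
  have : Fintype G := Fintype.ofFinite G
  constructor
  · intro l
    choose z hz hzf using D.surj_f
    have huniq : ∀ a b, D.v a = 0 → D.v b = 0 → D.f a = D.f b → a = b := by
      intro a b ha hb hab
      have h1 : D.v (b⁻¹ * a) = 0 := by
        rw [D.v_mul, D.v_inv, ha, hb, add_zero]
      have h2 : D.f a = D.f b + D.f (b⁻¹ * a) := by
        rw [← D.f_mul _ _ h1]; congr 1; group
      rw [hab] at h2
      exact (inv_mul_eq_one.1 (D.inj _ h1 (left_eq_add.1 h2))).symm
    let ψ : (κ → ZMod 2) →+ F := AddMonoidHom.mk'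
      (fun w => (tau F D (ev0' κ l) (logD δ (z w))).coeff k) (by
        intro a b
        have h1 : z (a + b) = z a * z b := by
          apply huniq
          · exact hz _
          · rw [D.v_mul, hz, hz, add_zero]
          · rw [hzf, D.f_mul _ _ (hz b), hzf, hzf]
        rw [h1, logD_mul_central D hδ (hz b), map_add, coeff_add'])
    apply InU.of_lattice (IsQuad.mul _ _) ψ
    intro v
    rw [latExt_emb, lam_emb]
    have h1 : z (qF B (ZMod 2) v) = D.s v * D.s v := by
      apply huniq
      · exact hz _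
      · exact D.v_sq _
      · rw [hzf, D.sq, D.v_s]
    change _ = (tau F D (ev0' κ l) (logD δ (z (qF B (ZMod 2) v)))).coeff k
    rw [h1, tau_logD_sq D hδ, D.v_s, xi_apply, mul_comm]
    rfl
  · intro hne v1 v2 h1 h2
    by_contra h12
    have hA : ∀ v v1 : ι → ZMod 2, bF B (ZMod 2) v1 k ≠ 0 → bF B (ZMod 2) v k ≠ 0 →
        bF B (ZMod 2) v k ≠ bF B (ZMod 2) v1 k → xi D hδ k v = 0 := by
      intro v v1 h1 h0 hne
      obtain ⟨φ, hφ1, hφ2⟩ := exists_phi h0 hne
      have h3 := central_coeff D (logD_central D hδ (D.v_sq (D.s v)) (D.s v1)) (k := k) (φ := φ)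
        (by rw [D.v_s]; exact h1) (by rw [D.v_s]; exact hφ1)
      rw [tau_logD_sq D hδ, D.v_s, hφ2, c2_one, one_mul] at h3
      exact h3
    have hex : ∃ v0, xi D hδ k v0 ≠ 0 := by
      by_contra hno
      push Not at hno
      apply hne
      apply ext_lattice
      intro v
      rw [latExt_emb, hno]
      rfl
    obtain ⟨v0, hv0⟩ := hex
    have h0 : bF B (ZMod 2) v0 k = 0 := by
      by_contra h0
      by_cases h3 : bF B (ZMod 2) v0 k = bF B (ZMod 2) v1 k
      · exact hv0 (hA v0 v2 h2 h0 (by rw [h3]; exact h12))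
      · exact hv0 (hA v0 v1 h1 h0 h3)
    have h4 := hA v1 v2 h2 h1 h12
    have h5 : xi D hδ k (v0 + v1) = 0 := by
      apply hA (v0 + v1) v2 h2
      · rw [map_add, LinearMap.add_apply, h0, zero_add]; exact h1
      · rw [map_add, LinearMap.add_apply, h0, zero_add]; exact h12
    rw [map_add, h4, add_zero] at h5
    exact hv0 h5

end Pool.Agent.Work.MP_8bb7de_al.P2
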