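import Pool.Agent.Work.MP_8bb7de_al.P2.Der1

set_option autoImplicit false
set_option linter.unusedSectionVars false
set_option linter.unusedVariables false

/-!
The two vanishing tools.
-/

namespace Pool.Agent.Work.MP_8bb7de_al.P2

open MonoidAlgebra
open scoped Matrix

variable {ι κ : Type*} [Fintype ι] [DecidableEq ι] [Fintype κ] [DecidableEq κ]

section InV

variable {F : Type*} [Field F] [CharP F 2]

/-- Elements supported on a subgroup. -/
def InV (V' : AddSubgroup (ι → ZMod 2)) (a : VA F ι) : Prop := ∀ m, m ∉ V' → a.coeff m = 0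

lemma InV.add {V' : AddSubgroup (ι → ZMod 2)} {a b : VA F ι} (ha : InV V' a) (hb : InV V' b) :
    InV V' (a + b) := by
  intro m hm
  rw [coeff_add', ha m hm, hb m hm, add_zero]

lemma InV.smul {V' : AddSubgroup (ι → ZMod 2)} {a : VA F ι} (r : F) (ha : InV V' a) :
    InV V' (r • a) := by
  intro m hm
  rw [coeff_smul', ha m hm, mul_zero]

lemma InV.zero {V' : AddSubgroup (ι → ZMod 2)} : InV V' (0 : VA F ι) := fun _ _ => rfl

lemma InV.sum {V' : AddSubgroup (ι → ZMod 2)} {α : Type*} {s : Finset α} {f : α → VA F ι}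
    (h : ∀ i ∈ s, InV V' (f i)) : InV V' (∑ i ∈ s, f i) := by
  intro m hm
  rw [coeff_sum']
  exact Finset.sum_eq_zero (fun i hi => h i hi m hm)

lemma InV.mul {V' : AddSubgroup (ι → ZMod 2)} {a b : VA F ι} (ha : InV V' a) (hb : InV V' b) :
    InV V' (a * b) := by
  intro m hm
  rw [coeff_mul']
  apply Finset.sum_eq_zero
  intro k _
  by_cases hk : k ∈ V'
  · have h1 : m + k ∉ V' := by
      intro h1
      apply hm
      have h2 := V'.add_mem h1 hk
      rwa [add_assoc, vadd_self, add_zero] at h2
    rw [hb _ h1, mul_zero]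
  · rw [ha _ hk, zero_mul]

lemma InV.vs {V' : AddSubgroup (ι → ZMod 2)} {x : ι → ZMod 2} (hx : x ∈ V') (r : F) :
    InV V' (vs x r) := by
  intro m hm
  rw [vs_coeff, if_neg]
  rintro rfl
  exact hm hx

lemma InV.dV {V' : AddSubgroup (ι → ZMod 2)} {a : VA F ι} (i : ι) (ha : InV V' a) :
    InV V' (P2.dV F i a) := by
  intro m hm
  rw [dV_coeff, ha m hm, mul_zero]

open scoped Classical in
/-- The restriction of the support to a subgroup. -/
noncomputable def EE (F : Type*) [Field F] (V' : AddSubgroup (ι → ZMod 2)) :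
    VA F ι →ₗ[F] VA F ι := vlin (fun x => if x ∈ V' then P2.vs x 1 else 0)

open scoped Classical in
lemma EE_coeff (V' : AddSubgroup (ι → ZMod 2)) (a : VA F ι) (m : ι → ZMod 2) :
    (EE F V' a).coeff m = if m ∈ V' then a.coeff m else 0 := by
  induction a using vind with
  | h0 => simp
  | hadd a b ha hb =>
    rw [map_add, coeff_add', ha, hb, coeff_add']
    split_ifs
    · rfl
    · rw [add_zero]
  | hs x r =>
    rw [EE, vlin_vs, coeff_smul']
    by_cases hx : x ∈ V'
    · rw [if_pos hx, vs_coeff, vs_coeff]
      by_cases hxm : x = m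
      · subst hxm
        rw [if_pos rfl, if_pos hx, if_pos rfl, mul_one]
      · rw [if_neg hxm, if_neg hxm, mul_zero, ite_self]
    · rw [if_neg hx, coeff_zero', mul_zero, vs_coeff]
      by_cases hxm : x = m
      · subst hxm
        rw [if_neg hx]
      · rw [if_neg hxm, ite_self]

lemma EE_mul (V' : AddSubgroup (ι → ZMod 2)) {a : VA F ι} (ha : InV V' a) (b : VA F ι) :
    EE F V' (a * b) = a * EE F V' b := by
  classical
  apply va_ext
  intro m
  rw [EE_coeff, coeff_mul', coeff_mul']
  simp only [EE_coeff]
  by_cases hm : m ∈ V'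
  · rw [if_pos hm]
    apply Finset.sum_congr rfl
    intro k _
    by_cases hk : k ∈ V'
    · rw [if_pos (V'.add_mem hm hk)]
    · rw [ha k hk, zero_mul, zero_mul]
  · rw [if_neg hm]
    symm
    apply Finset.sum_eq_zero
    intro k _
    by_cases hk : k ∈ V'
    · rw [if_neg, mul_zero]
      intro h1
      apply hm
      have h2 := V'.add_mem h1 hk
      rwa [add_assoc, vadd_self, add_zero] at h2
    · rw [ha k hk, zero_mul]

end InV

section eigen

variable {F : Type*} [Field F] [CharP F 2]

/-- A subspace stable under all diagonal derivations is spanned by group elements. -/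
lemma stable_span {A : Type*} [Group A] (hA : ∀ a : A, a * a = 1)
    (S : Submodule F (MonoidAlgebra F A))
    (hS : ∀ η : A → F, IsAddChar η → ∀ b ∈ S, diagDer η b ∈ S) :
    ∀ (n : ℕ) (b : MonoidAlgebra F A), b.coeff.support.card = n → b ∈ S →
      ∀ q, b.coeff q ≠ 0 → single q 1 ∈ S := by
  classical
  intro n
  induction n using Nat.strong_induction_on with
  | _ n ih =>
    intro b hn hb q hq
    by_cases hone : ∀ q', b.coeff q' ≠ 0 → q' = q
    · have h1 : b = single q (b.coeff q) := by
        ext x
        rw [MonoidAlgebra.coeff_single, Finsupp.single_apply]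
        split_ifs with hx
        · rw [hx]
        · by_contra hne
          exact hx (hone x hne).symm
      have h2 : (single q 1 : MonoidAlgebra F A) = (b.coeff q)⁻¹ • b := by
        conv_rhs => rw [h1]
        rw [smul_single', MonoidAlgebra.coeff_single, Finsupp.single_apply, if_pos rfl,
          inv_mul_cancel₀ hq]
      rw [h2]
      exact S.smul_mem _ hb
    · push Not at hone
      obtain ⟨q', hq', hne⟩ := hone
      -- a character with values in the prime field separating the two
      have hqq : q' * q⁻¹ ≠ 1 := fun h => hne (mul_inv_eq_one.1 h)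
      obtain ⟨η, hη, hη1⟩ : ∃ η : A → ZMod 2, IsAddChar η ∧ η (q' * q⁻¹) ≠ 0 :=
        exists_addChar_ne (p := 2) (ZMod 2) (comm_of_sq hA)
          (fun a => by rw [pow_two]; exact hA a) hqq
      let η' : A → F := fun a => c2 F (η a)
      have hη' : IsAddChar η' := fun a b => by
        simp only [η', hη a b, c2_add]
      have hneq : η q' ≠ η q := by
        intro h
        apply hη1
        rw [hη, hη.inv, h, add_neg_cancel]
      have hd := hS η' hη' b hb
      -- the two parts
      have key : ∀ (t : ZMod 2), ∃ b' ∈ S, ∀ x, b'.coeff x = if η x = t then b.coeff x else 0 := by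
        intro t
        rcases zmod2_cases t with ht | ht
        · refine ⟨b + diagDer η' b, S.add_mem hb hd, ?_⟩
          intro x
          rw [MonoidAlgebra.coeff_add, Finsupp.add_apply, diagDer_coeff, ht]
          rcases zmod2_cases (η x) with hx | hx
          · rw [if_pos hx]
            simp [η', hx]
          · rw [if_neg (by rw [hx]; decide)]
            simp only [η', hx, c2_one, one_mul]
            exact CharTwo.add_self_eq_zero _
        · refine ⟨diagDer η' b, hd, ?_⟩
          intro x
          rw [diagDer_coeff, ht]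
          rcases zmod2_cases (η x) with hx | hx
          · rw [if_neg (by rw [hx]; decide)]
            simp [η', hx]
          · rw [if_pos hx]
            simp only [η', hx, c2_one, one_mul]
      obtain ⟨b', hb', hb'c⟩ := key (η q)
      have hlt : b'.coeff.support.card < n := by
        rw [← hn]
        apply Finset.card_lt_card
        rw [Finset.ssubset_iff_of_subset]
        · refine ⟨q', Finsupp.mem_support_iff.2 hq', ?_⟩
          rw [Finsupp.notMem_support_iff, hb'c, if_neg hneq]
        · intro x hx
          rw [Finsupp.mem_support_iff, hb'c] at hx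
          rw [Finsupp.mem_support_iff]
          intro h0
          apply hx
          rw [h0, ite_self]
      exact ih _ hlt b' rfl hb' q (by rw [hb'c, if_pos rfl]; exact hq)

end eigen

section main

variable {F : Type*} [Field F] [CharP F 2] {G : Type*} [Group G] {B : κ → ι → ι → ZMod 2}
  (D : GData G B)

/-- The derivation induced on the small group algebra. -/
noncomputable def dbar (D : GData G B) (δ : MonoidAlgebra F G →ₗ[F] MonoidAlgebra F G) :
    VA F ι →ₗ[F] VA F ι := vlin (fun x => Xi D δ (D.s x) * vs x 1)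

lemma dbar_vs (δ : MonoidAlgebra F G →ₗ[F] MonoidAlgebra F G) (x : ι → ZMod 2) (r : F) :
    dbar D δ (vs x r) = r • (Xi D δ (D.s x) * vs x 1) := vlin_vs _ _ _

lemma gpi_delta {δ : MonoidAlgebra F G →ₗ[F] MonoidAlgebra F G} (hδ : IsDer δ)
    (a : MonoidAlgebra F G) : gpi F D (δ a) = dbar D δ (gpi F D a) := by
  induction a using MonoidAlgebra.induction_linear with
  | zero => simp
  | add a b ha hb => rw [map_add, map_add, ha, hb, map_add, map_add]
  | single g r =>
    have h1 : (single g r : MonoidAlgebra F G) = r • single g 1 := by simp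
    rw [h1, map_smul, map_smul, map_smul, delta_single, map_mul, gpi_single, map_smul, dbar_vs,
      one_smul, Xi_eq D hδ (D.v_s (D.v g))]
    rfl

lemma Xi_expand {δ : MonoidAlgebra F G →ₗ[F] MonoidAlgebra F G} (hδ : IsDer δ)
    (x : ι → ZMod 2) : Xi D δ (D.s x) = ∑ i, c2 F (x i) • Xi D δ (D.s (Pi.single i 1)) := by
  let θ : (ι → ZMod 2) →+ VA F ι := AddMonoidHom.mk' (fun x => Xi D δ (D.s x)) (by
    intro x y
    rw [← Xi_mul D hδ]
    apply Xi_eq D hδ
    rw [D.v_mul, D.v_s, D.v_s, D.v_s])
  change θ x = _
  conv_lhs => rw [← Finset.univ_sum_single x]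
  rw [map_sum]
  apply Finset.sum_congr rfl
  intro i _
  rcases zmod2_cases (x i) with h | h
  · rw [h, Pi.single_zero, map_zero, c2_zero, zero_smul]
  · rw [h, c2_one, one_smul]
    rfl

lemma dbar_expand {δ : MonoidAlgebra F G →ₗ[F] MonoidAlgebra F G} (hδ : IsDer δ) (a : VA F ι) :
    dbar D δ a = ∑ i, Xi D δ (D.s (Pi.single i 1)) * dV F i a := by
  induction a using vind with
  | h0 => simp
  | hadd a b ha hb =>
    rw [map_add, ha, hb, ← Finset.sum_add_distrib]
    apply Finset.sum_congr rfl
    intro i _
    rw [map_add, mul_add]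
  | hs x r =>
    rw [dbar_vs, Xi_expand D hδ x, Finset.sum_mul, Finset.smul_sum]
    apply Finset.sum_congr rfl
    intro i _
    rw [dV_vs]
    have h1 : vs x (c2 F (x i) * r) = (c2 F (x i) * r) • (vs x 1 : VA F ι) := by
      rw [smul_vs, mul_one]
    rw [h1, mul_smul_comm, smul_mul_assoc, smul_smul, mul_comm r]

variable {H : Type*} [Group H] {e : MonoidAlgebra F H ≃ₐ[F] MonoidAlgebra F G}

lemma dbar_uu {η : H → F} (hη : IsAddChar η) (h : H) :
    dbar D (transDer e η) (uu D e h) = η h • uu D e h := by
  unfold uu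
  rw [← gpi_delta D (transDer_isDer e hη), transDer_e, diagDer_single, mul_one]
  have h1 : (single h (η h) : MonoidAlgebra F H) = η h • single h 1 := by simp
  rw [h1, map_smul, map_smul]

variable (he : ∀ h : H, augmentation F G (e (single h 1)) = 1)

include he

/-- The duality relation. -/
lemma star {η : H → F} (hη : IsAddChar η) (h : H) :
    ∑ i, Xi D (transDer e η) (D.s (Pi.single i 1)) * JJ D e i h = η h • (1 : VA F ι) := by
  have h1 := dbar_uu D (e := e) hη h
  rw [dbar_expand D (transDer_isDer e hη)] at h1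
  have h2 := congrArg (fun a => uu D e h * a) h1
  simp only [Finset.mul_sum, mul_smul_comm, uu_self D he] at h2
  rw [← h2]
  apply Finset.sum_congr rfl
  intro i _
  unfold JJ
  ring

lemma psi_diag {η : H → F} (hη : IsAddChar η) {η' : H ⧸ PhiH H → F}
    (h : ∀ a : H, η a = η' (a : H ⧸ PhiH H)) (b : MonoidAlgebra F (H ⧸ PhiH H)) :
    psi D e (diagDer η' b) = dbar D (transDer e η) (psi D e b) := by
  induction b using MonoidAlgebra.induction_linear with
  | zero => simp
  | add a b ha hb => rw [map_add, map_add, ha, hb, map_add, map_add]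
  | single q r =>
    obtain ⟨a, rfl⟩ := QuotientGroup.mk_surjective q
    rw [diagDer_single, psi_single D he, psi_single D he, map_smul, dbar_uu D hη, h a, smul_smul,
      mul_comm]

variable {c : (ι → ZMod 2) → ((ι → F) →ₗ[F] F)} (hc : IsHat D e c)

omit [CharP F 2] he in
lemma xx_sum (h : H) : xx D e h = ∑ k, (uu D e h).coeff k • emb F k := by
  ext i
  unfold xx
  rw [augV_eq, Finset.sum_apply]
  apply Finset.sum_congr rfl
  intro k _
  rw [dV_coeff, Pi.smul_apply, smul_eq_mul, emb_apply, mul_comm]

omit he in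
lemma sg_sum {α : Type*} (s : Finset α) (t : α → F) (y : α → (ι → F)) :
    sg (∑ q ∈ s, t q • y q) = ∑ q ∈ s, (t q * t q) • sg (y q) := by
  classical
  induction s using Finset.induction_on with
  | empty =>
    simp only [Finset.sum_empty]
    ext i
    simp [sg]
  | insert q s hq ih =>
    rw [Finset.sum_insert hq, Finset.sum_insert hq, sg_add, ih]
    congr 1
    ext i
    simp only [sg, Pi.smul_apply, smul_eq_mul]
    ring

lemma cH_of_InV {V' : AddSubgroup (ι → ZMod 2)} {h : H} (hh : InV V' (uu D e h))
    {k : ι → ZMod 2} (hk : k ∉ V') : cH D e k h = 0 := by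
  have hk0 : k ≠ 0 := by
    rintro rfl
    exact hk V'.zero_mem
  unfold cH
  rw [dif_neg hk0]
  exact (hh.mul (hh.dV _)) k hk

/-- The part of the second group basis lying over a stable subgroup spans. -/
lemma stable_lift [Finite G] {V' : AddSubgroup (ι → ZMod 2)} (hV : Stable B F V')
    {v : ι → ZMod 2} (hv : v ∈ V') : ∃ (s : Finset (H ⧸ PhiH H)) (t : H ⧸ PhiH H → F),
      (∀ q ∈ s, InV V' (uu D e (Quotient.out q))) ∧
      emb F v = ∑ q ∈ s, (t q * t q) • yy D e (Quotient.out q) := by
  classical
  let S : Submodule F (MonoidAlgebra F (H ⧸ PhiH H)) :=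
    { carrier := {b | InV V' (psi D e b)}
      zero_mem' := by
        change InV V' (psi D e 0)
        rw [map_zero]; exact InV.zero
      add_mem' := by
        intro a b ha hb
        change InV V' (psi D e (a + b))
        rw [map_add]; exact InV.add ha hb
      smul_mem' := by
        intro r a ha
        change InV V' (psi D e (r • a))
        rw [map_smul]; exact InV.smul r ha }
  have hS : ∀ η : H ⧸ PhiH H → F, IsAddChar η → ∀ b ∈ S, diagDer η b ∈ S := by
    intro η' hη' b hb
    change InV V' (psi D e (diagDer η' b))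
    have hη : IsAddChar (fun a : H => η' (a : H ⧸ PhiH H)) := by
      intro a b
      simp only [QuotientGroup.mk_mul]
      exact hη' _ _
    rw [psi_diag D he hη (fun a => rfl)]
    have hb' : InV V' (psi D e b) := hb
    set a := psi D e b with ha
    rw [va_eq_sum a, map_sum]
    apply InV.sum
    intro x _
    by_cases hx : x ∈ V'
    · rw [dbar_vs]
      apply InV.smul
      apply InV.mul _ (InV.vs hx 1)
      intro k hk
      have h1 := hV k hk _ (adm_xi D (transDer_isDer e hη) k) x hx
      rw [latExt_emb] at h1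
      exact h1
    · rw [hb' x hx, vs_zero, map_zero]
      exact InV.zero
  set b := psi' D e (vs v 1) with hb
  have hbS : b ∈ S := by
    change InV V' (psi D e (psi' D e (vs v 1)))
    rw [psi_psi' D he]
    exact InV.vs hv 1
  have hmem : ∀ q, b.coeff q ≠ 0 → InV V' (uu D e (Quotient.out q)) := by
    intro q hq
    have h1 := stable_span quot_sq S hS _ b rfl hbS q hq
    have h2 : InV V' (psi D e (single q 1)) := h1
    rw [psi, glin_single, one_smul] at h2
    exact h2
  refine ⟨b.coeff.support, fun q => b.coeff q, fun q hq => hmem q (Finsupp.mem_support_iff.1 hq), ?_⟩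
  have h1 : (vs v 1 : VA F ι) = ∑ q ∈ b.coeff.support, b.coeff q • uu D e (Quotient.out q) := by
    rw [← psi_psi' D he (vs v 1), ← hb]
    conv_lhs => rw [← MonoidAlgebra.sum_coeff_single b]
    rw [Finsupp.sum, map_sum]
    apply Finset.sum_congr rfl
    intro q _
    rw [psi, glin_single]
  have h2 : emb F v = ∑ q ∈ b.coeff.support, b.coeff q • xx D e (Quotient.out q) := by
    ext i
    have h3 := congrArg (fun a : VA F ι => augV F ι (dV F i a)) h1
    simp only [dV_vs, augV_vs, mul_one, map_sum, map_smul] at h3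
    rw [emb_apply, h3, Finset.sum_apply]
    rfl
  rw [← sg_emb, h2, sg_sum]
  rfl

include hc

/-- The first vanishing tool. -/
theorem hat_tool1 [Finite G] (V' : AddSubgroup (ι → ZMod 2)) (hV : Stable B F V')
    (k : ι → ZMod 2) (hk : k ∉ V') (v : ι → ZMod 2) (hv : v ∈ V') : c k (emb F v) = 0 := by
  obtain ⟨s, t, h1, h2⟩ := stable_lift D he hV hv
  rw [h2, map_sum]
  apply Finset.sum_eq_zero
  intro q hq
  rw [map_smul, ← hc, cH_of_InV D he (h1 q hq) hk, smul_zero]

/-- The second vanishing tool. -/
theorem hat_tool2 [Finite G] [Finite H] (k : ι → ZMod 2) (hk : k ∉ Vo B F) : c k = 0 := by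
  classical
  obtain ⟨X, hX⟩ := exists_X D he
  choose h hh using fun j : ι => hX.post (Pi.single j 1)
  let η : ι → H → F := fun j a => (X⁻¹ *ᵥ xx D e a) j
  have hη : ∀ j, IsAddChar (η j) := by
    intro j a b
    simp only [η, hX.add, Matrix.mulVec_add, Pi.add_apply]
  have hηh : ∀ j j', η j (h j') = if j = j' then 1 else 0 := by
    intro j j'
    simp only [η, hh, Matrix.mulVec_mulVec, Matrix.nonsing_inv_mul _ hX.unit, Matrix.one_mulVec,
      emb_single, Pi.single_apply]
  let Ξ : Matrix ι ι (VA F ι) := fun j i => Xi D (transDer e (η j)) (D.s (Pi.single i 1))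
  let J : Matrix ι ι (VA F ι) := fun i j => JJ D e i (h j)
  have hΞJ : Ξ * J = 1 := by
    apply Matrix.ext
    intro j j'
    rw [Matrix.mul_apply, Matrix.one_apply]
    have := star D he (hη j) (h j')
    rw [hηh] at this
    rw [show ∑ i, Ξ j i * J i j' = _ from this]
    split_ifs
    · rw [one_smul]
    · rw [zero_smul]
  have hJΞ : J * Ξ = 1 := mul_eq_one_comm.1 hΞJ
  have hΞV : ∀ j i, InV (Vo B F) (Ξ j i) := by
    intro j i m hm
    by_contra hne
    apply hm
    apply AddSubgroup.subset_closure
    refine ⟨latExt (xi D (transDer_isDer e (hη j)) m), ?_, adm_xi D _ m⟩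
    intro h0
    apply hne
    have h1 := LinearMap.congr_fun h0 (emb F (Pi.single i 1))
    rw [latExt_emb] at h1
    exact h1
  have hall : ∀ (a : H) (i : ι), InV (Vo B F) (JJ D e i a) := by
    intro a
    let j : ι → VA F ι := fun i => JJ D e i a
    let j' : ι → VA F ι := fun i => EE F (Vo B F) (JJ D e i a)
    have h1 : Ξ *ᵥ j = fun l => η l a • (1 : VA F ι) := by
      ext1 l
      exact star D he (hη l) a
    have h2 : Ξ *ᵥ j' = fun l => η l a • (1 : VA F ι) := by
      ext1 l
      have h3 := congrArg (EE F (Vo B F)) (congrFun h1 l)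
      have h4 : EE F (Vo B F) (1 : VA F ι) = 1 := by
        rw [one_eq_vs, EE, vlin_vs, if_pos (Vo B F).zero_mem, one_smul]
      rw [map_smul, h4] at h3
      rw [← h3]
      simp only [Matrix.mulVec, dotProduct, map_sum]
      apply Finset.sum_congr rfl
      intro i _
      exact (EE_mul (Vo B F) (hΞV l i) _).symm
    have h3 : j = j' := by
      have h4 : J *ᵥ (Ξ *ᵥ j) = J *ᵥ (Ξ *ᵥ j') := by rw [h1, h2]
      rwa [Matrix.mulVec_mulVec, Matrix.mulVec_mulVec, hJΞ, Matrix.one_mulVec,
        Matrix.one_mulVec] at h4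
    intro i m hm
    have h4 := congrArg (fun a : VA F ι => a.coeff m) (congrFun h3 i)
    simp only [j, j'] at h4
    rw [EE_coeff, if_neg hm] at h4
    exact h4
  have hk0 : k ≠ 0 := by
    rintro rfl
    exact hk (Vo B F).zero_mem
  obtain ⟨Y, hY⟩ := yy_lat D he
  apply hY.lin_ext
  intro a
  rw [← hc k a]
  unfold cH
  rw [dif_neg hk0]
  exact hall a _ k hk

end main

end Pool.Agent.Work.MP_8bb7de_al.P2
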