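import Pool.Agent.Work.MP_8bb7de_al.P2.Der2

set_option autoImplicit false
set_option linter.unusedSectionVars false
set_option linter.unusedVariables false

/-!
The isometry property on stable blocks.
-/

namespace Pool.Agent.Work.MP_8bb7de_al.P2

open MonoidAlgebra
open scoped Matrix

variable {ι κ : Type*} [Fintype ι] [DecidableEq ι] [Fintype κ] [DecidableEq κ]

variable {F : Type*} [Field F] [CharP F 2] {G : Type*} [Group G] {B : κ → ι → ι → ZMod 2}
  (D : GData G B)

lemma GData.uniq {a b : G} (ha : D.v a = 0) (hb : D.v b = 0) (hab : D.f a = D.f b) : a = b := by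
  have h1 : D.v (b⁻¹ * a) = 0 := by
    rw [D.v_mul, D.v_inv, ha, hb, add_zero]
  have h2 : D.f a = D.f b + D.f (b⁻¹ * a) := by
    rw [← D.f_mul _ _ h1]; congr 1; group
  rw [hab] at h2
  exact (inv_mul_eq_one.1 (D.inj _ h1 (left_eq_add.1 h2))).symm

/-- A section of `f` on the Frattini subgroup. -/
noncomputable def GData.zof (w : κ → ZMod 2) : G := (D.surj_f w).choose

lemma GData.v_zof (w : κ → ZMod 2) : D.v (D.zof w) = 0 := (D.surj_f w).choose_spec.1

lemma GData.f_zof (w : κ → ZMod 2) : D.f (D.zof w) = w := (D.surj_f w).choose_spec.2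

variable {δ : MonoidAlgebra F G →ₗ[F] MonoidAlgebra F G}

/-- The function `z ↦ τ(δ(z) z⁻¹)` on the Frattini subgroup. -/
noncomputable def Psi (D : GData G B) (hδ : IsDer δ) (l : κ) : (κ → ZMod 2) →+ VA F ι :=
  AddMonoidHom.mk' (fun w => tau F D (ev0' κ l) (logD δ (D.zof w))) (by
    intro a b
    have h1 : D.zof (a + b) = D.zof a * D.zof b := by
      apply D.uniq
      · exact D.v_zof _
      · rw [D.v_mul, D.v_zof, D.v_zof, add_zero]
      · rw [D.f_zof, D.f_mul _ _ (D.v_zof b), D.f_zof, D.f_zof]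
    rw [h1, logD_mul_central D hδ (D.v_zof b), map_add])

lemma Psi_f (hδ : IsDer δ) (l : κ) {z : G} (hz : D.v z = 0) :
    Psi D hδ l (D.f z) = tau F D (ev0' κ l) (logD δ z) := by
  change tau F D (ev0' κ l) (logD δ (D.zof (D.f z))) = _
  rw [D.uniq (D.v_zof _) hz (D.f_zof _)]

lemma Psi_expand (hδ : IsDer δ) (l : κ) (w : κ → ZMod 2) :
    Psi D hδ l w = ∑ l', c2 F (w l') • Psi D hδ l (Pi.single l' 1) := by
  conv_lhs => rw [← Finset.univ_sum_single w]
  rw [map_sum]
  apply Finset.sum_congr rfl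
  intro i _
  rcases zmod2_cases (w i) with h | h
  · rw [h, Pi.single_zero, map_zero, c2_zero, zero_smul]
  · rw [h, c2_one, one_smul]

/-- The commutation formula between `τ` and derivations. -/
lemma tau_delta (hδ : IsDer δ) (l : κ) : ∃ Γ : VA F ι →ₗ[F] VA F ι, ∀ a : MonoidAlgebra F G,
    tau F D (ev0' κ l) (δ a) = dbar D δ (tau F D (ev0' κ l) a) +
      ∑ l', Psi D hδ l (Pi.single l' 1) * tau F D (ev0' κ l') a + Γ (gpi F D a) := by
  refine ⟨vlin (fun x => (tau F D (ev0' κ l) (logD δ (D.s x)) + Psi D hδ l (D.f (D.s x))) * vs x 1 +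
    bil (fun x y => c2 F (ev0' κ l (D.alpha x y))) (Xi D δ (D.s x)) (vs x 1)), ?_⟩
  intro a
  induction a using MonoidAlgebra.induction_linear with
  | zero => simp
  | add a b ha hb =>
    simp only [map_add, ha, hb, mul_add, Finset.sum_add_distrib]
    abel
  | single g r =>
    have h1 : (single g r : MonoidAlgebra F G) = r • single g 1 := by simp
    have hsum : ∑ l', Psi D hδ l (Pi.single l' 1) * tau F D (ev0' κ l') (single g r) =
        r • (Psi D hδ l (D.f g) * vs (D.v g) 1) := by
      rw [Psi_expand, Finset.sum_mul, Finset.smul_sum]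
      apply Finset.sum_congr rfl
      intro l' _
      rw [tau_single]
      have h2 : vs (D.v g) (c2 F (ev0' κ l' (D.f g)) * r) =
          (c2 F (D.f g l') * r) • (vs (D.v g) 1 : VA F ι) := by
        rw [smul_vs, mul_one]
        rfl
      rw [h2, mul_smul_comm, smul_mul_assoc, smul_smul, mul_comm r]
    -- decomposition of `g`
    set z := (D.s (D.v g))⁻¹ * g with hz
    have hvz : D.v z = 0 := by
      rw [hz, D.v_mul, D.v_inv, D.v_s]; exact vadd_self _
    have hgz : g = D.s (D.v g) * z := by rw [hz]; group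
    have hfz : D.f z = D.f g + D.f (D.s (D.v g)) := by
      have h2 : D.f g = D.f (D.s (D.v g)) + D.f z := by
        conv_lhs => rw [hgz]
        exact D.f_mul _ _ hvz
      rw [h2]
      have h3 := vadd_self (D.f (D.s (D.v g)))
      calc D.f z = D.f z + (D.f (D.s (D.v g)) + D.f (D.s (D.v g))) := by rw [h3, add_zero]
        _ = _ := by abel
    have hlog : tau F D (ev0' κ l) (logD δ g) = tau F D (ev0' κ l) (logD δ (D.s (D.v g))) +
        (Psi D hδ l (D.f g) + Psi D hδ l (D.f (D.s (D.v g)))) := by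
      conv_lhs => rw [hgz]
      rw [logD_mul_central D hδ hvz, map_add]
      congr 1
      rw [← map_add, ← hfz, Psi_f D hδ l hvz]
    rw [hsum, gpi_single, vlin_vs, tau_single, dbar_vs, h1, map_smul, map_smul, delta_single,
      tau_mul, hlog, gpi_single, tau_single]
    have hX : gpi F D (logD δ g) = Xi D δ (D.s (D.v g)) := by
      have := Xi_eq D hδ (D.v_s (D.v g))
      rw [this]
      rfl
    rw [hX, mul_one]
    have h2 : vs (D.v g) (c2 F (ev0' κ l (D.f g))) =
        (c2 F (ev0' κ l (D.f g))) • (vs (D.v g) 1 : VA F ι) := by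
      rw [smul_vs, mul_one]
    rw [h2, mul_smul_comm, mul_comm (c2 F (ev0' κ l (D.f g))) r, mul_smul, ← smul_add, ← smul_add]
    congr 1
    ring

section VF

/-- The span of a subgroup. -/
def VF (F : Type*) [Field F] (V' : AddSubgroup (ι → ZMod 2)) : Submodule F (ι → F) :=
  Submodule.span F (emb F '' (V' : Set (ι → ZMod 2)))

omit [CharP F 2] in
lemma emb_mem_VF {V' : AddSubgroup (ι → ZMod 2)} {v : ι → ZMod 2} (hv : v ∈ V') :
    emb F v ∈ VF F V' := Submodule.subset_span ⟨v, hv, rfl⟩

lemma bF_VF {V' : AddSubgroup (ι → ZMod 2)} {w : κ → ZMod 2} {l0 : κ} (hl : w l0 = 1)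
    (hV : ∀ u ∈ V', ∀ v ∈ V', bF B (ZMod 2) u v = 0 ∨ bF B (ZMod 2) u v = w)
    {x y : ι → F} (hx : x ∈ VF F V') (hy : y ∈ VF F V') (l : κ) :
    bF B F x y l = c2 F (w l) * bF B F x y l0 := by
  induction hx using Submodule.span_induction with
  | mem x hx =>
    obtain ⟨p, hp, rfl⟩ := hx
    induction hy using Submodule.span_induction with
    | mem y hy =>
      obtain ⟨p', hp', rfl⟩ := hy
      rw [bF_emb, emb_apply, emb_apply]
      rcases hV p hp p' hp' with h | h
      · rw [h]; simp
      · rw [h, hl, c2_one, mul_one]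
    | zero => simp
    | add y z _ _ hy hz => rw [map_add, Pi.add_apply, Pi.add_apply, hy, hz, mul_add]
    | smul a y _ hy =>
      rw [map_smul, Pi.smul_apply, Pi.smul_apply, hy, smul_eq_mul, smul_eq_mul]; ring
  | zero => simp
  | add x z _ _ hx hz =>
    rw [map_add, LinearMap.add_apply, Pi.add_apply, Pi.add_apply, hx, hz, mul_add]
  | smul a x _ hx =>
    rw [map_smul, LinearMap.smul_apply, Pi.smul_apply, Pi.smul_apply, hx, smul_eq_mul,
      smul_eq_mul]
    ring

end VF

variable {H : Type*} [Group H] {e : MonoidAlgebra F H ≃ₐ[F] MonoidAlgebra F G}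

/-- The vector of coefficients. -/
noncomputable def PP (D : GData G B) (e : MonoidAlgebra F H ≃ₐ[F] MonoidAlgebra F G) (h : H)
    (k : ι → ZMod 2) : ι → F := fun i => (JJ D e i h).coeff k

lemma PP_eq (h : H) (k : ι → ZMod 2) : PP D e h k = cH D e k h • emb F k +
    (if k = 0 then yy D e h else 0) := by
  ext i
  unfold PP
  rw [JJ_coeff, Pi.add_apply, Pi.smul_apply, smul_eq_mul, emb_apply, mul_comm]
  congr 1
  split_ifs <;> rfl

lemma coeff_JJ_raw (l : κ) (h h' : H) (m : ι → ZMod 2) :
    (∑ i, ∑ j, c2 F (B l i j) • (JJ D e i h * JJ D e j h')).coeff m =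
      ∑ k, BK B F (PP D e h k) (PP D e h' (m + k)) l := by
  simp only [BK_apply, coeff_sum', coeff_smul', coeff_mul', Finset.mul_sum]
  have h4 : ∀ i : ι, ∑ j, ∑ k, c2 F (B l i j) *
      ((JJ D e i h).coeff k * (JJ D e j h').coeff (m + k)) =
      ∑ k, ∑ j, c2 F (B l i j) * PP D e h k i * PP D e h' (m + k) j := by
    intro i
    rw [Finset.sum_comm]
    apply Finset.sum_congr rfl
    intro k _
    apply Finset.sum_congr rfl
    intro j _
    unfold PP
    ring
  simp only [h4]
  exact Finset.sum_comm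

lemma yy_mem_VF {V' : AddSubgroup (ι → ZMod 2)} {h : H} (hh : InV V' (uu D e h)) :
    yy D e h ∈ VF F V' := by
  unfold yy
  rw [xx_sum, sg_sum]
  apply Submodule.sum_mem
  intro k _
  by_cases hk : k ∈ V'
  · rw [sg_emb]
    exact Submodule.smul_mem _ _ (emb_mem_VF hk)
  · rw [hh k hk, mul_zero, zero_smul]
    exact Submodule.zero_mem _

variable (he : ∀ h : H, augmentation F G (e (single h 1)) = 1)

include he

lemma PP_mem {V' : AddSubgroup (ι → ZMod 2)} {h : H} (hh : InV V' (uu D e h))
    (k : ι → ZMod 2) : PP D e h k ∈ VF F V' := by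
  rw [PP_eq]
  apply Submodule.add_mem
  · by_cases hk : k ∈ V'
    · exact Submodule.smul_mem _ _ (emb_mem_VF hk)
    · rw [cH_of_InV D he hh hk, zero_smul]
      exact Submodule.zero_mem _
  · split_ifs
    · exact yy_mem_VF D hh
    · exact Submodule.zero_mem _

omit he in
/-- The product of squares representing a commutator. -/
def cc (h h' : H) : H := (h * h') * (h * h') * (h * h) * (h' * h')

omit he in
lemma cc_mem (h h' : H) : cc h h' ∈ PhiH H :=
  Subgroup.mul_mem _ (Subgroup.mul_mem _ (sq_mem_PhiH _) (sq_mem_PhiH _)) (sq_mem_PhiH _)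

lemma tau_cc (l : κ) (h h' : H) : tau F D (ev0' κ l) (e (single (cc h h') 1)) =
    (∑ i, ∑ j, c2 F (B l i j) • (JJ D e i h * JJ D e j h')) +
      ∑ i, ∑ j, c2 F (B l i j) • (JJ D e i h' * JJ D e j h) := by
  unfold cc
  rw [tau_add_Phi D he _ (Subgroup.mul_mem _ (sq_mem_PhiH _) (sq_mem_PhiH _)) (sq_mem_PhiH _),
    tau_add_Phi D he _ (sq_mem_PhiH _) (sq_mem_PhiH _), tau_sq D he, tau_sq D he, tau_sq D he]
  simp only [JJ_mul D he]
  have h1 : ∑ i, ∑ j, c2 F (B l i j) • ((JJ D e i h + JJ D e i h') * (JJ D e j h + JJ D e j h')) =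
      (∑ i, ∑ j, c2 F (B l i j) • (JJ D e i h * JJ D e j h)) +
      (∑ i, ∑ j, c2 F (B l i j) • (JJ D e i h * JJ D e j h')) +
      (∑ i, ∑ j, c2 F (B l i j) • (JJ D e i h' * JJ D e j h)) +
      ∑ i, ∑ j, c2 F (B l i j) • (JJ D e i h' * JJ D e j h') := by
    simp only [← Finset.sum_add_distrib]
    apply Finset.sum_congr rfl
    intro i _
    apply Finset.sum_congr rfl
    intro j _
    rw [← smul_add, ← smul_add, ← smul_add]
    congr 1
    ring
  rw [h1]
  have h2 := va_add_self (∑ i, ∑ j, c2 F (B l i j) • (JJ D e i h * JJ D e j h))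
  have h3 := va_add_self (∑ i, ∑ j, c2 F (B l i j) • (JJ D e i h' * JJ D e j h'))
  linear_combination h2 + h3

lemma theta_coeff (l : κ) (h h' : H) (m : ι → ZMod 2) :
    (tau F D (ev0' κ l) (e (single (cc h h') 1))).coeff m =
      ∑ k, bF B F (PP D e h k) (PP D e h' (m + k)) l := by
  rw [tau_cc D he, coeff_add', coeff_JJ_raw, coeff_JJ_raw]
  have h1 : ∑ k, BK B F (PP D e h' k) (PP D e h (m + k)) l =
      ∑ k, BK B F (PP D e h' (m + k)) (PP D e h k) l := by
    rw [← Equiv.sum_comp (Equiv.addLeft m)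
      (fun k => BK B F (PP D e h' k) (PP D e h (m + k)) l)]
    apply Finset.sum_congr rfl
    intro k _
    have h2 : m + (m + k) = k := by rw [← add_assoc, vadd_self, zero_add]
    simp only [Equiv.coe_addLeft, h2]
  rw [h1, ← Finset.sum_add_distrib]
  rfl

/-- The key isometry statement on group elements. -/
theorem iso_core [Finite G] {V' : AddSubgroup (ι → ZMod 2)} {e0 f0 : ι → ZMod 2}
    (hne : bF B (ZMod 2) e0 f0 ≠ 0)
    (hV : ∀ u ∈ V', ∀ v ∈ V', bF B (ZMod 2) u v = 0 ∨ bF B (ZMod 2) u v = bF B (ZMod 2) e0 f0)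
    (hin : ∀ k ξ, Adm B F k ξ → ∀ l,
      lam B F l k (emb F e0) * ξ (emb F f0) + lam B F l k (emb F f0) * ξ (emb F e0) = 0)
    {h h' : H} (hh : InV V' (uu D e h)) (hh' : InV V' (uu D e h')) :
    bF B F (xx D e h) (xx D e h') = bF B F (yy D e h) (yy D e h') := by
  obtain ⟨l0, hl0⟩ := exists_l0 hne
  set w := bF B (ZMod 2) e0 f0 with hw
  set θ : κ → VA F ι := fun l => tau F D (ev0' κ l) (e (single (cc h h') 1)) with hθ
  -- proportionality
  have hprop : ∀ l, θ l = c2 F (w l) • θ l0 := by
    intro l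
    apply va_ext
    intro m
    rw [coeff_smul', hθ]
    simp only
    rw [theta_coeff D he, theta_coeff D he, Finset.mul_sum]
    apply Finset.sum_congr rfl
    intro k _
    exact bF_VF hl0 hV (PP_mem D he hh _) (PP_mem D he hh' _) l
  -- the augmentation
  have haug : ∀ l, augV F ι (θ l) = bF B F (xx D e h) (xx D e h') l := by
    intro l
    have h1 : ∀ (a : H) i, augV F ι (JJ D e i a) = xx D e a i := by
      intro a i
      unfold JJ
      rw [map_mul, aug_uu D he, one_mul]
      rfl
    rw [hθ]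
    simp only
    rw [tau_cc D he, map_add, bF_apply, Pi.add_apply, BK_apply, BK_apply]
    simp only [map_sum, map_smul, map_mul, h1, smul_eq_mul, mul_assoc]
  -- the constant coefficient
  have hzero : ∀ l, (θ l).coeff 0 = bF B F (yy D e h) (yy D e h') l := by
    intro l
    rw [hθ]
    simp only
    rw [theta_coeff D he, Finset.sum_eq_single 0]
    · rw [add_zero, PP_eq, PP_eq, if_pos rfl, if_pos rfl, cH_zero, cH_zero, zero_smul,
        zero_add, zero_add]
    · intro k _ hk
      rw [zero_add, PP_eq, PP_eq, if_neg hk, if_neg hk, add_zero, add_zero, map_smul, map_smul,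
        LinearMap.smul_apply, bF_self, smul_zero, smul_zero]
      rfl
    · intro h5; exact absurd (Finset.mem_univ _) h5
  -- `θ` is killed by all derivations
  have hder : ∀ η : H → F, IsAddChar η → dbar D (transDer e η) (θ l0) = 0 := by
    intro η hη
    have hδ := transDer_isDer e hη
    obtain ⟨Γ, hΓ⟩ := tau_delta D hδ l0
    have h1 := hΓ (e (single (cc h h') 1) - 1)
    have h2 : gpi F D (e (single (cc h h') 1) - 1) = 0 := by
      rw [map_sub, map_one]
      have : gpi F D (e (single (cc h h') 1)) = 1 := uu_Phi D he (cc_mem h h')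
      rw [this, sub_self]
    have h3 : transDer e η (e (single (cc h h') 1) - 1) = 0 := by
      rw [map_sub, hδ.map_one, sub_zero, transDer_e, diagDer_single, mul_one]
      have h4 : η (cc h h') = 0 := by
        have h5 := add_Phi (K := F) (n := Unit) (θ := fun h _ => η h)
          (fun a b => by ext; exact hη a b) (cc_mem h h')
        exact congrFun h5 ()
      rw [h4, MonoidAlgebra.single_zero, map_zero]
    have h4 : ∀ l, tau F D (ev0' κ l) (e (single (cc h h') 1) - 1) = θ l := by
      intro l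
      rw [map_sub, tau_one, sub_zero]
    rw [h2, h3, map_zero, map_zero, add_zero, h4] at h1
    have h5 : ∑ l', Psi D hδ l0 (Pi.single l' 1) * tau F D (ev0' κ l')
        (e (single (cc h h') 1) - 1) = Psi D hδ l0 w * θ l0 := by
      rw [Psi_expand D hδ l0 w, Finset.sum_mul]
      apply Finset.sum_congr rfl
      intro l' _
      rw [h4, hprop l', mul_smul_comm, smul_mul_assoc]
    have h6 : Psi D hδ l0 w = 0 := by
      have e1 : w = qF B (ZMod 2) (e0 + f0) + qF B (ZMod 2) e0 + qF B (ZMod 2) f0 := by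
        rw [qF_add]
        have e2 := vadd_self (qF B (ZMod 2) e0)
        have e3 := vadd_self (qF B (ZMod 2) f0)
        calc w = w + (qF B (ZMod 2) e0 + qF B (ZMod 2) e0) +
              (qF B (ZMod 2) f0 + qF B (ZMod 2) f0) := by rw [e2, e3, add_zero, add_zero]
          _ = _ := by rw [hw]; abel
      have e2 : ∀ (x k : ι → ZMod 2), (Psi D hδ l0 (qF B (ZMod 2) x)).coeff k =
          lam B F l0 k (emb F x) * latExt (xi D hδ k) (emb F x) := by
        intro x k
        have e3 : qF B (ZMod 2) x = D.f (D.s x * D.s x) := by rw [D.sq, D.v_s]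
        rw [e3, Psi_f D hδ l0 (D.v_sq _), tau_logD_sq D hδ, D.v_s, lam_emb, latExt_emb, xi_apply]
        rfl
      apply va_ext
      intro k
      rw [e1, map_add, map_add, coeff_add', coeff_add', e2, e2, e2, coeff_zero', emb_add, map_add,
        map_add]
      have e3 := hin k _ (adm_xi D hδ k) l0
      have e4 := CharTwo.add_self_eq_zero
        (lam B F l0 k (emb F e0) * latExt (xi D hδ k) (emb F e0))
      have e5 := CharTwo.add_self_eq_zero
        (lam B F l0 k (emb F f0) * latExt (xi D hδ k) (emb F f0))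
      linear_combination e3 + e4 + e5
    rw [h5, h6, zero_mul, add_zero] at h1
    exact h1.symm
  -- hence `θ` is constant
  have hconst : ∀ m, m ≠ 0 → (θ l0).coeff m = 0 := by
    classical
    intro m hm
    set b := psi' D e (θ l0) with hb
    have hb1 : psi D e b = θ l0 := psi_psi' D he _
    have hbq : ∀ q : H ⧸ PhiH H, q ≠ 1 → b.coeff q = 0 := by
      intro q hq
      obtain ⟨η', hη', hη1⟩ : ∃ η' : H ⧸ PhiH H → F, IsAddChar η' ∧ η' q ≠ 0 :=
        exists_addChar_ne (p := 2) F (comm_of_sq quot_sq)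
          (fun a => by rw [pow_two]; exact quot_sq a) hq
      have hη : IsAddChar (fun a : H => η' (a : H ⧸ PhiH H)) := by
        intro a b
        simp only [QuotientGroup.mk_mul]
        exact hη' _ _
      have h1 := psi_diag D he hη (fun a => rfl) b
      rw [hb1, hder _ hη] at h1
      have h2 : diagDer η' b = 0 := by
        apply psi_inj D he
        rw [h1, map_zero]
      have h3 := congrArg (fun a => a.coeff q) h2
      simp only [diagDer_coeff] at h3
      rcases mul_eq_zero.1 h3 with h4 | h4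
      · exact absurd h4 hη1
      · exact h4
    have hb2 : b = single 1 (b.coeff 1) := by
      ext q
      rw [MonoidAlgebra.coeff_single, Finsupp.single_apply]
      split_ifs with hq
      · rw [hq]
      · exact hbq q (Ne.symm hq)
    have h5 : θ l0 = (b.coeff 1) • (1 : VA F ι) := by
      rw [← hb1]
      conv_lhs => rw [hb2]
      rw [← QuotientGroup.mk_one, psi_single D he, uu_one]
    rw [h5, coeff_smul', one_eq_vs, vs_coeff, if_neg (Ne.symm hm), mul_zero]
  -- conclusion
  have h1 : augV F ι (θ l0) = (θ l0).coeff 0 := by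
    rw [augV_eq, Finset.sum_eq_single 0]
    · intro m _ hm
      exact hconst m hm
    · intro h5; exact absurd (Finset.mem_univ _) h5
  ext l
  rw [← haug, ← hzero, hprop l, map_smul, h1, coeff_smul', smul_eq_mul]

variable {c : (ι → ZMod 2) → ((ι → F) →ₗ[F] F)} (hc : IsHat D e c)

include hc

/-- The isometry property. -/
theorem hat_iso [Finite G] (V' : AddSubgroup (ι → ZMod 2)) (hS : Stable B F V')
    (e0 f0 : ι → ZMod 2) (hne : bF B (ZMod 2) e0 f0 ≠ 0)
    (hV : ∀ u ∈ V', ∀ v ∈ V', bF B (ZMod 2) u v = 0 ∨ bF B (ZMod 2) u v = bF B (ZMod 2) e0 f0)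
    (hin : ∀ k ξ, Adm B F k ξ → ∀ l,
      lam B F l k (emb F e0) * ξ (emb F f0) + lam B F l k (emb F f0) * ξ (emb F e0) = 0)
    (u : ι → ZMod 2) (hu : u ∈ V') (v : ι → ZMod 2) (hv : v ∈ V') :
    bF B F (emb F u + Nc c (emb F u)) (emb F v + Nc c (emb F v)) =
      bF B F (emb F u) (emb F v) := by
  obtain ⟨s, t, h1, h2⟩ := stable_lift D he hS hu
  obtain ⟨s', t', h1', h2'⟩ := stable_lift D he hS hv
  have e1 : ∀ (s : Finset (H ⧸ PhiH H)) (t : H ⧸ PhiH H → F),
      (∑ q ∈ s, (t q * t q) • yy D e (Quotient.out q)) +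
        Nc c (∑ q ∈ s, (t q * t q) • yy D e (Quotient.out q)) =
      ∑ q ∈ s, (t q * t q) • xx D e (Quotient.out q) := by
    intro s t
    rw [map_sum, ← Finset.sum_add_distrib]
    apply Finset.sum_congr rfl
    intro q _
    rw [map_smul, ← smul_add, ← xx_eq_hat he hc]
  rw [h2, h2', e1, e1]
  simp only [map_sum, LinearMap.sum_apply, map_smul, LinearMap.smul_apply]
  apply Finset.sum_congr rfl
  intro q' hq'
  congr 1
  apply Finset.sum_congr rfl
  intro q hq
  congr 1
  exact iso_core D he hne hV hin (h1 q hq) (h1' q' hq')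

/-- The coefficient data of a second group basis. -/
theorem cdata [Finite G] [Finite H] : CData B c where
  c0 := hat_zero he hc
  good := hat_good he hc
  q0 := hat_q0 he hc
  em := fun m hm l => hat_em he hc hm l
  tool1 := fun V' hV k hk v hv => hat_tool1 D he hc V' hV k hk v hv
  tool2 := fun k hk => hat_tool2 D he hc k hk
  iso := fun V' hS e0 f0 hne hV hin u hu v hv => hat_iso D he hc V' hS e0 f0 hne hV hin u hu v hv

end Pool.Agent.Work.MP_8bb7de_al.P2
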