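import Pool.Agent.Work.MP_8bb7de_al.P2.HSide1
import Pool.Agent.Work.MP_8bb7de_al.Elem

set_option autoImplicit false
set_option linter.unusedSectionVars false
set_option linter.unusedVariables false

/-!
Existence of coordinates.
-/

namespace Pool.Agent.Work.MP_8bb7de_al.P2

open MonoidAlgebra

lemma exists_coords (V : Type*) [AddCommGroup V] [Finite V] (hV : ∀ x : V, x + x = 0) :
    ∃ n : ℕ, Nonempty (V ≃+ (Fin n → ZMod 2)) := by
  let inst : Module (ZMod 2) V := AddCommGroup.zmodModule (n := 2) (fun x => by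
    rw [two_nsmul]; exact hV x)
  exact ⟨Module.finrank (ZMod 2) V, ⟨(Module.finBasis (ZMod 2) V).equivFun.toAddEquiv⟩⟩

/-- Every quadratic function over `ZMod 2` is given by structure constants. -/
lemma exists_consts {n m : ℕ} (q : (Fin n → ZMod 2) → (Fin m → ZMod 2)) (q0 : q 0 = 0)
    (b : (Fin n → ZMod 2) → (Fin n → ZMod 2) → (Fin m → ZMod 2))
    (hq : ∀ x y, q (x + y) = q x + q y + b x y)
    (hb1 : ∀ x x' y, b (x + x') y = b x y + b x' y)
    (hb2 : ∀ x y y', b x (y + y') = b x y + b x y') :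
    ∃ B : Fin m → Fin n → Fin n → ZMod 2, ∀ x, q x = qF B (ZMod 2) x := by
  have b0 : ∀ y, b 0 y = 0 := fun y => by
    have := hb1 0 0 y
    rw [add_zero] at this
    exact left_eq_add.1 this
  have b0' : ∀ y, b y 0 = 0 := fun y => by
    have := hb2 y 0 0
    rw [add_zero] at this
    exact left_eq_add.1 this
  let bl : LinearMap.BilinMap (ZMod 2) (Fin n → ZMod 2) (Fin m → ZMod 2) :=
    LinearMap.mk₂ (ZMod 2) b hb1
      (by
        intro c x y
        rcases zmod2_cases c with h | h
        · rw [h, zero_smul, zero_smul, b0]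
        · rw [h, one_smul, one_smul])
      hb2
      (by
        intro c x y
        rcases zmod2_cases c with h | h
        · rw [h, zero_smul, zero_smul, b0']
        · rw [h, one_smul, one_smul])
  let Q : QuadraticMap (ZMod 2) (Fin n → ZMod 2) (Fin m → ZMod 2) :=
    { toFun := q
      toFun_smul := by
        intro c x
        rcases zmod2_cases c with h | h
        · rw [h, zero_smul, mul_zero, zero_smul, q0]
        · rw [h, one_smul, mul_one, one_smul]
      exists_companion' := ⟨bl, fun x y => hq x y⟩ }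
  obtain ⟨P, hP⟩ := LinearMap.BilinMap.toQuadraticMap_surjective Q
  refine ⟨fun l i j => P (Pi.single i 1) (Pi.single j 1) l, fun x => ?_⟩
  have h1 : q x = P x x := by
    have h2 := congrArg (fun R : QuadraticMap (ZMod 2) (Fin n → ZMod 2) (Fin m → ZMod 2) => R x) hP
    exact h2.symm
  rw [h1]
  ext l
  have h3 : P x x = ∑ i, ∑ j, (x i * x j) • P (Pi.single i 1) (Pi.single j 1) := by
    conv_lhs => rw [← sum_single_eq x]
    simp only [map_sum, LinearMap.sum_apply, map_smul, LinearMap.smul_apply, Finset.smul_sum,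
      smul_smul]
    conv_lhs => rw [Finset.sum_comm]
    refine Finset.sum_congr rfl fun i _ => Finset.sum_congr rfl fun j _ => by rw [mul_comm]
  rw [h3]
  unfold qF
  rw [BK_apply]
  simp only [Finset.sum_apply, Pi.smul_apply, smul_eq_mul, c2_self]
  refine Finset.sum_congr rfl fun i _ => Finset.sum_congr rfl fun j _ => by ring

/-- Existence of coordinates. -/
theorem exists_GData {G : Type*} [Group G] [Finite G] (hc : ∀ z ∈ PhiH G, ∀ g, g * z = z * g)
    (h2 : ∀ z ∈ PhiH G, z * z = 1) :
    ∃ (n m : ℕ) (B : Fin m → Fin n → Fin n → ZMod 2), Nonempty (GData G B) := by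
  classical
  -- coordinates on the quotient
  let i1 : CommGroup (G ⧸ PhiH G) :=
    { (inferInstance : Group (G ⧸ PhiH G)) with mul_comm := comm_of_sq quot_sq }
  have : Finite (G ⧸ PhiH G) := Finite.of_surjective _ QuotientGroup.mk_surjective
  obtain ⟨n, ⟨a⟩⟩ := exists_coords (Additive (G ⧸ PhiH G))
    (fun x => congrArg Additive.ofMul (quot_sq x.toMul))
  -- coordinates on the Frattini subgroup
  let i2 : CommGroup (PhiH G) :=
    { (inferInstance : Group (PhiH G)) with
      mul_comm := fun x y => Subtype.ext (hc y.1 y.2 x.1) }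
  obtain ⟨m, ⟨w⟩⟩ := exists_coords (Additive (PhiH G))
    (fun x => congrArg Additive.ofMul (Subtype.ext (h2 _ x.toMul.2) : x.toMul * x.toMul = 1))
  let v : G → (Fin n → ZMod 2) := fun g => a (Additive.ofMul (g : G ⧸ PhiH G))
  have v_mul : ∀ g h, v (g * h) = v g + v h := by
    intro g h
    change a (Additive.ofMul ((g * h : G) : G ⧸ PhiH G)) = _
    rw [QuotientGroup.mk_mul, ofMul_mul, map_add]
  have v_zero : ∀ z, v z = 0 ↔ z ∈ PhiH G := by
    intro z
    change a (Additive.ofMul (z : G ⧸ PhiH G)) = 0 ↔ _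
    rw [EmbeddingLike.map_eq_zero_iff, ofMul_eq_zero, QuotientGroup.eq_one_iff]
  have v_surj : ∀ x, ∃ g, v g = x := by
    intro x
    obtain ⟨y, hy⟩ := a.surjective x
    obtain ⟨g, hg⟩ := QuotientGroup.mk_surjective y.toMul
    refine ⟨g, ?_⟩
    change a (Additive.ofMul (g : G ⧸ PhiH G)) = x
    rw [← hy, hg]
    rfl
  have v_one : v 1 = 0 := (v_zero 1).2 (Subgroup.one_mem _)
  have hs : ∃ s : (Fin n → ZMod 2) → G, (∀ x, v (s x) = x) ∧ s 0 = 1 := by
    choose s hs using v_surj
    refine ⟨fun x => if x = 0 then 1 else s x, ?_, by simp⟩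
    intro x
    simp only
    split_ifs with h
    · rw [h]; exact v_one
    · exact hs x
  obtain ⟨s, hs, hs0⟩ := hs
  have v_inv : ∀ g, v g⁻¹ = v g := by
    intro g
    have h := v_mul g g⁻¹
    rw [mul_inv_cancel, v_one] at h
    ext i
    exact (CharTwo.add_eq_zero.1 (congrFun h i).symm).symm
  have hmem : ∀ g, (s (v g))⁻¹ * g ∈ PhiH G := by
    intro g
    rw [← v_zero, v_mul, v_inv, hs]
    exact vadd_self _
  let f : G → (Fin m → ZMod 2) := fun g => w (Additive.ofMul ⟨(s (v g))⁻¹ * g, hmem g⟩)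
  have f_Phi : ∀ z (hz : z ∈ PhiH G), f z = w (Additive.ofMul ⟨z, hz⟩) := by
    intro z hz
    change w (Additive.ofMul ⟨(s (v z))⁻¹ * z, hmem z⟩) = _
    congr 2
    apply Subtype.ext
    change (s (v z))⁻¹ * z = z
    rw [(v_zero z).2 hz, hs0, inv_one, one_mul]
  have f_mul : ∀ g z, v z = 0 → f (g * z) = f g + f z := by
    intro g z hz
    rw [f_Phi z ((v_zero z).1 hz)]
    change w (Additive.ofMul ⟨(s (v (g * z)))⁻¹ * (g * z), hmem (g * z)⟩) =
      w (Additive.ofMul ⟨(s (v g))⁻¹ * g, hmem g⟩) + _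
    rw [← map_add, ← ofMul_mul]
    congr 2
    apply Subtype.ext
    change (s (v (g * z)))⁻¹ * (g * z) = (s (v g))⁻¹ * g * z
    rw [v_mul, hz, add_zero, mul_assoc]
  have f_inj : ∀ z, v z = 0 → f z = 0 → z = 1 := by
    intro z hz hf
    rw [f_Phi z ((v_zero z).1 hz), EmbeddingLike.map_eq_zero_iff, ofMul_eq_zero] at hf
    exact congrArg Subtype.val hf
  have f_surj : ∀ y, ∃ z, v z = 0 ∧ f z = y := by
    intro y
    obtain ⟨x, hx⟩ := w.surjective y
    refine ⟨x.toMul.1, (v_zero _).2 x.toMul.2, ?_⟩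
    rw [f_Phi _ x.toMul.2, ← hx]
    rfl
  have v_sq : ∀ g, v (g * g) = 0 := by
    intro g
    rw [v_mul]; exact vadd_self _
  -- squares only depend on `v`
  have sq_eq : ∀ g h, v g = v h → g * g = h * h := by
    intro g h hgh
    have hz : h⁻¹ * g ∈ PhiH G := by
      rw [← v_zero, v_mul, v_inv, hgh]
      exact vadd_self _
    have h1 : g = h * (h⁻¹ * g) := by group
    calc g * g = (h * (h⁻¹ * g)) * (h * (h⁻¹ * g)) := by rw [← h1]
      _ = h * ((h⁻¹ * g) * h) * (h⁻¹ * g) := by group
      _ = h * (h * (h⁻¹ * g)) * (h⁻¹ * g) := by rw [hc _ hz h]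
      _ = h * h * ((h⁻¹ * g) * (h⁻¹ * g)) := by group
      _ = h * h := by rw [h2 _ hz, mul_one]
  let q : (Fin n → ZMod 2) → (Fin m → ZMod 2) := fun x => f (s x * s x)
  have hq : ∀ g, f (g * g) = q (v g) := by
    intro g
    change f (g * g) = f (s (v g) * s (v g))
    rw [sq_eq g (s (v g)) (hs _).symm]
  -- commutators
  let cm : G → G → G := fun g h => (g * h)⁻¹ * (h * g)
  have cm_v : ∀ g h, v (cm g h) = 0 := by
    intro g h
    change v ((g * h)⁻¹ * (h * g)) = 0
    rw [v_mul, v_inv, v_mul, v_mul, add_comm (v h)]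
    exact vadd_self _
  have cm_eq : ∀ g h, h * g = g * h * cm g h := by
    intro g h
    change h * g = g * h * ((g * h)⁻¹ * (h * g))
    group
  have cm_c : ∀ g h x, x * cm g h = cm g h * x := fun g h x =>
    hc _ ((v_zero _).1 (cm_v g h)) x
  have cm_mul : ∀ g h h', cm g (h * h') = cm g h * cm g h' := by
    intro g h h'
    change (g * (h * h'))⁻¹ * (h * h' * g) = _
    rw [inv_mul_eq_iff_eq_mul]
    calc h * h' * g = h * (h' * g) := by group
      _ = h * (g * h' * cm g h') := by rw [cm_eq g h']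
      _ = (h * g) * h' * cm g h' := by group
      _ = (g * h * cm g h) * h' * cm g h' := by rw [cm_eq g h]
      _ = g * h * (cm g h * h') * cm g h' := by group
      _ = g * h * (h' * cm g h) * cm g h' := by rw [cm_c g h h']
      _ = _ := by group
  have fsq : ∀ g h, q (v g + v h) = q (v g) + q (v h) + f (cm g h) := by
    intro g h
    rw [← v_mul, ← hq, ← hq, ← hq]
    have h1 : (g * h) * (g * h) = (g * g) * ((h * h) * cm g h) := by
      calc (g * h) * (g * h) = g * (h * g) * h := by group
        _ = g * (g * h * cm g h) * h := by rw [cm_eq g h]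
        _ = g * g * h * (cm g h * h) := by group
        _ = g * g * h * (h * cm g h) := by rw [cm_c]
        _ = _ := by group
    rw [h1, f_mul, f_mul _ _ (cm_v g h), add_assoc]
    rw [v_mul, v_sq, cm_v, add_zero]
  let b : (Fin n → ZMod 2) → (Fin n → ZMod 2) → (Fin m → ZMod 2) := fun x y =>
    q (x + y) + q x + q y
  have b_eq : ∀ g h, b (v g) (v h) = f (cm g h) := by
    intro g h
    change q (v g + v h) + q (v g) + q (v h) = _
    rw [fsq]
    have e1 := vadd_self (q (v g))
    have e2 := vadd_self (q (v h))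
    calc q (v g) + q (v h) + f (cm g h) + q (v g) + q (v h) =
        (q (v g) + q (v g)) + (q (v h) + q (v h)) + f (cm g h) := by abel
      _ = _ := by rw [e1, e2, add_zero, zero_add]
  have hb2 : ∀ x y y', b x (y + y') = b x y + b x y' := by
    intro x y y'
    obtain ⟨g, rfl⟩ := v_surj x
    obtain ⟨h, rfl⟩ := v_surj y
    obtain ⟨h', rfl⟩ := v_surj y'
    rw [← v_mul, b_eq, b_eq, b_eq, cm_mul, f_mul _ _ (cm_v g h')]
  have b_symm : ∀ x y, b x y = b y x := by
    intro x y
    change q (x + y) + q x + q y = q (y + x) + q y + q x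
    rw [add_comm y x, add_assoc, add_assoc, add_comm (q x)]
  have hb1 : ∀ x x' y, b (x + x') y = b x y + b x' y := by
    intro x x' y
    rw [b_symm, hb2, b_symm y x, b_symm y x']
  have hqb : ∀ x y, q (x + y) = q x + q y + b x y := by
    intro x y
    change q (x + y) = q x + q y + (q (x + y) + q x + q y)
    have e1 := vadd_self (q x)
    have e2 := vadd_self (q y)
    calc q (x + y) = q (x + y) + (q x + q x) + (q y + q y) := by rw [e1, e2, add_zero, add_zero]
      _ = _ := by abel
  have q0 : q 0 = 0 := by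
    rw [← v_one, ← hq, mul_one, f_Phi 1 (Subgroup.one_mem _)]
    exact map_zero w
  obtain ⟨B, hB⟩ := exists_consts q q0 b hqb hb1 hb2
  refine ⟨n, m, B, ⟨?_⟩⟩
  exact
    { v := v
      f := f
      v_mul := v_mul
      f_mul := f_mul
      central := fun z hz g => hc z ((v_zero z).1 hz) g
      inj := f_inj
      surj_v := v_surj
      surj_f := f_surj
      sq := fun g => by rw [hq, hB]
      gen := fun z hz => (v_zero z).1 hz }

section dimension

variable {F : Type*} [Field F] [CharP F 2] {G : Type*} [Group G]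

lemma sq_mem_two (g : G) : of F G (g * g) - 1 ∈ (augIdeal F G) ^ 2 := by
  have h1 : of F G g - 1 ∈ (augIdeal F G) ^ 1 := by rw [pow_one]; exact of_sub_one_mem g
  have h2 := pow_char_mem 2 h1
  rw [one_mul] at h2
  have h3 : g * g = g ^ 2 := (pow_two g).symm
  rw [h3]
  exact h2

lemma central_of_dim (hD : ∀ g ∈ dimensionSubgroup F G 3, g = 1) :
    ∀ z ∈ PhiH G, ∀ g, g * z = z * g := by
  have h1 : PhiH G ≤ Subgroup.center G := by
    unfold PhiH
    rw [Subgroup.closure_le]
    rintro x ⟨h, rfl⟩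
    change h * h ∈ Subgroup.center G
    rw [Subgroup.mem_center_iff]
    intro g
    have h1 : of F G g - 1 ∈ (augIdeal F G) ^ 1 := by rw [pow_one]; exact of_sub_one_mem g
    have h2 := commutator_mem (sq_mem_two (F := F) h) h1 (by norm_num)
    have h3 := hD _ h2
    calc g * (h * h) = g * (h * h) * ((h * h)⁻¹ * g⁻¹ * (h * h) * g) := by rw [h3, mul_one]
      _ = (h * h) * g := by group
  intro z hz g
  exact Subgroup.mem_center_iff.1 (h1 hz) g

lemma sq_of_dim (hD : ∀ g ∈ dimensionSubgroup F G 3, g = 1) :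
    ∀ z ∈ PhiH G, z * z = 1 := by
  intro z hz
  have hc := central_of_dim hD
  unfold PhiH at hz hc
  induction hz using Subgroup.closure_induction with
  | mem x hx =>
    obtain ⟨h, rfl⟩ := hx
    apply hD
    have h1 := pow_char_mem 2 (sq_mem_two (F := F) h)
    have h3 : h * h * (h * h) = (h * h) ^ 2 := (pow_two _).symm
    rw [h3]
    exact augIdeal_pow_le (by norm_num) (by norm_num : 3 ≤ 2 * 2) h1
  | one => rw [mul_one]
  | mul x y hx hy h1 h2 =>
    calc x * y * (x * y) = x * (y * x) * y := by group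
      _ = x * (x * y) * y := by rw [hc x hx y]
      _ = (x * x) * (y * y) := by group
      _ = 1 := by rw [h1, h2, mul_one]
  | inv x _ h1 =>
    calc x⁻¹ * x⁻¹ = (x * x)⁻¹ := by group
      _ = 1 := by rw [h1, inv_one]

end dimension

end Pool.Agent.Work.MP_8bb7de_al.P2
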