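import Pool.Agent.Work.MP_8bb7de_al.P2.Path

set_option autoImplicit false
set_option linter.unusedSectionVars false
set_option linter.unusedVariables false

/-!
Main form of the specialisation lemma.
-/

namespace Pool.Agent.Work.MP_8bb7de_al.P2

open scoped Matrix
open PowerSeries

variable {ι κ : Type*} [Fintype ι] [DecidableEq ι] [Fintype κ] [DecidableEq κ]

section

universe u

variable {F : Type u} [Field F]

/-- The two expansions of a polynomial, at `0` and at `1`. -/
noncomputable def ev0 (F : Type*) [Field F] : Polynomial F →+* F⟦X⟧ := Polynomial.coeToPowerSeries.ringHom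

/-- The expansion at `1`. -/
noncomputable def ev1 (F : Type*) [Field F] : Polynomial F →+* F⟦X⟧ :=
  (Polynomial.coeToPowerSeries.ringHom).comp (Polynomial.compRingHom (Polynomial.X + 1))

lemma ev0_injective : Function.Injective (ev0 F) := Polynomial.coe_injective F

lemma ev1_injective : Function.Injective (ev1 F) := by
  intro p q h
  have h1 : p.comp (Polynomial.X + 1) = q.comp (Polynomial.X + 1) := Polynomial.coe_injective F h
  have h2 : (p.comp (Polynomial.X + 1)).comp (Polynomial.X - 1) =
      (q.comp (Polynomial.X + 1)).comp (Polynomial.X - 1) := by rw [h1]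
  simpa [Polynomial.comp_assoc] using h2

lemma const_ev0 (p : Polynomial F) : constantCoeff (ev0 F p) = p.eval 0 := by
  change constantCoeff (p : F⟦X⟧) = _
  rw [Polynomial.constantCoeff_coe, Polynomial.coeff_zero_eq_eval_zero]

lemma const_ev1 (p : Polynomial F) : constantCoeff (ev1 F p) = p.eval 1 := by
  change constantCoeff ((p.comp (Polynomial.X + 1) : Polynomial F) : F⟦X⟧) = _
  rw [Polynomial.constantCoeff_coe, Polynomial.coeff_zero_eq_eval_zero, Polynomial.eval_comp]
  simp

/-- A common field for the two expansions. -/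
lemma exists_common_expansion (F : Type u) [Field F] : ∃ (K : Type u) (_ : Field K)
    (J0 : F⟦X⟧ →+* K) (J1 : F⟦X⟧ →+* K), Function.Injective J0 ∧ Function.Injective J1 ∧
      J0.comp (ev0 F) = J1.comp (ev1 F) := by
  let L := FractionRing F⟦X⟧
  let k := FractionRing (Polynomial F)
  let a : F⟦X⟧ →+* L := algebraMap _ _
  have ha : Function.Injective a := IsFractionRing.injective F⟦X⟧ L
  have hi0 : Function.Injective (a.comp (ev0 F)) := ha.comp ev0_injective
  have hi1 : Function.Injective (a.comp (ev1 F)) := ha.comp ev1_injective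
  let i0 : k →+* L := IsFractionRing.lift hi0
  let i1 : k →+* L := IsFractionRing.lift hi1
  obtain ⟨K, hK, j0, j1, hj⟩ := exists_common_field i0 i1
  refine ⟨K, hK, j0.comp a, j1.comp a, j0.injective.comp ha, j1.injective.comp ha, ?_⟩
  apply RingHom.ext
  intro p
  have h1 : i0 (algebraMap (Polynomial F) k p) = a (ev0 F p) := IsFractionRing.lift_algebraMap hi0 _
  have h2 : i1 (algebraMap (Polynomial F) k p) = a (ev1 F p) := IsFractionRing.lift_algebraMap hi1 _
  change j0 (a (ev0 F p)) = j1 (a (ev1 F p))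
  rw [← h1, ← h2]
  exact RingHom.congr_fun hj _

lemma map_map_const (γ : Matrix ι ι (Polynomial F)) :
    (γ.map (ev0 F)).map (constantCoeff (R := F)) = γ.map (Polynomial.eval 0) := by
  ext i j
  simp [const_ev0]

lemma map_map_const1 (γ : Matrix ι ι (Polynomial F)) :
    (γ.map (ev1 F)).map (constantCoeff (R := F)) = γ.map (Polynomial.eval 1) := by
  ext i j
  simp [const_ev1]

variable [CharP F 2]

/-- additivity of lifts -/
lemma exists_addHom_lift {A : Type*} [AddCommGroup A] (γ : Matrix ι ι F⟦X⟧) (x : A →+ (ι → F))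
    (hx : ∀ h, x h = Tm (γ.map (constantCoeff (R := F))) (x h)) :
    ∃ s : A →+ (ι → F⟦X⟧), (∀ h, s h = Tm γ (s h)) ∧ ∀ h i, constantCoeff (s h i) = x h i := by
  choose s hs1 hs2 using fun h => exists_lift γ (x h) (hx h)
  refine ⟨AddMonoidHom.mk' s ?_, hs1, hs2⟩
  intro a b
  have h1 : s (a + b) + (s a + s b) = 0 := by
    apply Tm_unique γ
    · rw [Tm_add, Tm_add, ← hs1, ← hs1, ← hs1]
    · intro i
      simp only [Pi.add_apply, map_add, hs2]
      exact CharTwo.add_self_eq_zero _
  ext1 i
  have h2 := congrFun h1 i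
  exact CharTwo.add_eq_zero.1 h2

variable {B : κ → ι → ι → ZMod 2}

lemma sum_qF_eq_zero_iff {A : Type*} (γ : Matrix ι ι F⟦X⟧) (ω : Matrix κ κ F⟦X⟧)
    (hgood : GoodK B F⟦X⟧ γ ω) (s : A → (ι → F⟦X⟧)) (x : A → (ι → F))
    (hs1 : ∀ h, s h = Tm γ (s h)) (hs2 : ∀ h i, constantCoeff (s h i) = x h i) (m : Multiset A) :
    (m.map (fun h => qF B F⟦X⟧ (s h))).sum = 0 ↔ (m.map (fun h => qF B F (x h))).sum = 0 := by
  have hconst : ∀ h l, constantCoeff (qF B F⟦X⟧ (s h) l) = qF B F (x h) l := by
    intro h l
    have h1 := congrFun (map_qF (B := B) (constantCoeff (R := F)) (s h)) l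
    rw [h1]
    congr 1
    have : (fun i => constantCoeff (s h i)) = x h := by
      ext i; exact hs2 h i
    rw [this]
  have hsum : ∀ l, constantCoeff ((m.map (fun h => qF B F⟦X⟧ (s h))).sum l) =
      (m.map (fun h => qF B F (x h))).sum l := by
    intro l
    induction m using Multiset.induction_on with
    | empty => simp
    | cons a m ih => simp [hconst, ih]
  constructor
  · intro h
    ext l
    rw [← hsum, h]
    simp
  · intro h
    apply Tm_unique ω
    · exact fixed_sum ω m _ (fun a => hgood.fixed (hs1 a))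
    · intro l
      rw [hsum, h]
      simp

/-- The specialisation lemma. -/
theorem path_lemma {VH WH : Type*} [AddCommGroup VH] [AddCommGroup WH]
    (γ : Matrix ι ι (Polynomial F)) (ω : Matrix κ κ (Polynomial F))
    (hgood : GoodK B (Polynomial F) γ ω) (h0 : γ.map (Polynomial.eval 0) = 1)
    (x : VH →+ (ι → F)) (hinj : Function.Injective x) (hcard : Nat.card VH = 2 ^ Fintype.card ι)
    (hx : ∀ h, x h = Tm (γ.map (Polynomial.eval 1)) (x h))
    (qH : VH → WH) (z : WH →+ (κ → F)) (hz : Function.Injective z)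
    (hzq : ∀ h, z (qH h) = qF B F (x h)) :
    ∃ φ : (ι → ZMod 2) ≃+ VH, ∀ m : Multiset (ι → ZMod 2),
      (m.map (qF B (ZMod 2))).sum = 0 ↔ (m.map (fun v => qH (φ v))).sum = 0 := by
  classical
  obtain ⟨K, hK, J0, J1, hJ0, hJ1, hJ⟩ := exists_common_expansion F
  have hchar : CharP K 2 := charP_of_injective_ringHom hJ0 2
  -- lifts at `0`
  let γ0 := γ.map (ev0 F)
  let γ1 := γ.map (ev1 F)
  obtain ⟨s0, hs0, hc0⟩ := exists_addHom_lift γ0
    (AddMonoidHom.mk' (fun v : ι → ZMod 2 => emb F v) (fun a b => emb_add a b)) (by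
      intro v
      rw [map_map_const, h0, Tm, AddMonoidHom.mk'_apply, sg_emb, Matrix.one_mulVec])
  obtain ⟨s1, hs1, hc1⟩ := exists_addHom_lift γ1 x (by
      intro v
      rw [map_map_const1]
      exact hx v)
  let γK := γ.map (J0.comp (ev0 F))
  have hγ0 : γ0.map J0 = γK := by
    ext i j; rfl
  have hγ1 : γ1.map J1 = γK := by
    ext i j
    change J1 (ev1 F (γ i j)) = J0 (ev0 F (γ i j))
    exact (RingHom.congr_fun hJ (γ i j)).symm
  have hf0 : ∀ v, (fun i => J0 (s0 v i)) = Tm γK (fun i => J0 (s0 v i)) := by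
    intro v
    conv_lhs => rw [hs0 v]
    have := map_mulVec' J0 γ0 (sg (s0 v))
    rw [hγ0, map_sg] at this
    exact this
  have hf1 : ∀ h, (fun i => J1 (s1 h i)) = Tm γK (fun i => J1 (s1 h i)) := by
    intro v
    conv_lhs => rw [hs1 v]
    have := map_mulVec' J1 γ1 (sg (s1 v))
    rw [hγ1, map_sg] at this
    exact this
  -- the matrix of lifts of basis vectors
  let P : Matrix ι ι F⟦X⟧ := fun i j => s0 (Pi.single j 1) i
  have hPdet : constantCoeff P.det = 1 := by
    rw [RingHom.map_det]
    have : (constantCoeff (R := F)).mapMatrix P = 1 := by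
      ext i j
      rw [RingHom.mapMatrix_apply, Matrix.map_apply]
      change constantCoeff (s0 (Pi.single j 1) i) = _
      rw [hc0]
      change emb F (Pi.single j 1) i = _
      rw [emb_single, Matrix.one_apply, Pi.single_apply]
    rw [this, Matrix.det_one]
  have hPne : P.det ≠ 0 := by
    intro h
    rw [h] at hPdet
    simp at hPdet
  let PK : Matrix ι ι K := P.map J0
  have hPK : PK.det ≠ 0 := by
    have : PK.det = J0 P.det := (RingHom.map_det J0 P).symm
    rw [this]
    exact fun h => hPne ((map_eq_zero_iff J0 hJ0).1 h)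
  have hunit : IsUnit PK.det := isUnit_iff_ne_zero.2 hPK
  have hPemb : ∀ v : ι → ZMod 2, PK *ᵥ emb K v = fun i => J0 (s0 v i) := by
    intro v
    have h1 : s0 v = ∑ j, (if v j = 0 then 0 else s0 (Pi.single j 1)) := by
      conv_lhs => rw [← Finset.univ_sum_single v]
      rw [map_sum]
      apply Finset.sum_congr rfl
      intro j _
      rcases zmod2_cases (v j) with h2 | h2
      · simp [h2]
      · simp [h2]
    ext i
    rw [h1]
    simp only [Matrix.mulVec, dotProduct, Finset.sum_apply, map_sum]
    apply Finset.sum_congr rfl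
    intro j _
    rcases zmod2_cases (v j) with h2 | h2
    · simp [h2]
    · simp only [h2, emb_apply, c2_one, mul_one, one_ne_zero, if_false]
      rfl
  have hfrob : γK * PK.map (frobenius K 2) = PK := by
    ext i j
    have h1 := congrFun (hf0 (Pi.single j 1)) i
    have h2 : PK i j = J0 (s0 (Pi.single j 1) i) := rfl
    rw [h2, h1]
    simp only [Matrix.mul_apply, Tm, Matrix.mulVec, dotProduct]
    apply Finset.sum_congr rfl
    intro l _
    simp only [Matrix.map_apply, frobenius_def, sg]
    rw [pow_two]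
    rfl
  have hex : ∀ h : VH, ∃ v : ι → ZMod 2, (fun i => J1 (s1 h i)) = fun i => J0 (s0 v i) := by
    intro h
    obtain ⟨y, hy⟩ : ∃ y : ι → K, y = fun i => J1 (s1 h i) := ⟨_, rfl⟩
    have hyf : y = Tm γK y := by
      rw [hy]
      exact hf1 h
    rw [← hy]
    obtain ⟨a, ha⟩ : ∃ a : ι → K, a = PK⁻¹ *ᵥ y := ⟨_, rfl⟩
    have hya : y = PK *ᵥ a := by
      rw [ha, Matrix.mulVec_mulVec, Matrix.mul_nonsing_inv _ hunit, Matrix.one_mulVec]
    have h1 : PK *ᵥ a = PK *ᵥ sg a := by
      calc PK *ᵥ a = y := hya.symm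
        _ = Tm γK y := hyf
        _ = Tm γK (PK *ᵥ a) := by rw [← hya]
        _ = PK *ᵥ sg a := by rw [Tm, sg_mulVec, Matrix.mulVec_mulVec, hfrob]
    have h2 : a = sg a := by
      have := congrArg (fun t => PK⁻¹ *ᵥ t) h1
      simpa [Matrix.mulVec_mulVec, Matrix.nonsing_inv_mul _ hunit] using this
    refine ⟨fun j => if a j = 0 then 0 else 1, ?_⟩
    rw [← hPemb, hya]
    congr 1
    ext j
    have h3 : a j = a j * a j := congrFun h2 j
    have h4 : a j = 0 ∨ a j = 1 := by
      have : a j * (a j - 1) = 0 := by linear_combination -h3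
      rcases mul_eq_zero.1 this with h5 | h5
      · exact Or.inl h5
      · exact Or.inr (sub_eq_zero.1 h5)
    rcases h4 with h5 | h5
    · simp [h5]
    · simp [h5]
  choose ψ hψ using hex
  have hs0inj : ∀ v v' : ι → ZMod 2, (fun i => J0 (s0 v i)) = (fun i => J0 (s0 v' i)) → v = v' := by
    intro v v' h
    apply emb_injective (K := F)
    ext i
    have h1 := congrFun h i
    have h2 := hJ0 h1
    have h3 := congrArg (constantCoeff (R := F)) h2
    rw [hc0, hc0] at h3
    exact h3
  have hs1inj : ∀ h h' : VH, (fun i => J1 (s1 h i)) = (fun i => J1 (s1 h' i)) → h = h' := by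
    intro v v' h
    apply hinj
    ext i
    have h1 := congrFun h i
    have h2 := hJ1 h1
    have h3 := congrArg (constantCoeff (R := F)) h2
    rw [hc1, hc1] at h3
    exact h3
  let Ψ : VH →+ (ι → ZMod 2) := AddMonoidHom.mk' ψ (by
    intro a b
    apply hs0inj
    rw [← hψ]
    ext i
    have h1 := congrFun (hψ a) i
    have h2 := congrFun (hψ b) i
    simp only [map_add, Pi.add_apply] at h1 h2 ⊢
    rw [h1, h2])
  have hΨinj : Function.Injective Ψ := by
    intro a b hab
    apply hs1inj
    rw [hψ, hψ]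
    have : ψ a = ψ b := hab
    rw [this]
  have hfinVH : Finite VH := Nat.finite_of_card_ne_zero (by rw [hcard]; positivity)
  have hΨbij : Function.Bijective Ψ := by
    have hc : Nat.card VH = Nat.card (ι → ZMod 2) := by
      rw [hcard, Nat.card_pi]
      simp
    exact (Nat.bijective_iff_injective_and_card Ψ).2 ⟨hΨinj, hc⟩
  let Φ : VH ≃+ (ι → ZMod 2) := AddEquiv.ofBijective Ψ hΨbij
  have hembsum : ∀ m : Multiset (ι → ZMod 2),
      (m.map (fun v => qF B F (emb F v))).sum = emb F (m.map (qF B (ZMod 2))).sum := by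
    intro m
    induction m using Multiset.induction_on with
    | empty =>
      rw [Multiset.map_zero, Multiset.sum_zero, Multiset.map_zero, Multiset.sum_zero, emb_zero]
    | cons a m ih =>
      rw [Multiset.map_cons, Multiset.sum_cons, Multiset.map_cons, Multiset.sum_cons, ih, qF_emb,
        emb_add]
  have hzsum : ∀ m : Multiset (ι → ZMod 2),
      (m.map (fun v => qF B F (x (Φ.symm v)))).sum = z (m.map (fun v => qH (Φ.symm v))).sum := by
    intro m
    induction m using Multiset.induction_on with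
    | empty =>
      rw [Multiset.map_zero, Multiset.sum_zero, Multiset.map_zero, Multiset.sum_zero, map_zero]
    | cons a m ih =>
      rw [Multiset.map_cons, Multiset.sum_cons, Multiset.map_cons, Multiset.sum_cons, ih, map_add,
        hzq]
  have hKs : ∀ (J : F⟦X⟧ →+* K) (s : (ι → ZMod 2) → (ι → F⟦X⟧)) (l : κ) (m : Multiset (ι → ZMod 2)),
      J ((m.map (fun h => qF B F⟦X⟧ (s h))).sum l) =
        (m.map (fun h => qF B K (fun i => J (s h i)))).sum l := by
    intro J s l m
    induction m using Multiset.induction_on with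
    | empty =>
      simp only [Multiset.map_zero, Multiset.sum_zero, Pi.zero_apply, map_zero]
    | cons a m ih =>
      simp only [Multiset.map_cons, Multiset.sum_cons, Pi.add_apply, map_add, ih]
      congr 1
      exact congrFun (map_qF (B := B) J (s a)) l
  refine ⟨Φ.symm, ?_⟩
  intro m
  have hΦ : ∀ v, (fun i => J1 (s1 (Φ.symm v) i)) = fun i => J0 (s0 v i) := by
    intro v
    rw [hψ]
    have : ψ (Φ.symm v) = v := Φ.apply_symm_apply v
    rw [this]
  -- left side
  have hL : (m.map (qF B (ZMod 2))).sum = 0 ↔ (m.map (fun h => qF B F⟦X⟧ (s0 h))).sum = 0 := by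
    rw [sum_qF_eq_zero_iff γ0 (ω.map (ev0 F)) (hgood.map (ev0 F)) s0 (fun v => emb F v) hs0 hc0]
    rw [hembsum m]
    constructor
    · intro h
      rw [h, emb_zero]
    · intro h
      apply emb_injective (K := F)
      rw [h, emb_zero]
  have hR : (m.map (fun v => qH (Φ.symm v))).sum = 0 ↔
      (m.map (fun h => qF B F⟦X⟧ (s1 (Φ.symm h)))).sum = 0 := by
    rw [sum_qF_eq_zero_iff γ1 (ω.map (ev1 F)) (hgood.map (ev1 F)) (fun v => s1 (Φ.symm v))
      (fun v => x (Φ.symm v)) (fun v => hs1 _) (fun v i => hc1 _ i)]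
    rw [hzsum m]
    constructor
    · intro h
      rw [h, map_zero]
    · intro h
      apply hz
      rw [h, map_zero]
  have hKsum : ∀ (J : F⟦X⟧ →+* K) (hJ : Function.Injective J) (s : (ι → ZMod 2) → (ι → F⟦X⟧)),
      (m.map (fun h => qF B F⟦X⟧ (s h))).sum = 0 ↔
        (m.map (fun h => qF B K (fun i => J (s h i)))).sum = 0 := by
    intro J hJ s
    have h1 : ∀ l, J ((m.map (fun h => qF B F⟦X⟧ (s h))).sum l) =
        (m.map (fun h => qF B K (fun i => J (s h i)))).sum l := fun l => hKs J s l m
    constructor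
    · intro h
      ext l
      rw [← h1, h]
      simp
    · intro h
      ext l
      have h2 := h1 l
      rw [h] at h2
      have h3 := (map_eq_zero_iff J hJ).1 h2
      rw [h3]
      simp
  rw [hL, hR, hKsum J0 hJ0, hKsum J1 hJ1]
  simp only [hΦ]

end

end Pool.Agent.Work.MP_8bb7de_al.P2
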