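import Pool.Agent.Work.MP_8bb7de_al.P2.Der3
import Pool.Agent.Work.MP_8bb7de_al.P2.PathMain
import Pool.Agent.Work.MP_8bb7de_al.P2.Block4
import Pool.Agent.Work.MP_8bb7de_al.Span

set_option autoImplicit false
set_option linter.unusedSectionVars false
set_option linter.unusedVariables false

/-!
The group basis problem for a `2`-group with coordinates.
-/

namespace Pool.Agent.Work.MP_8bb7de_al.P2

open MonoidAlgebra
open scoped Matrix

section span

/-- The quotient by the squares, as a commutative group. -/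
noncomputable abbrev QPhi (M : Type*) [Group M] : CommGroup (M ⧸ PhiH M) :=
  { (inferInstance : Group (M ⧸ PhiH M)) with
    mul_comm := comm_of_sq quot_sq }

/-- A common supplement in a quotient of exponent two. -/
lemma exists_common_sq {Q : Type*} [Group Q] [Finite Q] (hQ : ∀ x : Q, x * x = 1)
    (A B : Subgroup Q) (hAB : Nat.card A = Nat.card B) :
    ∃ C : Subgroup Q, IsCompl C A ∧ IsCompl C B := by
  let inst : CommGroup Q := { (inferInstance : Group Q) with mul_comm := comm_of_sq hQ }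
  exact exists_common_compl_subgroup (p := 2) (Q := Q) (fun x => by rw [pow_two]; exact hQ x) A B hAB

lemma comap_bijective2 {M L : Type*} [Group M] [Group L] (q : M →* L) (N : Subgroup M) [N.Normal]
    (hq : Function.Surjective q)
    (hqk : N ⊓ q.ker = ⊥) (C : Subgroup (M ⧸ N))
    (hC : ∀ x ∈ C ⊔ q.ker.map (QuotientGroup.mk' N), ∃ c ∈ C, ∃ a ∈ q.ker.map (QuotientGroup.mk' N),
      c * a = x)
    (hCq : IsCompl C (q.ker.map (QuotientGroup.mk' N))) :
    Function.Bijective (q.comp (C.comap (QuotientGroup.mk' N)).subtype) := by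
  constructor
  · rw [injective_iff_map_eq_one]
    intro x hx
    have hx1 : QuotientGroup.mk' N x.1 ∈ C := x.2
    have hx2 : QuotientGroup.mk' N x.1 ∈ q.ker.map (QuotientGroup.mk' N) :=
      Subgroup.mem_map_of_mem _ hx
    have hx3 : QuotientGroup.mk' N x.1 ∈ C ⊓ q.ker.map (QuotientGroup.mk' N) := ⟨hx1, hx2⟩
    rw [hCq.inf_eq_bot, Subgroup.mem_bot, QuotientGroup.mk'_apply,
      QuotientGroup.eq_one_iff] at hx3
    have hx4 : x.1 ∈ N ⊓ q.ker := ⟨hx3, hx⟩
    rw [hqk, Subgroup.mem_bot] at hx4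
    exact Subtype.ext hx4
  · intro y
    obtain ⟨m, rfl⟩ := hq y
    have hm : QuotientGroup.mk' N m ∈ C ⊔ q.ker.map (QuotientGroup.mk' N) := by
      rw [hCq.sup_eq_top]; exact Subgroup.mem_top _
    obtain ⟨c, hc, a, ha, hca⟩ := hC _ hm
    obtain ⟨k, hk, rfl⟩ := Subgroup.mem_map.1 ha
    refine ⟨⟨m * k⁻¹, ?_⟩, ?_⟩
    · change QuotientGroup.mk' N (m * k⁻¹) ∈ C
      rw [map_mul, map_inv, ← hca, mul_inv_cancel_right]
      exact hc
    · change q (m * k⁻¹) = q m
      have hk' : q k = 1 := hk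
      rw [map_mul, map_inv, hk', inv_one, mul_one]

lemma card_map_mk {M : Type*} [Group M] (N K : Subgroup M) [N.Normal] (hK : N ⊓ K = ⊥) :
    Nat.card (K.map (QuotientGroup.mk' N)) = Nat.card K := by
  symm
  apply Nat.card_congr
  apply Equiv.ofBijective
    (fun x : K => (⟨QuotientGroup.mk' N x.1, Subgroup.mem_map_of_mem _ x.2⟩ :
      K.map (QuotientGroup.mk' N)))
  constructor
  · intro x y hxy
    have hxy' : QuotientGroup.mk' N x.1 = QuotientGroup.mk' N y.1 := congrArg Subtype.val hxy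
    have h3 : (x.1)⁻¹ * y.1 ∈ N := by
      rw [← QuotientGroup.eq_one_iff, ← QuotientGroup.mk'_apply, map_mul, map_inv, hxy',
        inv_mul_cancel]
    have h4 : (x.1)⁻¹ * y.1 ∈ N ⊓ K :=
      ⟨h3, K.mul_mem (K.inv_mem x.2) y.2⟩
    rw [hK, Subgroup.mem_bot] at h4
    exact Subtype.ext (inv_mul_eq_one.1 h4)
  · rintro ⟨y, hy⟩
    obtain ⟨x, hx, rfl⟩ := Subgroup.mem_map.1 hy
    exact ⟨⟨x, hx⟩, rfl⟩

/-- Two quotients of the same order of a finite group `M` are isomorphic when both kernels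
meet the subgroup generated by the squares trivially. -/
theorem span_lemma2 {M G H : Type*} [Group M] [Group G] [Group H] [Finite M]
    (p1 : M →* G) (p2 : M →* H) (h1 : Function.Surjective p1) (h2 : Function.Surjective p2)
    (hcard : Nat.card G = Nat.card H)
    (hk1 : PhiH M ⊓ p1.ker = ⊥) (hk2 : PhiH M ⊓ p2.ker = ⊥) : Nonempty (G ≃* H) := by
  classical
  have hkc : Nat.card p1.ker = Nat.card p2.ker := by
    have e1 := card_ker_mul p1 h1
    have e2 := card_ker_mul p2 h2
    rw [hcard] at e1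
    have : Finite H := Finite.of_surjective p2 h2
    have hpos : 0 < Nat.card H := Nat.card_pos
    exact Nat.eq_of_mul_eq_mul_right hpos (e1.trans e2.symm)
  have : Finite (M ⧸ PhiH M) := Finite.of_surjective _ QuotientGroup.mk_surjective
  obtain ⟨C, hC1, hC2⟩ := exists_common_sq (Q := M ⧸ PhiH M) quot_sq
    (p1.ker.map (QuotientGroup.mk' (PhiH M)))
    (p2.ker.map (QuotientGroup.mk' (PhiH M)))
    (by rw [card_map_mk _ _ hk1, card_map_mk _ _ hk2, hkc])
  have hsup : ∀ K : Subgroup M, ∀ x ∈ C ⊔ K.map (QuotientGroup.mk' (PhiH M)),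
      ∃ c ∈ C, ∃ a ∈ K.map (QuotientGroup.mk' (PhiH M)), c * a = x := by
    intro K x hx
    have : C.Normal := by
      constructor
      intro n hn g
      have : g * n * g⁻¹ = n := by rw [comm_of_sq quot_sq g n, mul_inv_cancel_right]
      rw [this]; exact hn
    exact Subgroup.mem_sup_of_normal_left.1 hx
  exact ⟨(MulEquiv.ofBijective _ (comap_bijective2 p1 (PhiH M) h1 hk1 C (hsup _) hC1)).symm.trans
    (MulEquiv.ofBijective _ (comap_bijective2 p2 (PhiH M) h2 hk2 C (hsup _) hC2))⟩

end span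

universe u

variable {ι κ : Type*} [Fintype ι] [DecidableEq ι] [Fintype κ] [DecidableEq κ]

variable {F : Type u} [Field F] [CharP F 2] {G : Type*} [Group G] {B : κ → ι → ι → ZMod 2}
  (D : GData G B) {H : Type*} [Group H] {e : MonoidAlgebra F H ≃ₐ[F] MonoidAlgebra F G}
  (he : ∀ h : H, augmentation F G (e (single h 1)) = 1)

/-- The functional `x` as a homomorphism. -/
noncomputable def xxHom : Additive H →+ (ι → F) :=
  AddMonoidHom.mk' (fun h => xx D e h.toMul) (fun a b => xx_mul D he a.toMul b.toMul)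

/-- The image of the functional `x`. -/
noncomputable def VH : AddSubgroup (ι → F) := (xxHom D he).range

lemma xx_mem_VH (h : H) : xx D e h ∈ VH D he := ⟨Additive.ofMul h, rfl⟩

lemma mem_VH {y : ι → F} (hy : y ∈ VH D he) : ∃ h : H, xx D e h = y := by
  obtain ⟨h, hh⟩ := hy
  exact ⟨h.toMul, hh⟩

include he

lemma xx_one : xx D e 1 = 0 := by
  have := xx_mul D he 1 1
  rw [mul_one] at this
  exact left_eq_add.1 this

lemma xx_inv (h : H) : xx D e h⁻¹ = xx D e h := by
  have h1 := xx_mul D he h h⁻¹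
  rw [mul_inv_cancel, xx_one D he] at h1
  ext i
  have h2 := congrFun h1 i
  exact (CharTwo.add_eq_zero.1 h2.symm).symm

lemma zz_one : zz D e 1 = 0 := by
  have h := zz_sq D he 1
  rw [mul_one, xx_one D he, qF_zero] at h
  exact h

lemma card_VH [Finite H] : Nat.card (VH D he) = 2 ^ Fintype.card ι := by
  rw [← card_quot D he]
  symm
  apply Nat.card_congr
  have key : ∀ a b : H, xx D e a = xx D e b ↔ (a : H ⧸ PhiH H) = (b : H ⧸ PhiH H) := by
    intro a b
    constructor
    · intro hab
      rw [QuotientGroup.eq]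
      apply xx_ker D he
      rw [xx_mul D he, xx_inv D he, hab]
      exact vadd_self _
    · intro hab
      unfold xx
      rw [uu_eq D he hab]
  apply Equiv.ofBijective
    (fun q : H ⧸ PhiH H => (⟨xx D e (Quotient.out q), xx_mem_VH D he _⟩ : VH D he))
  constructor
  · intro q q' hq
    have h1 : xx D e (Quotient.out q) = xx D e (Quotient.out q') := congrArg Subtype.val hq
    rw [key] at h1
    have h2 : ∀ q : H ⧸ PhiH H, ((Quotient.out q : H) : H ⧸ PhiH H) = q := fun q =>
      QuotientGroup.out_eq' q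
    rw [h2, h2] at h1
    exact h1
  · rintro ⟨y, hy⟩
    obtain ⟨h, rfl⟩ := mem_VH D he hy
    refine ⟨(h : H ⧸ PhiH H), ?_⟩
    apply Subtype.ext
    change xx D e (Quotient.out (h : H ⧸ PhiH H)) = xx D e h
    rw [key]
    exact QuotientGroup.out_eq' _

include D

/-- Two groups with isomorphic group algebras, the first with coordinates, are isomorphic. -/
theorem iso_of_data [Finite G] [Finite H] : Nonempty (G ≃* H) := by
  classical
  obtain ⟨c, hc⟩ := exists_isHat D he
  obtain ⟨γ, ω, hgood, h0, h1⟩ := (cdata D he hc).isPath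
  obtain ⟨φ, hφ⟩ := path_lemma γ ω hgood h0 (VH D he).subtype Subtype.val_injective
    (card_VH D he)
    (by
      rintro ⟨y, hy⟩
      obtain ⟨h, rfl⟩ := mem_VH D he hy
      change xx D e h = Tm (γ.map (Polynomial.eval 1)) (xx D e h)
      rw [h1, Tm, LinearMap.toMatrix'_mulVec]
      exact xx_eq_hat he hc h)
    (fun y => qF B F (y : ι → F)) (AddMonoidHom.id (κ → F)) (fun _ _ h => h) (fun _ => rfl)
  -- the fibre product
  let M : Subgroup (G × H) :=
    { carrier := {x | (φ (D.v x.1) : ι → F) = xx D e x.2}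
      mul_mem' := by
        intro a b ha hb
        change (φ (D.v (a.1 * b.1)) : ι → F) = xx D e (a.2 * b.2)
        rw [D.v_mul, map_add, xx_mul D he, ← ha, ← hb]
        rfl
      one_mem' := by
        change (φ (D.v 1) : ι → F) = xx D e 1
        rw [D.v_one, map_zero, xx_one D he]
        rfl
      inv_mem' := by
        intro a ha
        change (φ (D.v a.1⁻¹) : ι → F) = xx D e a.2⁻¹
        rw [D.v_inv, xx_inv D he]
        exact ha }
  let p1 : M →* G := (MonoidHom.fst G H).comp M.subtype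
  let p2 : M →* H := (MonoidHom.snd G H).comp M.subtype
  have s1 : Function.Surjective p1 := by
    intro g
    obtain ⟨h, hh⟩ := mem_VH D he (φ (D.v g)).2
    exact ⟨⟨(g, h), hh.symm⟩, rfl⟩
  have s2 : Function.Surjective p2 := by
    intro h
    obtain ⟨x, hx⟩ := φ.surjective ⟨xx D e h, xx_mem_VH D he h⟩
    obtain ⟨g, rfl⟩ := D.surj_v x
    exact ⟨⟨(g, h), congrArg Subtype.val hx⟩, rfl⟩
  have key : ∀ x ∈ PhiH M, D.v (p1 x) = 0 ∧ p2 x ∈ PhiH H ∧
      ∃ m : Multiset (ι → ZMod 2), D.f (p1 x) = (m.map (qF B (ZMod 2))).sum ∧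
        zz D e (p2 x) = (m.map (fun v => qF B F (φ v : ι → F))).sum := by
    intro x hx
    induction hx using Subgroup.closure_induction with
    | mem x hx =>
      obtain ⟨y, rfl⟩ := hx
      refine ⟨by rw [map_mul]; exact D.v_sq _, by rw [map_mul]; exact sq_mem_PhiH _,
        {D.v (p1 y)}, ?_, ?_⟩
      · rw [map_mul, D.sq, Multiset.map_singleton, Multiset.sum_singleton]
      · rw [map_mul, zz_sq D he, Multiset.map_singleton, Multiset.sum_singleton]
        congr 1
        exact y.2.symm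
    | one =>
      refine ⟨by rw [map_one]; exact D.v_one, by rw [map_one]; exact Subgroup.one_mem _, 0, ?_, ?_⟩
      · rw [map_one, D.f_one, Multiset.map_zero, Multiset.sum_zero]
      · rw [map_one, zz_one D he, Multiset.map_zero, Multiset.sum_zero]
    | mul x y _ _ hx hy =>
      obtain ⟨hx1, hx2, m, hx3, hx4⟩ := hx
      obtain ⟨hy1, hy2, m', hy3, hy4⟩ := hy
      refine ⟨by rw [map_mul, D.v_mul, hx1, hy1, add_zero],
        by rw [map_mul]; exact Subgroup.mul_mem _ hx2 hy2, m + m', ?_, ?_⟩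
      · rw [map_mul, D.f_mul _ _ hy1, hx3, hy3, Multiset.map_add, Multiset.sum_add]
      · rw [map_mul, zz_mul D he _ hy2, hx4, hy4, Multiset.map_add, Multiset.sum_add]
    | inv x _ hx =>
      obtain ⟨hx1, hx2, m, hx3, hx4⟩ := hx
      refine ⟨by rw [map_inv, D.v_inv, hx1], by rw [map_inv]; exact Subgroup.inv_mem _ hx2,
        m, ?_, ?_⟩
      · rw [← hx3, map_inv]
        have h2 := D.f_mul (p1 x) (p1 x)⁻¹ (by rw [D.v_inv, hx1])
        rw [mul_inv_cancel, D.f_one] at h2
        ext i
        have h3 := congrFun h2 i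
        exact (CharTwo.add_eq_zero.1 h3.symm).symm
      · rw [← hx4, map_inv]
        have h2 := zz_mul D he (p2 x) (Subgroup.inv_mem _ hx2)
        rw [mul_inv_cancel, zz_one D he] at h2
        ext i
        have h3 := congrFun h2 i
        exact (CharTwo.add_eq_zero.1 h3.symm).symm
  have hk1 : PhiH M ⊓ p1.ker = ⊥ := by
    rw [Subgroup.eq_bot_iff_forall]
    rintro x ⟨hx1, hx2⟩
    obtain ⟨a1, a2, m, a3, a4⟩ := key x hx1
    have hx3 : p1 x = 1 := hx2
    rw [hx3, D.f_one] at a3
    have h5 := (hφ m).1 a3.symm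
    have h6 : zz D e (p2 x) = 0 := by rw [a4]; exact h5
    have h7 := zz_inj D he a2 h6
    apply Subtype.ext
    exact Prod.ext hx3 h7
  have hk2 : PhiH M ⊓ p2.ker = ⊥ := by
    rw [Subgroup.eq_bot_iff_forall]
    rintro x ⟨hx1, hx2⟩
    obtain ⟨a1, a2, m, a3, a4⟩ := key x hx1
    have hx3 : p2 x = 1 := hx2
    rw [hx3, zz_one D he] at a4
    have h5 := (hφ m).2 a4.symm
    have h6 : p1 x = 1 := D.inj _ a1 (by rw [a3]; exact h5)
    apply Subtype.ext
    exact Prod.ext h6 hx3
  exact span_lemma2 p1 p2 s1 s2 (card_eq_of_equiv e).symm hk1 hk2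

end Pool.Agent.Work.MP_8bb7de_al.P2
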