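import Pool.Agent.Work.MP_8bb7de_al.P2.Path
import Pool.Agent.Work.MP_8bb7de_al.P2.Block1

set_option autoImplicit false
set_option linter.unusedSectionVars false
set_option linter.unusedVariables false

/-!
Lattices over the prime field.
-/

namespace Pool.Agent.Work.MP_8bb7de_al.P2

open scoped Matrix

variable {n : Type*} [Fintype n] [DecidableEq n]

variable {F : Type*} [Field F] [CharP F 2]

lemma mulVec_emb (P : Matrix n n F) (w : n → ZMod 2) :
    P *ᵥ emb F w = ∑ j, c2 F (w j) • (fun i => P i j) := by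
  ext i
  rw [Finset.sum_apply]
  simp only [Matrix.mulVec, dotProduct, emb_apply, Pi.smul_apply, smul_eq_mul]
  apply Finset.sum_congr rfl
  intro j _
  ring

/-- A spanning elementary abelian subgroup of the right order is a lattice. -/
lemma exists_matrix (I : AddSubgroup (n → F)) [Finite I]
    (hcard : Nat.card I ≤ 2 ^ Fintype.card n)
    (hspan : Submodule.span F (I : Set (n → F)) = ⊤) :
    ∃ P : Matrix n n F, IsUnit P.det ∧ (∀ w : n → ZMod 2, P *ᵥ emb F w ∈ I) ∧
      (∀ y ∈ I, ∃ w : n → ZMod 2, y = P *ᵥ emb F w) := by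
  classical
  have h2 : ∀ x : I, 2 • x = 0 := by
    intro x
    rw [two_smul]
    exact Subtype.ext (vadd_self x.1)
  let inst : Module (ZMod 2) I := AddCommGroup.zmodModule h2
  let b := Module.finBasis (ZMod 2) I
  have hsm : ∀ (t : ZMod 2) (y : I), ((t • y : I) : n → F) = c2 F t • (y : n → F) := by
    intro t y
    rcases zmod2_cases t with h | h
    · rw [h, zero_smul, c2_zero, zero_smul]; rfl
    · rw [h, one_smul, c2_one, one_smul]
  have hcoe : ∀ {α : Type} [Fintype α] (b' : Module.Basis α (ZMod 2) I) (y : I),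
      (y : n → F) = ∑ j, c2 F (b'.repr y j) • ((b' j : I) : n → F) := by
    intro α _ b' y
    have h3 := b'.sum_repr y
    have h4 := congrArg (I.subtype) h3
    rw [map_sum] at h4
    change _ = (y : n → F) at h4
    rw [← h4]
    apply Finset.sum_congr rfl
    intro j _
    exact hsm _ _
  have hle : Module.finrank (ZMod 2) I ≤ Fintype.card n := by
    have h3 : Nat.card I = 2 ^ Module.finrank (ZMod 2) I := by
      rw [Module.natCard_eq_pow_finrank (K := ZMod 2), Nat.card_zmod]
    rw [h3] at hcard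
    exact (Nat.pow_le_pow_iff_right (by norm_num)).1 hcard
  have hge : Fintype.card n ≤ Module.finrank (ZMod 2) I := by
    have h3 : Submodule.span F (Set.range fun j => ((b j : I) : n → F)) = ⊤ := by
      rw [eq_top_iff, ← hspan, Submodule.span_le]
      intro y hy
      have h4 := hcoe b ⟨y, hy⟩
      change y = _ at h4
      rw [h4]
      apply Submodule.sum_mem
      intro j _
      exact Submodule.smul_mem _ _ (Submodule.subset_span ⟨j, rfl⟩)
    have h5 := finrank_range_le_card (R := F) (fun j => ((b j : I) : n → F))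
    rw [Set.finrank, h3, finrank_top, Module.finrank_fintype_fun_eq_card, Fintype.card_fin] at h5
    exact h5
  have heq : Module.finrank (ZMod 2) I = Fintype.card n := le_antisymm hle hge
  let e : Fin (Module.finrank (ZMod 2) I) ≃ n := Fintype.equivOfCardEq (by
    rw [Fintype.card_fin, heq])
  let P : Matrix n n F := fun i j => ((b (e.symm j) : I) : n → F) i
  have hP : ∀ w : n → ZMod 2, P *ᵥ emb F w =
      ∑ j, c2 F (w (e j)) • ((b j : I) : n → F) := by
    intro w
    rw [mulVec_emb, ← e.sum_comp]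
    apply Finset.sum_congr rfl
    intro j _
    congr 1
    ext i
    change ((b (e.symm (e j)) : I) : n → F) i = _
    rw [Equiv.symm_apply_apply]
  have hmem : ∀ w : n → ZMod 2, P *ᵥ emb F w ∈ I := by
    intro w
    rw [hP]
    apply AddSubgroup.sum_mem
    intro j _
    rw [← hsm]
    exact (w (e j) • b j).2
  have hsurj : ∀ y ∈ I, ∃ w : n → ZMod 2, y = P *ᵥ emb F w := by
    intro y hy
    refine ⟨fun j => b.repr ⟨y, hy⟩ (e.symm j), ?_⟩
    rw [hP]
    simp only [Equiv.symm_apply_apply]
    exact hcoe b ⟨y, hy⟩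
  refine ⟨P, ?_, hmem, hsurj⟩
  rw [← Matrix.isUnit_iff_isUnit_det, ← Matrix.mulVec_surjective_iff_isUnit]
  have h3 : LinearMap.range P.mulVecLin = ⊤ := by
    rw [eq_top_iff, ← hspan, Submodule.span_le]
    intro y hy
    obtain ⟨w, hw⟩ := hsurj y hy
    exact ⟨emb F w, hw.symm⟩
  exact LinearMap.range_eq_top.1 h3

/-- A lattice presentation of an additive map on a group. -/
structure LatMap {H : Type*} [Group H] (y : H → (n → F)) (Y : Matrix n n F) : Prop where
  add : ∀ a b, y (a * b) = y a + y b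
  unit : IsUnit Y.det
  pre : ∀ h, ∃ v : n → ZMod 2, y h = Y *ᵥ emb F v
  post : ∀ v : n → ZMod 2, ∃ h, y h = Y *ᵥ emb F v

namespace LatMap

variable {H : Type*} [Group H] {y : H → (n → F)} {Y : Matrix n n F}

lemma one (hy : LatMap y Y) : y 1 = 0 := by
  have := hy.add 1 1
  rw [mul_one] at this
  exact left_eq_add.1 this

lemma mulVec_inj (hy : LatMap y Y) {v v' : n → F} (h : Y *ᵥ v = Y *ᵥ v') : v = v' := by
  have h1 := congrArg (fun t => Y⁻¹ *ᵥ t) h
  simpa [Matrix.mulVec_mulVec, Matrix.nonsing_inv_mul _ hy.unit] using h1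

/-- Additive functions on the group factor linearly. -/
lemma exists_ext (hy : LatMap y Y) {θ : H → F} (hθ : ∀ a b, θ (a * b) = θ a + θ b)
    (hker : ∀ h, y h = 0 → θ h = 0) : ∃ φ : (n → F) →ₗ[F] F, ∀ h, θ h = φ (y h) := by
  choose s hs using hy.post
  have hθ1 : θ 1 = 0 := hker 1 hy.one
  have hinv : ∀ h, θ h⁻¹ = θ h := by
    intro h
    have h1 := hθ h h⁻¹
    rw [mul_inv_cancel, hθ1] at h1
    exact (CharTwo.add_eq_zero.1 h1.symm).symm
  have hyinv : ∀ h, y h⁻¹ = y h := by
    intro h
    have h1 := hy.add h h⁻¹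
    rw [mul_inv_cancel, hy.one] at h1
    ext i
    have h2 := congrFun h1 i
    exact (CharTwo.add_eq_zero.1 h2.symm).symm
  have heq : ∀ a b, y a = y b → θ a = θ b := by
    intro a b hab
    have h1 : y (a * b⁻¹) = 0 := by
      rw [hy.add, hyinv, hab]
      exact vadd_self _
    have h2 := hker _ h1
    rw [hθ, hinv] at h2
    exact CharTwo.add_eq_zero.1 h2
  have hadd : ∀ v v' : n → ZMod 2, θ (s (v + v')) = θ (s v) + θ (s v') := by
    intro v v'
    rw [← hθ]
    apply heq
    rw [hy.add, hs, hs, hs, emb_add, Matrix.mulVec_add]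
  let θ' : (n → ZMod 2) →+ F := AddMonoidHom.mk' (fun v => θ (s v)) hadd
  let t : n → F := fun j => θ' (Pi.single j 1)
  have ht : ∀ v : n → ZMod 2, θ' v = t ⬝ᵥ emb F v := by
    intro v
    conv_lhs => rw [← Finset.univ_sum_single v]
    rw [map_sum]
    apply Finset.sum_congr rfl
    intro j _
    rcases zmod2_cases (v j) with h | h
    · rw [h, Pi.single_zero, map_zero, emb_apply, h, c2_zero, mul_zero]
    · rw [h, emb_apply, h, c2_one, mul_one]
  refine ⟨{ toFun := fun m => t ⬝ᵥ (Y⁻¹ *ᵥ m)
            map_add' := fun a b => by rw [Matrix.mulVec_add, dotProduct_add]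
            map_smul' := fun a b => by
              rw [Matrix.mulVec_smul, dotProduct_smul]; rfl }, ?_⟩
  intro h
  obtain ⟨v, hv⟩ := hy.pre h
  change θ h = t ⬝ᵥ (Y⁻¹ *ᵥ y h)
  rw [hv, Matrix.mulVec_mulVec, Matrix.nonsing_inv_mul _ hy.unit, Matrix.one_mulVec, ← ht]
  exact heq _ _ (by rw [hv, hs])

/-- The Frobenius twist of a lattice map. -/
lemma frob (hy : LatMap y Y) : LatMap (fun h => sg (y h)) (Y.map (frobenius F 2)) := by
  refine ⟨?_, ?_, ?_, ?_⟩
  · intro a b
    rw [hy.add, sg_add]
  · have h1 : (Y.map (frobenius F 2)).det = frobenius F 2 Y.det :=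
      (RingHom.map_det (frobenius F 2) Y).symm
    rw [h1]
    exact hy.unit.map (frobenius F 2)
  · intro h
    obtain ⟨v, hv⟩ := hy.pre h
    exact ⟨v, by rw [hv, sg_mulVec, sg_emb]⟩
  · intro v
    obtain ⟨h, hh⟩ := hy.post v
    exact ⟨h, by rw [hh, sg_mulVec, sg_emb]⟩

end LatMap

end Pool.Agent.Work.MP_8bb7de_al.P2
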