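import Pool.Agent.Work.MP_8bb7de_al.P2.VAlg
import Pool.Agent.Work.MP_8bb7de_al.P2.Lat
import Pool.Agent.Work.MP_8bb7de_al.Transfer

set_option autoImplicit false
set_option linter.unusedSectionVars false
set_option linter.unusedVariables false

/-!
Coordinates on a `2`-group with central elementary abelian Frattini subgroup, and the functionals
`τ` on its group algebra.
-/

namespace Pool.Agent.Work.MP_8bb7de_al.P2

open MonoidAlgebra

variable {ι κ : Type*} [Fintype ι] [DecidableEq ι] [Fintype κ] [DecidableEq κ]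

/-- Coordinates on a group. -/
structure GData (G : Type*) [Group G] (B : κ → ι → ι → ZMod 2) where
  v : G → (ι → ZMod 2)
  f : G → (κ → ZMod 2)
  v_mul : ∀ g h, v (g * h) = v g + v h
  f_mul : ∀ g z, v z = 0 → f (g * z) = f g + f z
  central : ∀ z, v z = 0 → ∀ g, g * z = z * g
  inj : ∀ z, v z = 0 → f z = 0 → z = 1
  surj_v : ∀ x, ∃ g, v g = x
  surj_f : ∀ w, ∃ z, v z = 0 ∧ f z = w
  sq : ∀ g, f (g * g) = qF B (ZMod 2) (v g)
  gen : ∀ z, v z = 0 → z ∈ Subgroup.closure {x | ∃ g, x = g * g}

namespace GData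

variable {G : Type*} [Group G] {B : κ → ι → ι → ZMod 2} (D : GData G B)

lemma v_one : D.v 1 = 0 := by
  have := D.v_mul 1 1
  rw [mul_one] at this
  exact left_eq_add.1 this

lemma v_inv (g : G) : D.v g⁻¹ = D.v g := by
  have h := D.v_mul g g⁻¹
  rw [mul_inv_cancel, D.v_one] at h
  ext i
  have h2 := congrFun h i
  exact (CharTwo.add_eq_zero.1 h2.symm).symm

lemma v_sq (g : G) : D.v (g * g) = 0 := by
  rw [D.v_mul]; exact vadd_self _

lemma f_one : D.f 1 = 0 := by
  have h := D.sq 1
  rw [mul_one, D.v_one, qF_zero] at h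
  exact h

lemma sq_one {z : G} (hz : D.v z = 0) : z * z = 1 := by
  apply D.inj
  · exact D.v_sq z
  · rw [D.sq, hz, qF_zero]

lemma f_comm (g h : G) : D.f (g * h) + D.f (h * g) = bF B (ZMod 2) (D.v g) (D.v h) := by
  set c := g * h * (h * g)⁻¹ with hc
  have hvc : D.v c = 0 := by
    rw [hc, D.v_mul, D.v_inv, D.v_mul, D.v_mul, add_comm (D.v h)]
    exact vadd_self _
  have hcc := D.sq_one hvc
  have h1 : g * h = (h * g) * c := by
    rw [D.central c hvc, hc]
    group
  have h2 : (g * h) * (g * h) = c * (g * g) * (h * h) := by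
    have h3 : h * g = g * h * c := by
      calc h * g = h * g * (c * c) := by rw [hcc, mul_one]
        _ = (h * g * c) * c := by group
        _ = g * h * c := by rw [← h1]
    calc (g * h) * (g * h) = g * (h * g) * h := by group
      _ = g * (g * h * c) * h := by rw [h3]
      _ = (g * g * h) * c * h := by group
      _ = c * (g * g * h) * h := by rw [D.central c hvc]
      _ = _ := by group
  have h3 : D.f ((g * h) * (g * h)) = D.f c + D.f (g * g) + D.f (h * h) := by
    rw [h2, D.f_mul _ _ (D.v_sq h), D.f_mul _ _ (D.v_sq g)]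
  rw [D.sq, D.v_mul, qF_add, D.sq, D.sq] at h3
  have h4 : D.f (g * h) = D.f (h * g) + D.f c := by
    conv_lhs => rw [h1]
    exact D.f_mul _ _ hvc
  ext l
  have h5 := congrFun h3 l
  have h6 := congrFun h4 l
  simp only [Pi.add_apply] at h5 h6 ⊢
  have h7 := CharTwo.add_self_eq_zero (D.f (h * g) l)
  linear_combination h6 + h7 - h5

/-- A section of the projection. -/
noncomputable def s (x : ι → ZMod 2) : G := (D.surj_v x).choose

lemma v_s (x : ι → ZMod 2) : D.v (D.s x) = x := (D.surj_v x).choose_spec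

/-- The cocycle. -/
noncomputable def alpha (x y : ι → ZMod 2) : κ → ZMod 2 :=
  D.f (D.s x * D.s y) + D.f (D.s x) + D.f (D.s y)

lemma f_mul' (g h : G) : D.f (g * h) = D.f g + D.f h + D.alpha (D.v g) (D.v h) := by
  set a := D.s (D.v g) with ha
  set b := D.s (D.v h) with hb
  have hz : D.v (a⁻¹ * g) = 0 := by
    rw [D.v_mul, D.v_inv, ha, D.v_s]; exact vadd_self _
  have hz' : D.v (b⁻¹ * h) = 0 := by
    rw [D.v_mul, D.v_inv, hb, D.v_s]; exact vadd_self _
  have h1 : D.f g = D.f a + D.f (a⁻¹ * g) := by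
    rw [← D.f_mul _ _ hz]; congr 1; group
  have h2 : D.f h = D.f b + D.f (b⁻¹ * h) := by
    rw [← D.f_mul _ _ hz']; congr 1; group
  have h3 : D.f (g * h) = D.f (a * b) + D.f (a⁻¹ * g) + D.f (b⁻¹ * h) := by
    rw [← D.f_mul _ _ hz, ← D.f_mul _ _ hz']
    congr 1
    have h4 := D.central _ hz b
    calc g * h = a * ((a⁻¹ * g) * b) * (b⁻¹ * h) := by group
      _ = a * (b * (a⁻¹ * g)) * (b⁻¹ * h) := by rw [h4]
      _ = _ := by group
  rw [h3, h1, h2, alpha]
  have h4 := vadd_self (D.f a)
  have h5 := vadd_self (D.f b)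
  calc D.f (a * b) + D.f (a⁻¹ * g) + D.f (b⁻¹ * h)
      = D.f (a * b) + D.f (a⁻¹ * g) + D.f (b⁻¹ * h) + (D.f a + D.f a) + (D.f b + D.f b) := by
        rw [h4, h5, add_zero, add_zero]
    _ = _ := by abel

lemma alpha_self (x : ι → ZMod 2) : D.alpha x x = qF B (ZMod 2) x := by
  rw [alpha, D.sq, D.v_s, add_assoc, vadd_self, add_zero]

lemma alpha_symm (x y : ι → ZMod 2) : D.alpha x y + D.alpha y x = bF B (ZMod 2) x y := by
  have h := D.f_comm (D.s x) (D.s y)
  rw [D.v_s, D.v_s] at h
  rw [← h, alpha, alpha]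
  have h4 := vadd_self (D.f (D.s x))
  have h5 := vadd_self (D.f (D.s y))
  calc D.f (D.s x * D.s y) + D.f (D.s x) + D.f (D.s y) +
        (D.f (D.s y * D.s x) + D.f (D.s y) + D.f (D.s x))
      = D.f (D.s x * D.s y) + D.f (D.s y * D.s x) + (D.f (D.s x) + D.f (D.s x)) +
        (D.f (D.s y) + D.f (D.s y)) := by abel
    _ = _ := by rw [h4, h5, add_zero, add_zero]

lemma alpha_zero_left (y : ι → ZMod 2) : D.alpha 0 y = 0 := by
  have h := D.f_mul' 1 (D.s y)
  rw [one_mul, D.f_one, zero_add, D.v_one, D.v_s] at h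
  exact left_eq_add.1 h

lemma alpha_zero_right (y : ι → ZMod 2) : D.alpha y 0 = 0 := by
  have h := D.f_mul' (D.s y) 1
  rw [mul_one, D.f_one, add_zero, D.v_one, D.v_s] at h
  exact left_eq_add.1 h

lemma f_conj (g y : G) : D.f (g * y * g⁻¹) = D.f y + bF B (ZMod 2) (D.v g) (D.v y) := by
  have h := D.f_comm g (y * g⁻¹)
  have e1 : y * g⁻¹ * g = y := by group
  have e2 : g * (y * g⁻¹) = g * y * g⁻¹ := by group
  rw [e1, e2, D.v_mul, D.v_inv, map_add, bF_self, add_zero] at h
  rw [← h]
  have h4 := vadd_self (D.f y)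
  calc D.f (g * y * g⁻¹) = D.f (g * y * g⁻¹) + (D.f y + D.f y) := by rw [h4, add_zero]
    _ = _ := by abel

end GData

section algebra

variable {F : Type*} [Field F] {G : Type*} [Group G]

/-- Linear maps on a group algebra with prescribed values. -/
noncomputable def glin {N : Type*} [AddCommGroup N] [Module F N] (g : G → N) :
    MonoidAlgebra F G →ₗ[F] N :=
  (Finsupp.linearCombination F g) ∘ₗ (MonoidAlgebra.coeffLinearEquiv F).toLinearMap

lemma glin_single {N : Type*} [AddCommGroup N] [Module F N] (g : G → N) (x : G) (r : F) :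
    glin g (single x r) = r • g x := by
  rw [glin, LinearMap.comp_apply]
  change Finsupp.linearCombination F g ((single x r : MonoidAlgebra F G).coeff) = _
  rw [MonoidAlgebra.coeff_single, Finsupp.linearCombination_single]

variable {B : κ → ι → ι → ZMod 2} (D : GData G B)

variable (F) in
/-- The projection onto the group algebra of the Frattini quotient. -/
noncomputable def gpi : MonoidAlgebra F G →ₐ[F] VA F ι :=
  MonoidAlgebra.lift F (VA F ι) G
    { toFun := fun g => vs (D.v g) 1
      map_one' := by rw [D.v_one]; rfl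
      map_mul' := fun g h => by rw [vs_mul, D.v_mul, mul_one] }

lemma gpi_single (g : G) (r : F) : gpi F D (single g r) = vs (D.v g) r := by
  rw [gpi, MonoidAlgebra.lift_single]
  change r • vs (D.v g) 1 = _
  rw [smul_vs, mul_one]

/-- The functionals `τ`. -/
noncomputable def tau (F : Type*) [Field F] {G : Type*} [Group G] {B : κ → ι → ι → ZMod 2}
    (D : GData G B) (φ : (κ → ZMod 2) →+ ZMod 2) : MonoidAlgebra F G →ₗ[F] VA F ι :=
  glin (fun g => vs (D.v g) (c2 F (φ (D.f g))))

lemma tau_single (φ : (κ → ZMod 2) →+ ZMod 2) (g : G) (r : F) :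
    tau F D φ (single g r) = vs (D.v g) (c2 F (φ (D.f g)) * r) := by
  rw [tau, glin_single, smul_vs, mul_comm]

variable [CharP F 2]

lemma tau_mul (φ : (κ → ZMod 2) →+ ZMod 2) (a b : MonoidAlgebra F G) :
    tau F D φ (a * b) = tau F D φ a * gpi F D b + gpi F D a * tau F D φ b +
      bil (fun x y => c2 F (φ (D.alpha x y))) (gpi F D a) (gpi F D b) := by
  induction a using MonoidAlgebra.induction_linear with
  | zero => simp only [zero_mul, map_zero, bil_zero_left, add_zero]
  | add a a' ha ha' =>
    rw [add_mul, map_add, ha, ha', map_add, map_add, add_mul, add_mul, bil_add_left]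
    abel
  | single g r =>
    induction b using MonoidAlgebra.induction_linear with
    | zero => simp only [mul_zero, map_zero, bil_zero_right, add_zero]
    | add a a' ha ha' =>
      rw [mul_add, map_add, ha, ha', map_add, map_add, mul_add, mul_add, bil_add_right]
      abel
    | single h t =>
      rw [single_mul_single, tau_single, tau_single, tau_single, gpi_single, gpi_single, bil_vs,
        vs_mul, vs_mul, ← vs_add, ← vs_add, D.v_mul]
      congr 1
      rw [D.f_mul', map_add, map_add, c2_add, c2_add]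
      ring

/-- The coordinate functionals. -/
def ev0' (κ : Type*) (l : κ) : (κ → ZMod 2) →+ ZMod 2 := Pi.evalAddMonoidHom _ l

omit [Fintype κ] [DecidableEq κ] in
lemma ev0'_apply (l : κ) (w : κ → ZMod 2) : ev0' κ l w = w l := rfl

lemma bil_alpha_self (l : κ) (u : VA F ι) :
    bil (fun x y => c2 F (ev0' κ l (D.alpha x y))) u u =
      ∑ i, ∑ j, c2 F (B l i j) • (dV F i u * dV F j u) := by
  rw [← bil_BK]
  apply bil_self_eq
  · intro x
    rw [ev0'_apply, D.alpha_self]
    rfl
  · intro x y
    rw [ev0'_apply, ev0'_apply, ← c2_add, ← c2_add]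
    have := congrFun (D.alpha_symm x y) l
    rw [Pi.add_apply] at this
    rw [this]
    rfl

lemma bil_one_right (φ : (κ → ZMod 2) →+ ZMod 2) (a : VA F ι) :
    bil (fun x y => c2 F (φ (D.alpha x y))) a 1 = 0 := by
  induction a using vind with
  | h0 => rw [bil_zero_left]
  | hadd a b ha hb => rw [bil_add_left, ha, hb, add_zero]
  | hs x r =>
    rw [one_eq_vs, bil_vs, D.alpha_zero_right, map_zero, c2_zero, zero_mul, zero_mul, vs_zero]

lemma tau_one (φ : (κ → ZMod 2) →+ ZMod 2) : tau F D φ 1 = 0 := by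
  rw [MonoidAlgebra.one_def, tau_single, D.f_one, map_zero, c2_zero, zero_mul, vs_zero]

/-- The conjugation formula. -/
lemma tau_conj (φ : (κ → ZMod 2) →+ ZMod 2) (g : G) (a : MonoidAlgebra F G) (k : ι → ZMod 2) :
    (tau F D φ (a + single g 1 * a * single g⁻¹ 1)).coeff k =
      c2 F (φ (bF B (ZMod 2) (D.v g) k)) * (gpi F D a).coeff k := by
  induction a using MonoidAlgebra.induction_linear with
  | zero => simp
  | add a b ha hb =>
    have h1 : a + b + single g 1 * (a + b) * single g⁻¹ 1 =
        (a + single g 1 * a * single g⁻¹ 1) + (b + single g 1 * b * single g⁻¹ 1) := by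
      noncomm_ring
    rw [h1, map_add, coeff_add', ha, hb, map_add, coeff_add', mul_add]
  | single y r =>
    rw [single_mul_single, single_mul_single, map_add, tau_single, tau_single, gpi_single,
      coeff_add', vs_coeff, vs_coeff, vs_coeff, D.f_conj]
    have hv : D.v (g * y * g⁻¹) = D.v y := by
      rw [D.v_mul, D.v_mul, D.v_inv, add_comm (D.v g), add_assoc, vadd_self, add_zero]
    rw [hv]
    split_ifs with h
    · subst h
      rw [map_add, c2_add, one_mul, mul_one]
      have := CharTwo.add_self_eq_zero (c2 F (φ (D.f y)) * r)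
      linear_combination this
    · simp

lemma augV_gpi (a : MonoidAlgebra F G) : augV F ι (gpi F D a) = augmentation F G a := by
  induction a using MonoidAlgebra.induction_linear with
  | zero => simp
  | add a b ha hb => rw [map_add, map_add, map_add, ha, hb]
  | single g r => rw [gpi_single, augV_vs, augmentation_single]

end algebra

end Pool.Agent.Work.MP_8bb7de_al.P2
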