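import Pool.Agent.Work.MP_8bb7de_al.P2.GD
import Pool.Agent.Work.MP_8bb7de_al.Ab

set_option autoImplicit false
set_option linter.unusedSectionVars false
set_option linter.unusedVariables false

/-!
Comparison of the Frattini quotients of two groups with isomorphic group algebras, `p = 2`.
-/

namespace Pool.Agent.Work.MP_8bb7de_al.P2

open MonoidAlgebra

variable {ι κ : Type*} [Fintype ι] [DecidableEq ι] [Fintype κ] [DecidableEq κ]

/-- The subgroup generated by the squares. -/
def PhiH (H : Type*) [Group H] : Subgroup H := Subgroup.closure {x | ∃ h, x = h * h}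

lemma sq_mem_PhiH {H : Type*} [Group H] (h : H) : h * h ∈ PhiH H :=
  Subgroup.subset_closure ⟨h, rfl⟩

instance instNormalPhiH {H : Type*} [Group H] : (PhiH H).Normal := by
  constructor
  intro n hn g
  induction hn using Subgroup.closure_induction with
  | mem x hx =>
    obtain ⟨h, rfl⟩ := hx
    have : g * (h * h) * g⁻¹ = (g * h * g⁻¹) * (g * h * g⁻¹) := by group
    rw [this]
    exact sq_mem_PhiH _
  | one => simp
  | mul x y _ _ hx hy =>
    have : g * (x * y) * g⁻¹ = (g * x * g⁻¹) * (g * y * g⁻¹) := by group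
    rw [this]
    exact Subgroup.mul_mem _ hx hy
  | inv x _ hx =>
    have : g * x⁻¹ * g⁻¹ = (g * x * g⁻¹)⁻¹ := by group
    rw [this]
    exact Subgroup.inv_mem _ hx

lemma quot_sq {H : Type*} [Group H] (a : H ⧸ PhiH H) : a * a = 1 := by
  induction a using QuotientGroup.induction_on with
  | H h =>
    rw [← QuotientGroup.mk_mul]
    exact (QuotientGroup.eq_one_iff _).2 (sq_mem_PhiH h)

lemma comm_of_sq {A : Type*} [Group A] (hA : ∀ a : A, a * a = 1) (a b : A) : a * b = b * a := by
  have h1 := hA (a * b)
  have h2 := hA a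
  have h3 := hA b
  calc a * b = (b * a) * ((a * b) * (a * b)) := by
        have : (b * a) * ((a * b) * (a * b)) = b * ((a * a) * b) * (a * b) := by group
        rw [this, h2, one_mul, h3, one_mul]
    _ = b * a := by rw [h1, mul_one]

section

variable {F : Type*} [Field F]

lemma ma_comm {A : Type*} [Group A] (hA : ∀ a : A, a * a = 1) (a b : MonoidAlgebra F A) :
    a * b = b * a := by
  induction a using MonoidAlgebra.induction_linear with
  | zero => simp
  | add x y hx hy => rw [add_mul, mul_add, hx, hy]
  | single g r =>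
    induction b using MonoidAlgebra.induction_linear with
    | zero => simp
    | add x y hx hy => rw [add_mul, mul_add, hx, hy]
    | single h t => rw [single_mul_single, single_mul_single, comm_of_sq hA, mul_comm r t]

variable [CharP F 2]

lemma ma_sq {A : Type*} [Group A] (hA : ∀ a : A, a * a = 1) (a : MonoidAlgebra F A) :
    a * a = single 1 (augmentation F A a * augmentation F A a) := by
  induction a using MonoidAlgebra.induction_linear with
  | zero => simp
  | add x y hx hy =>
    have h1 : (x + y) * (x + y) = x * x + y * y + (x * y + y * x) := by noncomm_ring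
    have h2 : x * y + y * x = 0 := by
      rw [ma_comm hA y x]
      have : (x * y : MonoidAlgebra F A) + x * y = (1 + 1 : F) • (x * y) := by
        rw [add_smul, one_smul]
      rw [this, CharTwo.add_self_eq_zero, zero_smul]
    rw [h1, h2, add_zero, hx, hy, ← single_add, map_add]
    congr 1
    have := CharTwo.add_self_eq_zero (augmentation F A x * augmentation F A y)
    linear_combination -this
  | single g r => rw [single_mul_single, hA, augmentation_single]

end

section main

variable {F : Type*} [Field F] [CharP F 2] {G : Type*} [Group G] {B : κ → ι → ι → ZMod 2}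
  (D : GData G B) {H : Type*} [Group H] (e : MonoidAlgebra F H ≃ₐ[F] MonoidAlgebra F G)

/-- The image of a group element of the other basis in the small group algebra. -/
noncomputable def uu (h : H) : VA F ι := gpi F D (e (single h 1))

lemma uu_mul (h h' : H) : uu D e (h * h') = uu D e h * uu D e h' := by
  unfold uu
  rw [← map_mul, ← map_mul, single_mul_single, one_mul]

lemma uu_one : uu D e 1 = 1 := by
  unfold uu
  rw [← MonoidAlgebra.one_def, map_one, map_one]

variable {e} (he : ∀ h : H, augmentation F G (e (single h 1)) = 1)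

include he

lemma aug_uu (h : H) : augV F ι (uu D e h) = 1 := by
  unfold uu
  rw [augV_gpi, he]

lemma uu_self (h : H) : uu D e h * uu D e h = 1 := by
  rw [va_mul_self, aug_uu D he, mul_one]
  rfl

lemma uu_Phi {h : H} (hh : h ∈ PhiH H) : uu D e h = 1 := by
  induction hh using Subgroup.closure_induction with
  | mem x hx =>
    obtain ⟨h, rfl⟩ := hx
    rw [uu_mul, uu_self D he]
  | one => exact uu_one D e
  | mul x y _ _ hx hy => rw [uu_mul, hx, hy, mul_one]
  | inv x _ hx =>
    have h1 := uu_mul D e x x⁻¹
    rw [mul_inv_cancel, uu_one, hx, one_mul] at h1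
    exact h1.symm

lemma aug_symm (a : MonoidAlgebra F G) : augmentation F H (e.symm a) = augmentation F G a := by
  have h := augmentation_e e he (e.symm a)
  rw [AlgEquiv.apply_symm_apply] at h
  exact h.symm

omit [CharP F 2] he in
/-- The image of a group element in the small group algebra of the other group. -/
noncomputable def pg (e : MonoidAlgebra F H ≃ₐ[F] MonoidAlgebra F G) (g : G) :
    MonoidAlgebra F (H ⧸ PhiH H) := proj F (PhiH H) (e.symm (single g 1))

omit [CharP F 2] he in
lemma pg_mul (g h : G) : pg e (g * h) = pg e g * pg e h := by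
  unfold pg
  rw [← map_mul, ← map_mul, single_mul_single, one_mul]

omit [CharP F 2] he in
lemma pg_one : pg e 1 = 1 := by
  unfold pg
  rw [← MonoidAlgebra.one_def, map_one, map_one]

lemma pg_sq (g : G) : pg e (g * g) = 1 := by
  rw [pg_mul, ma_sq quot_sq]
  unfold pg
  rw [augmentation_proj, aug_symm he, augmentation_single, mul_one, MonoidAlgebra.one_def]

lemma pg_of_v {z : G} (hz : D.v z = 0) : pg e z = 1 := by
  have h := D.gen z hz
  clear hz
  induction h using Subgroup.closure_induction with
  | mem x hx =>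
    obtain ⟨h, rfl⟩ := hx
    exact pg_sq he h
  | one => exact pg_one
  | mul x y _ _ hx hy => rw [pg_mul, hx, hy, mul_one]
  | inv x _ hx =>
    have h1 := pg_mul (e := e) x x⁻¹
    rw [mul_inv_cancel, pg_one, hx, one_mul] at h1
    exact h1.symm

lemma pg_eq {g h : G} (hv : D.v g = D.v h) : pg e g = pg e h := by
  have h1 : D.v (h⁻¹ * g) = 0 := by
    rw [D.v_mul, D.v_inv, hv]
    exact vadd_self _
  have h2 : g = h * (h⁻¹ * g) := by group
  rw [h2, pg_mul, pg_of_v D he h1, mul_one]

lemma uu_eq {a b : H} (hab : (a : H ⧸ PhiH H) = (b : H ⧸ PhiH H)) : uu D e a = uu D e b := by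
  have h1 : b⁻¹ * a ∈ PhiH H := QuotientGroup.eq.1 hab.symm
  have h2 : a = b * (b⁻¹ * a) := by group
  rw [h2, uu_mul, uu_Phi D he h1, mul_one]

/-- The linear map `F[H/Φ(H)] → F[V]`. -/
noncomputable def psi (D : GData G B) (e : MonoidAlgebra F H ≃ₐ[F] MonoidAlgebra F G) :
    MonoidAlgebra F (H ⧸ PhiH H) →ₗ[F] VA F ι :=
  glin (fun q => uu D e (Quotient.out q))

/-- The linear map `F[V] → F[H/Φ(H)]`. -/
noncomputable def psi' (D : GData G B) (e : MonoidAlgebra F H ≃ₐ[F] MonoidAlgebra F G) :
    VA F ι →ₗ[F] MonoidAlgebra F (H ⧸ PhiH H) :=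
  vlin (fun x => pg e (D.s x))

lemma psi_single (h : H) (r : F) : psi D e (single (h : H ⧸ PhiH H) r) = r • uu D e h := by
  rw [psi, glin_single]
  congr 1
  apply uu_eq D he
  exact QuotientGroup.out_eq' _

lemma psi_proj (a : MonoidAlgebra F H) : psi D e (proj F (PhiH H) a) = gpi F D (e a) := by
  induction a using MonoidAlgebra.induction_linear with
  | zero => simp
  | add x y hx hy => rw [map_add, map_add, hx, hy, map_add, map_add]
  | single h r =>
    rw [proj_single, psi_single D he]
    have : (single h r : MonoidAlgebra F H) = r • single h 1 := by simp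
    rw [this, map_smul, map_smul]
    rfl

lemma psi'_gpi (b : MonoidAlgebra F G) : psi' D e (gpi F D b) = proj F (PhiH H) (e.symm b) := by
  induction b using MonoidAlgebra.induction_linear with
  | zero => simp
  | add x y hx hy => rw [map_add, map_add, hx, hy, map_add, map_add]
  | single g r =>
    rw [gpi_single, psi', vlin_vs, pg_eq D he (D.v_s (D.v g))]
    have : (single g r : MonoidAlgebra F G) = r • single g 1 := by simp
    rw [this, map_smul, map_smul]
    rfl

omit [CharP F 2] he in
lemma proj_surj (N : Subgroup H) [N.Normal] : Function.Surjective (proj F N) := by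
  intro b
  induction b using MonoidAlgebra.induction_linear with
  | zero => exact ⟨0, map_zero _⟩
  | add x y hx hy =>
    obtain ⟨a, rfl⟩ := hx
    obtain ⟨b, rfl⟩ := hy
    exact ⟨a + b, map_add _ _ _⟩
  | single q r =>
    obtain ⟨g, rfl⟩ := QuotientGroup.mk_surjective q
    exact ⟨single g r, proj_single _ g r⟩

omit [CharP F 2] he in
lemma gpi_surj : Function.Surjective (gpi F D) := by
  intro b
  induction b using vind with
  | h0 => exact ⟨0, map_zero _⟩
  | hadd x y hx hy =>
    obtain ⟨a, rfl⟩ := hx
    obtain ⟨b, rfl⟩ := hy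
    exact ⟨a + b, map_add _ _ _⟩
  | hs x r =>
    obtain ⟨g, rfl⟩ := D.surj_v x
    exact ⟨single g r, gpi_single _ g r⟩

lemma psi'_psi (a : MonoidAlgebra F (H ⧸ PhiH H)) : psi' D e (psi D e a) = a := by
  obtain ⟨a, rfl⟩ := proj_surj (F := F) (PhiH H) a
  rw [psi_proj D he, psi'_gpi D he, AlgEquiv.symm_apply_apply]

lemma psi_psi' (b : VA F ι) : psi D e (psi' D e b) = b := by
  obtain ⟨b, rfl⟩ := gpi_surj D b
  rw [psi'_gpi D he, psi_proj D he, AlgEquiv.apply_symm_apply]

lemma psi_inj : Function.Injective (psi D e) := by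
  intro a b hab
  rw [← psi'_psi D he a, hab, psi'_psi D he]

omit [CharP F 2] he in
lemma finrank_VA : Module.finrank F (VA F ι) = 2 ^ Fintype.card ι := by
  rw [LinearEquiv.finrank_eq (AddMonoidAlgebra.coeffLinearEquiv (S := F) (R := F)
    (M := ι → ZMod 2)), Module.finrank_finsupp_self]
  simp [ZMod.card]

include D in
lemma card_quot [Finite H] : Nat.card (H ⧸ PhiH H) = 2 ^ Fintype.card ι := by
  rw [← finrank_monoidAlgebra (F := F) (G := H ⧸ PhiH H), ← finrank_VA (F := F) (ι := ι)]
  exact LinearEquiv.finrank_eq (LinearEquiv.ofLinearMap (psi D e) (psi' D e)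
    (LinearMap.ext (psi_psi' D he)) (LinearMap.ext (psi'_psi D he)))

omit [CharP F 2] he in
include D in
lemma card_G : Nat.card G = 2 ^ Fintype.card ι * 2 ^ Fintype.card κ := by
  have hb : Function.Bijective (fun g : G => (D.v g, D.f g)) := by
    constructor
    · intro g h hgh
      have h1 : D.v g = D.v h := (Prod.mk.inj hgh).1
      have h2 : D.f g = D.f h := (Prod.mk.inj hgh).2
      have h3 : D.v (h⁻¹ * g) = 0 := by
        rw [D.v_mul, D.v_inv, h1]
        exact vadd_self _
      have h4 : D.f g = D.f h + D.f (h⁻¹ * g) := by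
        rw [← D.f_mul _ _ h3]; congr 1; group
      rw [h2] at h4
      have h5 := D.inj _ h3 (left_eq_add.1 h4)
      exact (inv_mul_eq_one.1 h5).symm
    · rintro ⟨x, w⟩
      obtain ⟨g, hg⟩ := D.surj_v x
      obtain ⟨z, hz, hzf⟩ := D.surj_f (w + D.f g)
      refine ⟨g * z, ?_⟩
      change (D.v (g * z), D.f (g * z)) = (x, w)
      rw [D.v_mul, hz, add_zero, D.f_mul _ _ hz, hzf, hg, add_comm w, ← add_assoc, vadd_self,
        zero_add]
  rw [Nat.card_congr (Equiv.ofBijective _ hb), Nat.card_prod, Nat.card_pi, Nat.card_pi]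
  simp

include D in
lemma card_Phi [Finite H] [Finite G] : Nat.card (PhiH H) = 2 ^ Fintype.card κ := by
  have h1 := card_eq_of_equiv e
  have h2 := Subgroup.card_eq_card_quotient_mul_card_subgroup (PhiH H)
  rw [card_quot D he, h1, card_G D] at h2
  exact (Nat.eq_of_mul_eq_mul_left (by positivity) h2).symm

/-- The functional `z`. -/
noncomputable def zz (D : GData G B) (e : MonoidAlgebra F H ≃ₐ[F] MonoidAlgebra F G) (h : H) :
    κ → F := fun l => augV F ι (tau F D (ev0' κ l) (e (single h 1)))

lemma tau_mul_Phi (φ : (κ → ZMod 2) →+ ZMod 2) (h : H) {w : H} (hw : w ∈ PhiH H) :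
    tau F D φ (e (single (h * w) 1)) = tau F D φ (e (single h 1)) +
      uu D e h * tau F D φ (e (single w 1)) := by
  have h1 : (single (h * w) (1 : F)) = single h 1 * single w 1 := by
    rw [single_mul_single, one_mul]
  have h2 : gpi F D (e (single w 1)) = 1 := uu_Phi D he hw
  rw [h1, map_mul, tau_mul, h2, mul_one, bil_one_right, add_zero]
  rfl

lemma zz_mul (h : H) {w : H} (hw : w ∈ PhiH H) : zz D e (h * w) = zz D e h + zz D e w := by
  ext l
  unfold zz
  rw [tau_mul_Phi D he _ h hw, map_add, map_mul, aug_uu D he, one_mul]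
  rfl

/-- The functional `x`. -/
noncomputable def xx (D : GData G B) (e : MonoidAlgebra F H ≃ₐ[F] MonoidAlgebra F G) (h : H) :
    ι → F := fun i => augV F ι (dV F i (uu D e h))

lemma xx_mul (h h' : H) : xx D e (h * h') = xx D e h + xx D e h' := by
  ext i
  unfold xx
  rw [uu_mul, dV_mul, map_add, map_mul, map_mul, aug_uu D he, aug_uu D he, mul_one, one_mul]
  rfl

omit [CharP F 2] he in
/-- Additive functions to a space of characteristic two kill the Frattini subgroup. -/
lemma add_Phi {K : Type*} [CommRing K] [CharP K 2] {n : Type*} {θ : H → (n → K)}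
    (hθ : ∀ a b, θ (a * b) = θ a + θ b) {h : H} (hh : h ∈ PhiH H) : θ h = 0 := by
  have h1 : θ 1 = 0 := by
    have := hθ 1 1
    rw [mul_one] at this
    exact left_eq_add.1 this
  induction hh using Subgroup.closure_induction with
  | mem x hx =>
    obtain ⟨h, rfl⟩ := hx
    rw [hθ]
    exact vadd_self _
  | one => exact h1
  | mul x y _ _ hx hy => rw [hθ, hx, hy, add_zero]
  | inv x _ hx =>
    have h2 := hθ x x⁻¹
    rw [mul_inv_cancel, h1, hx, zero_add] at h2
    exact h2.symm

omit [CharP F 2] he in
lemma e_induction {P : MonoidAlgebra F G → Prop} (h0 : P 0) (hadd : ∀ a b, P a → P b → P (a + b))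
    (hs : ∀ (h : H) (r : F), P (r • e (single h 1))) (a : MonoidAlgebra F G) : P a := by
  obtain ⟨a, rfl⟩ := e.surjective a
  induction a using MonoidAlgebra.induction_linear with
  | zero => rw [map_zero]; exact h0
  | add x y hx hy => rw [map_add]; exact hadd _ _ hx hy
  | single h r =>
    have : (single h r : MonoidAlgebra F H) = r • single h 1 := by simp
    rw [this, map_smul]
    exact hs h r

omit he in
lemma dual_zero {n : Type*} [Fintype n] [DecidableEq n] {S : Set (n → F)}
    (h : ∀ ψ : (n → F) →ₗ[F] F, (∀ y ∈ S, ψ y = 0) → ψ = 0) : Submodule.span F S = ⊤ := by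
  by_contra hne
  obtain ⟨f, hf, hle⟩ := Submodule.exists_le_ker_of_lt_top _ (lt_top_iff_ne_top.2 hne)
  apply hf
  apply h
  intro y hy
  exact hle (Submodule.subset_span hy)

lemma xx_span : Submodule.span F (Set.range (xx D e)) = ⊤ := by
  apply dual_zero
  intro ψ hψ
  have hall : ∀ a : MonoidAlgebra F G, ψ (fun i => augV F ι (dV F i (gpi F D a))) = 0 := by
    intro a
    apply e_induction (e := e) (P := fun a => ψ (fun i => augV F ι (dV F i (gpi F D a))) = 0)
    · simp only [map_zero]
      exact map_zero ψ
    · intro a b ha hb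
      have : (fun i => augV F ι (dV F i (gpi F D (a + b)))) =
          (fun i => augV F ι (dV F i (gpi F D a))) + fun i => augV F ι (dV F i (gpi F D b)) := by
        ext i
        simp only [map_add, Pi.add_apply]
      rw [this, map_add, ha, hb, add_zero]
    · intro h r
      have : (fun i => augV F ι (dV F i (gpi F D (r • e (single h 1))))) = r • xx D e h := by
        ext i
        simp only [map_smul, Pi.smul_apply]
        rfl
      rw [this, map_smul, hψ _ ⟨h, rfl⟩, smul_zero]
  apply ext_lattice
  intro v
  obtain ⟨g, rfl⟩ := D.surj_v v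
  have h1 := hall (single g 1)
  have h2 : (fun i => augV F ι (dV F i (gpi F D (single g 1)))) = emb F (D.v g) := by
    ext i
    rw [gpi_single, dV_vs, augV_vs, mul_one, emb_apply]
  rw [h2] at h1
  rw [h1]
  rfl

lemma zz_span : Submodule.span F {y | ∃ w ∈ PhiH H, y = zz D e w} = ⊤ := by
  apply dual_zero
  intro ψ hψ
  let Λ : MonoidAlgebra F G →ₗ[F] F :=
    { toFun := fun a => ψ (fun l => augV F ι (tau F D (ev0' κ l) a))
      map_add' := by
        intro a b
        rw [← map_add]
        congr 1
        ext l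
        simp only [map_add, Pi.add_apply]
      map_smul' := by
        intro r a
        rw [RingHom.id_apply, ← map_smul]
        congr 1
        ext l
        simp only [map_smul, Pi.smul_apply] }
  have hΛ : ∀ a, Λ a = ψ (fun l => augV F ι (tau F D (ev0' κ l) a)) := fun a => rfl
  have hconst : ∀ (h : H) (w : H), w ∈ PhiH H →
      Λ (e (single (h * w) 1)) = Λ (e (single h 1)) := by
    intro h w hw
    have h1 : Λ (e (single (h * w) 1)) = ψ (zz D e (h * w)) := rfl
    have h2 : Λ (e (single h 1)) = ψ (zz D e h) := rfl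
    rw [h1, h2, zz_mul D he h hw, map_add, hψ _ ⟨w, hw, rfl⟩, add_zero]
  let Λ' : MonoidAlgebra F (H ⧸ PhiH H) →ₗ[F] F :=
    glin (fun q => Λ (e (single (Quotient.out q) 1)))
  have hΛ'1 : ∀ (q : H ⧸ PhiH H) (r : F),
      Λ' (single q r) = r • Λ (e (single (Quotient.out q) 1)) := fun q r => glin_single _ q r
  have hΛ' : ∀ a : MonoidAlgebra F H, Λ (e a) = Λ' (proj F (PhiH H) a) := by
    intro a
    induction a using MonoidAlgebra.induction_linear with
    | zero => simp
    | add x y hx hy => rw [map_add, map_add, hx, hy, map_add, map_add]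
    | single h r =>
      have h1 : (single h r : MonoidAlgebra F H) = r • single h 1 := by simp
      rw [proj_single, hΛ'1, h1, map_smul, map_smul]
      congr 1
      obtain ⟨n, hn⟩ := QuotientGroup.mk_out_eq_mul (PhiH H) h
      rw [hn]
      exact (hconst h n n.2).symm
  apply ext_lattice
  intro w
  obtain ⟨z, hz, hzf⟩ := D.surj_f w
  have h1 : proj F (PhiH H) (e.symm (single z 1 - 1)) = 0 := by
    rw [map_sub, map_sub, map_one, map_one]
    have : proj F (PhiH H) (e.symm (single z 1)) = 1 := pg_of_v D he hz
    rw [this, sub_self]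
  have h2 := hΛ' (e.symm (single z 1 - 1))
  rw [h1, map_zero, AlgEquiv.apply_symm_apply, map_sub] at h2
  have h3 : Λ 1 = 0 := by
    rw [hΛ]
    have : (fun l => augV F ι (tau F D (ev0' κ l) (1 : MonoidAlgebra F G))) = 0 := by
      ext l
      rw [tau_one, map_zero]
      rfl
    rw [this, map_zero]
  have h4 : Λ (single z 1) = ψ (emb F w) := by
    rw [hΛ]
    congr 1
    ext l
    rw [tau_single, augV_vs, mul_one, hzf]
    rfl
  rw [h3, sub_zero, h4] at h2
  rw [h2]
  rfl

/-- The lattice map given by `x`. -/
lemma exists_X [Finite H] : ∃ X : Matrix ι ι F, LatMap (xx D e) X := by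
  let I : AddSubgroup (ι → F) :=
    { carrier := Set.range (xx D e)
      zero_mem' := ⟨1, by
        have := xx_mul D he 1 1
        rw [mul_one] at this
        exact left_eq_add.1 this⟩
      add_mem' := by
        rintro _ _ ⟨a, rfl⟩ ⟨b, rfl⟩
        exact ⟨a * b, xx_mul D he a b⟩
      neg_mem' := by
        rintro _ ⟨a, rfl⟩
        exact ⟨a, (vneg_eq _).symm⟩ }
  have hfin : Finite I := Set.finite_range (xx D e)
  let f : H ⧸ PhiH H → I := fun q => ⟨xx D e (Quotient.out q), ⟨_, rfl⟩⟩
  have hf : Function.Surjective f := by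
    rintro ⟨_, h, rfl⟩
    refine ⟨(h : H ⧸ PhiH H), ?_⟩
    apply Subtype.ext
    obtain ⟨n, hn⟩ := QuotientGroup.mk_out_eq_mul (PhiH H) h
    change xx D e (Quotient.out (h : H ⧸ PhiH H)) = xx D e h
    rw [hn, xx_mul D he, add_Phi (θ := xx D e) (xx_mul D he) n.2, add_zero]
  have hcard : Nat.card I ≤ 2 ^ Fintype.card ι := by
    rw [← card_quot D he]
    exact Nat.card_le_card_of_surjective f hf
  obtain ⟨X, h1, h2, h3⟩ := exists_matrix I hcard (xx_span D he)
  exact ⟨X, xx_mul D he, h1, fun h => h3 _ ⟨h, rfl⟩, fun v => by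
    obtain ⟨h, hh⟩ := h2 v
    exact ⟨h, hh⟩⟩

end main

end Pool.Agent.Work.MP_8bb7de_al.P2
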