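import Pool.Agent.Work.MP_8bb7de_al.P2.HSide1
import Pool.Agent.Work.MP_8bb7de_al.P2.Block3

set_option autoImplicit false
set_option linter.unusedSectionVars false
set_option linter.unusedVariables false

/-!
The coefficient data of a second group basis.
-/

namespace Pool.Agent.Work.MP_8bb7de_al.P2

open MonoidAlgebra
open scoped Matrix

variable {ι κ : Type*} [Fintype ι] [DecidableEq ι] [Fintype κ] [DecidableEq κ]

section forms

variable {F : Type*} [Field F]

lemma IsQuad.comp' {Q : (ι → F) → F} (h : IsQuad Q) (T : (ι → F) →ₗ[F] (ι → F)) :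
    IsQuad (fun x => Q (T x)) := by
  obtain ⟨P, hP⟩ := h
  exact ⟨(P.comp T).compl₂ T, fun x => hP (T x)⟩

variable [CharP F 2] {H : Type*} [Group H]

lemma LatMap.quad_ext {y : H → (ι → F)} {Y : Matrix ι ι F} (hy : LatMap y Y)
    {Q Q' : (ι → F) → F} (hQ : IsQuad Q) (hQ' : IsQuad Q') (h : ∀ a, Q (y a) = Q' (y a)) :
    ∀ x, Q x = Q' x := by
  have h1 := (hQ.comp' (Matrix.mulVecLin Y)).eq_of_lattice (hQ'.comp' (Matrix.mulVecLin Y))
    (fun v => by
      obtain ⟨a, ha⟩ := hy.post v
      have := h a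
      rw [ha] at this
      exact this)
  intro x
  have h2 := h1 (Y⁻¹ *ᵥ x)
  simp only [Matrix.mulVecLin_apply, Matrix.mulVec_mulVec, Matrix.mul_nonsing_inv _ hy.unit,
    Matrix.one_mulVec] at h2
  exact h2

lemma LatMap.lin_ext {y : H → (ι → F)} {Y : Matrix ι ι F} (hy : LatMap y Y)
    {ξ ζ : (ι → F) →ₗ[F] F} (h : ∀ a, ξ (y a) = ζ (y a)) : ξ = ζ := by
  have h1 : ξ ∘ₗ Matrix.mulVecLin Y = ζ ∘ₗ Matrix.mulVecLin Y := by
    apply ext_lattice
    intro v
    obtain ⟨a, ha⟩ := hy.post v
    have := h a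
    rw [ha] at this
    exact this
  apply LinearMap.ext
  intro x
  have h2 := LinearMap.congr_fun h1 (Y⁻¹ *ᵥ x)
  simp only [LinearMap.comp_apply, Matrix.mulVecLin_apply, Matrix.mulVec_mulVec,
    Matrix.mul_nonsing_inv _ hy.unit, Matrix.one_mulVec] at h2
  exact h2

lemma linear_eq_sum {n : Type*} [Fintype n] [DecidableEq n] (φ : (n → F) →ₗ[F] F) (y : n → F) :
    φ y = ∑ l, φ (Pi.single l 1) * y l := by
  conv_lhs => rw [← sum_single_eq y]
  rw [map_sum]
  apply Finset.sum_congr rfl
  intro l _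
  rw [map_smul, smul_eq_mul, mul_comm]

end forms

section main

variable {F : Type*} [Field F] [CharP F 2] {G : Type*} [Group G] {B : κ → ι → ι → ZMod 2}
  (D : GData G B) {H : Type*} [Group H] (e : MonoidAlgebra F H ≃ₐ[F] MonoidAlgebra F G)

/-- The elements `J_i(h) = u_h D_i(u_h)`. -/
noncomputable def JJ (i : ι) (h : H) : VA F ι := uu D e h * dV F i (uu D e h)

/-- The coefficients `c_m(h)`. -/
noncomputable def cH (m : ι → ZMod 2) (h : H) : F := by
  classical
  exact if hm : m = 0 then 0 else (JJ D e (exists_l0 hm).choose h).coeff m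

/-- The vectors `y(h)`. -/
noncomputable def yy (h : H) : ι → F := sg (xx D e h)

variable {e} (he : ∀ h : H, augmentation F G (e (single h 1)) = 1)

include he

lemma JJ_mul (i : ι) (h h' : H) : JJ D e i (h * h') = JJ D e i h + JJ D e i h' := by
  unfold JJ
  rw [uu_mul, dV_mul]
  have h1 := uu_self D he h
  have h2 := uu_self D he h'
  linear_combination (uu D e h * dV F i (uu D e h)) * h2 + (uu D e h' * dV F i (uu D e h')) * h1

omit he in
lemma dV_JJ (i j : ι) (h : H) : dV F j (JJ D e i h) = dV F i (JJ D e j h) := by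
  unfold JJ
  rw [dV_mul, dV_mul, dV_comm i j]
  ring

omit he in
lemma JJ_coeff_zero (i : ι) (h : H) : (JJ D e i h).coeff 0 = yy D e h i := by
  unfold JJ yy xx
  rw [coeff_mul']
  simp only [sg, augV_eq, dV_coeff]
  have h1 := CharTwo.sum_mul_self (R := F) Finset.univ
    (fun k : ι → ZMod 2 => c2 F (k i) * (uu D e h).coeff k)
  rw [h1]
  apply Finset.sum_congr rfl
  intro k _
  rw [zero_add]
  linear_combination -((uu D e h).coeff k * (uu D e h).coeff k) * c2_sq (K := F) (k i)

omit he in
lemma cH_zero (h : H) : cH D e 0 h = 0 := by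
  unfold cH
  rw [dif_pos rfl]

omit he in
lemma JJ_coeff (i : ι) (h : H) (m : ι → ZMod 2) : (JJ D e i h).coeff m =
    c2 F (m i) * cH D e m h + (if m = 0 then yy D e h i else 0) := by
  by_cases hm : m = 0
  · subst hm
    rw [if_pos rfl, cH_zero, mul_zero, zero_add, JJ_coeff_zero]
  · rw [if_neg hm, add_zero]
    unfold cH
    rw [dif_neg hm]
    set j := (exists_l0 hm).choose with hj
    have hmj : m j = 1 := (exists_l0 hm).choose_spec
    have h1 := congrArg (fun a : VA F ι => a.coeff m) (dV_JJ D (e := e) i j h)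
    simp only [dV_coeff, hmj, c2_one, one_mul] at h1
    exact h1

lemma cH_mul (m : ι → ZMod 2) (h h' : H) : cH D e m (h * h') = cH D e m h + cH D e m h' := by
  by_cases hm : m = 0
  · subst hm
    rw [cH_zero, cH_zero, cH_zero, add_zero]
  · unfold cH
    rw [dif_neg hm, dif_neg hm, dif_neg hm, JJ_mul D he, coeff_add']

lemma xx_eq (h : H) (i : ι) : xx D e h i = yy D e h i + ∑ m, cH D e m h * c2 F (m i) := by
  have h1 : xx D e h i = augV F ι (JJ D e i h) := by
    unfold JJ
    rw [map_mul, aug_uu D he, one_mul]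
    rfl
  rw [h1, augV_eq]
  simp only [JJ_coeff]
  rw [Finset.sum_add_distrib, Finset.sum_ite_eq' Finset.univ (0 : ι → ZMod 2)
    (fun _ => yy D e h i), if_pos (Finset.mem_univ _), add_comm]
  congr 1
  apply Finset.sum_congr rfl
  intro m _
  rw [mul_comm]

lemma tau_sq (l : κ) (h : H) : tau F D (ev0' κ l) (e (single (h * h) 1)) =
    ∑ i, ∑ j, c2 F (B l i j) • (JJ D e i h * JJ D e j h) := by
  have h1 : (single (h * h) (1 : F)) = single h 1 * single h 1 := by
    rw [single_mul_single, one_mul]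
  rw [h1, map_mul, tau_mul, bil_alpha_self]
  have h2 : tau F D (ev0' κ l) (e (single h 1)) * gpi F D (e (single h 1)) +
      gpi F D (e (single h 1)) * tau F D (ev0' κ l) (e (single h 1)) = 0 := by
    rw [mul_comm]
    exact va_add_self _
  rw [h2, zero_add]
  apply Finset.sum_congr rfl
  intro i _
  apply Finset.sum_congr rfl
  intro j _
  congr 1
  unfold JJ
  have h3 := uu_self D he h
  change dV F i (uu D e h) * dV F j (uu D e h) = _
  linear_combination -(dV F i (uu D e h) * dV F j (uu D e h)) * h3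

omit he in
lemma BK_expand (a a' : F) (p p' z z' : ι → F) (l : κ) :
    BK B F (a • p + z) (a' • p' + z') l = a * a' * BK B F p p' l + a * BK B F p z' l +
      a' * BK B F z p' l + BK B F z z' l := by
  simp only [map_add, LinearMap.add_apply, map_smul, LinearMap.smul_apply, Pi.add_apply,
      Pi.smul_apply, smul_eq_mul]
  ring

omit he in
/-- The vector of coefficients at `k`. -/
lemma coeff_JJ (l : κ) (h h' : H) (m : ι → ZMod 2) :
    (∑ i, ∑ j, c2 F (B l i j) • (JJ D e i h * JJ D e j h')).coeff m =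
      ∑ k, cH D e k h * cH D e (m + k) h' * c2 F (BK B (ZMod 2) k (m + k) l) +
        cH D e m h * BK B F (emb F m) (yy D e h') l + cH D e m h' * BK B F (yy D e h) (emb F m) l +
        (if m = 0 then BK B F (yy D e h) (yy D e h') l else 0) := by
  have h1 : (∑ i, ∑ j, c2 F (B l i j) • (JJ D e i h * JJ D e j h')).coeff m =
      ∑ k, BK B F (cH D e k h • emb F k + (if k = 0 then yy D e h else 0))
        (cH D e (m + k) h' • emb F (m + k) + (if m + k = 0 then yy D e h' else 0)) l := by
    simp only [BK_apply, coeff_sum', coeff_smul', coeff_mul', Finset.mul_sum]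
    have h2 : ∀ (i j : ι), ∑ k, c2 F (B l i j) *
        ((JJ D e i h).coeff k * (JJ D e j h').coeff (m + k)) =
        ∑ k, c2 F (B l i j) * (cH D e k h • emb F k + (if k = 0 then yy D e h else 0)) i *
          (cH D e (m + k) h' • emb F (m + k) + (if m + k = 0 then yy D e h' else 0)) j := by
      intro i j
      apply Finset.sum_congr rfl
      intro k _
      rw [JJ_coeff, JJ_coeff]
      have h3 : ∀ (P : Prop) [Decidable P] (z : ι → F) (i : ι),
          (if P then z else 0) i = if P then z i else 0 := by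
        intro P _ z i
        split_ifs <;> rfl
      have h5 : (cH D e k h • emb F k + (if k = 0 then yy D e h else 0)) i =
          c2 F (k i) * cH D e k h + (if k = 0 then yy D e h i else 0) := by
        rw [Pi.add_apply, Pi.smul_apply, smul_eq_mul, emb_apply, h3, mul_comm]
      have h6 : (cH D e (m + k) h' • emb F (m + k) + (if m + k = 0 then yy D e h' else 0)) j =
          c2 F ((m + k) j) * cH D e (m + k) h' + (if m + k = 0 then yy D e h' j else 0) := by
        rw [Pi.add_apply, Pi.smul_apply, smul_eq_mul, emb_apply, h3, mul_comm]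
      rw [h5, h6, mul_assoc]
    simp only [h2]
    have h4 : ∀ i : ι, ∑ j, ∑ k, c2 F (B l i j) *
        (cH D e k h • emb F k + (if k = 0 then yy D e h else 0)) i *
          (cH D e (m + k) h' • emb F (m + k) + (if m + k = 0 then yy D e h' else 0)) j =
        ∑ k, ∑ j, c2 F (B l i j) *
        (cH D e k h • emb F k + (if k = 0 then yy D e h else 0)) i *
          (cH D e (m + k) h' • emb F (m + k) + (if m + k = 0 then yy D e h' else 0)) j :=
      fun i => Finset.sum_comm
    simp only [h4]
    exact Finset.sum_comm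
  rw [h1]
  have h2 : ∀ k, BK B F (cH D e k h • emb F k + (if k = 0 then yy D e h else 0))
        (cH D e (m + k) h' • emb F (m + k) + (if m + k = 0 then yy D e h' else 0)) l =
      cH D e k h * cH D e (m + k) h' * c2 F (BK B (ZMod 2) k (m + k) l) +
      (if k = m then cH D e m h * BK B F (emb F m) (yy D e h') l else 0) +
      (if k = 0 then cH D e m h' * BK B F (yy D e h) (emb F m) l else 0) +
      (if k = 0 then (if m = 0 then BK B F (yy D e h) (yy D e h') l else 0) else 0) := by
    intro k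
    have hmk : m + k = 0 ↔ k = m := by
      constructor
      · intro h3
        calc k = (m + m) + k := by rw [vadd_self, zero_add]
          _ = m + (m + k) := by abel
          _ = m := by rw [h3, add_zero]
      · intro h3
        rw [h3]; exact vadd_self m
    have t2 : cH D e k h * BK B F (emb F k) (if m + k = 0 then yy D e h' else 0) l =
        (if k = m then cH D e m h * BK B F (emb F m) (yy D e h') l else 0) := by
      by_cases hkm : k = m
      · rw [if_pos (hmk.2 hkm), if_pos hkm, hkm]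
      · rw [if_neg (fun h3 => hkm (hmk.1 h3)), if_neg hkm, map_zero]
        simp
    have t3 : cH D e (m + k) h' * BK B F (if k = 0 then yy D e h else 0) (emb F (m + k)) l =
        (if k = 0 then cH D e m h' * BK B F (yy D e h) (emb F m) l else 0) := by
      by_cases hk : k = 0
      · rw [if_pos hk, if_pos hk, hk, add_zero]
      · rw [if_neg hk, if_neg hk, map_zero]
        simp
    have t4 : BK B F (if k = 0 then yy D e h else 0) (if m + k = 0 then yy D e h' else 0) l =
        (if k = 0 then (if m = 0 then BK B F (yy D e h) (yy D e h') l else 0) else 0) := by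
      by_cases hk : k = 0
      · rw [if_pos hk, if_pos hk, hk, add_zero]
        by_cases hm : m = 0
        · rw [if_pos hm, if_pos hm]
        · rw [if_neg hm, if_neg hm, map_zero]
          simp
      · rw [if_neg hk, if_neg hk, map_zero]
        simp
    rw [BK_expand, t2, t3, t4, BK_emb, emb_apply]
  simp only [h2, Finset.sum_add_distrib]
  rw [Finset.sum_ite_eq' Finset.univ m, if_pos (Finset.mem_univ _),
    Finset.sum_ite_eq' Finset.univ (0 : ι → ZMod 2), if_pos (Finset.mem_univ _),
    Finset.sum_ite_eq' Finset.univ (0 : ι → ZMod 2), if_pos (Finset.mem_univ _)]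

lemma zz_sq (h : H) : zz D e (h * h) = qF B F (xx D e h) := by
  ext l
  unfold zz
  rw [tau_sq D he]
  simp only [map_sum, map_smul, map_mul]
  rw [qF, BK_apply]
  apply Finset.sum_congr rfl
  intro i _
  apply Finset.sum_congr rfl
  intro j _
  have h1 : ∀ i, augV F ι (JJ D e i h) = xx D e h i := by
    intro i
    unfold JJ
    rw [map_mul, aug_uu D he, one_mul]
    rfl
  rw [h1, h1, smul_eq_mul, mul_assoc]

lemma tau_add_Phi (φ : (κ → ZMod 2) →+ ZMod 2) {h w : H} (hh : h ∈ PhiH H) (hw : w ∈ PhiH H) :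
    tau F D φ (e (single (h * w) 1)) = tau F D φ (e (single h 1)) +
      tau F D φ (e (single w 1)) := by
  rw [tau_mul_Phi D he φ h hw, uu_Phi D he hh, one_mul]

lemma exists_Z [Finite H] [Finite G] :
    ∃ Z : Matrix κ κ F, LatMap (fun w : PhiH H => zz D e w.1) Z := by
  have hadd : ∀ a b : PhiH H, zz D e (a * b : PhiH H).1 = zz D e a.1 + zz D e b.1 :=
    fun a b => zz_mul D he a.1 b.2
  let I : AddSubgroup (κ → F) :=
    { carrier := {y | ∃ w ∈ PhiH H, y = zz D e w}
      zero_mem' := ⟨1, Subgroup.one_mem _, by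
        have := hadd 1 1
        rw [mul_one] at this
        exact (left_eq_add.1 this).symm⟩
      add_mem' := by
        rintro _ _ ⟨a, ha, rfl⟩ ⟨b, hb, rfl⟩
        exact ⟨a * b, Subgroup.mul_mem _ ha hb, (zz_mul D he a hb).symm⟩
      neg_mem' := by
        rintro _ ⟨a, ha, rfl⟩
        exact ⟨a, ha, vneg_eq _⟩ }
  let f : PhiH H → I := fun w => ⟨zz D e w.1, ⟨w.1, w.2, rfl⟩⟩
  have hf : Function.Surjective f := by
    rintro ⟨_, w, hw, rfl⟩
    exact ⟨⟨w, hw⟩, rfl⟩
  have hfin : Finite I := Finite.of_surjective f hf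
  have hcard : Nat.card I ≤ 2 ^ Fintype.card κ := by
    rw [← card_Phi D he]
    exact Nat.card_le_card_of_surjective f hf
  obtain ⟨Z, h1, h2, h3⟩ := exists_matrix I hcard (zz_span D he)
  exact ⟨Z, hadd, h1, fun w => h3 _ ⟨w.1, w.2, rfl⟩, fun v => by
    obtain ⟨w, hw, hh⟩ := h2 v
    exact ⟨⟨w, hw⟩, hh.symm⟩⟩

lemma zz_inj [Finite H] [Finite G] {w : H} (hw : w ∈ PhiH H) (h0 : zz D e w = 0) : w = 1 := by
  obtain ⟨Z, hZ⟩ := exists_Z D he
  choose f hf using hZ.pre
  have hs : Function.Surjective f := by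
    intro v
    obtain ⟨w, hw⟩ := hZ.post v
    refine ⟨w, ?_⟩
    apply emb_injective (K := F)
    apply hZ.mulVec_inj
    rw [← hf, hw]
  have hb : Function.Bijective f := by
    rw [Nat.bijective_iff_surjective_and_card]
    refine ⟨hs, ?_⟩
    rw [card_Phi D he, Nat.card_pi]
    simp
  have h1 : f ⟨w, hw⟩ = f 1 := by
    apply emb_injective (K := F)
    apply hZ.mulVec_inj
    rw [← hf, ← hf, hZ.one]
    exact h0
  exact congrArg Subtype.val (hb.1 h1)

lemma xx_ker [Finite H] {h : H} (h0 : xx D e h = 0) : h ∈ PhiH H := by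
  obtain ⟨X, hX⟩ := exists_X D he
  choose f hf using hX.pre
  let g : H ⧸ PhiH H → (ι → ZMod 2) := fun q => f (Quotient.out q)
  have hout : ∀ h : H, xx D e (Quotient.out (h : H ⧸ PhiH H)) = xx D e h := by
    intro h
    obtain ⟨n, hn⟩ := QuotientGroup.mk_out_eq_mul (PhiH H) h
    rw [hn, xx_mul D he, add_Phi (θ := xx D e) (xx_mul D he) n.2, add_zero]
  have hs : Function.Surjective g := by
    intro v
    obtain ⟨h, hh⟩ := hX.post v
    refine ⟨(h : H ⧸ PhiH H), ?_⟩
    apply emb_injective (K := F)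
    apply hX.mulVec_inj
    rw [← hf, hout, hh]
  have hb : Function.Bijective g := by
    rw [Nat.bijective_iff_surjective_and_card]
    refine ⟨hs, ?_⟩
    rw [card_quot D he, Nat.card_pi]
    simp
  have h1 : g (h : H ⧸ PhiH H) = g ((1 : H) : H ⧸ PhiH H) := by
    apply emb_injective (K := F)
    apply hX.mulVec_inj
    rw [← hf, ← hf, hout, hout, h0, hX.one]
  have h2 := hb.1 h1
  exact (QuotientGroup.eq_one_iff h).1 h2

lemma yy_lat [Finite H] : ∃ Y : Matrix ι ι F, LatMap (yy D e) Y := by
  obtain ⟨X, hX⟩ := exists_X D he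
  exact ⟨_, hX.frob⟩

omit he in
lemma sg_eq_zero {n : Type*} {y : n → F} (h : sg y = 0) : y = 0 := by
  ext i
  exact mul_self_eq_zero.1 (congrFun h i)

lemma yy_mul (h h' : H) : yy D e (h * h') = yy D e h + yy D e h' := by
  unfold yy
  rw [xx_mul D he, sg_add]

/-- Additive functions on `H` extend to linear functionals. -/
lemma exists_hat [Finite H] {θ : H → F} (hθ : ∀ a b, θ (a * b) = θ a + θ b) :
    ∃ φ : (ι → F) →ₗ[F] F, ∀ h, θ h = φ (yy D e h) := by
  obtain ⟨Y, hY⟩ := yy_lat D he
  apply hY.exists_ext hθ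
  intro h h0
  have h1 : h ∈ PhiH H := xx_ker D he (sg_eq_zero h0)
  have h2 := add_Phi (K := F) (n := Unit) (θ := fun h _ => θ h)
    (fun a b => by ext; exact hθ a b) h1
  exact congrFun h2 ()

/-- The transfer principle: quadratic forms which are additive functions of squares. -/
lemma inU_of_H [Finite H] [Finite G] {Q : (ι → F) → F} (hQ : IsQuad Q) (θ : H → F)
    (hθ : ∀ a ∈ PhiH H, ∀ b ∈ PhiH H, θ (a * b) = θ a + θ b)
    (h : ∀ h : H, Q (yy D e h) = θ (h * h)) : InU B Q := by
  obtain ⟨Z, hZ⟩ := exists_Z D he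
  obtain ⟨φ, hφ⟩ := hZ.frob.exists_ext (θ := fun w : PhiH H => θ w.1)
    (fun a b => hθ a.1 a.2 b.1 b.2) (by
      intro w h0
      have h1 : w.1 = 1 := zz_inj D he w.2 (sg_eq_zero h0)
      have h2 : θ 1 = 0 := by
        have := hθ 1 (Subgroup.one_mem _) 1 (Subgroup.one_mem _)
        rw [mul_one] at this
        exact left_eq_add.1 this
      rw [h1, h2])
  obtain ⟨Y, hY⟩ := yy_lat D he
  refine ⟨fun l => φ (Pi.single l 1), ?_⟩
  apply hY.quad_ext hQ
  · exact IsQuad.sum _ _ (fun l _ => (IsQuad.qF B LinearMap.id l).smul _)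
  · intro h'
    rw [h h']
    have h1 := hφ ⟨h' * h', sq_mem_PhiH h'⟩
    simp only at h1
    rw [h1, zz_sq D he, sg_qF, linear_eq_sum φ]
    rfl

/-- The similitude property. -/
lemma exists_omega [Finite H] [Finite G] :
    ∃ ω : Matrix κ κ F, ∀ h, qF B F (xx D e h) = ω *ᵥ qF B F (yy D e h) := by
  obtain ⟨Z, hZ⟩ := exists_Z D he
  have h1 : ∀ l, ∃ φ : (κ → F) →ₗ[F] F, ∀ w : PhiH H, zz D e w.1 l = φ (sg (zz D e w.1)) := by
    intro l
    apply hZ.frob.exists_ext (θ := fun w : PhiH H => zz D e w.1 l)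
    · intro a b
      exact congrFun (zz_mul D he a.1 b.2) l
    · intro w h0
      have h2 : zz D e w.1 = 0 := sg_eq_zero h0
      rw [h2]
      rfl
  choose φ hφ using h1
  refine ⟨fun l l' => φ l (Pi.single l' 1), fun h => ?_⟩
  ext l
  rw [← zz_sq D he]
  have h2 := hφ l ⟨h * h, sq_mem_PhiH h⟩
  simp only at h2
  rw [h2, zz_sq D he, sg_qF, linear_eq_sum (φ l)]
  rfl

end main

end Pool.Agent.Work.MP_8bb7de_al.P2
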