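import Pool.Agent.Work.MP_8bb7de_al.P2.HSide2

set_option autoImplicit false
set_option linter.unusedSectionVars false
set_option linter.unusedVariables false

/-!
The algebraic relations between the coefficients.
-/

namespace Pool.Agent.Work.MP_8bb7de_al.P2

open MonoidAlgebra
open scoped Matrix

variable {ι κ : Type*} [Fintype ι] [DecidableEq ι] [Fintype κ] [DecidableEq κ]

variable {F : Type*} [Field F] [CharP F 2] {G : Type*} [Group G] {B : κ → ι → ι → ZMod 2}
  (D : GData G B) {H : Type*} [Group H] {e : MonoidAlgebra F H ≃ₐ[F] MonoidAlgebra F G}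
  (he : ∀ h : H, augmentation F G (e (single h 1)) = 1)

/-- The coefficient functionals extend the coefficients. -/
def IsHat (D : GData G B) (e : MonoidAlgebra F H ≃ₐ[F] MonoidAlgebra F G)
    (c : (ι → ZMod 2) → ((ι → F) →ₗ[F] F)) : Prop :=
  ∀ m h, cH D e m h = c m (yy D e h)

include he

lemma exists_isHat [Finite H] : ∃ c, IsHat D e c := by
  choose c hc using fun m => exists_hat D he (cH_mul D he m)
  exact ⟨c, hc⟩

variable {D} {c : (ι → ZMod 2) → ((ι → F) →ₗ[F] F)} (hc : IsHat D e c)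

include hc

lemma hat_zero [Finite H] : c 0 = 0 := by
  obtain ⟨Y, hY⟩ := yy_lat D he
  apply hY.lin_ext
  intro h
  rw [← hc 0 h, cH_zero]
  rfl

lemma xx_eq_hat (h : H) : xx D e h = yy D e h + Nc c (yy D e h) := by
  ext i
  rw [xx_eq D he h i, Pi.add_apply, Nc_apply, Finset.sum_apply]
  congr 1
  apply Finset.sum_congr rfl
  intro m _
  rw [hc m h]
  rfl

lemma hat_good [Finite H] [Finite G] :
    ∃ ω : Matrix κ κ F, ∀ x, qF B F (x + Nc c x) = ω *ᵥ qF B F x := by
  obtain ⟨Y, hY⟩ := yy_lat D he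
  obtain ⟨ω, hω⟩ := exists_omega D he
  refine ⟨ω, fun x => ?_⟩
  ext l
  have h1 : IsQuad (fun x => qF B F (x + Nc c x) l) := by
    obtain ⟨P, hP⟩ := IsQuad.qF B (LinearMap.id + Nc c) l
    exact ⟨P, fun x => hP x⟩
  have h2 : IsQuad (fun x => (ω *ᵥ qF B F x) l) := by
    obtain ⟨P, hP⟩ := IsQuad.sum Finset.univ (fun l' x => ω l l' * qF B F x l')
      (fun l' _ => (IsQuad.qF B LinearMap.id l').smul (ω l l'))
    exact ⟨P, fun x => hP x⟩
  refine hY.quad_ext h1 h2 ?_ x
  intro h
  rw [← xx_eq_hat he hc, hω]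

lemma hat_em [Finite H] [Finite G] {m : ι → ZMod 2} (hm : m ≠ 0) (l : κ) :
    InU B (fun x => c m x * bF B F x (emb F m) l +
      ∑ k, c k x * c (m + k) x * c2 F (BK B (ZMod 2) k (m + k) l)) := by
  apply inU_of_H D he _ (fun w => (tau F D (ev0' κ l) (e (single w 1))).coeff m)
  · intro a ha b hb
    rw [tau_add_Phi D he _ ha hb]
    rfl
  · intro h
    rw [tau_sq D he, coeff_JJ, if_neg hm, add_zero, bF_apply, Pi.add_apply]
    simp only [hc _ h]
    ring
  · apply IsQuad.add
    · exact IsQuad.mul (c m) (lam B F l m)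
    · apply IsQuad.sum
      intro k _
      obtain ⟨P, hP⟩ := (IsQuad.mul (c k) (c (m + k))).smul (c2 F (BK B (ZMod 2) k (m + k) l))
      exact ⟨P, fun x => by rw [← hP]; ring⟩

lemma hat_q0 [Finite H] [Finite G] (l : κ) :
    InY B (∑ k, c2 F (qF B (ZMod 2) k l) • c k) := by
  have h1 : InU B (fun x => qF B F x l + ∑ k, c2 F (qF B (ZMod 2) k l) * (c k x * c k x)) := by
    apply inU_of_H D he _ (fun w => (tau F D (ev0' κ l) (e (single w 1))).coeff 0)
    · intro a ha b hb
      rw [tau_add_Phi D he _ ha hb]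
      rfl
    · intro h
      rw [tau_sq D he, coeff_JJ, if_pos rfl, cH_zero]
      simp only [hc _ h, zero_add, zero_mul, add_zero]
      rw [add_comm]
      congr 1
      apply Finset.sum_congr rfl
      intro k _
      rw [mul_comm]
      rfl
    · apply IsQuad.add
      · exact IsQuad.qF B LinearMap.id l
      · exact IsQuad.sum _ _ (fun k _ => (IsQuad.mul (c k) (c k)).smul _)
  refine InU.congr (h1.add (InU.qF l)) ?_
  intro x
  have h2 := sq_sum (fun k => c2 F (qF B (ZMod 2) k l)) (fun k => c k x) (fun k => c2_sq _)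
  simp only [LinearMap.sum_apply, LinearMap.smul_apply, smul_eq_mul]
  rw [h2]
  have h3 := CharTwo.add_self_eq_zero (qF B F x l)
  linear_combination -h3

end Pool.Agent.Work.MP_8bb7de_al.P2
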