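import Pool.Agent.Work.MP_8bb7de_al.P2.Path

set_option autoImplicit false
set_option linter.unusedSectionVars false
set_option linter.unusedVariables false

/-!
Polynomial paths of similitudes of a quadratic map.
-/

namespace Pool.Agent.Work.MP_8bb7de_al.P2

open scoped Matrix
open Polynomial

variable {ι κ : Type*} [Fintype ι] [DecidableEq ι] [Fintype κ] [DecidableEq κ]

variable {F : Type*} [Field F] [CharP F 2]

variable (B : κ → ι → ι → ZMod 2)

/-- `T` is the end point of a polynomial path of similitudes starting at the identity. -/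
def IsPath (T : (ι → F) →ₗ[F] (ι → F)) : Prop :=
  ∃ (γ : Matrix ι ι F[X]) (ω : Matrix κ κ F[X]), GoodK B F[X] γ ω ∧ γ.map (eval 0) = 1 ∧
    γ.map (eval 1) = LinearMap.toMatrix' T

variable {B}

lemma IsPath.comp {T T' : (ι → F) →ₗ[F] (ι → F)} (h : IsPath B T) (h' : IsPath B T') :
    IsPath B (T ∘ₗ T') := by
  obtain ⟨γ, ω, h1, h2, h3⟩ := h
  obtain ⟨γ', ω', h1', h2', h3'⟩ := h'
  refine ⟨γ * γ', ω * ω', h1.mul h1', ?_, ?_⟩
  · have := Matrix.map_mul (L := γ) (M := γ') (f := evalRingHom (0 : F))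
    have e : ∀ δ : Matrix ι ι F[X], δ.map (evalRingHom (0 : F)) = δ.map (eval 0) := fun δ => rfl
    rw [e, e, e, h2, h2', one_mul] at this
    exact this
  · have := Matrix.map_mul (L := γ) (M := γ') (f := evalRingHom (1 : F))
    have e : ∀ δ : Matrix ι ι F[X], δ.map (evalRingHom (1 : F)) = δ.map (eval 1) := fun δ => rfl
    rw [e, e, e, h3, h3', ← LinearMap.toMatrix'_comp] at this
    exact this

lemma qF_line {K : Type*} [CommRing K] (s : K) (x y : ι → K) (l : κ) :
    qF B K (x + s • y) l = qF B K x l + s * s * qF B K y l + s * bF B K x y l := by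
  rw [qF_add, qF_smul, map_smul]
  rfl

/-- The affine path `1 + X N`. -/
lemma isPath_of {N : (ι → F) →ₗ[F] (ι → F)} (h1 : ∀ l, InU B (fun x => qF B F (N x) l))
    (h2 : ∀ l, InU B (fun x => bF B F x (N x) l)) : IsPath B (LinearMap.id + N) := by
  choose φ1 hφ1 using h1
  choose φ2 hφ2 using h2
  simp only at hφ1 hφ2
  let Nm : Matrix ι ι F := LinearMap.toMatrix' N
  refine ⟨1 + (X : F[X]) • (Nm.map C),
    1 + (X * X : F[X]) • ((Matrix.of φ1).map C) +
      (X : F[X]) • ((Matrix.of φ2).map C), ?_, ?_, ?_⟩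
  · intro v
    have hN : ((Nm.map C) *ᵥ emb F[X] v) = fun i => C (N (emb F v) i) := by
      have h3 := map_mulVec' (C : F →+* F[X]) Nm (emb F v)
      rw [map_emb] at h3
      have h4 : Nm *ᵥ emb F v = N (emb F v) := LinearMap.toMatrix'_mulVec N (emb F v)
      rw [h4] at h3
      exact h3.symm
    ext1 l
    have h5 : (1 + (X : F[X]) • (Nm.map C)) *ᵥ emb F[X] v =
        emb F[X] v + (X : F[X]) • fun i => C (N (emb F v) i) := by
      rw [Matrix.add_mulVec, Matrix.one_mulVec, Matrix.smul_mulVec, hN]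
    rw [h5, qF_line]
    have h6 : qF B F[X] (fun i => C (N (emb F v) i)) l = C (qF B F (N (emb F v)) l) := by
      rw [← congrFun (map_qF (B := B) (C : F →+* F[X]) (N (emb F v))) l]
    have h7 : bF B F[X] (emb F[X] v) (fun i => C (N (emb F v) i)) l =
        C (bF B F (emb F v) (N (emb F v)) l) := by
      rw [bF_apply, bF_apply, Pi.add_apply, Pi.add_apply, map_add,
        congrFun (map_BK (B := B) (C : F →+* F[X]) (emb F v) (N (emb F v))) l,
        congrFun (map_BK (B := B) (C : F →+* F[X]) (N (emb F v)) (emb F v)) l, map_emb]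
    rw [h6, h7, hφ1, hφ2, qF_emb, qF_emb, Matrix.add_mulVec, Matrix.add_mulVec,
      Matrix.one_mulVec, Matrix.smul_mulVec, Matrix.smul_mulVec, Pi.add_apply, Pi.add_apply]
    simp only [Pi.smul_apply, smul_eq_mul, Matrix.mulVec, dotProduct, Matrix.map_apply, emb_apply,
      map_sum, map_mul, map_c2, Matrix.of_apply]
  · ext i j
    simp [Matrix.one_apply, apply_ite]
  · ext i j
    simp only [Matrix.map_apply, Matrix.add_apply, Matrix.smul_apply, smul_eq_mul, eval_add,
      eval_mul, eval_X, eval_C, one_mul, map_add]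
    congr 1
    rw [LinearMap.toMatrix'_id, Matrix.one_apply, Matrix.one_apply]
    split_ifs <;> simp

lemma IsPath.simil {T : (ι → F) →ₗ[F] (ι → F)} (h : IsPath B T) :
    ∃ ω : Matrix κ κ F, ∀ x, qF B F (T x) = ω *ᵥ qF B F x := by
  obtain ⟨γ, ω, h1, -, h3⟩ := h
  have h4 := h1.map (evalRingHom (1 : F))
  refine ⟨ω.map (evalRingHom (1 : F)), fun x => ?_⟩
  rw [← h4.all]
  congr 1
  have e : γ.map (evalRingHom (1 : F)) = γ.map (eval 1) := rfl
  rw [e, h3, LinearMap.toMatrix'_mulVec]

lemma IsPath.id : IsPath B (LinearMap.id : (ι → F) →ₗ[F] (ι → F)) := by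
  have h := isPath_of (B := B) (N := (0 : (ι → F) →ₗ[F] (ι → F)))
    (fun l => by
      refine InU.zero.congr ?_
      intro x
      rw [LinearMap.zero_apply, qF_zero]
      rfl)
    (fun l => by
      refine InU.zero.congr ?_
      intro x
      rw [LinearMap.zero_apply, map_zero]
      rfl)
  rwa [add_zero] at h

end Pool.Agent.Work.MP_8bb7de_al.P2
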