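import Pool.Agent.Work.MP_8bb7de_al.P2.Quad

set_option autoImplicit false
set_option linter.unusedSectionVars false
set_option linter.unusedVariables false

/-!
The specialisation lemma: a polynomial path of automorphisms of a quadratic map over `F` which starts
at the identity shows that the form attached to its end point is split.
-/

namespace Pool.Agent.Work.MP_8bb7de_al.P2

open scoped Matrix

variable {ι κ : Type*} [Fintype ι] [DecidableEq ι] [Fintype κ] [DecidableEq κ]

section fields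

universe u

/-- Two fields over a common subfield embed in a common field. -/
lemma exists_common_field {k L0 L1 : Type u} [Field k] [Field L0] [Field L1] (i0 : k →+* L0)
    (i1 : k →+* L1) : ∃ (K : Type u) (_ : Field K) (j0 : L0 →+* K) (j1 : L1 →+* K),
      j0.comp i0 = j1.comp i1 := by
  let _ := i0.toAlgebra
  let _ := i1.toAlgebra
  have hnt : Nontrivial (TensorProduct k L0 L1) := inferInstance
  obtain ⟨m, hm⟩ := Ideal.exists_maximal (TensorProduct k L0 L1)
  let _ : Field (TensorProduct k L0 L1 ⧸ m) := Ideal.Quotient.field m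
  refine ⟨TensorProduct k L0 L1 ⧸ m, inferInstance,
    (Ideal.Quotient.mk m).comp (Algebra.TensorProduct.includeLeftRingHom),
    (Ideal.Quotient.mk m).comp
      ((Algebra.TensorProduct.includeRight : L1 →ₐ[k] TensorProduct k L0 L1) : L1 →+* _), ?_⟩
  ext x
  simp only [RingHom.comp_apply]
  congr 1
  change Algebra.TensorProduct.includeLeftRingHom (i0 x) =
    (Algebra.TensorProduct.includeRight : L1 →ₐ[k] TensorProduct k L0 L1) (i1 x)
  have h1 : i0 x = algebraMap k L0 x := rfl
  have h2 : i1 x = algebraMap k L1 x := rfl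
  rw [h1, h2, AlgHom.commutes]
  rfl

end fields

/-- Coordinatewise squaring. -/
def sg {n : Type*} {K : Type*} [CommRing K] (x : n → K) : n → K := fun i => x i * x i

lemma sg_add {n : Type*} {K : Type*} [CommRing K] [CharP K 2] (x y : n → K) :
    sg (x + y) = sg x + sg y := by
  ext i
  simp only [sg, Pi.add_apply]
  have := CharTwo.add_self_eq_zero (x i * y i)
  linear_combination this

lemma sg_emb {n : Type*} {K : Type*} [CommRing K] (v : n → ZMod 2) : sg (emb K v) = emb K v := by
  ext i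
  simp [sg, c2_sq]

lemma map_sg {n : Type*} {K K' : Type*} [CommRing K] [CommRing K'] (j : K →+* K') (x : n → K) :
    (fun i => j (sg x i)) = sg (fun i => j (x i)) := by
  ext i
  simp [sg]

lemma map_mulVec' {m n : Type*} [Fintype n] {K K' : Type*} [CommRing K] [CommRing K']
    (j : K →+* K') (γ : Matrix m n K) (x : n → K) :
    (fun i => j ((γ *ᵥ x) i)) = (γ.map j) *ᵥ (fun i => j (x i)) := by
  ext i
  simp [Matrix.mulVec, dotProduct]

section lifting

variable {F : Type*} [Field F] [CharP F 2]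

open PowerSeries

instance instCharPPS : CharP F⟦X⟧ 2 :=
  charP_of_injective_algebraMap (R := F) (A := F⟦X⟧)
    (by
      intro a b h
      have := congrArg (constantCoeff (R := F)) h
      simpa using this) 2

/-- The operator `x ↦ γ σ(x)`. -/
noncomputable def Tm {n : Type*} [Fintype n] {K : Type*} [CommRing K] (γ : Matrix n n K) (x : n → K) :
    n → K := γ *ᵥ sg x

lemma Tm_add {n : Type*} [Fintype n] {K : Type*} [CommRing K] [CharP K 2] (γ : Matrix n n K)
    (x y : n → K) : Tm γ (x + y) = Tm γ x + Tm γ y := by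
  rw [Tm, sg_add, Matrix.mulVec_add]
  rfl

lemma Tm_dvd {n : Type*} [Fintype n] (γ : Matrix n n F⟦X⟧) (x : n → F⟦X⟧) (m : ℕ)
    (h : ∀ i, (X : F⟦X⟧) ^ m ∣ x i) : ∀ i, (X : F⟦X⟧) ^ (2 * m) ∣ Tm γ x i := by
  intro i
  apply Finset.dvd_sum
  intro j _
  apply Dvd.dvd.mul_left
  obtain ⟨c, hc⟩ := h j
  refine ⟨c * c, ?_⟩
  simp only [sg, hc]
  ring

lemma Tm_unique {n : Type*} [Fintype n] (γ : Matrix n n F⟦X⟧) (x : n → F⟦X⟧) (hx : x = Tm γ x)
    (h0 : ∀ i, constantCoeff (x i) = 0) : x = 0 := by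
  have key : ∀ m : ℕ, ∀ i, (X : F⟦X⟧) ^ (m + 1) ∣ x i := by
    intro m
    induction m with
    | zero =>
      intro i
      rw [zero_add, pow_one, X_dvd_iff]
      exact h0 i
    | succ m ih =>
      intro i
      rw [hx]
      refine dvd_trans (pow_dvd_pow _ ?_) (Tm_dvd γ x (m + 1) ih i)
      omega
  ext i k
  have := (X_pow_dvd_iff.1 (key k i)) k (Nat.lt_succ_self k)
  simpa using this

/-- Iterates of the operator. -/
noncomputable def iter {n : Type*} [Fintype n] (γ : Matrix n n F⟦X⟧) (x0 : n → F) : ℕ → n → F⟦X⟧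
  | 0 => fun i => C (x0 i)
  | (m + 1) => Tm γ (iter γ x0 m)

lemma iter_diff {n : Type*} [Fintype n] (γ : Matrix n n F⟦X⟧) (x0 : n → F)
    (h0 : x0 = Tm (γ.map (constantCoeff (R := F))) x0) (m : ℕ) :
    ∀ i, (X : F⟦X⟧) ^ (m + 1) ∣ (iter γ x0 (m + 1) + iter γ x0 m) i := by
  induction m with
  | zero =>
    intro i
    rw [zero_add, pow_one, X_dvd_iff]
    have h1 : constantCoeff ((iter γ x0 (0 + 1)) i) = x0 i := by
      have := congrFun (map_mulVec' (constantCoeff (R := F)) γ (sg (iter γ x0 0))) i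
      change constantCoeff ((γ *ᵥ sg (iter γ x0 0)) i) = _
      rw [this, map_sg]
      conv_rhs => rw [h0]
      rfl
    have h2 : constantCoeff ((iter γ x0 0) i) = x0 i := by
      change constantCoeff (C (x0 i)) = _
      simp
    rw [Pi.add_apply, map_add, h1, h2]
    exact CharTwo.add_self_eq_zero _
  | succ m ih =>
    intro i
    have h1 : iter γ x0 (m + 1 + 1) + iter γ x0 (m + 1) = Tm γ (iter γ x0 (m + 1) + iter γ x0 m) := by
      rw [Tm_add]
      rfl
    rw [h1]
    refine dvd_trans (pow_dvd_pow _ ?_) (Tm_dvd γ _ (m + 1) ih i)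
    omega

lemma iter_stable {n : Type*} [Fintype n] (γ : Matrix n n F⟦X⟧) (x0 : n → F)
    (h0 : x0 = Tm (γ.map (constantCoeff (R := F))) x0) (m k : ℕ) (hmk : m ≤ k) :
    ∀ i, (X : F⟦X⟧) ^ (m + 1) ∣ (iter γ x0 k + iter γ x0 m) i := by
  induction k, hmk using Nat.le_induction with
  | base =>
    intro i
    rw [Pi.add_apply, CharTwo.add_self_eq_zero]
    exact dvd_zero _
  | succ k hk ih =>
    intro i
    have h1 : (iter γ x0 (k + 1) + iter γ x0 m) i =
        (iter γ x0 (k + 1) + iter γ x0 k) i + (iter γ x0 k + iter γ x0 m) i := by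
      simp only [Pi.add_apply]
      have := CharTwo.add_self_eq_zero (iter γ x0 k i)
      linear_combination -this
    rw [h1]
    apply dvd_add
    · exact dvd_trans (pow_dvd_pow _ (by omega)) (iter_diff γ x0 h0 k i)
    · exact ih i

theorem exists_lift {n : Type*} [Fintype n] (γ : Matrix n n F⟦X⟧) (x0 : n → F)
    (h0 : x0 = Tm (γ.map (constantCoeff (R := F))) x0) :
    ∃ x : n → F⟦X⟧, x = Tm γ x ∧ ∀ i, constantCoeff (x i) = x0 i := by
  let x : n → F⟦X⟧ := fun i => PowerSeries.mk fun k => coeff k (iter γ x0 k i)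
  have hx : ∀ m i, (X : F⟦X⟧) ^ (m + 1) ∣ (x + iter γ x0 m) i := by
    intro m i
    rw [X_pow_dvd_iff]
    intro k hk
    rw [Pi.add_apply, map_add, coeff_mk]
    have h1 := (X_pow_dvd_iff.1 (iter_stable γ x0 h0 k m (by omega) i)) k (Nat.lt_succ_self k)
    rw [Pi.add_apply, map_add] at h1
    rw [add_comm]
    exact h1
  refine ⟨x, ?_, ?_⟩
  · ext i k
    have h1 := (X_pow_dvd_iff.1 (hx (k + 1) i)) k (by omega)
    have h2 := (X_pow_dvd_iff.1 (Tm_dvd γ _ (k + 1) (hx k) i)) k (by omega)
    rw [Tm_add] at h2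
    have h3 : Tm γ (iter γ x0 k) = iter γ x0 (k + 1) := rfl
    rw [h3] at h2
    rw [Pi.add_apply, map_add] at h1 h2
    rw [CharTwo.add_eq_zero.1 h1, CharTwo.add_eq_zero.1 h2]
  · intro i
    have h1 : coeff 0 (x i) = coeff 0 (iter γ x0 0 i) := coeff_mk _ _
    rw [coeff_zero_eq_constantCoeff_apply, coeff_zero_eq_constantCoeff_apply] at h1
    rw [h1]
    change constantCoeff (C (x0 i)) = _
    simp

end lifting

section good

variable (B : κ → ι → ι → ZMod 2)

/-- `γ` is a similitude of the quadratic map with multiplier `ω`, tested on the lattice. -/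
def GoodK (K : Type*) [CommRing K] (γ : Matrix ι ι K) (ω : Matrix κ κ K) : Prop :=
  ∀ v : ι → ZMod 2, qF B K (γ *ᵥ emb K v) = ω *ᵥ emb K (qF B (ZMod 2) v)

variable {B}

lemma GoodK.all {K : Type*} [CommRing K] [CharP K 2] {γ : Matrix ι ι K} {ω : Matrix κ κ K}
    (h : GoodK B K γ ω) (x : ι → K) : qF B K (γ *ᵥ x) = ω *ᵥ qF B K x := by
  ext l
  revert x
  apply IsQuad.eq_of_lattice
  · exact IsQuad.qF B (Matrix.mulVecLin γ) l
  · exact IsQuad.sum _ _ (fun l' _ => (IsQuad.qF B LinearMap.id l').smul (ω l l'))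
  · intro v
    rw [h v, qF_emb]

lemma GoodK.map {K K' : Type*} [CommRing K] [CommRing K'] (j : K →+* K')
    {γ : Matrix ι ι K} {ω : Matrix κ κ K} (h : GoodK B K γ ω) : GoodK B K' (γ.map j) (ω.map j) := by
  intro v
  have h1 := h v
  have h2 : (fun l => j (qF B K (γ *ᵥ emb K v) l)) = fun l => j ((ω *ᵥ emb K (qF B (ZMod 2) v)) l) := by
    rw [h1]
  rw [map_qF, map_mulVec', map_mulVec', map_emb, map_emb] at h2
  exact h2

lemma GoodK.mul {K : Type*} [CommRing K] [CharP K 2] {γ γ' : Matrix ι ι K} {ω ω' : Matrix κ κ K}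
    (h : GoodK B K γ ω) (h' : GoodK B K γ' ω') : GoodK B K (γ * γ') (ω * ω') := by
  intro v
  rw [← Matrix.mulVec_mulVec, h.all, h' v, Matrix.mulVec_mulVec]

lemma sg_qF {K : Type*} [CommRing K] [CharP K 2] (x : ι → K) : sg (qF B K x) = qF B K (sg x) := by
  have h := map_qF (B := B) (frobenius K 2) x
  have h1 : (fun l => frobenius K 2 (qF B K x l)) = sg (qF B K x) := by
    ext l
    rw [frobenius_def, sg, pow_two]
  have h2 : (fun i => frobenius K 2 (x i)) = sg x := by
    ext i
    rw [frobenius_def, sg, pow_two]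
  rw [← h1, h, h2]

lemma GoodK.fixed {K : Type*} [CommRing K] [CharP K 2] {γ : Matrix ι ι K} {ω : Matrix κ κ K}
    (h : GoodK B K γ ω) {x : ι → K} (hx : x = Tm γ x) : qF B K x = Tm ω (qF B K x) := by
  conv_lhs => rw [hx]
  rw [Tm, h.all, Tm, sg_qF]

lemma sg_mulVec {m n : Type*} [Fintype n] {K : Type*} [CommRing K] [CharP K 2] (P : Matrix m n K)
    (a : n → K) : sg (P *ᵥ a) = (P.map (frobenius K 2)) *ᵥ sg a := by
  have h := map_mulVec' (frobenius K 2) P a
  have h1 : (fun l => frobenius K 2 ((P *ᵥ a) l)) = sg (P *ᵥ a) := by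
    ext l
    rw [frobenius_def, sg, pow_two]
  have h2 : (fun i => frobenius K 2 (a i)) = sg a := by
    ext i
    rw [frobenius_def, sg, pow_two]
  rw [← h1, h, h2]

lemma fixed_sum {n : Type*} [Fintype n] {K : Type*} [CommRing K] [CharP K 2] (γ : Matrix n n K)
    {α : Type*} (s : Multiset α) (f : α → n → K) (h : ∀ a, f a = Tm γ (f a)) :
    (s.map f).sum = Tm γ (s.map f).sum := by
  induction s using Multiset.induction_on with
  | empty =>
    simp only [Multiset.map_zero, Multiset.sum_zero]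
    ext i
    simp [Tm, sg, Matrix.mulVec, dotProduct]
  | cons a s ih =>
    rw [Multiset.map_cons, Multiset.sum_cons, Tm_add, ← ih, ← h a]

end good

end Pool.Agent.Work.MP_8bb7de_al.P2
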