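import Mathlib

set_option autoImplicit false
set_option linter.unusedSectionVars false
set_option linter.unusedVariables false

/-!
Quadratic maps with structure constants in `ZMod 2`, over commutative rings of characteristic two.
-/

namespace Pool.Agent.Work.MP_8bb7de_al.P2

/-- The map `ZMod 2 → K` sending `0` to `0` and `1` to `1`. -/
def c2 (K : Type*) [Zero K] [One K] (a : ZMod 2) : K := if a = 0 then 0 else 1

section c2

variable {K : Type*}

@[simp] lemma c2_zero [Zero K] [One K] : c2 K 0 = 0 := by simp [c2]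

@[simp] lemma c2_one [Zero K] [One K] : c2 K 1 = 1 := by
  unfold c2
  rw [if_neg (by decide)]

lemma zmod2_cases (a : ZMod 2) : a = 0 ∨ a = 1 := by
  revert a
  decide

lemma c2_self (a : ZMod 2) : c2 (ZMod 2) a = a := by
  rcases zmod2_cases a with h | h <;> simp [h]

lemma c2_mul [CommRing K] (a b : ZMod 2) : c2 K (a * b) = c2 K a * c2 K b := by
  rcases zmod2_cases a with h | h <;> rcases zmod2_cases b with h' | h' <;> simp [h, h']

lemma c2_add [CommRing K] [CharP K 2] (a b : ZMod 2) : c2 K (a + b) = c2 K a + c2 K b := by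
  rcases zmod2_cases a with h | h <;> rcases zmod2_cases b with h' | h'
  · simp [h, h']
  · simp [h, h']
  · simp [h, h']
  · rw [h, h', show (1 : ZMod 2) + 1 = 0 by decide, c2_zero, c2_one, CharTwo.add_self_eq_zero]

/-- `c2` as a ring homomorphism. -/
def c2Hom (K : Type*) [CommRing K] [CharP K 2] : ZMod 2 →+* K where
  toFun := c2 K
  map_one' := c2_one
  map_zero' := c2_zero
  map_mul' := c2_mul
  map_add' := c2_add

@[simp] lemma c2Hom_apply [CommRing K] [CharP K 2] (a : ZMod 2) : c2Hom K a = c2 K a := rfl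

lemma c2_sum [CommRing K] [CharP K 2] {α : Type*} (s : Finset α) (f : α → ZMod 2) :
    c2 K (∑ i ∈ s, f i) = ∑ i ∈ s, c2 K (f i) := map_sum (c2Hom K) f s

lemma map_c2 {K' : Type*} [CommRing K] [CommRing K'] (j : K →+* K') (a : ZMod 2) :
    j (c2 K a) = c2 K' a := by
  rcases zmod2_cases a with h | h <;> simp [h]

lemma c2_sq [CommRing K] (a : ZMod 2) : c2 K a * c2 K a = c2 K a := by
  rcases zmod2_cases a with h | h <;> simp [h]

lemma c2_injective [CommRing K] [Nontrivial K] : Function.Injective (c2 K) := by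
  intro a b h
  rcases zmod2_cases a with h1 | h1 <;> rcases zmod2_cases b with h2 | h2
  · rw [h1, h2]
  · rw [h1, h2] at h; simp at h
  · rw [h1, h2] at h; simp at h
  · rw [h1, h2]

end c2

variable {ι κ : Type*}

/-- The lattice embedding. -/
def emb (K : Type*) [Zero K] [One K] (v : ι → ZMod 2) : ι → K := fun i => c2 K (v i)

section emb

variable {K : Type*} [CommRing K]

@[simp] lemma emb_apply (v : ι → ZMod 2) (i : ι) : emb K v i = c2 K (v i) := rfl

@[simp] lemma emb_zero : emb K (0 : ι → ZMod 2) = 0 := by ext i; simp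

lemma emb_add [CharP K 2] (v w : ι → ZMod 2) : emb K (v + w) = emb K v + emb K w := by
  ext i; simp [c2_add]

lemma emb_sum [CharP K 2] {α : Type*} (s : Finset α) (f : α → ι → ZMod 2) :
    emb K (∑ i ∈ s, f i) = ∑ i ∈ s, emb K (f i) := by
  ext i; simp [c2_sum]

lemma emb_single [DecidableEq ι] (i : ι) : emb K (Pi.single i 1 : ι → ZMod 2) = Pi.single i 1 := by
  ext j
  by_cases h : j = i
  · subst h; simp
  · simp [h]

lemma map_emb {K' : Type*} [CommRing K'] (j : K →+* K') (v : ι → ZMod 2) :
    (fun i => j (emb K v i)) = emb K' v := by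
  ext i; simp [map_c2]

lemma emb_injective [Nontrivial K] : Function.Injective (emb K : (ι → ZMod 2) → ι → K) := by
  intro v w h
  ext i
  have h' : v i = w i := c2_injective (K := K) (congrFun h i)
  rw [h']

lemma emb_smul (a : ZMod 2) (v : ι → ZMod 2) : emb K (a • v) = c2 K a • emb K v := by
  ext i; simp [c2_mul]

lemma emb_self (v : ι → ZMod 2) : emb (ZMod 2) v = v := by
  ext i; simp [c2_self]

end emb

variable [Fintype ι] [DecidableEq ι] [Fintype κ] [DecidableEq κ]

section forms

variable (B : κ → ι → ι → ZMod 2)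

/-- The bilinear map with structure constants `B`. -/
def BK (K : Type*) [CommRing K] : (ι → K) →ₗ[K] (ι → K) →ₗ[K] (κ → K) :=
  LinearMap.mk₂ K (fun x y l => ∑ i, ∑ j, c2 K (B l i j) * x i * y j)
    (by intro x x' y; ext l; simp [mul_add, add_mul, Finset.sum_add_distrib])
    (by intro c x y; ext l; simp only [Pi.smul_apply, smul_eq_mul, Finset.mul_sum]
        refine Finset.sum_congr rfl fun i _ => Finset.sum_congr rfl fun j _ => by ring)
    (by intro x y y'; ext l; simp [mul_add, Finset.sum_add_distrib])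
    (by intro c x y; ext l; simp only [Pi.smul_apply, smul_eq_mul, Finset.mul_sum]
        refine Finset.sum_congr rfl fun i _ => Finset.sum_congr rfl fun j _ => by ring)

lemma BK_apply (K : Type*) [CommRing K] (x y : ι → K) (l : κ) :
    BK B K x y l = ∑ i, ∑ j, c2 K (B l i j) * x i * y j := rfl

/-- The quadratic map. -/
def qF (K : Type*) [CommRing K] (x : ι → K) : κ → K := BK B K x x

/-- The polar form. -/
def bF (K : Type*) [CommRing K] : (ι → K) →ₗ[K] (ι → K) →ₗ[K] (κ → K) :=
  BK B K + (BK B K).flip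

lemma bF_apply (K : Type*) [CommRing K] (x y : ι → K) : bF B K x y = BK B K x y + BK B K y x := rfl

lemma bF_comm (K : Type*) [CommRing K] (x y : ι → K) : bF B K x y = bF B K y x := by
  rw [bF_apply, bF_apply, add_comm]

variable {B}

lemma qF_add {K : Type*} [CommRing K] (x y : ι → K) :
    qF B K (x + y) = qF B K x + qF B K y + bF B K x y := by
  simp only [qF, bF_apply, map_add, LinearMap.add_apply]
  abel

lemma qF_smul {K : Type*} [CommRing K] (s : K) (x : ι → K) : qF B K (s • x) = (s * s) • qF B K x := by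
  simp only [qF, map_smul, LinearMap.smul_apply, smul_smul]

lemma qF_zero {K : Type*} [CommRing K] : qF B K 0 = 0 := by simp [qF]

lemma bF_self {K : Type*} [CommRing K] [CharP K 2] (x : ι → K) : bF B K x x = 0 := by
  rw [bF_apply]
  ext l
  simp [CharTwo.add_self_eq_zero]

lemma map_BK {K K' : Type*} [CommRing K] [CommRing K'] (j : K →+* K') (x y : ι → K) :
    (fun l => j (BK B K x y l)) = BK B K' (fun i => j (x i)) (fun i => j (y i)) := by
  ext l
  simp only [BK_apply, map_sum, map_mul, map_c2]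

lemma map_qF {K K' : Type*} [CommRing K] [CommRing K'] (j : K →+* K') (x : ι → K) :
    (fun l => j (qF B K x l)) = qF B K' (fun i => j (x i)) := map_BK j x x

lemma BK_emb {K : Type*} [CommRing K] [CharP K 2] (v w : ι → ZMod 2) :
    BK B K (emb K v) (emb K w) = emb K (BK B (ZMod 2) v w) := by
  have h := map_BK (B := B) (c2Hom K) v w
  ext l
  have := congrFun h l
  simp only [c2Hom_apply] at this
  rw [emb_apply, this]
  rfl

lemma qF_emb {K : Type*} [CommRing K] [CharP K 2] (v : ι → ZMod 2) :
    qF B K (emb K v) = emb K (qF B (ZMod 2) v) := BK_emb v v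

lemma bF_emb {K : Type*} [CommRing K] [CharP K 2] (v w : ι → ZMod 2) :
    bF B K (emb K v) (emb K w) = emb K (bF B (ZMod 2) v w) := by
  rw [bF_apply, bF_apply, BK_emb, BK_emb, emb_add]

lemma sum_single_eq {K : Type*} [CommRing K] (x : ι → K) : ∑ i, x i • (Pi.single i 1 : ι → K) = x := by
  ext j
  simp [Finset.sum_apply, Pi.single_apply]

end forms

section quad

variable {F : Type*} [CommRing F] [CharP F 2]

/-- Quadratic forms on `F^ι`. -/
def IsQuad (Q : (ι → F) → F) : Prop := ∃ P : (ι → F) →ₗ[F] (ι → F) →ₗ[F] F, ∀ x, Q x = P x x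

omit [CharP F 2] [Fintype ι] [DecidableEq ι] in
lemma IsQuad.add {Q Q' : (ι → F) → F} (h : IsQuad Q) (h' : IsQuad Q') :
    IsQuad (fun x => Q x + Q' x) := by
  obtain ⟨P, hP⟩ := h
  obtain ⟨P', hP'⟩ := h'
  exact ⟨P + P', fun x => by simp [hP, hP']⟩

omit [CharP F 2] [Fintype ι] [DecidableEq ι] in
lemma IsQuad.smul {Q : (ι → F) → F} (s : F) (h : IsQuad Q) : IsQuad (fun x => s * Q x) := by
  obtain ⟨P, hP⟩ := h
  exact ⟨s • P, fun x => by simp [hP]⟩

omit [CharP F 2] [Fintype ι] [DecidableEq ι] in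
lemma IsQuad.mul (ξ ζ : (ι → F) →ₗ[F] F) : IsQuad (fun x => ξ x * ζ x) :=
  ⟨LinearMap.mk₂ F (fun x y => ξ x * ζ y) (by intros; simp [add_mul]) (by intros; simp [mul_assoc])
    (by intros; simp [mul_add]) (by intros; simp; ring), fun x => rfl⟩

omit [CharP F 2] [DecidableEq ι] [DecidableEq κ] in
lemma IsQuad.qF (B : κ → ι → ι → ZMod 2) (T : (ι → F) →ₗ[F] (ι → F)) (l : κ) :
    IsQuad (fun x => qF B F (T x) l) :=
  ⟨(((BK B F).comp T).compl₂ T).compr₂ (LinearMap.proj l), fun x => rfl⟩

omit [CharP F 2] [Fintype ι] [DecidableEq ι] in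
lemma IsQuad.sum {α : Type*} (s : Finset α) (Q : α → (ι → F) → F) (h : ∀ a ∈ s, IsQuad (Q a)) :
    IsQuad (fun x => ∑ a ∈ s, Q a x) := by
  classical
  induction s using Finset.induction_on with
  | empty => exact ⟨0, fun x => by simp⟩
  | insert a s ha ih =>
    have h1 := (h a (Finset.mem_insert_self a s)).add
      (ih (fun b hb => h b (Finset.mem_insert_of_mem hb)))
    simp only [Finset.sum_insert ha]
    exact h1

/-- A quadratic form vanishing on the lattice vanishes. -/
lemma IsQuad.eq_zero {Q : (ι → F) → F} (h : IsQuad Q)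
    (h0 : ∀ v : ι → ZMod 2, Q (emb F v) = 0) : ∀ x, Q x = 0 := by
  obtain ⟨P, hP⟩ := h
  have hd : ∀ i, P (Pi.single i 1) (Pi.single i 1) = 0 := by
    intro i
    rw [← hP, ← emb_single (K := F) i]
    exact h0 _
  have hs : ∀ i j, P (Pi.single i 1) (Pi.single j 1) + P (Pi.single j 1) (Pi.single i 1) = 0 := by
    intro i j
    have h1 := h0 (Pi.single i 1 + Pi.single j 1)
    rw [emb_add, emb_single, emb_single, hP] at h1
    simp only [map_add, LinearMap.add_apply, hd, zero_add, add_zero] at h1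
    rw [add_comm]
    exact h1
  have hpol : P + P.flip = 0 := by
    apply LinearMap.pi_ext'
    intro i
    ext
    simp only [LinearMap.comp_apply, LinearMap.add_apply, LinearMap.flip_apply,
      LinearMap.zero_apply, LinearMap.coe_single]
    exact hs _ _
  have hadd : ∀ x y, Q (x + y) = Q x + Q y := by
    intro x y
    have h1 : P x y + P y x = 0 := by
      have := LinearMap.congr_fun (LinearMap.congr_fun hpol x) y
      exact this
    rw [hP, hP, hP]
    simp only [map_add, LinearMap.add_apply]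
    linear_combination h1
  intro x
  have hz : Q 0 = 0 := by rw [hP]; simp
  have hsum : ∀ (s : Finset ι), Q (∑ i ∈ s, x i • (Pi.single i 1 : ι → F)) = 0 := by
    intro s
    induction s using Finset.induction_on with
    | empty => simpa using hz
    | insert a s ha ih =>
      rw [Finset.sum_insert ha, hadd, ih, hP]
      simp [hd]
  have := hsum Finset.univ
  rwa [sum_single_eq] at this

lemma IsQuad.eq_of_lattice {Q Q' : (ι → F) → F} (h : IsQuad Q) (h' : IsQuad Q')
    (h0 : ∀ v : ι → ZMod 2, Q (emb F v) = Q' (emb F v)) : ∀ x, Q x = Q' x := by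
  have h1 := h.add h'
  have h2 := h1.eq_zero (fun v => by simp only [h0 v]; exact CharTwo.add_self_eq_zero _)
  intro x
  exact CharTwo.add_eq_zero.1 (h2 x)

variable (B : κ → ι → ι → ZMod 2)

/-- Membership in the space `U` of quadratic forms `φ ∘ q`. -/
def InU (Q : (ι → F) → F) : Prop := ∃ φ : κ → F, ∀ x, Q x = ∑ l, φ l * qF B F x l

variable {B}

omit [CharP F 2] [DecidableEq ι] [DecidableEq κ] in
lemma InU.add {Q Q' : (ι → F) → F} (h : InU B Q) (h' : InU B Q') :
    InU B (fun x => Q x + Q' x) := by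
  obtain ⟨φ, hφ⟩ := h
  obtain ⟨φ', hφ'⟩ := h'
  exact ⟨φ + φ', fun x => by simp [hφ, hφ', add_mul, Finset.sum_add_distrib]⟩

omit [CharP F 2] [DecidableEq ι] [DecidableEq κ] in
lemma InU.smul {Q : (ι → F) → F} (s : F) (h : InU B Q) : InU B (fun x => s * Q x) := by
  obtain ⟨φ, hφ⟩ := h
  exact ⟨s • φ, fun x => by simp [hφ, Finset.mul_sum, mul_assoc]⟩

omit [CharP F 2] [DecidableEq ι] [DecidableEq κ] in
lemma InU.zero : InU (F := F) B (fun _ => 0) := ⟨0, fun x => by simp⟩

omit [CharP F 2] [DecidableEq ι] [DecidableEq κ] in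
lemma InU.sum {α : Type*} (s : Finset α) (Q : α → (ι → F) → F) (h : ∀ a ∈ s, InU B (Q a)) :
    InU B (fun x => ∑ a ∈ s, Q a x) := by
  classical
  induction s using Finset.induction_on with
  | empty => simpa using InU.zero
  | insert a s ha ih =>
    have h1 := (h a (Finset.mem_insert_self a s)).add
      (ih (fun b hb => h b (Finset.mem_insert_of_mem hb)))
    simp only [Finset.sum_insert ha]
    exact h1

omit [CharP F 2] [DecidableEq ι] [DecidableEq κ] in
lemma InU.congr {Q Q' : (ι → F) → F} (h : InU B Q) (hQ : ∀ x, Q' x = Q x) : InU B Q' := by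
  obtain ⟨φ, hφ⟩ := h
  exact ⟨φ, fun x => by rw [hQ, hφ]⟩

omit [CharP F 2] [DecidableEq ι] in
lemma InU.qF (l : κ) : InU (F := F) B (fun x => P2.qF B F x l) :=
  ⟨Pi.single l 1, fun x => by simp [Pi.single_apply]⟩

omit [CharP F 2] [DecidableEq ι] [DecidableEq κ] in
lemma InU.isQuad {Q : (ι → F) → F} (h : InU B Q) : IsQuad Q := by
  obtain ⟨φ, hφ⟩ := h
  have : IsQuad (fun x => ∑ l, φ l * P2.qF B F x l) :=
    IsQuad.sum _ _ (fun l _ => (IsQuad.qF B LinearMap.id l).smul (φ l))
  obtain ⟨P, hP⟩ := this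
  exact ⟨P, fun x => by rw [hφ, ← hP]⟩

/-- A quadratic form which on the lattice is an additive function of `q` lies in `U`. -/
lemma InU.of_lattice {Q : (ι → F) → F} (hQ : IsQuad Q) (ψ : (κ → ZMod 2) →+ F)
    (h : ∀ v : ι → ZMod 2, Q (emb F v) = ψ (P2.qF B (ZMod 2) v)) : InU B Q := by
  refine ⟨fun l => ψ (Pi.single l 1), ?_⟩
  apply hQ.eq_of_lattice
  · exact IsQuad.sum _ _ (fun l _ => (IsQuad.qF B LinearMap.id l).smul _)
  · intro v
    rw [h, qF_emb]
    simp only [emb_apply]
    have h1 : ∀ w : κ → ZMod 2, ψ w = ∑ l, ψ (Pi.single l 1) * c2 F (w l) := by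
      intro w
      conv_lhs => rw [← Finset.univ_sum_single w]
      rw [map_sum]
      apply Finset.sum_congr rfl
      intro l _
      rcases zmod2_cases (w l) with h2 | h2
      · rw [h2]; simp
      · rw [h2]; simp
    exact h1 _

/-- The additive function on the lattice attached to an element of `U`. -/
lemma InU.lattice {Q : (ι → F) → F} (hQ : InU B Q) :
    ∃ ψ : (κ → ZMod 2) →+ F, ∀ v : ι → ZMod 2, Q (emb F v) = ψ (P2.qF B (ZMod 2) v) := by
  obtain ⟨φ, hφ⟩ := hQ
  refine ⟨AddMonoidHom.mk' (fun w => ∑ l, φ l * c2 F (w l)) ?_, ?_⟩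
  · intro a b
    simp [c2_add, mul_add, Finset.sum_add_distrib]
  · intro v
    rw [hφ, qF_emb]
    rfl

/-- Elements whose square lies in `U`. -/
def InY (B : κ → ι → ι → ZMod 2) (η : (ι → F) →ₗ[F] F) : Prop := InU B (fun x => η x * η x)

omit [DecidableEq ι] [DecidableEq κ] in
lemma InY.add {η ζ : (ι → F) →ₗ[F] F} (h : InY B η) (h' : InY B ζ) : InY B (η + ζ) := by
  refine (InU.add h h').congr ?_
  intro x
  simp only [LinearMap.add_apply]
  have := CharTwo.add_self_eq_zero (η x * ζ x)
  linear_combination this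

omit [CharP F 2] [DecidableEq ι] [DecidableEq κ] in
lemma InY.smul {η : (ι → F) →ₗ[F] F} (s : F) (h : InY B η) : InY B (s • η) := by
  refine (InU.smul (s * s) h).congr ?_
  intro x
  simp only [LinearMap.smul_apply, smul_eq_mul]
  ring

omit [CharP F 2] [DecidableEq ι] [DecidableEq κ] in
lemma InY.zero : InY (F := F) B 0 := by
  refine InU.zero.congr ?_
  intro x
  simp

omit [DecidableEq ι] [DecidableEq κ] in
lemma InY.sum {α : Type*} (s : Finset α) (η : α → (ι → F) →ₗ[F] F) (h : ∀ a ∈ s, InY B (η a)) :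
    InY B (∑ a ∈ s, η a) := by
  classical
  induction s using Finset.induction_on with
  | empty => simpa using InY.zero
  | insert a s ha ih =>
    rw [Finset.sum_insert ha]
    exact (h a (Finset.mem_insert_self a s)).add
      (ih (fun b hb => h b (Finset.mem_insert_of_mem hb)))

end quad

end Pool.Agent.Work.MP_8bb7de_al.P2
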