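import Pool.Agent.Work.MP_8bb7de_al.P2.Quad

set_option autoImplicit false
set_option linter.unusedSectionVars false
set_option linter.unusedVariables false

/-!
Rationality over the prime field.
-/

namespace Pool.Agent.Work.MP_8bb7de_al.P2

variable {ι κ : Type*} [Fintype ι] [DecidableEq ι] [Fintype κ] [DecidableEq κ]

variable {F : Type*} [Field F] [CharP F 2]

lemma exists_g {a : F} (ha : a ≠ 0) : ∃ g : F →+ ZMod 2, g a = 1 := by
  let inst : Algebra (ZMod 2) F := ZMod.algebra F 2
  have h1 : ∃ g : F →+ ZMod 2, g a ≠ 0 := by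
    by_contra hno
    push Not at hno
    apply ha
    rw [← Module.forall_dual_apply_eq_zero_iff (ZMod 2)]
    intro φ
    exact hno φ.toAddMonoidHom
  obtain ⟨g, hg⟩ := h1
  refine ⟨g, ?_⟩
  rcases zmod2_cases (g a) with h | h
  · exact absurd h hg
  · exact h

lemma g_mul_c2 (g : F →+ ZMod 2) (a : F) (t : ZMod 2) : g (a * c2 F t) = g a * t := by
  rcases zmod2_cases t with h | h
  · rw [h]; simp
  · rw [h]; simp

variable {B : κ → ι → ι → ZMod 2}

lemma InU.rat {Q Q' : (ι → F) → F} (hQ : InU B Q) (hQ' : IsQuad Q') (g : F →+ ZMod 2)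
    (h : ∀ v : ι → ZMod 2, Q' (emb F v) = c2 F (g (Q (emb F v)))) : InU B Q' := by
  obtain ⟨ψ, hψ⟩ := hQ.lattice
  apply InU.of_lattice hQ' (((c2Hom F).toAddMonoidHom.comp g).comp ψ)
  intro v
  rw [h, hψ]
  rfl

/-- The functionals `x ↦ b(x, k)_l`. -/
def lam (B : κ → ι → ι → ZMod 2) (F : Type*) [Field F] (l : κ) (k : ι → ZMod 2) :
    (ι → F) →ₗ[F] F :=
  (LinearMap.proj l) ∘ₗ ((bF B F).flip (emb F k))

lemma lam_apply (l : κ) (k : ι → ZMod 2) (x : ι → F) : lam B F l k x = bF B F x (emb F k) l := rfl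

lemma lam_emb (l : κ) (k v : ι → ZMod 2) :
    lam B F l k (emb F v) = c2 F (bF B (ZMod 2) v k l) := by
  rw [lam_apply, bF_emb]
  rfl

lemma lam_add (l : κ) (k k' : ι → ZMod 2) : lam B F l (k + k') = lam B F l k + lam B F l k' := by
  ext x
  simp [lam, emb_add]

lemma lam_zero (l : κ) : lam B F l 0 = 0 := by
  ext x
  simp [lam]

/-- Linear functionals agreeing on the lattice are equal. -/
lemma ext_lattice {N : Type*} [AddCommGroup N] [Module F N] {ξ ζ : (ι → F) →ₗ[F] N}
    (h : ∀ v : ι → ZMod 2, ξ (emb F v) = ζ (emb F v)) : ξ = ζ := by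
  apply LinearMap.pi_ext'
  intro i
  ext
  have := h (Pi.single i 1)
  rw [emb_single] at this
  exact this

lemma smul_c2 (t : ZMod 2) [Algebra (ZMod 2) F] (a : F) : t • a = a * c2 F t := by
  rcases zmod2_cases t with h | h
  · rw [h]; simp
  · rw [h]; simp

/-- Functionals over `F` vanishing on the orthogonal of a group of functionals. -/
lemma mem_span_of_ker (l : κ) (P : AddSubgroup (ι → ZMod 2)) (η : (ι → F) →ₗ[F] F)
    (h : ∀ v : ι → ZMod 2, (∀ p ∈ P, bF B (ZMod 2) v p l = 0) → η (emb F v) = 0) :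
    ∃ (s : Finset (ι → ZMod 2)) (a : (ι → ZMod 2) → F), (∀ p ∈ s, p ∈ P) ∧
      η = ∑ p ∈ s, a p • lam B F l p := by
  classical
  let inst : Algebra (ZMod 2) F := ZMod.algebra F 2
  -- functionals over the prime field
  let L : P → ((ι → ZMod 2) →ₗ[ZMod 2] ZMod 2) := fun p => lam B (ZMod 2) l p.1
  have hL : ∀ p v, L p v = bF B (ZMod 2) v p.1 l := by
    intro p v
    change lam B (ZMod 2) l p.1 v = _
    rw [lam_apply, emb_self]
  have key : ∀ g : F →+ ZMod 2, ∃ p ∈ P, ∀ v : ι → ZMod 2,
      g (η (emb F v)) = bF B (ZMod 2) v p l := by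
    intro g
    let K : (ι → ZMod 2) →ₗ[ZMod 2] ZMod 2 :=
      AddMonoidHom.toZModLinearMap 2 (AddMonoidHom.mk' (fun v => g (η (emb F v))) (by
        intro a b
        simp only [emb_add, map_add]))
    have hK : ∀ v, K v = g (η (emb F v)) := fun v => rfl
    have h1 : (⨅ p, LinearMap.ker (L p)) ≤ LinearMap.ker K := by
      intro v hv
      rw [Submodule.mem_iInf] at hv
      rw [LinearMap.mem_ker, hK, h v, map_zero]
      intro p hp
      have := hv ⟨p, hp⟩
      rw [LinearMap.mem_ker, hL] at this
      exact this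
    have h2 := mem_span_of_iInf_ker_le_ker h1
    have h3 : ∀ K' ∈ Submodule.span (ZMod 2) (Set.range L), ∃ p ∈ P, ∀ v,
        K' v = bF B (ZMod 2) v p l := by
      intro K' hK'
      induction hK' using Submodule.span_induction with
      | mem x hx =>
        obtain ⟨p, rfl⟩ := hx
        exact ⟨p.1, p.2, fun v => hL p v⟩
      | zero => exact ⟨0, P.zero_mem, fun v => by simp⟩
      | add x y _ _ hx hy =>
        obtain ⟨p, hp, hp'⟩ := hx
        obtain ⟨r, hr, hr'⟩ := hy
        refine ⟨p + r, P.add_mem hp hr, fun v => ?_⟩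
        rw [LinearMap.add_apply, hp', hr', map_add]
        rfl
      | smul a x _ hx =>
        obtain ⟨p, hp, hp'⟩ := hx
        rcases zmod2_cases a with ha | ha
        · exact ⟨0, P.zero_mem, fun v => by simp [ha]⟩
        · exact ⟨p, hp, fun v => by rw [ha, one_smul, hp']⟩
    obtain ⟨p, hp, hp'⟩ := h3 K h2
    exact ⟨p, hp, fun v => by rw [← hK, hp']⟩
  -- a basis of `F`
  let β := Module.Basis.ofVectorSpace (ZMod 2) F
  choose p hp hp' using key
  let gj : (Module.Basis.ofVectorSpaceIndex (ZMod 2) F) → (F →+ ZMod 2) := fun j =>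
    (β.coord j).toAddMonoidHom
  let J0 : Finset (Module.Basis.ofVectorSpaceIndex (ZMod 2) F) :=
    Finset.univ.biUnion fun i : ι => (β.repr (η (emb F (Pi.single i 1)))).support
  have h1 : η = ∑ j ∈ J0, β j • lam B F l (p (gj j)) := by
    apply ext_lattice
    intro v
    have h3 : ∀ i : ι, η (emb F (Pi.single i 1)) =
        (∑ j ∈ J0, β j • lam B F l (p (gj j))) (emb F (Pi.single i 1)) := by
      intro i
      rw [LinearMap.sum_apply]
      have h4 : η (emb F (Pi.single i 1)) = ∑ j ∈ J0,
          (β.repr (η (emb F (Pi.single i 1)))) j • β j := by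
        conv_lhs => rw [← β.linearCombination_repr (η (emb F (Pi.single i 1)))]
        rw [Finsupp.linearCombination_apply, Finsupp.sum]
        apply Finset.sum_subset
        · exact Finset.subset_biUnion_of_mem
            (fun i : ι => (β.repr (η (emb F (Pi.single i 1)))).support) (Finset.mem_univ i)
        · intro j _ hj
          rw [Finsupp.notMem_support_iff.1 hj, zero_smul]
      rw [h4]
      apply Finset.sum_congr rfl
      intro j _
      rw [LinearMap.smul_apply, lam_emb, ← hp', smul_c2]
      rfl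
    have h5 : ∀ ξ : (ι → F) →ₗ[F] F, ξ (emb F v) =
        ∑ i, c2 F (v i) * ξ (emb F (Pi.single i 1)) := by
      intro ξ
      conv_lhs => rw [← sum_single_eq (emb F v)]
      rw [map_sum]
      apply Finset.sum_congr rfl
      intro i _
      rw [map_smul, emb_single]
      rfl
    rw [h5 η, h5]
    apply Finset.sum_congr rfl
    intro i _
    rw [h3 i]
  -- regroup
  refine ⟨J0.image fun j => p (gj j), fun r => ∑ j ∈ J0 with p (gj j) = r, β j, ?_, ?_⟩
  · intro r hr
    obtain ⟨j, -, rfl⟩ := Finset.mem_image.1 hr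
    exact hp _
  · conv_lhs => rw [h1]
    rw [← Finset.sum_fiberwise_of_maps_to (s := J0) (t := J0.image fun j => p (gj j))
      (g := fun j => p (gj j)) (fun j hj => Finset.mem_image_of_mem _ hj)]
    apply Finset.sum_congr rfl
    intro r _
    rw [Finset.sum_smul]
    apply Finset.sum_congr rfl
    intro j hj
    rw [(Finset.mem_filter.1 hj).2]

lemma InY.of_ker (l : κ) (P : AddSubgroup (ι → ZMod 2)) (hP : ∀ p ∈ P, InY B (lam B F l p))
    (η : (ι → F) →ₗ[F] F)
    (h : ∀ v : ι → ZMod 2, (∀ p ∈ P, bF B (ZMod 2) v p l = 0) → η (emb F v) = 0) : InY B η := by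
  obtain ⟨s, a, h1, h2⟩ := mem_span_of_ker l P η h
  rw [h2]
  apply InY.sum
  intro p hp
  exact (hP p (h1 p hp)).smul _

/-- A functional taking values `0, 1` on the lattice. -/
def IsLat (α : (ι → F) →ₗ[F] F) (α0 : (ι → ZMod 2) → ZMod 2) : Prop :=
  ∀ v, α (emb F v) = c2 F (α0 v)

lemma lam_isLat (l : κ) (k : ι → ZMod 2) : IsLat (lam B F l k) (fun v => bF B (ZMod 2) v k l) :=
  fun v => lam_emb l k v

lemma rat_one {α β : (ι → F) →ₗ[F] F} {α0 β0 : (ι → ZMod 2) → ZMod 2} (hα : IsLat α α0)
    (hβ : IsLat β β0) {a c : F} (hc : c ≠ 0)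
    (h : InU B (fun x => a * (α x * α x) + c * (α x * β x))) :
    ∃ s : ZMod 2, InU B (fun x => c2 F s * (α x * α x) + α x * β x) := by
  obtain ⟨g, hg⟩ := exists_g hc
  refine ⟨g a, ?_⟩
  apply h.rat _ g
  · intro v
    have e : c2 F (α0 v) * c2 F (β0 v) = c2 F (α0 v * β0 v) := (c2_mul _ _).symm
    rw [hα, hβ, c2_sq, e, map_add, g_mul_c2, g_mul_c2, hg, one_mul, c2_add, c2_mul (g a)]
  · exact ((IsQuad.mul α α).smul _).add (IsQuad.mul α β)

lemma rat_two {α β : (ι → F) →ₗ[F] F} {α0 β0 : (ι → ZMod 2) → ZMod 2} (hα : IsLat α α0)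
    (hβ : IsLat β β0) {a c : F} (h : InU B (fun x => a * (α x * α x) + c * (β x * β x)))
    (g : F →+ ZMod 2) :
    InU B (fun x => c2 F (g a) * (α x * α x) + c2 F (g c) * (β x * β x)) := by
  apply h.rat _ g
  · intro v
    rw [hα, hβ, c2_sq, c2_sq, map_add, g_mul_c2, g_mul_c2, c2_add, c2_mul, c2_mul]
  · exact ((IsQuad.mul α α).smul _).add ((IsQuad.mul β β).smul _)

lemma eq_of_neither {α β : (ι → F) →ₗ[F] F} {α0 β0 : (ι → ZMod 2) → ZMod 2} (hα : IsLat α α0)
    (hβ : IsLat β β0) (h1 : ¬ InY B α) (h2 : ¬ InY B β) {s t : F} (h : InY B (s • α + t • β)) :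
    s = t := by
  have h3 : InU B (fun x => (s * s) * (α x * α x) + (t * t) * (β x * β x)) := by
    refine InU.congr h ?_
    intro x
    simp only [LinearMap.add_apply, LinearMap.smul_apply, smul_eq_mul]
    have := CharTwo.add_self_eq_zero (s * t * α x * β x)
    linear_combination -this
  by_contra hne
  have h4 : s * s + t * t ≠ 0 := by
    intro h0
    apply hne
    have h5 : (s + t) * (s + t) = 0 := by
      have := CharTwo.add_self_eq_zero (s * t)
      linear_combination h0 + this
    exact CharTwo.add_eq_zero.1 (mul_self_eq_zero.1 h5)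
  obtain ⟨g, hg⟩ := exists_g h4
  have h5 := rat_two hα hβ h3 g
  rw [map_add] at hg
  rcases zmod2_cases (g (s * s)) with h6 | h6 <;> rcases zmod2_cases (g (t * t)) with h7 | h7
  · rw [h6, h7] at hg
    exact absurd hg (by decide)
  · rw [h6, h7] at h5
    apply h2
    refine InU.congr h5 ?_
    intro x
    simp
  · rw [h6, h7] at h5
    apply h1
    refine InU.congr h5 ?_
    intro x
    simp
  · rw [h6, h7] at hg
    exact absurd hg (by decide)

/-- The quadratic relation in a hyperbolic plane. -/
lemma plane_lemma {α β : (ι → F) →ₗ[F] F} {α0 β0 : (ι → ZMod 2) → ZMod 2} (hα : IsLat α α0)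
    (hβ : IsLat β β0) (hαβ : InU B (fun x => α x * β x)) {s t s' t' : F}
    (h1 : InY B (s • α + t • β)) (h2 : InY B (α + β) → InY B (s' • α + t' • β)) :
    InU B (fun x => (s * α x + t * β x) * (α x + β x + (s' * α x + t' * β x))) := by
  by_cases hA : InY B α
  · by_cases hB : InY B β
    · refine InU.congr (((InU.smul (s * (1 + s')) hA).add (InU.smul (t * (1 + t')) hB)).add
        (InU.smul (s * (1 + t') + t * (1 + s')) hαβ)) ?_
      intro x
      ring
    · have ht : t = 0 := by
        by_contra ht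
        apply hB
        have h3 : InY B (t⁻¹ • ((s • α + t • β) + s • α)) := (h1.add (hA.smul s)).smul _
        have h4 : t⁻¹ • ((s • α + t • β) + s • α) = β := by
          ext x
          simp only [LinearMap.smul_apply, LinearMap.add_apply, smul_eq_mul, LinearMap.comp_apply]
          have h5 := CharTwo.add_self_eq_zero (s * α ((LinearMap.single F (fun _ => F) x) 1))
          field_simp
          linear_combination h5
        rwa [h4] at h3
      refine InU.congr ((InU.smul (s * (1 + s')) hA).add (InU.smul (s * (1 + t')) hαβ)) ?_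
      intro x
      rw [ht]
      ring
  · by_cases hB : InY B β
    · have hs : s = 0 := by
        by_contra hs
        apply hA
        have h3 : InY B (s⁻¹ • ((s • α + t • β) + t • β)) := (h1.add (hB.smul t)).smul _
        have h4 : s⁻¹ • ((s • α + t • β) + t • β) = α := by
          ext x
          simp only [LinearMap.smul_apply, LinearMap.add_apply, smul_eq_mul, LinearMap.comp_apply]
          have h5 := CharTwo.add_self_eq_zero (t * β ((LinearMap.single F (fun _ => F) x) 1))
          field_simp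
          linear_combination h5
        rwa [h4] at h3
      refine InU.congr ((InU.smul (t * (1 + t')) hB).add (InU.smul (t * (1 + s')) hαβ)) ?_
      intro x
      rw [hs]
      ring
    · have e1 := eq_of_neither hα hβ hA hB h1
      subst e1
      by_cases hs : s = 0
      · refine InU.congr InU.zero ?_
        intro x
        rw [hs]
        ring
      · have h3 : InY B (α + β) := by
          have h4 := h1.smul s⁻¹
          rw [← smul_add, smul_smul, inv_mul_cancel₀ hs, one_smul] at h4
          exact h4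
        have e2 := eq_of_neither hα hβ hA hB (h2 h3)
        subst e2
        refine InU.congr (InU.smul ((s * s)⁻¹ * s * (1 + s')) h1) ?_
        intro x
        simp only [LinearMap.add_apply, LinearMap.smul_apply, smul_eq_mul]
        field_simp

end Pool.Agent.Work.MP_8bb7de_al.P2
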