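import Pool.Agent.Work.MP_8bb7de_al.P2.Block1
import Pool.Agent.Work.MP_8bb7de_al.P2.IsPath

set_option autoImplicit false
set_option linter.unusedSectionVars false
set_option linter.unusedVariables false

/-!
Transvections in the type A blocks.
-/

namespace Pool.Agent.Work.MP_8bb7de_al.P2

variable {ι κ : Type*} [Fintype ι] [DecidableEq ι] [Fintype κ] [DecidableEq κ]

/-- The functional `y ↦ b(y, x)_l`. -/
def lamF (B : κ → ι → ι → ZMod 2) {F : Type*} [Field F] (l : κ) (x : ι → F) : (ι → F) →ₗ[F] F :=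
  (LinearMap.proj l) ∘ₗ ((bF B F).flip x)

variable {F : Type*} [Field F]

/-- A transvection. -/
def tv (B : κ → ι → ι → ZMod 2) (l : κ) (s : F) (p : ι → F) : (ι → F) →ₗ[F] (ι → F) :=
  LinearMap.id + (s • lamF B l p).smulRight p

variable {B : κ → ι → ι → ZMod 2}

lemma lamF_apply (l : κ) (x y : ι → F) : lamF B l x y = bF B F y x l := rfl

lemma tv_apply (l : κ) (s : F) (p x : ι → F) : tv B l s p x = x + (s * bF B F x p l) • p := rfl

variable [CharP F 2]

lemma tv_invol (l : κ) (s : F) (p : ι → F) : tv B l s p ∘ₗ tv B l s p = LinearMap.id := by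
  apply LinearMap.ext
  intro x
  rw [LinearMap.comp_apply, tv_apply l s p (tv B l s p x), tv_apply, map_add,
    LinearMap.add_apply, map_smul, LinearMap.smul_apply, bF_self, smul_zero, add_zero, add_assoc,
    vadd_self, add_zero]
  rfl

/-- The span of a type A block. -/
def PwF (B : κ → ι → ι → ZMod 2) (F : Type*) [Field F] [CharP F 2] (w : κ → ZMod 2) :
    Submodule F (ι → F) := Submodule.span F (emb F '' (Pw B F w : Set (ι → ZMod 2)))

lemma emb_mem_PwF {w : κ → ZMod 2} {p : ι → ZMod 2} (hp : p ∈ Pw B F w) : emb F p ∈ PwF B F w :=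
  Submodule.subset_span ⟨p, hp, rfl⟩

lemma bF_PwF {w : κ → ZMod 2} {l0 : κ} (hl : w l0 = 1) {p : ι → F} (hp : p ∈ PwF B F w)
    (x : ι → F) : bF B F x p = bF B F x p l0 • emb F w := by
  induction hp using Submodule.span_induction with
  | mem y hy =>
    obtain ⟨p, hp, rfl⟩ := hy
    exact bF_of_Rw hl hp.1 x
  | zero => simp
  | add y z _ _ hy hz =>
    rw [map_add, Pi.add_apply, add_smul, ← hy, ← hz]
  | smul a y _ hy =>
    rw [map_smul, Pi.smul_apply, smul_eq_mul, mul_smul, ← hy]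

lemma InY_PwF {w : κ → ZMod 2} {p : ι → F} (hp : p ∈ PwF B F w) (l : κ) : InY B (lamF B l p) := by
  induction hp using Submodule.span_induction with
  | mem y hy =>
    obtain ⟨p, hp, rfl⟩ := hy
    exact hp.2 l
  | zero =>
    have : lamF B l (0 : ι → F) = 0 := by
      ext x; simp [lamF]
    rw [this]
    exact InY.zero
  | add y z _ _ hy hz =>
    have : lamF B l (y + z) = lamF B l y + lamF B l z := by
      ext x; simp [lamF]
    rw [this]
    exact hy.add hz
  | smul a y _ hy =>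
    have : lamF B l (a • y) = a • lamF B l y := by
      ext x; simp [lamF]
    rw [this]
    exact hy.smul a

lemma Rw_orth {w w' : κ → ZMod 2} (hne : w ≠ w') {p p' : ι → ZMod 2} (hp : p ∈ Rw B w)
    (hp' : p' ∈ Rw B w') : bF B (ZMod 2) p p' = 0 := by
  by_contra h
  exact hne ((Rw_eq' hp h).symm.trans (Rw_eq hp' h))

lemma PwF_orth {w w' : κ → ZMod 2} (hne : w ≠ w') {x y : ι → F} (hx : x ∈ PwF B F w)
    (hy : y ∈ PwF B F w') : bF B F x y = 0 := by
  induction hx using Submodule.span_induction with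
  | mem x hx =>
    obtain ⟨p, hp, rfl⟩ := hx
    induction hy using Submodule.span_induction with
    | mem y hy =>
      obtain ⟨p', hp', rfl⟩ := hy
      rw [bF_emb, Rw_orth hne hp.1 hp'.1, emb_zero]
    | zero => simp
    | add y z _ _ hy hz => rw [map_add, hy, hz, add_zero]
    | smul a y _ hy => rw [map_smul, hy, smul_zero]
  | zero => simp
  | add x z _ _ hx hz => rw [map_add, LinearMap.add_apply, hx, hz, add_zero]
  | smul a x _ hx => rw [map_smul, LinearMap.smul_apply, hx, smul_zero]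

lemma tv_bF {w : κ → ZMod 2} {l0 : κ} (hl : w l0 = 1) {p : ι → F} (hp : p ∈ PwF B F w) (s : F)
    (x y : ι → F) : bF B F (tv B l0 s p x) (tv B l0 s p y) = bF B F x y := by
  have h1 := bF_PwF hl hp x
  have h2 := bF_PwF hl hp y
  rw [tv_apply, tv_apply]
  simp only [map_add, LinearMap.add_apply, map_smul, LinearMap.smul_apply, bF_self, smul_zero,
    add_zero]
  rw [bF_comm B F p y, h2, h1]
  simp only [Pi.smul_apply, smul_eq_mul, emb_apply, hl, c2_one, mul_one, smul_smul]
  have : (s * (bF B F y p l0) * (bF B F x p l0)) = (s * (bF B F x p l0) * (bF B F y p l0)) := by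
    ring
  rw [this, add_assoc, vadd_self, add_zero]

lemma tv_mem {w w' : κ → ZMod 2} {l0 : κ} {p : ι → F} (hp : p ∈ PwF B F w)
    (s : F) {x : ι → F} (hx : x ∈ PwF B F w') : tv B l0 s p x ∈ PwF B F w' := by
  rw [tv_apply]
  by_cases h : w = w'
  · subst h
    exact Submodule.add_mem _ hx (Submodule.smul_mem _ _ hp)
  · have h1 : bF B F x p = 0 := PwF_orth (Ne.symm h) hx hp
    rw [h1]
    simpa using hx

lemma tv_isPath {w : κ → ZMod 2} {l0 : κ} (hl : w l0 = 1) {p : ι → F} (hp : p ∈ PwF B F w)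
    (s : F) : IsPath B (tv B l0 s p) := by
  have hY := InY_PwF hp l0
  apply isPath_of
  · intro l
    refine InU.congr (InU.smul (s * s * qF B F p l) hY) ?_
    intro x
    have : (LinearMap.smulRight (s • lamF B l0 p) p) x = (s * bF B F x p l0) • p := rfl
    rw [this, qF_smul, Pi.smul_apply, smul_eq_mul, lamF_apply]
    ring
  · intro l
    refine InU.congr (InU.smul (s * c2 F (w l)) hY) ?_
    intro x
    have : (LinearMap.smulRight (s • lamF B l0 p) p) x = (s * bF B F x p l0) • p := rfl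
    rw [this, map_smul, Pi.smul_apply, smul_eq_mul, lamF_apply]
    conv_lhs => rw [bF_PwF hl hp x]
    simp only [Pi.smul_apply, smul_eq_mul, emb_apply, hl, c2_one, mul_one]
    ring

/-- Products of transvections, with their inverses. -/
inductive Tr (B : κ → ι → ι → ZMod 2) (F : Type*) [Field F] [CharP F 2] :
    ((ι → F) →ₗ[F] (ι → F)) → ((ι → F) →ₗ[F] (ι → F)) → Prop
  | one : Tr B F LinearMap.id LinearMap.id
  | step (h k : (ι → F) →ₗ[F] (ι → F)) (w : κ → ZMod 2) (l0 : κ) (s : F) (p : ι → F) :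
      Tr B F h k → TypeA B F w → w l0 = 1 → p ∈ PwF B F w →
        Tr B F (tv B l0 s p ∘ₗ h) (k ∘ₗ tv B l0 s p)

lemma Tr.comp {h k h' k' : (ι → F) →ₗ[F] (ι → F)} (H' : Tr B F h' k') (H : Tr B F h k) :
    Tr B F (h' ∘ₗ h) (k ∘ₗ k') := by
  induction H' with
  | one => exact H
  | step h1 k1 w l0 s p _ hA hl hp ih =>
    have := Tr.step _ _ w l0 s p ih hA hl hp
    rw [LinearMap.comp_assoc] at this ⊢
    exact this

lemma Tr.inv {h k : (ι → F) →ₗ[F] (ι → F)} (H : Tr B F h k) : k ∘ₗ h = LinearMap.id := by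
  induction H with
  | one => rfl
  | step h1 k1 w l0 s p _ hA hl hp ih =>
    rw [LinearMap.comp_assoc, ← LinearMap.comp_assoc _ _ (tv B l0 s p), tv_invol, LinearMap.id_comp,
      ih]

lemma Tr.inv' {h k : (ι → F) →ₗ[F] (ι → F)} (H : Tr B F h k) : h ∘ₗ k = LinearMap.id := by
  induction H with
  | one => rfl
  | step h1 k1 w l0 s p _ hA hl hp ih =>
    rw [LinearMap.comp_assoc, ← LinearMap.comp_assoc _ _ h1, ih, LinearMap.id_comp, tv_invol]

lemma Tr.bF {h k : (ι → F) →ₗ[F] (ι → F)} (H : Tr B F h k) (x y : ι → F) :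
    P2.bF B F (h x) (h y) = P2.bF B F x y := by
  induction H with
  | one => rfl
  | step h1 k1 w l0 s p _ hA hl hp ih =>
    rw [LinearMap.comp_apply, LinearMap.comp_apply, tv_bF hl hp, ih]

lemma Tr.mem {h k : (ι → F) →ₗ[F] (ι → F)} (H : Tr B F h k) {w' : κ → ZMod 2} {x : ι → F}
    (hx : x ∈ PwF B F w') : h x ∈ PwF B F w' := by
  induction H with
  | one => exact hx
  | step h1 k1 w l0 s p _ hA hl hp ih =>
    rw [LinearMap.comp_apply]
    exact tv_mem hp s ih

lemma Tr.mem' {h k : (ι → F) →ₗ[F] (ι → F)} (H : Tr B F h k) {w' : κ → ZMod 2} {x : ι → F}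
    (hx : x ∈ PwF B F w') : k x ∈ PwF B F w' := by
  induction H generalizing x with
  | one => exact hx
  | step h1 k1 w l0 s p _ hA hl hp ih =>
    rw [LinearMap.comp_apply]
    exact ih (tv_mem hp s hx)

lemma Tr.isPath {h k : (ι → F) →ₗ[F] (ι → F)} (H : Tr B F h k) : IsPath B k := by
  induction H with
  | one => exact IsPath.id
  | step h1 k1 w l0 s p _ hA hl hp ih =>
    exact ih.comp (tv_isPath hl hp s)

lemma Tr.isPath' {h k : (ι → F) →ₗ[F] (ι → F)} (H : Tr B F h k) : IsPath B h := by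
  induction H with
  | one => exact IsPath.id
  | step h1 k1 w l0 s p _ hA hl hp ih =>
    exact (tv_isPath hl hp s).comp ih

/-- The span of the operators `μ ⊗ p`. -/
def YP (B : κ → ι → ι → ZMod 2) (F : Type*) [Field F] [CharP F 2] :
    Submodule F ((ι → F) →ₗ[F] (ι → F)) :=
  Submodule.span F {D | ∃ (w : κ → ZMod 2) (p : ι → F) (μ : (ι → F) →ₗ[F] F), TypeA B F w ∧
    p ∈ PwF B F w ∧ InY B μ ∧ D = μ.smulRight p}

lemma Tr.YP {h k : (ι → F) →ₗ[F] (ι → F)} (H : Tr B F h k) :
    LinearMap.id + h ∈ YP B F := by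
  induction H with
  | one =>
    have : (LinearMap.id + LinearMap.id : (ι → F) →ₗ[F] (ι → F)) = 0 := by
      apply LinearMap.ext
      intro x
      exact vadd_self x
    rw [this]
    exact Submodule.zero_mem _
  | step h1 k1 w l0 s p H1 hA hl hp ih =>
    have h2 : LinearMap.id + tv B l0 s p ∘ₗ h1 = (LinearMap.id + h1) +
        (s • lamF B l0 (k1 p)).smulRight p := by
      apply LinearMap.ext
      intro x
      simp only [LinearMap.add_apply, LinearMap.comp_apply, tv_apply, LinearMap.id_apply,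
        LinearMap.smulRight_apply, LinearMap.smul_apply, smul_eq_mul, lamF_apply]
      have h3 : P2.bF B F (h1 x) p = P2.bF B F x (k1 p) := by
        have h4 := H1.bF x (k1 p)
        have h5 : h1 (k1 p) = p := LinearMap.congr_fun H1.inv' p
        rw [h5] at h4
        exact h4
      rw [h3, add_assoc]
    rw [h2]
    apply Submodule.add_mem _ ih
    apply Submodule.subset_span
    exact ⟨w, p, _, hA, hp, (InY_PwF (H1.mem' hp) l0).smul s, rfl⟩

/-- Products of transvections with vectors in `X`. -/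
inductive TrX (B : κ → ι → ι → ZMod 2) {F : Type*} [Field F] [CharP F 2] (l0 : κ)
    (X : Submodule F (ι → F)) :
    ((ι → F) →ₗ[F] (ι → F)) → ((ι → F) →ₗ[F] (ι → F)) → Prop
  | one : TrX B l0 X LinearMap.id LinearMap.id
  | step (h k : (ι → F) →ₗ[F] (ι → F)) (s : F) (p : ι → F) :
      TrX B l0 X h k → p ∈ X → TrX B l0 X (tv B l0 s p ∘ₗ h) (k ∘ₗ tv B l0 s p)

section TrX

variable {w : κ → ZMod 2} {l0 : κ} {X : Submodule F (ι → F)}
variable {h k h' k' : (ι → F) →ₗ[F] (ι → F)}

lemma TrX.tr (hA : TypeA B F w) (hl : w l0 = 1) (hX : X ≤ PwF B F w) (H : TrX B l0 X h k) :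
    Tr B F h k := by
  induction H with
  | one => exact Tr.one
  | step h1 k1 s p _ hp ih => exact Tr.step _ _ w l0 s p ih hA hl (hX hp)

lemma TrX.comp (H' : TrX B l0 X h' k') (H : TrX B l0 X h k) : TrX B l0 X (h' ∘ₗ h) (k ∘ₗ k') := by
  induction H' with
  | one => exact H
  | step h1 k1 s p _ hp ih =>
    have := TrX.step _ _ s p ih hp
    rw [LinearMap.comp_assoc] at this ⊢
    exact this

lemma TrX.mem (H : TrX B l0 X h k) {x : ι → F} (hx : x ∈ X) : h x ∈ X := by
  induction H with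
  | one => exact hx
  | step h1 k1 s p _ hp ih =>
    rw [LinearMap.comp_apply, tv_apply]
    exact X.add_mem ih (X.smul_mem _ hp)

lemma TrX.fix (H : TrX B l0 X h k) {z : ι → F} (hz : ∀ x ∈ X, bF B F z x = 0) : h z = z := by
  induction H with
  | one => rfl
  | step h1 k1 s p _ hp ih =>
    rw [LinearMap.comp_apply, ih, tv_apply, hz p hp]
    simp

lemma TrX.single (s : F) {p : ι → F} (hp : p ∈ X) : TrX B l0 X (tv B l0 s p) (tv B l0 s p) := by
  have := TrX.step (B := B) (l0 := l0) LinearMap.id LinearMap.id s p TrX.one hp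
  rwa [LinearMap.comp_id, LinearMap.id_comp] at this

/-- A transvection moving `b` to `b'` and fixing `a`. -/
lemma move_fix (hl : w l0 = 1) (hX : X ≤ PwF B F w) {a b b' : ι → F} (hb : b ∈ X) (hb' : b' ∈ X)
    (hbb : bF B F b b' ≠ 0) (hab : bF B F a b = bF B F a b') :
    ∃ h k, TrX B l0 X h k ∧ h b = b' ∧ h a = a := by
  have h1 := bF_PwF hl (hX hb') b
  have hc : bF B F b b' l0 ≠ 0 := by
    intro h0
    rw [h0, zero_smul] at h1
    exact hbb h1
  refine ⟨_, _, TrX.single (bF B F b b' l0)⁻¹ (X.add_mem hb hb'), ?_, ?_⟩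
  · rw [tv_apply, map_add, bF_self, zero_add, inv_mul_cancel₀ hc, one_smul, ← add_assoc, vadd_self,
      zero_add]
  · rw [tv_apply, map_add, hab, vadd_self]
    simp

/-- Witt's theorem for a hyperbolic pair. -/
lemma pair_move (hA : TypeA B F w) (hl : w l0 = 1) (hX : X ≤ PwF B F w) {a b a' b' : ι → F}
    (ha : a ∈ X) (hb : b ∈ X) (ha' : a' ∈ X) (hb' : b' ∈ X) (hab : bF B F a b = emb F w)
    (hab' : bF B F a' b' = emb F w) : ∃ h k, TrX B l0 X h k ∧ h a = a' ∧ h b = b' := by
  have hw : (emb F w : κ → F) ≠ 0 := by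
    intro h0
    have := congrFun h0 l0
    rw [emb_apply, hl, c2_one] at this
    exact one_ne_zero this
  -- step 1
  have move : ∀ {b b' : ι → F}, b ∈ X → b' ∈ X → bF B F b b' ≠ 0 →
      ∃ h k, TrX B l0 X h k ∧ h b = b' := by
    intro b b' hb hb' hbb
    obtain ⟨h, k, h1, h2, -⟩ := move_fix hl hX (a := 0) hb hb' hbb (by simp)
    exact ⟨h, k, h1, h2⟩
  have step1 : ∃ h k, TrX B l0 X h k ∧ h a = a' := by
    by_cases h1 : bF B F a a' = 0
    · have hx : ∃ x ∈ X, bF B F a x ≠ 0 ∧ bF B F x a' ≠ 0 := by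
        by_cases h2 : bF B F b a' = 0
        · by_cases h3 : bF B F a b' = 0
          · refine ⟨b + b', X.add_mem hb hb', ?_, ?_⟩
            · rw [map_add, h3, add_zero, hab]; exact hw
            · rw [map_add, LinearMap.add_apply, h2, zero_add, bF_comm, hab']; exact hw
          · refine ⟨b', hb', h3, ?_⟩
            rw [bF_comm, hab']; exact hw
        · refine ⟨b, hb, ?_, h2⟩
          rw [hab]; exact hw
      obtain ⟨x, hx, h2, h3⟩ := hx
      obtain ⟨g1, k1, G1, e1⟩ := move ha hx h2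
      obtain ⟨g2, k2, G2, e2⟩ := move hx ha' h3
      exact ⟨_, _, G2.comp G1, by rw [LinearMap.comp_apply, e1, e2]⟩
    · exact move ha ha' h1
  obtain ⟨h1, k1, H1, e1⟩ := step1
  have hb1 : h1 b ∈ X := H1.mem hb
  have hab1 : bF B F a' (h1 b) = emb F w := by
    rw [← e1, (H1.tr hA hl hX).bF, hab]
  have step2 : ∃ h k, TrX B l0 X h k ∧ h (h1 b) = b' ∧ h a' = a' := by
    by_cases h2 : bF B F (h1 b) b' = 0
    · obtain ⟨g1, m1, G1, e2, e3⟩ := move_fix hl hX (a := a') hb1 (X.add_mem ha' hb1)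
        (by rw [map_add, bF_self, add_zero, bF_comm, hab1]; exact hw)
        (by rw [map_add, bF_self, zero_add])
      obtain ⟨g2, m2, G2, e4, e5⟩ := move_fix hl hX (a := a') (X.add_mem ha' hb1) hb'
        (by rw [map_add, LinearMap.add_apply, h2, add_zero, hab']; exact hw)
        (by rw [map_add, bF_self, zero_add, hab1, hab'])
      exact ⟨_, _, G2.comp G1, by rw [LinearMap.comp_apply, e2, e4],
        by rw [LinearMap.comp_apply, e3, e5]⟩
    · exact move_fix hl hX hb1 hb' h2 (by rw [hab1, hab'])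
  obtain ⟨h2, k2, H2, e2, e3⟩ := step2
  exact ⟨_, _, H2.comp H1, by rw [LinearMap.comp_apply, e1, e3], by rw [LinearMap.comp_apply, e2]⟩

end TrX

/-- A linear map which is isometric on the type A blocks. -/
structure PIso (B : κ → ι → ι → ZMod 2) (T : (ι → F) →ₗ[F] (ι → F)) : Prop where
  maps : ∀ w, TypeA B F w → ∀ p ∈ Pw B F w, T (emb F p) ∈ PwF B F w
  iso : ∀ w, TypeA B F w → ∀ p ∈ Pw B F w, ∀ p' ∈ Pw B F w,
    bF B F (T (emb F p)) (T (emb F p')) = bF B F (emb F p) (emb F p')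

/-- Orthogonality of two pairs. -/
def Perp (B : κ → ι → ι → ZMod 2) (t u : (κ → ZMod 2) × (ι → ZMod 2) × (ι → ZMod 2)) : Prop :=
  bF B (ZMod 2) t.2.1 u.2.1 = 0 ∧ bF B (ZMod 2) t.2.1 u.2.2 = 0 ∧
    bF B (ZMod 2) t.2.2 u.2.1 = 0 ∧ bF B (ZMod 2) t.2.2 u.2.2 = 0

/-- Lists of mutually orthogonal hyperbolic pairs in type A blocks. -/
def HypList (B : κ → ι → ι → ZMod 2) (F : Type*) [Field F] [CharP F 2] :
    List ((κ → ZMod 2) × (ι → ZMod 2) × (ι → ZMod 2)) → Prop
  | [] => True
  | (t :: L) => (TypeA B F t.1 ∧ t.2.1 ∈ Pw B F t.1 ∧ t.2.2 ∈ Pw B F t.1 ∧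
      bF B (ZMod 2) t.2.1 t.2.2 = t.1) ∧ (∀ u ∈ L, Perp B t u) ∧ HypList B F L

lemma HypList.mem {L : List ((κ → ZMod 2) × (ι → ZMod 2) × (ι → ZMod 2))} (h : HypList B F L)
    {t : (κ → ZMod 2) × (ι → ZMod 2) × (ι → ZMod 2)} (ht : t ∈ L) :
    TypeA B F t.1 ∧ t.2.1 ∈ Pw B F t.1 ∧ t.2.2 ∈ Pw B F t.1 ∧ bF B (ZMod 2) t.2.1 t.2.2 = t.1 := by
  induction L with
  | nil => simp at ht
  | cons u L ih =>
    rcases List.mem_cons.1 ht with h1 | h1
    · rw [h1]; exact h.1
    · exact ih h.2.2 h1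

/-- Witt's theorem for lists of hyperbolic pairs. -/
theorem witt {T : (ι → F) →ₗ[F] (ι → F)} (hT : PIso B T) :
    ∀ L : List ((κ → ZMod 2) × (ι → ZMod 2) × (ι → ZMod 2)), HypList B F L →
      ∃ h k, Tr B F h k ∧ ∀ t ∈ L, h (T (emb F t.2.1)) = emb F t.2.1 ∧
        h (T (emb F t.2.2)) = emb F t.2.2 := by
  intro L
  induction L with
  | nil =>
    intro _
    exact ⟨_, _, Tr.one, by simp⟩
  | cons t L ih =>
    rintro ⟨⟨hA, he, hf, hef⟩, hperp, hL⟩
    obtain ⟨h, k, H, hfix⟩ := ih hL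
    obtain ⟨l0, hl0⟩ := exists_l0 hA.1.1
    obtain ⟨w, e, f⟩ := t
    simp only at hA he hf hef hl0 ⊢
    -- the subspace orthogonal to the previous vectors
    let X : Submodule F (ι → F) :=
      { carrier := {x | x ∈ PwF B F w ∧ ∀ u ∈ L, bF B F x (emb F u.2.1) = 0 ∧
          bF B F x (emb F u.2.2) = 0}
        zero_mem' := ⟨Submodule.zero_mem _, fun u _ => by simp⟩
        add_mem' := by
          rintro x y ⟨h1, h2⟩ ⟨h1', h2'⟩
          refine ⟨Submodule.add_mem _ h1 h1', fun u hu => ⟨?_, ?_⟩⟩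
          · rw [map_add, LinearMap.add_apply, (h2 u hu).1, (h2' u hu).1, add_zero]
          · rw [map_add, LinearMap.add_apply, (h2 u hu).2, (h2' u hu).2, add_zero]
        smul_mem' := by
          rintro a x ⟨h1, h2⟩
          refine ⟨Submodule.smul_mem _ _ h1, fun u hu => ⟨?_, ?_⟩⟩
          · rw [map_smul, LinearMap.smul_apply, (h2 u hu).1, smul_zero]
          · rw [map_smul, LinearMap.smul_apply, (h2 u hu).2, smul_zero] }
    have hX : X ≤ PwF B F w := fun x hx => hx.1
    have memX : ∀ p ∈ Pw B F w, (∀ u ∈ L, bF B (ZMod 2) p u.2.1 = 0 ∧ bF B (ZMod 2) p u.2.2 = 0) →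
        emb F p ∈ X ∧ h (T (emb F p)) ∈ X := by
      intro p hp hpu
      refine ⟨⟨emb_mem_PwF hp, fun u hu => ?_⟩, ⟨H.mem (hT.maps w hA p hp), fun u hu => ?_⟩⟩
      · rw [bF_emb, bF_emb, (hpu u hu).1, (hpu u hu).2, emb_zero]
        exact ⟨rfl, rfl⟩
      · obtain ⟨hAu, heu, hfu, -⟩ := hL.mem hu
        obtain ⟨h1, h2⟩ := hfix u hu
        have key : ∀ r ∈ Pw B F u.1, bF B (ZMod 2) p r = 0 → h (T (emb F r)) = emb F r →
            bF B F (h (T (emb F p))) (emb F r) = 0 := by
          intro r hr hpr hrr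
          rw [← hrr, H.bF]
          by_cases hwu : w = u.1
          · rw [← hwu] at hr
            rw [hT.iso w hA p hp r hr, bF_emb, hpr, emb_zero]
          · exact PwF_orth hwu (hT.maps w hA p hp) (hT.maps _ hAu r hr)
        exact ⟨key _ heu (hpu u hu).1 h1, key _ hfu (hpu u hu).2 h2⟩
    have me := memX e he (fun u hu => ⟨(hperp u hu).1, (hperp u hu).2.1⟩)
    have mf := memX f hf (fun u hu => ⟨(hperp u hu).2.2.1, (hperp u hu).2.2.2⟩)
    obtain ⟨h1, k1, H1, e1, e2⟩ := pair_move hA hl0 hX (a := h (T (emb F e)))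
      (b := h (T (emb F f))) (a' := emb F e) (b' := emb F f) me.2 mf.2 me.1 mf.1
      (by rw [H.bF, hT.iso w hA e he f hf, bF_emb, hef]) (by rw [bF_emb, hef])
    refine ⟨_, _, (H1.tr hA hl0 hX).comp H, ?_⟩
    intro u hu
    rcases List.mem_cons.1 hu with hu1 | hu1
    · rw [hu1]
      exact ⟨by rw [LinearMap.comp_apply, e1], by rw [LinearMap.comp_apply, e2]⟩
    · obtain ⟨h2, h3⟩ := hfix u hu1
      rw [LinearMap.comp_apply, LinearMap.comp_apply, h2, h3]
      exact ⟨H1.fix (fun x hx => by rw [bF_comm]; exact (hx.2 u hu1).1),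
        H1.fix (fun x hx => by rw [bF_comm]; exact (hx.2 u hu1).2)⟩

lemma HypList.nodup {L : List ((κ → ZMod 2) × (ι → ZMod 2) × (ι → ZMod 2))} (h : HypList B F L) :
    (L.map (fun t => t.2.1)).Nodup := by
  induction L with
  | nil => simp
  | cons t L ih =>
    rw [List.map_cons, List.nodup_cons]
    refine ⟨?_, ih h.2.2⟩
    intro hmem
    obtain ⟨u, hu, hue⟩ := List.mem_map.1 hmem
    have h1 := (h.2.1 u hu).2.2.1
    rw [hue, bF_comm, h.1.2.2.2] at h1
    exact h.1.1.1.1 h1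

lemma exists_maximal_hypList (B : κ → ι → ι → ZMod 2) (F : Type*) [Field F] [CharP F 2] :
    ∃ L, HypList B F L ∧ ∀ t, ¬ HypList B F (t :: L) := by
  by_contra hno
  push Not at hno
  have h1 : ∀ n : ℕ, ∃ L, HypList B F L ∧ L.length = n := by
    intro n
    induction n with
    | zero => exact ⟨[], trivial, rfl⟩
    | succ n ih =>
      obtain ⟨L, hL, hn⟩ := ih
      obtain ⟨t, ht⟩ := hno L hL
      exact ⟨t :: L, ht, by rw [List.length_cons, hn]⟩
  obtain ⟨L, hL, hn⟩ := h1 (Fintype.card (ι → ZMod 2) + 1)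
  have h2 := hL.nodup.length_le_card
  rw [List.length_map, hn] at h2
  omega

/-- The set of vectors of a list of pairs. -/
def vecs (L : List ((κ → ZMod 2) × (ι → ZMod 2) × (ι → ZMod 2))) : Set (ι → ZMod 2) :=
  {v | ∃ t ∈ L, v = t.2.1 ∨ v = t.2.2}

lemma vecs_cons (t : (κ → ZMod 2) × (ι → ZMod 2) × (ι → ZMod 2))
    (L : List ((κ → ZMod 2) × (ι → ZMod 2) × (ι → ZMod 2))) : vecs L ⊆ vecs (t :: L) := by
  rintro v ⟨u, hu, h⟩
  exact ⟨u, List.mem_cons_of_mem _ hu, h⟩

/-- Orthogonal projection onto the complement of a list of pairs. -/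
lemma exists_proj {L : List ((κ → ZMod 2) × (ι → ZMod 2) × (ι → ZMod 2))} (h : HypList B F L)
    {w : κ → ZMod 2} (hA : TypeA B F w) {u : ι → ZMod 2} (hu : u ∈ Pw B F w) :
    ∃ u' ∈ Pw B F w, ∃ c ∈ AddSubgroup.closure (vecs L), u = u' + c ∧
      ∀ t ∈ L, bF B (ZMod 2) u' t.2.1 = 0 ∧ bF B (ZMod 2) u' t.2.2 = 0 := by
  induction L with
  | nil => exact ⟨u, hu, 0, AddSubgroup.zero_mem _, by simp, by simp⟩
  | cons t L ih =>
    obtain ⟨u', hu', c, hc, huc, hperp⟩ := ih h.2.2
    have hmono : AddSubgroup.closure (vecs L) ≤ AddSubgroup.closure (vecs (t :: L)) :=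
      AddSubgroup.closure_mono (vecs_cons t L)
    obtain ⟨⟨hAt, het, hft, heft⟩, hpt, hL⟩ := h
    by_cases hw : w = t.1
    · obtain ⟨l0, hl0⟩ := exists_l0 hA.1.1
      have h1 := pair_decomp (w := w) (by rw [heft, hw]) (by rw [hw]; exact het.1)
        (by rw [hw]; exact hft.1) hl0 u'
      rw [← hw] at het hft
      have hme : ∀ a : ZMod 2, a • t.2.1 ∈ Pw B F w := by
        intro a
        rcases zmod2_cases a with h2 | h2
        · rw [h2, zero_smul]; exact (Pw B F w).zero_mem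
        · rw [h2, one_smul]; exact het
      have hmf : ∀ a : ZMod 2, a • t.2.2 ∈ Pw B F w := by
        intro a
        rcases zmod2_cases a with h2 | h2
        · rw [h2, zero_smul]; exact (Pw B F w).zero_mem
        · rw [h2, one_smul]; exact hft
      have hce : ∀ a : ZMod 2, a • t.2.1 ∈ AddSubgroup.closure (vecs (t :: L)) := by
        intro a
        rcases zmod2_cases a with h2 | h2
        · rw [h2, zero_smul]; exact AddSubgroup.zero_mem _
        · rw [h2, one_smul]
          exact AddSubgroup.subset_closure ⟨t, List.mem_cons_self, Or.inl rfl⟩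
      have hcf : ∀ a : ZMod 2, a • t.2.2 ∈ AddSubgroup.closure (vecs (t :: L)) := by
        intro a
        rcases zmod2_cases a with h2 | h2
        · rw [h2, zero_smul]; exact AddSubgroup.zero_mem _
        · rw [h2, one_smul]
          exact AddSubgroup.subset_closure ⟨t, List.mem_cons_self, Or.inr rfl⟩
      set α := bF B (ZMod 2) u' t.2.2 l0 with hα
      set β := bF B (ZMod 2) u' t.2.1 l0 with hβ
      refine ⟨u' + α • t.2.1 + β • t.2.2,
        (Pw B F w).add_mem ((Pw B F w).add_mem hu' (hme _)) (hmf _),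
        c + (α • t.2.1 + β • t.2.2),
        AddSubgroup.add_mem _ (hmono hc) (AddSubgroup.add_mem _ (hce _) (hcf _)), ?_, ?_⟩
      · have h2 := vadd_self (α • t.2.1 + β • t.2.2)
        rw [huc]
        calc u' + c = u' + c + ((α • t.2.1 + β • t.2.2) + (α • t.2.1 + β • t.2.2)) := by
              rw [h2, add_zero]
          _ = _ := by abel
      · intro r hr
        rcases List.mem_cons.1 hr with hr1 | hr1
        · rw [hr1]; exact h1
        · have h2 := hperp r hr1
          have h3 := hpt r hr1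
          constructor
          · simp only [map_add, LinearMap.add_apply, map_smul, LinearMap.smul_apply, h2.1, h3.1,
              h3.2.2.1, smul_zero, add_zero]
          · simp only [map_add, LinearMap.add_apply, map_smul, LinearMap.smul_apply, h2.2, h3.2.1,
              h3.2.2.2, smul_zero, add_zero]
    · refine ⟨u', hu', c, hmono hc, huc, ?_⟩
      intro r hr
      rcases List.mem_cons.1 hr with hr1 | hr1
      · rw [hr1]
        exact ⟨Rw_orth hw hu'.1 het.1, Rw_orth hw hu'.1 hft.1⟩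
      · exact hperp r hr1

lemma orth_closure {S : Set (ι → ZMod 2)} {v : ι → ZMod 2} (h : ∀ s ∈ S, bF B (ZMod 2) v s = 0) :
    ∀ c ∈ AddSubgroup.closure S, bF B (ZMod 2) v c = 0 := by
  intro c hc
  induction hc using AddSubgroup.closure_induction with
  | mem x hx => exact h x hx
  | zero => simp
  | add x y _ _ hx hy => rw [map_add, hx, hy, add_zero]
  | neg x _ hx => rw [vneg_eq, hx]

/-- For a maximal list, the vectors of a block orthogonal to the list are in its radical. -/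
lemma maximal_rad {L : List ((κ → ZMod 2) × (ι → ZMod 2) × (ι → ZMod 2))} (h : HypList B F L)
    (hmax : ∀ t, ¬ HypList B F (t :: L)) {w : κ → ZMod 2} (hA : TypeA B F w) {v : ι → ZMod 2}
    (hv : v ∈ Pw B F w) (hvL : ∀ t ∈ L, bF B (ZMod 2) v t.2.1 = 0 ∧ bF B (ZMod 2) v t.2.2 = 0) :
    v ∈ orth B (Pw B F w) := by
  intro u hu
  by_contra hne
  obtain ⟨u', hu', c, hc, huc, hperp⟩ := exists_proj h hA hu
  have h1 : bF B (ZMod 2) v c = 0 := by
    apply orth_closure (S := vecs L) _ c hc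
    rintro s ⟨t, ht, hs | hs⟩
    · rw [hs]; exact (hvL t ht).1
    · rw [hs]; exact (hvL t ht).2
  rw [huc, map_add, h1, add_zero] at hne
  apply hmax (w, v, u')
  refine ⟨⟨hA, hv, hu', Rw_eq hu'.1 hne⟩, ?_, h⟩
  intro t ht
  exact ⟨(hvL t ht).1, (hvL t ht).2, (hperp t ht).1, (hperp t ht).2⟩

end Pool.Agent.Work.MP_8bb7de_al.P2
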