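import Pool.Agent.Work.MP_8bb7de_al.P2.Final
import Pool.Agent.Work.MP_8bb7de_al.P2.Exist
import Pool.Agent.Work.MP_8bb7de_al.OddMain

set_option autoImplicit false

/-!
The theorem for `p = 2`.
-/

namespace Pool.Agent.Work.MP_8bb7de_al.P2

open MonoidAlgebra

/-- The main theorem in characteristic two. -/
theorem two_main {F₀ : Type*} [Field F₀] [CharP F₀ 2]
    {G : Type*} [Group G] [Finite G] (hD : ∀ g ∈ dimensionSubgroup F₀ G 3, g = 1)
    {F : Type*} [Field F] [CharP F 2] {H : Type*} [Group H]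
    (e : MonoidAlgebra F G ≃ₐ[F] MonoidAlgebra F H) : Nonempty (G ≃* H) := by
  obtain ⟨e', he'⟩ := exists_normalized e.symm
  have hfin : Finite H := finite_of_equiv e'
  obtain ⟨n, m, B, ⟨D⟩⟩ := exists_GData (central_of_dim hD) (sq_of_dim hD)
  exact iso_of_data D he'

end Pool.Agent.Work.MP_8bb7de_al.P2
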