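import Pool.Agent.Work.MP_8bb7de_al.P2.Block2

set_option autoImplicit false
set_option linter.unusedSectionVars false
set_option linter.unusedVariables false

/-!
The group algebra of an elementary abelian `2`-group.
-/

namespace Pool.Agent.Work.MP_8bb7de_al.P2

variable {ι : Type*} [Fintype ι] [DecidableEq ι]

variable {F : Type*} [Field F]

/-- The group algebra of `(ZMod 2)^ι`. -/
abbrev VA (F : Type*) [Field F] (ι : Type*) := AddMonoidAlgebra F (ι → ZMod 2)

/-- Monomials. -/
noncomputable def vs (x : ι → ZMod 2) (r : F) : VA F ι := AddMonoidAlgebra.single x r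

lemma vs_mul (x y : ι → ZMod 2) (r t : F) : vs x r * vs y t = vs (x + y) (r * t) :=
  AddMonoidAlgebra.single_mul_single _ _ _ _

lemma one_eq_vs : (1 : VA F ι) = vs 0 1 := rfl

lemma vs_add (x : ι → ZMod 2) (r t : F) : vs x (r + t) = vs x r + vs x t :=
  AddMonoidAlgebra.single_add _ _ _

lemma vs_zero (x : ι → ZMod 2) : (vs x 0 : VA F ι) = 0 := AddMonoidAlgebra.single_zero _

lemma smul_vs (a : F) (x : ι → ZMod 2) (r : F) : a • vs x r = vs x (a * r) :=
  AddMonoidAlgebra.smul_single' _ _ _

lemma vs_coeff (x m : ι → ZMod 2) (r : F) : (vs x r).coeff m = if x = m then r else 0 := by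
  rw [vs, AddMonoidAlgebra.coeff_single, Finsupp.single_apply]

lemma va_ext {a b : VA F ι} (h : ∀ m, a.coeff m = b.coeff m) : a = b := by
  apply AddMonoidAlgebra.coeff_injective
  ext m
  exact h m

lemma coeff_add' (a b : VA F ι) (m : ι → ZMod 2) : (a + b).coeff m = a.coeff m + b.coeff m := rfl

lemma coeff_zero' (m : ι → ZMod 2) : (0 : VA F ι).coeff m = 0 := rfl

lemma coeff_smul' (r : F) (a : VA F ι) (m : ι → ZMod 2) : (r • a).coeff m = r * a.coeff m := rfl

lemma coeff_sum' {α : Type*} (s : Finset α) (f : α → VA F ι) (m : ι → ZMod 2) :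
    (∑ i ∈ s, f i).coeff m = ∑ i ∈ s, (f i).coeff m := by
  classical
  induction s using Finset.induction_on with
  | empty => simp
  | insert i s hi ih => rw [Finset.sum_insert hi, Finset.sum_insert hi, coeff_add', ih]

/-- The coefficient functional. -/
def cf (F : Type*) [Field F] (m : ι → ZMod 2) : VA F ι →ₗ[F] F where
  toFun a := a.coeff m
  map_add' _ _ := rfl
  map_smul' _ _ := rfl

lemma cf_apply (m : ι → ZMod 2) (a : VA F ι) : cf F m a = a.coeff m := rfl

lemma va_eq_sum (a : VA F ι) : a = ∑ x, vs x (a.coeff x) := by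
  apply va_ext
  intro m
  rw [coeff_sum']
  simp only [vs_coeff]
  rw [Finset.sum_ite_eq' Finset.univ m (fun x => a.coeff x), if_pos (Finset.mem_univ m)]

lemma vind {P : VA F ι → Prop} (a : VA F ι) (h0 : P 0) (hadd : ∀ a b, P a → P b → P (a + b))
    (hs : ∀ x r, P (vs x r)) : P a :=
  AddMonoidAlgebra.induction_linear a h0 hadd hs

/-- The linear map with prescribed values on monomials. -/
noncomputable def vlin {N : Type*} [AddCommGroup N] [Module F N] (g : (ι → ZMod 2) → N) :
    VA F ι →ₗ[F] N :=
  (Finsupp.linearCombination F g) ∘ₗ (AddMonoidAlgebra.coeffLinearEquiv F).toLinearMap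

lemma vlin_vs {N : Type*} [AddCommGroup N] [Module F N] (g : (ι → ZMod 2) → N)
    (x : ι → ZMod 2) (r : F) : vlin g (vs x r) = r • g x := by
  rw [vlin, LinearMap.comp_apply]
  change Finsupp.linearCombination F g ((vs x r).coeff) = _
  rw [vs, AddMonoidAlgebra.coeff_single, Finsupp.linearCombination_single]

/-- The augmentation. -/
noncomputable def augV (F : Type*) [Field F] (ι : Type*) : VA F ι →ₐ[F] F :=
  AddMonoidAlgebra.lift F F (ι → ZMod 2) 1

lemma augV_vs (x : ι → ZMod 2) (r : F) : augV F ι (vs x r) = r := by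
  rw [augV, vs, AddMonoidAlgebra.lift_single]
  simp

lemma augV_eq (a : VA F ι) : augV F ι a = ∑ k, a.coeff k := by
  conv_lhs => rw [va_eq_sum a]
  rw [map_sum]
  apply Finset.sum_congr rfl
  intro x _
  rw [augV_vs]

/-- The diagonal derivations. -/
noncomputable def dV (F : Type*) [Field F] (i : ι) : VA F ι →ₗ[F] VA F ι :=
  vlin (fun x => vs x (c2 F (x i)))

lemma dV_vs (i : ι) (x : ι → ZMod 2) (r : F) : dV F i (vs x r) = vs x (c2 F (x i) * r) := by
  rw [dV, vlin_vs, smul_vs, mul_comm]

lemma dV_coeff (i : ι) (a : VA F ι) (m : ι → ZMod 2) :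
    (dV F i a).coeff m = c2 F (m i) * a.coeff m := by
  induction a using vind with
  | h0 => simp
  | hadd a b ha hb => rw [map_add, coeff_add', coeff_add', ha, hb, mul_add]
  | hs x r =>
    rw [dV_vs, vs_coeff, vs_coeff]
    split_ifs with h
    · rw [h]
    · rw [mul_zero]

lemma dV_comm (i j : ι) (a : VA F ι) : dV F i (dV F j a) = dV F j (dV F i a) := by
  apply va_ext
  intro m
  simp only [dV_coeff]
  ring

lemma coeff_mul' (a b : VA F ι) (m : ι → ZMod 2) :
    (a * b).coeff m = ∑ k, a.coeff k * b.coeff (m + k) := by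
  classical
  have hinj : Function.Injective (fun k : ι → ZMod 2 => (k, m + k)) := by
    intro k k' h
    exact (Prod.mk.inj h).1
  rw [AddMonoidAlgebra.coeff_mul_antidiag a b m (Finset.univ.map ⟨_, hinj⟩)]
  · rw [Finset.sum_map]
    rfl
  · intro p
    rw [Finset.mem_map]
    constructor
    · rintro ⟨k, -, rfl⟩
      change k + (m + k) = m
      rw [add_comm m k, ← add_assoc, vadd_self, zero_add]
    · intro hp
      refine ⟨p.1, Finset.mem_univ _, ?_⟩
      change (p.1, m + p.1) = p
      rw [← hp]
      apply Prod.ext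
      · rfl
      · change p.1 + p.2 + p.1 = p.2
        rw [add_comm p.1 p.2, add_assoc, vadd_self, add_zero]

variable [CharP F 2]

lemma dV_mul (i : ι) (a b : VA F ι) : dV F i (a * b) = dV F i a * b + a * dV F i b := by
  induction a using vind with
  | h0 => simp
  | hadd a a' ha hb => rw [add_mul, map_add, ha, hb, map_add, add_mul, add_mul]; abel
  | hs x r =>
    induction b using vind with
    | h0 => simp
    | hadd a a' ha hb => rw [mul_add, map_add, ha, hb, map_add, mul_add, mul_add]; abel
    | hs y t =>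
      rw [vs_mul, dV_vs, dV_vs, dV_vs, vs_mul, vs_mul, ← vs_add]
      congr 1
      rw [Pi.add_apply, c2_add]
      ring

lemma va_add_self (a : VA F ι) : a + a = 0 := by
  apply va_ext
  intro m
  exact CharTwo.add_self_eq_zero _

lemma va_mul_self (a : VA F ι) : a * a = vs 0 (augV F ι a * augV F ι a) := by
  induction a using vind with
  | h0 => rw [mul_zero, map_zero, mul_zero, vs_zero]
  | hadd a b ha hb =>
    have h1 : (a + b) * (a + b) = a * a + b * b + (a * b + a * b) := by ring
    rw [h1, va_add_self, add_zero, ha, hb, map_add, ← vs_add]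
    congr 1
    have := CharTwo.add_self_eq_zero (augV F ι a * augV F ι b)
    linear_combination -this
  | hs x r =>
    rw [vs_mul, vadd_self, augV_vs]

/-- Bilinear convolution with a weight. -/
noncomputable def bil (β : (ι → ZMod 2) → (ι → ZMod 2) → F) (a b : VA F ι) : VA F ι :=
  ∑ x, ∑ y, vs (x + y) (β x y * a.coeff x * b.coeff y)

lemma bil_add_left (β : (ι → ZMod 2) → (ι → ZMod 2) → F) (a a' b : VA F ι) :
    bil β (a + a') b = bil β a b + bil β a' b := by
  simp only [bil, coeff_add', mul_add, add_mul, vs_add, Finset.sum_add_distrib]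

lemma bil_add_right (β : (ι → ZMod 2) → (ι → ZMod 2) → F) (a b b' : VA F ι) :
    bil β a (b + b') = bil β a b + bil β a b' := by
  simp only [bil, coeff_add', mul_add, vs_add, Finset.sum_add_distrib]

lemma bil_zero_left (β : (ι → ZMod 2) → (ι → ZMod 2) → F) (b : VA F ι) : bil β 0 b = 0 := by
  simp only [bil, coeff_zero', mul_zero, zero_mul, vs_zero, Finset.sum_const_zero]

lemma bil_zero_right (β : (ι → ZMod 2) → (ι → ZMod 2) → F) (a : VA F ι) : bil β a 0 = 0 := by
  simp only [bil, coeff_zero', mul_zero, vs_zero, Finset.sum_const_zero]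

lemma bil_vs (β : (ι → ZMod 2) → (ι → ZMod 2) → F) (x y : ι → ZMod 2) (r t : F) :
    bil β (vs x r) (vs y t) = vs (x + y) (β x y * r * t) := by
  rw [bil, Finset.sum_eq_single x, Finset.sum_eq_single y]
  · rw [vs_coeff, vs_coeff, if_pos rfl, if_pos rfl]
  · intro z _ hz
    rw [vs_coeff y z, if_neg (Ne.symm hz), mul_zero, vs_zero]
  · intro h; exact absurd (Finset.mem_univ _) h
  · intro z _ hz
    apply Finset.sum_eq_zero
    intro w _
    rw [vs_coeff x z, if_neg (Ne.symm hz), mul_zero, zero_mul, vs_zero]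
  · intro h; exact absurd (Finset.mem_univ _) h

lemma bil_add_weight (β γ : (ι → ZMod 2) → (ι → ZMod 2) → F) (a b : VA F ι) :
    bil (fun x y => β x y + γ x y) a b = bil β a b + bil γ a b := by
  simp only [bil, add_mul, vs_add, Finset.sum_add_distrib]

lemma bil_smul_weight (s : F) (β : (ι → ZMod 2) → (ι → ZMod 2) → F) (a b : VA F ι) :
    bil (fun x y => s * β x y) a b = s • bil β a b := by
  simp only [bil, Finset.smul_sum, smul_vs, mul_assoc]

lemma bil_sum_weight {α : Type*} (s : Finset α) (β : α → (ι → ZMod 2) → (ι → ZMod 2) → F)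
    (a b : VA F ι) : bil (fun x y => ∑ i ∈ s, β i x y) a b = ∑ i ∈ s, bil (β i) a b := by
  classical
  induction s using Finset.induction_on with
  | empty => simp [bil, vs_zero]
  | insert i s hi ih =>
    simp only [Finset.sum_insert hi]
    rw [bil_add_weight, ih]

lemma bil_self_zero (β : (ι → ZMod 2) → (ι → ZMod 2) → F) (h0 : ∀ x, β x x = 0)
    (hs : ∀ x y, β x y + β y x = 0) (a : VA F ι) : bil β a a = 0 := by
  apply va_ext
  intro m
  rw [coeff_zero', bil, coeff_sum']
  simp only [coeff_sum', vs_coeff]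
  have h1 := sum_sym_zero (fun x y => if x + y = m then β x y else 0) (fun x => a.coeff x)
    (by
      intro x _
      rw [h0, ite_self])
    (by
      intro x y _ _
      rw [add_comm y x]
      split_ifs
      · exact hs x y
      · exact add_zero 0)
  refine Eq.trans ?_ h1
  apply Finset.sum_congr rfl
  intro x _
  apply Finset.sum_congr rfl
  intro y _
  split_ifs
  · ring
  · ring

lemma bil_self_eq (β γ : (ι → ZMod 2) → (ι → ZMod 2) → F) (h0 : ∀ x, β x x = γ x x)
    (hs : ∀ x y, β x y + β y x = γ x y + γ y x) (a : VA F ι) : bil β a a = bil γ a a := by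
  have h1 := bil_self_zero (fun x y => β x y + γ x y)
    (fun x => by rw [h0]; exact CharTwo.add_self_eq_zero _)
    (fun x y => by
      have := CharTwo.add_self_eq_zero (γ x y + γ y x)
      linear_combination hs x y + this) a
  rw [bil_add_weight] at h1
  have h2 := va_add_self (bil γ a a)
  calc bil β a a = bil β a a + (bil γ a a + bil γ a a) := by rw [h2, add_zero]
    _ = (bil β a a + bil γ a a) + bil γ a a := by abel
    _ = bil γ a a := by rw [h1, zero_add]

lemma bil_coord (i j : ι) (a b : VA F ι) :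
    bil (fun x y => c2 F (x i) * c2 F (y j)) a b = dV F i a * dV F j b := by
  induction a using vind with
  | h0 => rw [bil_zero_left, map_zero, zero_mul]
  | hadd a a' ha hb => rw [bil_add_left, ha, hb, map_add, add_mul]
  | hs x r =>
    induction b using vind with
    | h0 => rw [bil_zero_right, map_zero, mul_zero]
    | hadd a a' ha hb => rw [bil_add_right, ha, hb, map_add, mul_add]
    | hs y t =>
      rw [bil_vs, dV_vs, dV_vs, vs_mul]
      congr 1
      ring

variable {κ : Type*} [Fintype κ] [DecidableEq κ] (B : κ → ι → ι → ZMod 2)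

lemma bil_BK (l : κ) (a b : VA F ι) :
    bil (fun x y => c2 F (BK B (ZMod 2) x y l)) a b =
      ∑ i, ∑ j, c2 F (B l i j) • (dV F i a * dV F j b) := by
  have h1 : (fun x y : ι → ZMod 2 => c2 F (BK B (ZMod 2) x y l)) =
      fun x y => ∑ i, ∑ j, c2 F (B l i j) * (c2 F (x i) * c2 F (y j)) := by
    funext x y
    rw [BK_apply, c2_sum]
    apply Finset.sum_congr rfl
    intro i _
    rw [c2_sum]
    apply Finset.sum_congr rfl
    intro j _
    rw [c2_self, c2_mul, c2_mul]
    ring
  rw [h1, bil_sum_weight]
  apply Finset.sum_congr rfl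
  intro i _
  rw [bil_sum_weight]
  apply Finset.sum_congr rfl
  intro j _
  rw [bil_smul_weight, bil_coord]

end Pool.Agent.Work.MP_8bb7de_al.P2
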